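import Pool.Agent.H357R2.SI.PairFinal
import Pool.Agent.H357R2.SI.Common
import Pool.Agent.Helper923.PPS.BT

/-!
# First and second moments of the number of the primes in the translates of an interval
-/

set_option autoImplicit false

namespace Pool.Agent.Q152.ShiftsPrimes

open Finset Filter Pool.Agent.H357R2.SI

/-- The number of the primes in `(a, a + y]`. -/
def cnt (a y : ℕ) : ℕ := ((Ioc a (a + y)).filter Nat.Prime).card

/-- The indicator function of the primes. -/
noncomputable def ind (n : ℕ) : ℝ := if n.Prime then 1 else 0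

theorem ind_nonneg (n : ℕ) : 0 ≤ ind n := by unfold ind; split_ifs <;> norm_num

theorem ind_sq (n : ℕ) : ind n * ind n = ind n := by unfold ind; split_ifs <;> norm_num

theorem cnt_eq (a y : ℕ) : (cnt a y : ℝ) = ∑ j ∈ Icc 1 y, ind (a + j) := by
  unfold cnt ind
  rw [card_filter, Nat.cast_sum]
  symm
  apply sum_nbij (fun j => a + j)
  · intro j hj
    rw [mem_Icc] at hj
    rw [mem_Ioc]
    omega
  · intro i _ j _ h
    simp only at h
    omega
  · intro n hn
    rw [mem_coe, mem_Ioc] at hn
    refine ⟨n - a, ?_, ?_⟩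
    · rw [mem_coe, mem_Icc]; omega
    · simp only; omega
  · intro j _
    push_cast
    rfl

theorem cnt_mono {a y z : ℕ} (h : y ≤ z) : cnt a y ≤ cnt a z := by
  unfold cnt
  apply card_le_card
  apply filter_subset_filter
  apply Ioc_subset_Ioc_right
  omega

theorem cnt_sub {a b y z : ℕ} (h1 : a ≤ b) (h2 : b + z ≤ a + y) : cnt b z ≤ cnt a y := by
  unfold cnt
  apply card_le_card
  apply filter_subset_filter
  apply Ioc_subset_Ioc <;> omega

/-- The first moment. -/
theorem first (a y H : ℕ) :
    ∑ b ∈ Icc 1 H, (cnt (a + b) y : ℝ) = ∑ j ∈ Icc 1 y, (cnt (a + j) H : ℝ) := by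
  simp_rw [cnt_eq]
  rw [sum_comm]
  apply sum_congr rfl
  intro j _
  apply sum_congr rfl
  intro b _
  congr 1
  ring

theorem pairs_le {C : ℝ} {u0 : ℕ} (hps : ∀ h a u : ℕ, 0 < h → u0 ≤ u →
    (((Ioc a (a + u)).filter (fun n => n.Prime ∧ (n + h).Prime)).card : ℝ) ≤
      C * sg h ^ 2 * u / Real.log u ^ 2) (a h H : ℕ) (hh : 0 < h) (hH : u0 ≤ H) :
    ∑ b ∈ Icc 1 H, ind (a + b) * ind (a + b + h) ≤ C * sg h ^ 2 * H / Real.log H ^ 2 := by
  refine le_trans (le_of_eq ?_) (hps h a H hh hH)
  rw [card_filter, Nat.cast_sum]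
  apply sum_nbij (fun j => a + j)
  · intro j hj
    rw [mem_Icc] at hj
    rw [mem_Ioc]
    omega
  · intro i _ j _ h
    simp only at h
    omega
  · intro n hn
    rw [mem_coe, mem_Ioc] at hn
    refine ⟨n - a, ?_, ?_⟩
    · rw [mem_coe, mem_Icc]; omega
    · simp only; omega
  · intro j _
    unfold ind
    by_cases h1 : (a + j).Prime <;> by_cases h2 : (a + j + h).Prime <;> simp [h1, h2]

/-- The second moment. -/
theorem second : ∃ C : ℝ, 1 ≤ C ∧ ∃ u0 : ℕ, ∀ a y H : ℕ, u0 ≤ H →
    ∑ b ∈ Icc 1 H, (cnt (a + b) y : ℝ) ^ 2 ≤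
      ∑ b ∈ Icc 1 H, (cnt (a + b) y : ℝ) + C * y ^ 2 * H / Real.log H ^ 2 := by
  obtain ⟨C1, hC1, u0, hps⟩ := pair_sieve
  obtain ⟨C2, hC2, hsg⟩ := sum_sg_sq
  refine ⟨2 * (C1 * C2), by nlinarith, u0, fun a y H hH => ?_⟩
  have hR : 0 ≤ (H : ℝ) / Real.log H ^ 2 := by positivity
  have h1 : ∀ b, (cnt (a + b) y : ℝ) ^ 2 =
      ∑ j ∈ Icc 1 y, ∑ k ∈ Icc 1 y, ind (a + b + j) * ind (a + b + k) := by
    intro b
    rw [cnt_eq, sq, sum_mul_sum]
  simp_rw [h1]
  rw [sum_comm]
  have h2 : ∀ j ∈ Icc 1 y, ∑ b ∈ Icc 1 H, ∑ k ∈ Icc 1 y, ind (a + b + j) * ind (a + b + k) ≤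
      ∑ b ∈ Icc 1 H, ind (a + b + j) + 2 * (C1 * C2) * y * (H / Real.log H ^ 2) := by
    intro j hj
    rw [sum_comm]
    rw [← add_sum_erase _ _ hj]
    apply add_le_add
    · apply le_of_eq
      apply sum_congr rfl
      intro b _
      exact ind_sq _
    · have hlt : ∑ k ∈ Icc 1 y with k < j, ∑ b ∈ Icc 1 H, ind (a + b + j) * ind (a + b + k) ≤
          C1 * C2 * y * (H / Real.log H ^ 2) := by
        calc ∑ k ∈ Icc 1 y with k < j, ∑ b ∈ Icc 1 H, ind (a + b + j) * ind (a + b + k)
            ≤ ∑ k ∈ Icc 1 y with k < j, C1 * sg (j - k) ^ 2 * H / Real.log H ^ 2 := by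
              apply sum_le_sum
              intro k hk
              rw [mem_filter, mem_Icc] at hk
              refine le_trans (le_of_eq ?_) (pairs_le hps (a + k) (j - k) H (by omega) hH)
              apply sum_congr rfl
              intro b _
              rw [mul_comm]
              congr 2 <;> omega
          _ ≤ ∑ d ∈ Icc 1 y, C1 * sg d ^ 2 * H / Real.log H ^ 2 := by
              rw [mem_Icc] at hj
              rw [← sum_image (s := (Icc 1 y).filter (fun k => k < j)) (g := fun k => j - k)
                (f := fun d => C1 * sg d ^ 2 * H / Real.log H ^ 2)]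
              · apply sum_le_sum_of_subset_of_nonneg
                · intro d hd
                  rw [mem_image] at hd
                  obtain ⟨k, hk, rfl⟩ := hd
                  rw [mem_filter, mem_Icc] at hk
                  rw [mem_Icc]
                  omega
                · intro d _ _
                  positivity
              · intro k hk l hl h
                rw [mem_coe, mem_filter, mem_Icc] at hk hl
                simp only at h
                omega
          _ = C1 * (∑ d ∈ Icc 1 y, sg d ^ 2) * (H / Real.log H ^ 2) := by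
              rw [mul_sum, sum_mul]
              apply sum_congr rfl
              intro d _
              ring
          _ ≤ C1 * (C2 * y) * (H / Real.log H ^ 2) := by
              apply mul_le_mul_of_nonneg_right _ hR
              exact mul_le_mul_of_nonneg_left (hsg y) (by linarith)
          _ = _ := by ring
      have hgt : ∑ k ∈ Icc 1 y with j < k, ∑ b ∈ Icc 1 H, ind (a + b + j) * ind (a + b + k) ≤
          C1 * C2 * y * (H / Real.log H ^ 2) := by
        calc ∑ k ∈ Icc 1 y with j < k, ∑ b ∈ Icc 1 H, ind (a + b + j) * ind (a + b + k)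
            ≤ ∑ k ∈ Icc 1 y with j < k, C1 * sg (k - j) ^ 2 * H / Real.log H ^ 2 := by
              apply sum_le_sum
              intro k hk
              rw [mem_filter, mem_Icc] at hk
              refine le_trans (le_of_eq ?_) (pairs_le hps (a + j) (k - j) H (by omega) hH)
              apply sum_congr rfl
              intro b _
              congr 2 <;> omega
          _ ≤ ∑ d ∈ Icc 1 y, C1 * sg d ^ 2 * H / Real.log H ^ 2 := by
              rw [mem_Icc] at hj
              rw [← sum_image (s := (Icc 1 y).filter (fun k => j < k)) (g := fun k => k - j)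
                (f := fun d => C1 * sg d ^ 2 * H / Real.log H ^ 2)]
              · apply sum_le_sum_of_subset_of_nonneg
                · intro d hd
                  rw [mem_image] at hd
                  obtain ⟨k, hk, rfl⟩ := hd
                  rw [mem_filter, mem_Icc] at hk
                  rw [mem_Icc]
                  omega
                · intro d _ _
                  positivity
              · intro k hk l hl h
                rw [mem_coe, mem_filter, mem_Icc] at hk hl
                simp only at h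
                omega
          _ = C1 * (∑ d ∈ Icc 1 y, sg d ^ 2) * (H / Real.log H ^ 2) := by
              rw [mul_sum, sum_mul]
              apply sum_congr rfl
              intro d _
              ring
          _ ≤ C1 * (C2 * y) * (H / Real.log H ^ 2) := by
              apply mul_le_mul_of_nonneg_right _ hR
              exact mul_le_mul_of_nonneg_left (hsg y) (by linarith)
          _ = _ := by ring
      have hsplit : ((Icc 1 y).erase j) = (Icc 1 y).filter (fun k => k < j) ∪
          (Icc 1 y).filter (fun k => j < k) := by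
        ext k
        rw [mem_erase, mem_union, mem_filter, mem_filter]
        constructor
        · rintro ⟨h1, h2⟩
          rcases lt_or_gt_of_ne h1 with h | h
          · exact Or.inl ⟨h2, h⟩
          · exact Or.inr ⟨h2, h⟩
        · rintro (⟨h1, h2⟩ | ⟨h1, h2⟩)
          · exact ⟨by omega, h1⟩
          · exact ⟨by omega, h1⟩
      rw [hsplit, sum_union]
      · linarith
      · rw [disjoint_left]
        intro k hk hk'
        rw [mem_filter] at hk hk'
        omega
  refine (sum_le_sum h2).trans (le_of_eq ?_)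
  rw [sum_add_distrib, sum_const, Nat.card_Icc, Nat.add_sub_cancel, nsmul_eq_mul, sum_comm]
  congr 1
  · apply sum_congr rfl
    intro b _
    rw [cnt_eq]
  · ring

theorem cnt_eq_pi (a y : ℕ) : (cnt a y : ℝ) = Nat.primeCounting (a + y) - Nat.primeCounting a :=
  pc_eq_sub (by omega : a ≤ a + y)

/-- The prime number theorem, uniformly up to `3 N`. -/
theorem pi_unif (δ : ℝ) (hδ : 0 < δ) : ∃ N₀ : ℕ, 3 ≤ N₀ ∧ ∀ N : ℕ, N₀ ≤ N → ∀ m : ℕ, m ≤ 3 * N →
    |(Nat.primeCounting m : ℝ) * Real.log N - m| ≤ δ * N := by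
  -- a smaller parameter
  obtain ⟨e, he0, he1, heδ⟩ : ∃ e : ℝ, 0 < e ∧ e ≤ 1 / 8 ∧ 12 * e ≤ δ := by
    refine ⟨min (1 / 8) (δ / 12), by positivity, min_le_left _ _, ?_⟩
    have := min_le_right (1 / 8) (δ / 12)
    linarith
  obtain ⟨X₀, hX3, hX⟩ := pnt e he0
  have hlim : Tendsto (fun n : ℕ => Real.log (n : ℝ)) atTop atTop :=
    Real.tendsto_log_atTop.comp tendsto_natCast_atTop_atTop
  have hnat : Tendsto (fun n : ℕ => (n : ℝ)) atTop atTop := tendsto_natCast_atTop_atTop
  obtain ⟨N₀, hN₀⟩ := eventually_atTop.1 ((hlim.eventually_ge_atTop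
    ((Real.log 3 + Real.log (1 / e)) / e + Real.log (1 / e))).and
    (hnat.eventually_ge_atTop (((X₀ : ℝ) + 3) / e)))
  refine ⟨max N₀ 3, le_max_right _ _, fun N hN m hm => ?_⟩
  obtain ⟨h1, h2⟩ := hN₀ N (le_trans (le_max_left _ _) hN)
  have hN3 : 3 ≤ N := le_trans (le_max_right _ _) hN
  have hN0 : (0 : ℝ) < N := by exact_mod_cast (by omega : 0 < N)
  rw [div_le_iff₀ he0] at h2
  have hle : 0 < Real.log (1 / e) := Real.log_pos (by rw [lt_div_iff₀ he0]; linarith)
  have hl3 : 0 < Real.log 3 := Real.log_pos (by norm_num)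
  -- the main range
  have main : ∀ n : ℕ, e * N ≤ n → (n : ℝ) ≤ 3 * N →
      |(Nat.primeCounting n : ℝ) * Real.log N - n| ≤ 3 * e * n := by
    intro n hn1 hn2
    have hnX : X₀ ≤ n := by
      have : (X₀ : ℝ) ≤ n := by nlinarith
      exact_mod_cast this
    obtain ⟨h3, h4⟩ := hX n hnX
    have hn0 : (0 : ℝ) < n := lt_of_lt_of_le (by positivity) hn1
    have hlog1 : Real.log n ≤ Real.log N + Real.log 3 := by
      rw [← Real.log_mul hN0.ne' (by norm_num)]
      apply Real.log_le_log hn0
      linarith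
    have hlog2 : Real.log N ≤ Real.log n + Real.log (1 / e) := by
      rw [← Real.log_mul hn0.ne' (by positivity)]
      apply Real.log_le_log hN0
      rw [mul_one_div, le_div_iff₀ he0]
      linarith
    have hD : Real.log 3 + Real.log (1 / e) ≤ e * Real.log n := by
      have : (Real.log 3 + Real.log (1 / e)) / e ≤ Real.log n := by linarith
      rw [div_le_iff₀ he0] at this
      linarith
    have hln0 : 0 < Real.log n := by nlinarith
    -- the quotient of the logarithms
    have hq1 : Real.log N ≤ (1 + e) * Real.log n := by linarith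
    have hq2 : (1 - e) * Real.log n ≤ Real.log N := by linarith
    have h5 : (Nat.primeCounting n : ℝ) * Real.log n ≤ (1 + e) * n := by
      have := mul_le_mul_of_nonneg_right h4 hln0.le
      rwa [div_mul_cancel₀ _ hln0.ne'] at this
    have h6 : (1 - e) * n ≤ (Nat.primeCounting n : ℝ) * Real.log n := by
      have := mul_le_mul_of_nonneg_right h3 hln0.le
      rwa [div_mul_cancel₀ _ hln0.ne'] at this
    have hp0 : (0 : ℝ) ≤ Nat.primeCounting n := Nat.cast_nonneg _
    have h7 : (Nat.primeCounting n : ℝ) * Real.log N ≤ (1 + e) * ((1 + e) * n) := by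
      calc (Nat.primeCounting n : ℝ) * Real.log N ≤
          Nat.primeCounting n * ((1 + e) * Real.log n) := mul_le_mul_of_nonneg_left hq1 hp0
        _ = (1 + e) * (Nat.primeCounting n * Real.log n) := by ring
        _ ≤ _ := mul_le_mul_of_nonneg_left h5 (by linarith)
    have h8 : (1 - e) * ((1 - e) * n) ≤ (Nat.primeCounting n : ℝ) * Real.log N := by
      calc (1 - e) * ((1 - e) * n) ≤ (1 - e) * (Nat.primeCounting n * Real.log n) :=
            mul_le_mul_of_nonneg_left h6 (by linarith)
        _ = Nat.primeCounting n * ((1 - e) * Real.log n) := by ring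
        _ ≤ _ := mul_le_mul_of_nonneg_left hq2 hp0
    rw [abs_le]
    constructor <;> nlinarith
  by_cases hm1 : e * N ≤ m
  · refine (main m hm1 (by exact_mod_cast hm)).trans ?_
    have : (m : ℝ) ≤ 3 * N := by exact_mod_cast hm
    nlinarith
  · rw [not_le] at hm1
    have hc1 : e * N ≤ (⌈e * (N : ℝ)⌉₊ : ℝ) := Nat.le_ceil _
    have hc2 : (⌈e * (N : ℝ)⌉₊ : ℝ) < e * N + 1 := Nat.ceil_lt_add_one (by positivity)
    have h3 := main ⌈e * (N : ℝ)⌉₊ hc1 (by nlinarith)
    have h4 : Nat.primeCounting m ≤ Nat.primeCounting ⌈e * (N : ℝ)⌉₊ := by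
      apply Nat.monotone_primeCounting
      have : (m : ℝ) ≤ (⌈e * (N : ℝ)⌉₊ : ℝ) := by linarith
      exact_mod_cast this
    have h5 : (Nat.primeCounting m : ℝ) ≤ Nat.primeCounting ⌈e * (N : ℝ)⌉₊ := by exact_mod_cast h4
    have hL : 0 ≤ Real.log N := Real.log_nonneg (by exact_mod_cast (by omega : 1 ≤ N))
    have h6 := mul_le_mul_of_nonneg_right h5 hL
    have h7 : 0 ≤ (Nat.primeCounting m : ℝ) * Real.log N := by positivity
    rw [abs_le] at h3 ⊢
    have h8 : (1 : ℝ) ≤ e * N := by nlinarith
    have h9 : (0 : ℝ) ≤ m := Nat.cast_nonneg m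
    constructor
    · nlinarith
    · nlinarith [h3.2]

/-- The primes in the translates of the interval of length `N`. -/
theorem cnt_unif (δ : ℝ) (hδ : 0 < δ) : ∃ N₀ : ℕ, 3 ≤ N₀ ∧ ∀ N : ℕ, N₀ ≤ N → ∀ m : ℕ, m ≤ 2 * N →
    |(cnt m N : ℝ) * Real.log N - N| ≤ δ * N := by
  obtain ⟨N₀, h3, h⟩ := pi_unif (δ / 2) (by positivity)
  refine ⟨N₀, h3, fun N hN m hm => ?_⟩
  have h1 := h N hN m (by omega)
  have h2 := h N hN (m + N) (by omega)
  rw [cnt_eq_pi]
  rw [abs_le] at h1 h2 ⊢
  push_cast at h2
  constructor <;> linarith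

/-- The Brun-Titchmarsh inequality. -/
theorem cnt_le : ∃ C : ℝ, 1 ≤ C ∧ ∀ n y : ℕ, 2 ≤ y → (cnt n y : ℝ) ≤ C * y / Real.log y := by
  obtain ⟨C, hC, h⟩ := Pool.Agent.Helper923.PPS.brun_titchmarsh
  refine ⟨C, hC, fun n y hy => ?_⟩
  refine le_trans ?_ (h (n + 1) 1 y hy (Or.inl rfl))
  apply Nat.cast_le.2
  unfold cnt
  apply card_le_card_of_injOn fun q => q - (n + 1)
  · intro q hq
    rw [mem_coe, mem_filter, mem_Ioc] at hq
    rw [mem_coe, mem_filter, mem_range]
    have h1 : n + 1 + (q - (n + 1)) * 1 = q := by omega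
    have h2 : q - (n + 1) < y := by omega
    refine ⟨h2, ?_⟩
    change (n + 1 + (q - (n + 1)) * 1).Prime
    rw [h1]
    exact hq.2
  · intro q hq q' hq' h'
    rw [mem_coe, mem_filter, mem_Ioc] at hq hq'
    simp only at h'
    omega

end Pool.Agent.Q152.ShiftsPrimes
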