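import Mathlib

/-!
Zero-sum subsequences of length `2 ^ k` over `(ℤ/2^k)^d`, via integer vectors.
-/

namespace Pool.Agent.Q152.EGZ

open Finset

variable {d : ℕ}

/-- the parity class of an integer vector -/
def par (v : Fin d → ℤ) : Fin d → ZMod 2 := fun c => (v c : ZMod 2)

theorem par_eq_iff (x y : Fin d → ℤ) : par x = par y ↔ ∀ c, (2 : ℤ) ∣ x c - y c := by
  unfold par
  rw [funext_iff]
  refine forall_congr' fun c => ?_
  rw [← sub_eq_zero, ← Int.cast_sub]
  exact ZMod.intCast_zmod_eq_zero_iff_dvd _ 2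

/-- `t` is a zero-sum block of length `2 ^ k` -/
def Blk {ι : Type} (g : ι → Fin d → ℤ) (k : ℕ) (t : Finset ι) : Prop :=
  t.card = 2 ^ k ∧ ∀ c, (2 : ℤ) ^ k ∣ ∑ i ∈ t, g i c

/-- no zero-sum block of length `2 ^ k` in `s` -/
def Free {ι : Type} (g : ι → Fin d → ℤ) (k : ℕ) (s : Finset ι) : Prop :=
  ∀ t ⊆ s, ¬ Blk g k t

/-- matchings of `s` inside the parity classes -/
structure IsMat {ι : Type} [DecidableEq ι] (g : ι → Fin d → ℤ) (s : Finset ι)
    (M : Finset (ι × ι)) : Prop where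
  sub1 : ∀ p ∈ M, p.1 ∈ s
  sub2 : ∀ p ∈ M, p.2 ∈ s
  ne : ∀ p ∈ M, p.1 ≠ p.2
  par : ∀ p ∈ M, par (g p.1) = par (g p.2)
  disj : ∀ p ∈ M, ∀ q ∈ M, p ≠ q → Disjoint ({p.1, p.2} : Finset ι) {q.1, q.2}

/-- half of the sum of a pair -/
def half {ι : Type} (g : ι → Fin d → ℤ) (p : ι × ι) : Fin d → ℤ :=
  fun c => (g p.1 c + g p.2 c) / 2

theorem two_mul_half {ι : Type} (g : ι → Fin d → ℤ) (p : ι × ι) (h : par (g p.1) = par (g p.2))
    (c : Fin d) : 2 * half g p c = g p.1 c + g p.2 c := by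
  have h1 := (par_eq_iff _ _).1 h c
  unfold half
  omega

/-- Blocks of the halved sequence give blocks. -/
theorem free_half {ι : Type} [DecidableEq ι] (g : ι → Fin d → ℤ) (k : ℕ) (s : Finset ι)
    (M : Finset (ι × ι)) (hM : IsMat g s M) (hf : Free g (k + 1) s) : Free (half g) k M := by
  intro t ht hb
  have hpd : Set.PairwiseDisjoint (↑t : Set (ι × ι)) (fun p : ι × ι => ({p.1, p.2} : Finset ι)) :=
    fun p hp q hq hne => hM.disj p (ht hp) q (ht hq) hne
  refine hf (t.biUnion fun p => {p.1, p.2}) ?_ ⟨?_, ?_⟩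
  · intro i hi
    rw [Finset.mem_biUnion] at hi
    obtain ⟨p, hp, hi⟩ := hi
    simp only [Finset.mem_insert, Finset.mem_singleton] at hi
    rcases hi with rfl | rfl
    · exact hM.sub1 p (ht hp)
    · exact hM.sub2 p (ht hp)
  · rw [Finset.card_biUnion hpd, Finset.sum_congr rfl (g := fun _ => 2)]
    · rw [Finset.sum_const, hb.1, smul_eq_mul, pow_succ]
    · intro p hp
      exact Finset.card_pair (hM.ne p (ht hp))
  · intro c
    rw [Finset.sum_biUnion hpd, Finset.sum_congr rfl (g := fun p => 2 * half g p c)]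
    · rw [← Finset.mul_sum, pow_succ, mul_comm]
      exact mul_dvd_mul_left 2 (hb.2 c)
    · intro p hp
      rw [two_mul_half g p (hM.par p (ht hp)) c, Finset.sum_pair (hM.ne p (ht hp))]

/-- Extending a matching. -/
theorem IsMat.insert {ι : Type} [DecidableEq ι] {g : ι → Fin d → ℤ} {s s' : Finset ι}
    {M : Finset (ι × ι)} (hM : IsMat g s' M) {i j : ι} (hi : i ∈ s) (hj : j ∈ s) (hij : i ≠ j)
    (hp : EGZ.par (g i) = EGZ.par (g j)) (hs' : s' ⊆ s) (hi' : i ∉ s') (hj' : j ∉ s') :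
    IsMat g s (insert (i, j) M) ∧ (insert (i, j) M).card = M.card + 1 := by
  have hnot : (i, j) ∉ M := fun h => hi' (hM.sub1 _ h)
  have hd : ∀ q ∈ M, Disjoint ({i, j} : Finset ι) {q.1, q.2} := by
    intro q hq
    rw [Finset.disjoint_left]
    intro x hx hx'
    simp only [Finset.mem_insert, Finset.mem_singleton] at hx hx'
    have : x ∈ s' := by
      rcases hx' with rfl | rfl
      · exact hM.sub1 q hq
      · exact hM.sub2 q hq
    rcases hx with rfl | rfl
    · exact hi' this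
    · exact hj' this
  refine ⟨⟨?_, ?_, ?_, ?_, ?_⟩, Finset.card_insert_of_notMem hnot⟩
  · intro p hp'
    rcases Finset.mem_insert.1 hp' with rfl | hp'
    · exact hi
    · exact hs' (hM.sub1 p hp')
  · intro p hp'
    rcases Finset.mem_insert.1 hp' with rfl | hp'
    · exact hj
    · exact hs' (hM.sub2 p hp')
  · intro p hp'
    rcases Finset.mem_insert.1 hp' with rfl | hp'
    · exact hij
    · exact hM.ne p hp'
  · intro p hp'
    rcases Finset.mem_insert.1 hp' with rfl | hp'
    · exact hp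
    · exact hM.par p hp'
  · intro p hp' q hq' hne
    rcases Finset.mem_insert.1 hp' with rfl | hp' <;> rcases Finset.mem_insert.1 hq' with rfl | hq'
    · exact absurd rfl hne
    · exact hd q hq'
    · exact (hd p hp').symm
    · exact hM.disj p hp' q hq' hne

/-- Existence of large matchings. -/
theorem exists_mat {ι : Type} [DecidableEq ι] (g : ι → Fin d → ℤ) (q : ℕ) (m : ℕ) :
    ∀ s : Finset ι, (s.image fun i => par (g i)).card ≤ q → q + 2 * m ≤ s.card + 1 →
      ∃ M, IsMat g s M ∧ M.card = m := by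
  induction m with
  | zero =>
    intro s _ _
    exact ⟨∅, ⟨by simp, by simp, by simp, by simp, by simp⟩, rfl⟩
  | succ m ih =>
    intro s h1 h2
    obtain ⟨i, hi, j, hj, hij, hpar⟩ := Finset.exists_ne_map_eq_of_card_lt_of_maps_to
      (s := s) (t := s.image fun i => par (g i)) (f := fun i => par (g i)) (by omega)
      (fun i hi => Finset.mem_coe.2 (Finset.mem_image_of_mem _ (Finset.mem_coe.1 hi)))
    have hcard : ((s.erase i).erase j).card = s.card - 2 := by
      rw [Finset.card_erase_of_mem (Finset.mem_erase.2 ⟨hij.symm, hj⟩),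
        Finset.card_erase_of_mem hi]
      omega
    have hsub : (s.erase i).erase j ⊆ s := (Finset.erase_subset _ _).trans (Finset.erase_subset _ _)
    obtain ⟨M, hM, hMc⟩ := ih ((s.erase i).erase j)
      ((Finset.card_le_card (Finset.image_subset_image hsub)).trans h1) (by omega)
    obtain ⟨h3, h4⟩ := hM.insert hi hj hij hpar hsub (by simp) (by simp)
    exact ⟨_, h3, by rw [h4, hMc]⟩

theorem image_card_le {ι : Type} (g : ι → Fin d → ℤ) (s : Finset ι) :
    (s.image fun i => par (g i)).card ≤ 2 ^ d := by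
  refine (Finset.card_le_univ _).trans ?_
  simp [ZMod.card]

/-- **Harborth**: long sequences have zero-sum blocks. -/
theorem harborth (k : ℕ) : ∀ {ι : Type} [DecidableEq ι] (g : ι → Fin d → ℤ) (s : Finset ι),
    (2 ^ k - 1) * 2 ^ d + 1 ≤ s.card → ¬ Free g k s := by
  induction k with
  | zero =>
    intro ι _ g s hs hf
    obtain ⟨i, hi⟩ : s.Nonempty := Finset.card_pos.1 (by omega)
    exact hf {i} (by simpa using hi) ⟨by simp, fun c => by simp⟩
  | succ k ih =>
    intro ι _ g s hs hf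
    obtain ⟨M, hM, hMc⟩ := exists_mat g (2 ^ d) ((2 ^ k - 1) * 2 ^ d + 1) s (image_card_le g s) (by
      have h1 : 1 ≤ 2 ^ k := Nat.one_le_two_pow
      obtain ⟨a, ha⟩ : ∃ a, 2 ^ k = a + 1 := ⟨2 ^ k - 1, by omega⟩
      have h2 : 2 ^ (k + 1) - 1 = 2 * a + 1 := by rw [pow_succ, ha]; omega
      rw [h2] at hs
      rw [ha, Nat.add_sub_cancel]
      have : (2 * a + 1) * 2 ^ d = 2 * (a * 2 ^ d) + 2 ^ d := by ring
      omega)
    exact ih (half g) M (by rw [hMc]) (free_half g k s M hM hf)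

/-- Blocks of congruent elements. -/
theorem blk_of_congr {ι : Type} (g : ι → Fin d → ℤ) (k : ℕ) (t : Finset ι)
    (ht : t.card = 2 ^ k) (x : Fin d → ℤ) (h : ∀ i ∈ t, ∀ c, (2 : ℤ) ^ k ∣ g i c - x c) :
    Blk g k t := by
  refine ⟨ht, fun c => ?_⟩
  have h1 : ∑ i ∈ t, g i c = ∑ i ∈ t, (g i c - x c) + 2 ^ k * x c := by
    rw [Finset.sum_sub_distrib, Finset.sum_const, ht]
    simp
  rw [h1]
  exact dvd_add (Finset.dvd_sum fun i hi => h i hi c) (dvd_mul_right _ _)

/-- Elements of `s` in the same parity class are congruent modulo `2 ^ k`. -/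
def Rig {ι : Type} (g : ι → Fin d → ℤ) (k : ℕ) (s : Finset ι) : Prop :=
  ∀ i ∈ s, ∀ j ∈ s, par (g i) = par (g j) → ∀ c, (2 : ℤ) ^ k ∣ g i c - g j c

/-- Counting the parity classes. -/
theorem count_class {ι : Type} (g : ι → Fin d → ℤ) (k : ℕ) (s : Finset ι)
    (hf : Free g k s) (hs : s.card = (2 ^ k - 1) * 2 ^ d) (hr : Rig g k s) (c : Fin d → ZMod 2) :
    (s.filter fun i => par (g i) = c).card = 2 ^ k - 1 := by
  have hle : ∀ c ∈ (Finset.univ : Finset (Fin d → ZMod 2)),
      (s.filter fun i => par (g i) = c).card ≤ 2 ^ k - 1 := by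
    intro c _
    by_contra hlt
    obtain ⟨t, ht, htc⟩ := Finset.exists_subset_card_eq (s := s.filter fun i => par (g i) = c)
      (n := 2 ^ k) (by omega)
    have hne : t.Nonempty := Finset.card_pos.1 (by rw [htc]; positivity)
    obtain ⟨i, hi⟩ := hne
    refine hf t (ht.trans (Finset.filter_subset _ _)) (blk_of_congr g k t htc (g i) ?_)
    intro j hj
    have hi' := Finset.mem_filter.1 (ht hi)
    have hj' := Finset.mem_filter.1 (ht hj)
    exact hr j hj'.1 i hi'.1 (by rw [hj'.2, hi'.2])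
  have hsum : ∑ c : Fin d → ZMod 2, (s.filter fun i => par (g i) = c).card =
      ∑ _c : Fin d → ZMod 2, (2 ^ k - 1) := by
    rw [Finset.sum_const, Finset.card_univ, Fintype.card_fun, ZMod.card, Fintype.card_fin,
      smul_eq_mul, mul_comm, ← hs]
    exact (Finset.card_eq_sum_card_fiberwise (f := fun i => par (g i)) (s := s)
      (t := Finset.univ) (fun _ _ => Finset.mem_coe.2 (Finset.mem_univ _))).symm
  exact (Finset.sum_eq_sum_iff_of_le hle).1 hsum c (Finset.mem_univ _)

theorem size_aux (k d : ℕ) : (2 ^ (k + 2) - 1) * 2 ^ d = 2 ^ d + 2 * ((2 ^ (k + 1) - 1) * 2 ^ d) := by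
  have h1 : 1 ≤ 2 ^ (k + 1) := Nat.one_le_two_pow
  obtain ⟨a, ha⟩ : ∃ a, 2 ^ (k + 1) = a + 1 := ⟨2 ^ (k + 1) - 1, by omega⟩
  have h2 : 2 ^ (k + 2) - 1 = 2 * a + 1 := by rw [pow_succ, ha]; omega
  rw [h2, ha, Nat.add_sub_cancel]
  ring

/-- A third element of the class. -/
theorem exists_third (k : ℕ) {ι : Type} [DecidableEq ι] (g : ι → Fin d → ℤ) (s : Finset ι)
    (hf : Free g (k + 2) s) (hs : s.card = (2 ^ (k + 2) - 1) * 2 ^ d) {i j : ι} (hi : i ∈ s)
    (hj : j ∈ s) (hij : i ≠ j) (hp : par (g i) = par (g j)) :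
    ∃ l ∈ s, l ≠ i ∧ l ≠ j ∧ par (g l) = par (g i) := by
  by_contra hno
  push Not at hno
  have hcard : ((s.erase i).erase j).card = s.card - 2 := by
    rw [Finset.card_erase_of_mem (Finset.mem_erase.2 ⟨hij.symm, hj⟩),
      Finset.card_erase_of_mem hi]
    omega
  have hsub : (s.erase i).erase j ⊆ s := (Finset.erase_subset _ _).trans (Finset.erase_subset _ _)
  have himg : (((s.erase i).erase j).image fun i => par (g i)).card ≤ 2 ^ d - 1 := by
    have h1 : ((s.erase i).erase j).image (fun i => par (g i)) ⊆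
        (Finset.univ : Finset (Fin d → ZMod 2)).erase (par (g i)) := by
      intro c hc
      obtain ⟨l, hl, rfl⟩ := Finset.mem_image.1 hc
      refine Finset.mem_erase.2 ⟨?_, Finset.mem_univ _⟩
      have h2 := Finset.mem_erase.1 hl
      have h3 := Finset.mem_erase.1 h2.2
      exact hno l h3.2 h3.1 h2.1
    refine (Finset.card_le_card h1).trans ?_
    rw [Finset.card_erase_of_mem (Finset.mem_univ _)]
    simp [ZMod.card]
  have h2d : 1 ≤ 2 ^ d := Nat.one_le_two_pow
  obtain ⟨M, hM, hMc⟩ := exists_mat g (2 ^ d - 1) ((2 ^ (k + 1) - 1) * 2 ^ d)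
    ((s.erase i).erase j) himg (by rw [hcard, hs, size_aux]; omega)
  obtain ⟨h3, h4⟩ := hM.insert hi hj hij hp hsub (by simp) (by simp)
  exact harborth (k + 1) (half g) _ (by rw [h4, hMc]) (free_half g (k + 1) s _ h3 hf)

/-- **Rigidity** of the extremal sequences. -/
theorem rigid (k : ℕ) : ∀ {ι : Type} [DecidableEq ι] (g : ι → Fin d → ℤ) (s : Finset ι),
    Free g (k + 1) s → s.card = (2 ^ (k + 1) - 1) * 2 ^ d → Rig g (k + 1) s := by
  induction k with
  | zero =>
    intro ι _ g s _ _ i _ j _ h c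
    simpa using (par_eq_iff _ _).1 h c
  | succ k ih =>
    intro ι _ g s hf hs i hi j hj hp c
    by_cases hij : i = j
    · subst hij; simp
    obtain ⟨l, hl, hli, hlj, hpl⟩ := exists_third k g s hf hs hi hj hij hp
    set s₀ := ((s.erase i).erase j).erase l with hs₀
    have hsub : s₀ ⊆ s := ((Finset.erase_subset _ _).trans (Finset.erase_subset _ _)).trans
      (Finset.erase_subset _ _)
    have hcard : s₀.card = s.card - 3 := by
      rw [hs₀, Finset.card_erase_of_mem
        (Finset.mem_erase.2 ⟨hlj, Finset.mem_erase.2 ⟨hli, hl⟩⟩),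
        Finset.card_erase_of_mem (Finset.mem_erase.2 ⟨Ne.symm hij, hj⟩),
        Finset.card_erase_of_mem hi]
      omega
    have hpos : 1 ≤ (2 ^ (k + 1) - 1) * 2 ^ d := by
      have h1 : 2 ≤ 2 ^ (k + 1) := by rw [pow_succ]; have := Nat.one_le_two_pow (n := k); omega
      exact Nat.mul_pos (by omega) (by positivity)
    obtain ⟨M₀, hM₀, hMc⟩ := exists_mat g (2 ^ d) ((2 ^ (k + 1) - 1) * 2 ^ d - 1) s₀
      (image_card_le g s₀) (by rw [hcard, hs, size_aux]; omega)
    have hi₀ : i ∉ s₀ := by simp [hs₀]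
    have hj₀ : j ∉ s₀ := by simp [hs₀]
    have hl₀ : l ∉ s₀ := by simp [hs₀]
    obtain ⟨hM1, hM1c⟩ := hM₀.insert hi hl (Ne.symm hli) hpl.symm hsub hi₀ hl₀
    obtain ⟨hM2, hM2c⟩ := hM₀.insert hj hl (Ne.symm hlj) (hp.symm.trans hpl.symm) hsub hj₀ hl₀
    have hil : (i, l) ∉ M₀ := fun h => hi₀ (hM₀.sub1 _ h)
    have hjl : (j, l) ∉ M₀ := fun h => hj₀ (hM₀.sub1 _ h)
    have f1 := free_half g (k + 1) s _ hM1 hf
    have f2 := free_half g (k + 1) s _ hM2 hf
    have c1 : (insert (i, l) M₀).card = (2 ^ (k + 1) - 1) * 2 ^ d := by rw [hM1c, hMc]; omega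
    have c2 : (insert (j, l) M₀).card = (2 ^ (k + 1) - 1) * 2 ^ d := by rw [hM2c, hMc]; omega
    have r1 := ih (half g) _ f1 c1
    have r2 := ih (half g) _ f2 c2
    -- parity classes of the two halves agree
    have e1 := count_class (half g) (k + 1) _ f1 c1 r1 (par (half g (i, l)))
    have e2 := count_class (half g) (k + 1) _ f2 c2 r2 (par (half g (i, l)))
    rw [Finset.filter_insert, if_pos rfl, Finset.card_insert_of_notMem
      (fun h => hil (Finset.mem_filter.1 h).1)] at e1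
    have hpp : par (half g (j, l)) = par (half g (i, l)) := by
      by_contra hne
      rw [Finset.filter_insert, if_neg hne] at e2
      omega
    -- `z ≡ z'` modulo `2 ^ (k + 1)`
    have hz : (2 : ℤ) ^ (k + 1) ∣ half g (i, l) c - half g (j, l) c := by
      rcases Nat.eq_zero_or_pos k with rfl | hk
      · simpa using (par_eq_iff _ _).1 hpp.symm c
      · have h4 : 4 ≤ 2 ^ (k + 1) := by
          obtain ⟨k', rfl⟩ : ∃ k', k = k' + 1 := ⟨k - 1, by omega⟩
          have := Nat.one_le_two_pow (n := k')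
          rw [pow_succ, pow_succ]
          omega
        obtain ⟨p, hp0⟩ : (M₀.filter fun q => par (half g q) = par (half g (i, l))).Nonempty :=
          Finset.card_pos.1 (by omega)
        obtain ⟨hp1, hp2⟩ := Finset.mem_filter.1 hp0
        have a1 := r1 _ (Finset.mem_insert_self _ _) p (Finset.mem_insert_of_mem hp1) hp2.symm c
        have a2 := r2 _ (Finset.mem_insert_self _ _) p (Finset.mem_insert_of_mem hp1)
          (hpp.trans hp2.symm) c
        have := dvd_sub a1 a2
        rwa [sub_sub_sub_cancel_right] at this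
    have b1 := two_mul_half g (i, l) hpl.symm c
    have b2 := two_mul_half g (j, l) (hp.symm.trans hpl.symm) c
    obtain ⟨q, hq⟩ := hz
    refine ⟨q, ?_⟩
    simp only at b1 b2
    rw [pow_succ]
    linear_combination -b1 + b2 + 2 * hq

theorem sum_congr_class {ι : Type} (g : ι → Fin d → ℤ) (k : ℕ) (t : Finset ι) (x : Fin d → ℤ)
    (c : Fin d) (h : ∀ i ∈ t, (2 : ℤ) ^ k ∣ g i c - x c) :
    (2 : ℤ) ^ k ∣ ∑ i ∈ t, g i c - t.card * x c := by
  have h1 : ∑ i ∈ t, g i c - t.card * x c = ∑ i ∈ t, (g i c - x c) := by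
    rw [Finset.sum_sub_distrib, Finset.sum_const, nsmul_eq_mul]
  rw [h1]
  exact Finset.dvd_sum h

/-- Zero-sum sequences of the extremal length are not free when `2 ^ d ∣ 2 ^ k`. -/
theorem not_free_of_sum (k : ℕ) (hd : 1 ≤ d) (hk : d ≤ k) {ι : Type} [DecidableEq ι]
    (g : ι → Fin d → ℤ) (s : Finset ι) (hs : s.card = (2 ^ k - 1) * 2 ^ d)
    (h0 : ∀ c, (2 : ℤ) ^ k ∣ ∑ i ∈ s, g i c) : ¬ Free g k s := by
  intro hf
  obtain ⟨k', rfl⟩ : ∃ k', k = k' + 1 := ⟨k - 1, by omega⟩
  have hr := rigid k' g s hf hs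
  set k := k' + 1 with hkk
  have hcl := count_class g k s hf hs hr
  have hk2 : 2 ≤ 2 ^ k := by
    rw [hkk, pow_succ]
    have := Nat.one_le_two_pow (n := k')
    omega
  have hkd : 2 ^ (k - d) ≤ 2 ^ k - 1 := by
    have h1 : 2 ^ (k - d) * 2 ≤ 2 ^ k := by
      calc 2 ^ (k - d) * 2 = 2 ^ (k - d + 1) := (pow_succ _ _).symm
        _ ≤ 2 ^ k := Nat.pow_le_pow_right (by norm_num) (by omega)
    have := Nat.one_le_two_pow (n := k - d)
    omega
  -- representatives
  have hrep : ∀ c : Fin d → ZMod 2, ∃ i, i ∈ s.filter fun i => par (g i) = c := fun c =>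
    Finset.card_pos.1 (by rw [hcl c]; omega)
  choose r hr' using hrep
  have hrc : ∀ c, ∀ i ∈ s.filter (fun i => par (g i) = c), ∀ e,
      (2 : ℤ) ^ k ∣ g i e - g (r c) e := by
    intro c i hi e
    have h1 := Finset.mem_filter.1 hi
    have h2 := Finset.mem_filter.1 (hr' c)
    exact hr i h1.1 (r c) h2.1 (by rw [h1.2, h2.2]) e
  -- the sum of the representatives vanishes
  have hR : ∀ e, (2 : ℤ) ^ k ∣ ∑ c, g (r c) e := by
    intro e
    have h1 : ∀ c : Fin d → ZMod 2, (2 : ℤ) ^ k ∣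
        ∑ i ∈ s.filter (fun i => par (g i) = c), g i e + g (r c) e := by
      intro c
      have h2 := sum_congr_class g k _ (g (r c)) e (fun i hi => hrc c i hi e)
      rw [hcl c] at h2
      have h3 : ((2 ^ k - 1 : ℕ) : ℤ) = 2 ^ k - 1 := by
        push_cast [Nat.cast_sub (show 1 ≤ 2 ^ k by omega)]
        ring
      rw [h3] at h2
      have h4 := dvd_add h2 (dvd_mul_right ((2 : ℤ) ^ k) (g (r c) e))
      have h5 : ∑ i ∈ s.filter (fun i => par (g i) = c), g i e - (2 ^ k - 1) * g (r c) e +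
          2 ^ k * g (r c) e = ∑ i ∈ s.filter (fun i => par (g i) = c), g i e + g (r c) e := by
        ring
      rwa [h5] at h4
    have h6 := Finset.dvd_sum (s := Finset.univ) (fun c _ => h1 c)
    rw [Finset.sum_add_distrib, Finset.sum_fiberwise s (fun i => par (g i)) (fun i => g i e)] at h6
    exact (dvd_add_right (h0 e)).1 h6
  -- the block
  have hsub : ∀ c : Fin d → ZMod 2, ∃ t ⊆ s.filter (fun i => par (g i) = c),
      t.card = 2 ^ (k - d) := fun c =>
    Finset.exists_subset_card_eq (by rw [hcl c]; exact hkd)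
  choose t ht htc using hsub
  have hpd : Set.PairwiseDisjoint (↑(Finset.univ : Finset (Fin d → ZMod 2)) :
      Set (Fin d → ZMod 2)) t := by
    intro c _ c' _ hne
    rw [Function.onFun, Finset.disjoint_left]
    intro i hi hi'
    exact hne ((Finset.mem_filter.1 (ht c hi)).2.symm.trans (Finset.mem_filter.1 (ht c' hi')).2)
  refine hf (Finset.univ.biUnion t) ?_ ⟨?_, ?_⟩
  · intro i hi
    obtain ⟨c, -, hi⟩ := Finset.mem_biUnion.1 hi
    exact (Finset.mem_filter.1 (ht c hi)).1
  · rw [Finset.card_biUnion hpd, Finset.sum_congr rfl (fun c _ => htc c), Finset.sum_const,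
      Finset.card_univ, Fintype.card_fun, ZMod.card, Fintype.card_fin, smul_eq_mul, ← pow_add]
    congr 1
    omega
  · intro e
    rw [Finset.sum_biUnion hpd]
    have h1 : ∀ c : Fin d → ZMod 2, (2 : ℤ) ^ k ∣
        ∑ i ∈ t c, g i e - 2 ^ (k - d) * g (r c) e := by
      intro c
      have h2 := sum_congr_class g k (t c) (g (r c)) e (fun i hi => hrc c i (ht c hi) e)
      rw [htc c] at h2
      push_cast at h2
      exact h2
    have h3 := Finset.dvd_sum (s := Finset.univ) (fun c _ => h1 c)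
    rw [Finset.sum_sub_distrib, ← Finset.mul_sum] at h3
    exact (dvd_sub_left ((hR e).mul_left _)).1 h3

end Pool.Agent.Q152.EGZ
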