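import Mathlib

/-! Data and combinatorial core for the ear decomposition example. -/

set_option maxRecDepth 20000

namespace Q152Ear

def TB : ℕ := 3553905612364955268206546173186455375078608916390410798488645462467827538702560647597054172915503070802266729952342089673002507211666962530547819419696098394683718220782236455469976095764470074719587374551067944682100987101600482486764009078069375168541328338234734419850446533272873694417710704079078553712664937830644398039306895375282559829126266959284138869921161344458778563413733825241077042848400516356071695659109097801868956534047372845684681102430478273935714160977930474437676996808985625845649213187092626833292852452048000903941004901808807018889735734658280153297364908452017639368949645200521161707404881046926608384803038253929361587026791961768521977123060553097567167318914530089774225591792219419679510538022145409819020505555168684299992600448574520320901872637101079274098582691646605552981424711539924764684194595438679249028250798711509029052489395896508746036035991682797082985309058588897770238127993511730167606398290719871590360101082878936777976238741253843419115100984636512849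17970435813868880781787073123127290414715248647018874417675384272585615625168556200686014308330594043372560829632999138715466230386704502753713942874885703082805910629710420318015777088737211087042636746268265014620977662962157566663194588363708680275136753363630670002027251409857788586984445094278222076693522305001765614085813196573387241795392487728129014428186562920890950689378802921071120754428434509502390878761764665050979583243847711460303727967995794956631854435560888116024801955444925207459640580576349549995969079406645355656828628735819721836683072293841535732498466927223945384139673411361907538666512296498116141477889689876712199040565187458396612792595149709505112943177913581169911647967063299997865882816544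

def pathL : List ℕ := [0, 1, 2, 2, 1, 3, 1, 2, 1, 1, 3, 2]

/-- number of facets of the ball -/
def nB : ℕ := 90
/-- number of facets containing the vertex 14 -/
def nW : ℕ := 34

def entry (i q : ℕ) : ℕ := (TB >>> (64 * i + 16 * q)) % 65536
def vx (i q : ℕ) : ℕ := entry i q % 32
def nb (i q : ℕ) : ℕ := (entry i q / 32) % 128
def tr (i q x : ℕ) : ℕ := ((entry i q / 4096 % 4) * x + entry i q / 16384) % 3
def gm (i : ℕ) : ℕ := 2 ^ vx i 0 ||| 2 ^ vx i 1 ||| 2 ^ vx i 2 ||| 2 ^ vx i 3
/-- the ridge of facet `k` opposite to position `q` -/
def rdg (k q : ℕ) : ℕ := gm k ^^^ 2 ^ vx k q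

def triv (_i _q x : ℕ) : ℕ := x

/-- exit position when going around the edge `e` -/
def exq (e prev i : ℕ) : ℕ :=
  if !(e.testBit (vx i 0)) && !(nb i 0 == prev) then 0
  else if !(e.testBit (vx i 1)) && !(nb i 1 == prev) then 1
  else if !(e.testBit (vx i 2)) && !(nb i 2 == prev) then 2
  else 3

/-- go around the edge `e` from the facet `i` to the facet `tgt`, avoiding `k`, and compare -/
def walk (T : ℕ → ℕ → ℕ → ℕ) (bd e k tgt y : ℕ) : ℕ → ℕ → ℕ → ℕ → Bool
  | 0, _, _, _ => false
  | f + 1, prev, i, x =>
    Nat.blt i bd && (Nat.land e (gm i) == e) && !(i == k) &&
    (bif i == tgt then x == y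
     else walk T bd e k tgt y f i (nb i (exq e prev i)) (T i (exq e prev i) x))

/-- the edge of facet `k` opposite to positions `q0`, `q` -/
def edg (k q0 q : ℕ) : ℕ := rdg k q0 ^^^ 2 ^ vx k q

def WX : ℕ := 2 ^ 14 + 2 ^ 0
def WY : ℕ := 2 ^ 14 + 2 ^ 13

def runOK (x0 : ℕ) : List ℕ → ℕ → ℕ → Bool
  | [], i, x => (i == 0) && !(x == x0)
  | q :: l, i, x => Nat.blt q 4 && Nat.blt (nb i q) nB && runOK x0 l (nb i q) (tr i q x)

def allLt (n : ℕ) (P : ℕ → Bool) : Bool := (List.range n).all P

/-! ### checks -/

def chkWalk : Bool :=
  allLt nB fun k => allLt 4 fun q0 => allLt 4 fun q =>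
    (q0 == q) || !(Nat.blt (nb k q0) nB) || !(Nat.blt (nb k q) nB) ||
    (Nat.land (edg k q0 q) 16383 == edg k q0 q) ||
    (((edg k q0 q == WX) || (edg k q0 q == WY)) && Nat.blt (nb k q0) nW && Nat.blt (nb k q) nW
      && Nat.blt k nW) ||
    allLt 3 fun x => walk tr nB (edg k q0 q) k (nb k q) (tr k q x) 30 k (nb k q0) (tr k q0 x)

def chkWalkW : Bool :=
  allLt nW fun k => allLt 4 fun q0 => allLt 4 fun q =>
    (q0 == q) || !(Nat.blt (nb k q0) nW) || !(Nat.blt (nb k q) nW) ||
    allLt 3 fun x => walk triv nW (edg k q0 q) k (nb k q) x 30 k (nb k q0) x

def chkSym : Bool :=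
  allLt nB fun i => allLt 4 fun q =>
    !(Nat.blt (nb i q) nB) || (!(nb i q == i) &&
      (List.range 4).any fun q' => (nb (nb i q) q' == i) &&
        allLt 3 fun x => tr i q (tr (nb i q) q' x) == x)

def chkBij : Bool :=
  allLt nB fun i => allLt 4 fun q =>
    allLt 3 fun y => (List.range 3).any fun x => tr i q x == y

def chkInj : Bool :=
  allLt nB fun i => allLt 4 fun q =>
    !(tr i q 0 == tr i q 1) && !(tr i q 0 == tr i q 2) && !(tr i q 1 == tr i q 2)

def chkW0 : Bool :=
  allLt nW fun i => allLt 4 fun q =>
    !(Nat.blt (nb i q) nW) || ((tr i q 0 == 0) && !(tr i q 1 == 0) && !(tr i q 2 == 0))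

def chkWconn : Bool :=
  allLt nW fun i => (i == 0) || (List.range 4).any fun q => Nat.blt (nb i q) i

/-- ridges lie in exactly two facets, interior ridges are not inside `[0,14)` -/
def chkRidge : Bool :=
  allLt nB fun k => allLt 4 fun q =>
    !(Nat.blt (nb k q) nB) ||
    (!(Nat.land (rdg k q) 16383 == rdg k q) &&
      allLt nB fun i => !(Nat.land (rdg k q) (gm i) == rdg k q) ||
        (i == k) || (i == nb k q))

def chkVx : Bool :=
  allLt nB fun k => Nat.blt (vx k 0) (vx k 1) && Nat.blt (vx k 1) (vx k 2) &&
    Nat.blt (vx k 2) (vx k 3) && Nat.blt (vx k 3) 23

def chkRun : Bool := allLt 3 fun x => runOK x pathL 0 x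

theorem h_run : chkRun = true := by decide +kernel
theorem h_vx : chkVx = true := by decide +kernel
theorem h_bij : chkBij = true := by decide +kernel
theorem h_inj : chkInj = true := by decide +kernel
theorem h_sym : chkSym = true := by decide +kernel
theorem h_w0 : chkW0 = true := by decide +kernel
theorem h_wconn : chkWconn = true := by decide +kernel
theorem h_ridge : chkRidge = true := by decide +kernel
theorem h_walkW : chkWalkW = true := by decide +kernel
theorem h_walk : chkWalk = true := by decide +kernel

end Q152Ear
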