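import Pool.Agent.Q152.EarA

/-! The ball has no relative shelling: monodromy argument. -/

namespace Q152Ear

open Finset

theorem allLt_iff {n : ℕ} {P : ℕ → Bool} : allLt n P = true ↔ ∀ i < n, P i = true := by
  simp [allLt, List.all_eq_true]

/-- the set of bits of `m` -/
def fs (m : ℕ) : Finset ℕ := (Finset.range 32).filter fun v => m.testBit v = true

theorem mem_fs {m v : ℕ} : v ∈ fs m ↔ v < 32 ∧ m.testBit v = true := by
  simp [fs]

theorem vx_lt {k q : ℕ} : vx k q < 32 := by
  unfold vx; exact Nat.mod_lt _ (by norm_num)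

theorem vx_ord {k : ℕ} (hk : k < nB) :
    vx k 0 < vx k 1 ∧ vx k 1 < vx k 2 ∧ vx k 2 < vx k 3 ∧ vx k 3 < 23 := by
  have h := h_vx
  unfold chkVx at h
  rw [allLt_iff] at h
  have := h k hk
  simp only [Bool.and_eq_true, Nat.blt_eq] at this
  tauto

theorem vx_inj {k : ℕ} (hk : k < nB) {q q' : ℕ} (hq : q < 4) (hq' : q' < 4)
    (h : vx k q = vx k q') : q = q' := by
  have := vx_ord hk
  interval_cases q <;> interval_cases q' <;> first | rfl | (exfalso; omega)

theorem mem_gm {k v : ℕ} : v ∈ fs (gm k) ↔ ∃ q < 4, v = vx k q := by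
  rw [mem_fs]
  unfold gm
  constructor
  · rintro ⟨_, h⟩
    simp only [Nat.testBit_or, Nat.testBit_two_pow, Bool.or_eq_true, decide_eq_true_eq] at h
    rcases h with ((h | h) | h) | h
    · exact ⟨0, by norm_num, h.symm⟩
    · exact ⟨1, by norm_num, h.symm⟩
    · exact ⟨2, by norm_num, h.symm⟩
    · exact ⟨3, by norm_num, h.symm⟩
  · rintro ⟨q, hq, rfl⟩
    refine ⟨vx_lt, ?_⟩
    simp only [Nat.testBit_or, Nat.testBit_two_pow, Bool.or_eq_true, decide_eq_true_eq]
    interval_cases q <;> tauto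

theorem fs_rdg {k q : ℕ} (hq : q < 4) : fs (rdg k q) = (fs (gm k)).erase (vx k q) := by
  ext v
  have hm : vx k q ∈ fs (gm k) := mem_gm.2 ⟨q, hq, rfl⟩
  rw [mem_erase, mem_fs, mem_fs]
  unfold rdg
  rw [Nat.testBit_xor, Nat.testBit_two_pow]
  rw [mem_fs] at hm
  by_cases hv : v = vx k q
  · subst hv; simp [hm.2]
  · have : ¬ vx k q = v := fun h => hv h.symm
    simp [this, hv]

theorem fs_edg {k q0 q : ℕ} (hk : k < nB) (hq0 : q0 < 4) (hq : q < 4) (hne : q0 ≠ q) :
    fs (edg k q0 q) = ((fs (gm k)).erase (vx k q0)).erase (vx k q) := by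
  ext v
  have hm : vx k q ∈ fs (rdg k q0) := by
    rw [fs_rdg hq0, mem_erase]
    exact ⟨fun h => hne (vx_inj hk hq0 hq h.symm), mem_gm.2 ⟨q, hq, rfl⟩⟩
  rw [mem_erase, ← fs_rdg hq0, mem_fs, mem_fs]
  unfold edg
  rw [Nat.testBit_xor, Nat.testBit_two_pow]
  rw [mem_fs] at hm
  by_cases hv : v = vx k q
  · subst hv; simp [hm.2]
  · have : ¬ vx k q = v := fun h => hv h.symm
    simp [this, hv]

theorem fs_sub_of_land {r g : ℕ} (h : Nat.land r g = r) : fs r ⊆ fs g := by
  intro v hv
  rw [mem_fs] at hv ⊢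
  refine ⟨hv.1, ?_⟩
  have h2 : (r &&& g).testBit v = r.testBit v := by
    change (Nat.land r g).testBit v = _
    rw [h]
  rw [Nat.testBit_and, hv.2] at h2
  simpa using h2

theorem land_of_fs_sub {r g : ℕ} (hr : r < 2 ^ 32) (h : fs r ⊆ fs g) : Nat.land r g = r := by
  apply Nat.eq_of_testBit_eq
  intro v
  change (r &&& g).testBit v = _
  rw [Nat.testBit_and]
  by_cases hv : v < 32
  · cases hb : r.testBit v with
    | false => simp
    | true =>
      have := h (mem_fs.2 ⟨hv, hb⟩)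
      rw [mem_fs] at this
      simp [this.2]
  · have : r.testBit v = false := by
      apply Nat.testBit_lt_two_pow
      exact lt_of_lt_of_le hr (Nat.pow_le_pow_right (by norm_num) (not_lt.1 hv))
    simp [this]

theorem two_pow_vx_lt {k q : ℕ} : 2 ^ vx k q < 2 ^ 32 :=
  Nat.pow_lt_pow_right (by norm_num) vx_lt

theorem gm_lt {k : ℕ} : gm k < 2 ^ 32 := by
  unfold gm
  exact Nat.or_lt_two_pow (Nat.or_lt_two_pow (Nat.or_lt_two_pow two_pow_vx_lt two_pow_vx_lt)
    two_pow_vx_lt) two_pow_vx_lt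

theorem rdg_lt {k q : ℕ} : rdg k q < 2 ^ 32 := Nat.xor_lt_two_pow gm_lt two_pow_vx_lt
theorem edg_lt {k q0 q : ℕ} : edg k q0 q < 2 ^ 32 := Nat.xor_lt_two_pow rdg_lt two_pow_vx_lt

theorem fs_16383 : fs 16383 = Finset.range 14 := by decide

/-- the hypothesis: the order `t` of the facets of the ball is a relative shelling -/
def old (t : ℕ → ℕ) (k : ℕ) (σ : Finset ℕ) : Prop :=
  σ ⊆ Finset.range 14 ∨ ∃ i < nB, t i < t k ∧ σ ⊆ fs (gm i)

def RS (t : ℕ → ℕ) : Prop :=
  ∀ k < nB, ∀ σ ⊆ fs (gm k), old t k σ →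
    ∃ v ∈ fs (gm k), σ ⊆ (fs (gm k)).erase v ∧ old t k ((fs (gm k)).erase v)

theorem ridge_spec {k q : ℕ} (hk : k < nB) (hq : q < 4) (hn : nb k q < nB) :
    ¬ (fs (gm k)).erase (vx k q) ⊆ Finset.range 14 ∧
    ∀ i < nB, (fs (gm k)).erase (vx k q) ⊆ fs (gm i) → i = k ∨ i = nb k q := by
  have h := h_ridge
  unfold chkRidge at h
  rw [allLt_iff] at h
  have h2 := h k hk
  rw [allLt_iff] at h2
  have h3 := h2 q hq
  have hn' : Nat.blt (nb k q) nB = true := by rw [Nat.blt_eq]; exact hn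
  rw [hn'] at h3
  simp only [Bool.not_true, Bool.false_or, Bool.and_eq_true, allLt_iff, Bool.or_eq_true,
    Bool.not_eq_true', beq_eq_false_iff_ne, beq_iff_eq] at h3
  constructor
  · intro hs
    rw [← fs_rdg hq, ← fs_16383] at hs
    exact h3.1 (land_of_fs_sub rdg_lt hs)
  · intro i hi hs
    rw [← fs_rdg hq] at hs
    rcases h3.2 i hi with (h4 | h4) | h4
    · exact absurd (land_of_fs_sub rdg_lt hs) h4
    · exact Or.inl h4
    · exact Or.inr h4

theorem not_old_ridge {t : ℕ → ℕ} {k q : ℕ} (hk : k < nB) (hq : q < 4) (hn : nb k q < nB)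
    (hl : t k < t (nb k q)) : ¬ old t k ((fs (gm k)).erase (vx k q)) := by
  have := ridge_spec hk hq hn
  rintro (h | ⟨i, hi, hti, hs⟩)
  · exact this.1 h
  · rcases this.2 i hi hs with h | h
    · subst h; exact lt_irrefl _ hti
    · subst h; omega

theorem new_edge {t : ℕ → ℕ} (hRS : RS t) {k q0 q : ℕ} (hk : k < nB) (hq0 : q0 < 4) (hq : q < 4)
    (hne : q0 ≠ q) (hn0 : nb k q0 < nB) (hn : nb k q < nB) (hl0 : t k < t (nb k q0))
    (hl : t k < t (nb k q)) : ¬ old t k (fs (edg k q0 q)) := by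
  intro ho
  have hsub : fs (edg k q0 q) ⊆ fs (gm k) := by
    rw [fs_edg hk hq0 hq hne]
    exact (erase_subset _ _).trans (erase_subset _ _)
  obtain ⟨v, hv, hs, ho2⟩ := hRS k hk _ hsub ho
  rw [mem_gm] at hv
  obtain ⟨r, hr, rfl⟩ := hv
  by_cases h0 : r = q0
  · subst h0; exact not_old_ridge hk hr hn0 hl0 ho2
  by_cases h1 : r = q
  · subst h1; exact not_old_ridge hk hr hn hl ho2
  · have hmem : vx k r ∈ fs (edg k q0 q) := by
      rw [fs_edg hk hq0 hq hne, mem_erase, mem_erase]
      exact ⟨fun h => h1 (vx_inj hk hr hq h), fun h => h0 (vx_inj hk hr hq0 h),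
        mem_gm.2 ⟨r, hr, rfl⟩⟩
    have := hs hmem
    rw [mem_erase] at this
    exact this.1 rfl

theorem new_edge' {t : ℕ → ℕ} (ht : ∀ i < nB, ∀ j < nB, t i = t j → i = j)
    (hRS : RS t) {k q0 q : ℕ} (hk : k < nB) (hq0 : q0 < 4) (hq : q < 4)
    (hne : q0 ≠ q) (hn0 : nb k q0 < nB) (hn : nb k q < nB) (hl0 : t k < t (nb k q0))
    (hl : t k < t (nb k q)) :
    Nat.land (edg k q0 q) 16383 ≠ edg k q0 q ∧
    ∀ i < nB, Nat.land (edg k q0 q) (gm i) = edg k q0 q → i ≠ k → t k < t i := by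
  have hno := new_edge hRS hk hq0 hq hne hn0 hn hl0 hl
  constructor
  · intro h
    apply hno
    left
    rw [← fs_16383]
    exact fs_sub_of_land h
  · intro i hi h hik
    by_contra hlt
    apply hno
    right
    refine ⟨i, hi, ?_, fs_sub_of_land h⟩
    rcases lt_or_eq_of_le (not_lt.1 hlt) with h1 | h1
    · exact h1
    · exact absurd (ht i hi k hk h1) hik

/-! ### walks -/

theorem walk_head {T : ℕ → ℕ → ℕ → ℕ} {bd e k tgt y f prev i x : ℕ}
    (h : walk T bd e k tgt y f prev i x = true) :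
    i < bd ∧ Nat.land e (gm i) = e ∧ i ≠ k := by
  cases f with
  | zero => simp [walk] at h
  | succ f =>
    simp only [walk, Bool.and_eq_true, Nat.blt_eq, beq_iff_eq, Bool.not_eq_true',
      beq_eq_false_iff_ne] at h
    exact ⟨h.1.1.1, h.1.1.2, h.1.2⟩

theorem exq_lt (e prev i : ℕ) : exq e prev i < 4 := by
  unfold exq
  split_ifs <;> norm_num

theorem walk_sound {T : ℕ → ℕ → ℕ → ℕ} {bd e k tgt y : ℕ} (s : ℕ → ℕ) (A : ℕ → Prop)
    (hA : ∀ i < bd, Nat.land e (gm i) = e → i ≠ k → A i)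
    (hs : ∀ i q, q < 4 → A i → A (nb i q) → s (nb i q) = T i q (s i)) :
    ∀ f prev i x, walk T bd e k tgt y f prev i x = true → s i = x → s tgt = y := by
  intro f
  induction f with
  | zero => intro prev i x h; simp [walk] at h
  | succ f ih =>
    intro prev i x h hx
    have hh := walk_head h
    simp only [walk, Bool.and_eq_true] at h
    have h2 := h.2
    by_cases hi : i = tgt
    · rw [hi] at h2
      simp only [beq_self_eq_true, cond_true, beq_iff_eq] at h2
      rw [← hi, hx, h2]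
    · have hi' : (i == tgt) = false := by simpa using hi
      rw [hi'] at h2
      simp only [cond_false] at h2
      have hh2 := walk_head h2
      apply ih _ _ _ h2
      rw [hs i _ (exq_lt _ _ _) (hA i hh.1 hh.2.1 hh.2.2) (hA _ hh2.1 hh2.2.1 hh2.2.2), hx]

/-! ### partial sections -/

/-- `s` is a section of the local system with transports `T` over the facets in `Dm` of time
at least `m` -/
def OKS (t : ℕ → ℕ) (T : ℕ → ℕ → ℕ → ℕ) (Dm : ℕ → Prop) (m : ℕ) (s : ℕ → ℕ) : Prop :=
  (∀ i, s i < 3) ∧ ∀ i q, q < 4 → Dm i → m ≤ t i → Dm (nb i q) → m ≤ t (nb i q) →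
    s (nb i q) = T i q (s i)

/-- properties of the transports -/
structure GoodT (T : ℕ → ℕ → ℕ → ℕ) : Prop where
  bij : ∀ i < nB, ∀ q < 4, ∀ y < 3, ∃ x < 3, T i q x = y
  inv : ∀ i < nB, ∀ q < 4, nb i q < nB → ∃ q' < 4, nb (nb i q) q' = i ∧
    ∀ x < 3, T i q (T (nb i q) q' x) = x

theorem nb_ne {i q : ℕ} (hi : i < nB) (hq : q < 4) (h : nb i q < nB) : nb i q ≠ i := by
  have h1 := h_sym
  unfold chkSym at h1
  rw [allLt_iff] at h1
  have h2 := h1 i hi
  rw [allLt_iff] at h2
  have h3 := h2 q hq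
  have hn' : Nat.blt (nb i q) nB = true := by rw [Nat.blt_eq]; exact h
  rw [hn'] at h3
  simp only [Bool.not_true, Bool.false_or, Bool.and_eq_true, Bool.not_eq_true',
    beq_eq_false_iff_ne] at h3
  exact h3.1

theorem good_tr : GoodT tr where
  bij := by
    intro i hi q hq y hy
    have h1 := h_bij
    unfold chkBij at h1
    rw [allLt_iff] at h1
    have h2 := h1 i hi
    rw [allLt_iff] at h2
    have h3 := h2 q hq
    rw [allLt_iff] at h3
    have h4 := h3 y hy
    rw [List.any_eq_true] at h4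
    obtain ⟨x, hx, h5⟩ := h4
    exact ⟨x, List.mem_range.1 hx, by simpa using h5⟩
  inv := by
    intro i hi q hq hn
    have h1 := h_sym
    unfold chkSym at h1
    rw [allLt_iff] at h1
    have h2 := h1 i hi
    rw [allLt_iff] at h2
    have h3 := h2 q hq
    have hn' : Nat.blt (nb i q) nB = true := by rw [Nat.blt_eq]; exact hn
    rw [hn'] at h3
    simp only [Bool.not_true, Bool.false_or, Bool.and_eq_true, List.any_eq_true,
      List.mem_range, allLt_iff, beq_iff_eq] at h3
    obtain ⟨q', hq', h4, h5⟩ := h3.2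
    exact ⟨q', hq', h4, h5⟩

theorem good_triv : GoodT triv where
  bij := fun i _ q _ y hy => ⟨y, hy, rfl⟩
  inv := by
    intro i hi q hq hn
    obtain ⟨q', hq', h, _⟩ := good_tr.inv i hi q hq hn
    exact ⟨q', hq', h, fun x _ => rfl⟩

/-- the extension step -/
theorem ext_step {t : ℕ → ℕ} (ht : ∀ i < nB, ∀ j < nB, t i = t j → i = j)
    {T : ℕ → ℕ → ℕ → ℕ} (hT : GoodT T) {Dm : ℕ → Prop} (hD : ∀ i, Dm i → i < nB)
    {k m : ℕ} (hk : Dm k) (hm : t k = m) {s : ℕ → ℕ} (hs : OKS t T Dm (m + 1) s)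
    (hag : ∀ q0 < 4, ∀ q < 4, q0 ≠ q → Dm (nb k q0) → m + 1 ≤ t (nb k q0) →
      Dm (nb k q) → m + 1 ≤ t (nb k q) →
      ∀ x < 3, s (nb k q0) = T k q0 x → s (nb k q) = T k q x)
    {x0 : ℕ} (hx0 : x0 < 3) :
    ∃ x < 3, OKS t T Dm m (Function.update s k x) ∧
      (∀ q < 4, Dm (nb k q) → m + 1 ≤ t (nb k q) → s (nb k q) = T k q x) ∧
      ((∀ q < 4, Dm (nb k q) → ¬ m + 1 ≤ t (nb k q)) → x = x0) := by
  have hx : ∃ x < 3, (∀ q < 4, Dm (nb k q) → m + 1 ≤ t (nb k q) → s (nb k q) = T k q x) ∧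
      ((∀ q < 4, Dm (nb k q) → ¬ m + 1 ≤ t (nb k q)) → x = x0) := by
    by_cases h : ∃ q0 < 4, Dm (nb k q0) ∧ m + 1 ≤ t (nb k q0)
    · obtain ⟨q0, hq0, hd, hl⟩ := h
      obtain ⟨x, hx, hxe⟩ := hT.bij k (hD k hk) q0 hq0 (s (nb k q0)) (hs.1 _)
      refine ⟨x, hx, ?_, ?_⟩
      · intro q hq hdq hlq
        by_cases hqq : q0 = q
        · subst hqq; exact hxe.symm
        · exact hag q0 hq0 q hq hqq hd hl hdq hlq x hx hxe.symm
      · intro h; exact absurd hl (h q0 hq0 hd)
    · push Not at h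
      refine ⟨x0, hx0, ?_, fun _ => rfl⟩
      intro q hq hdq hlq
      exact absurd hlq (not_le.2 (h q hq hdq))
  obtain ⟨x, hx, hx1, hx2⟩ := hx
  refine ⟨x, hx, ⟨?_, ?_⟩, hx1, hx2⟩
  · intro i
    by_cases hik : i = k
    · subst hik; rw [Function.update_self]; exact hx
    · rw [Function.update_of_ne hik]; exact hs.1 i
  · intro i q hq hdi hli hdj hlj
    have hkB := hD k hk
    have hiB := hD i hdi
    have hjB := hD _ hdj
    by_cases hik : i = k
    · subst hik
      have hne : nb i q ≠ i := nb_ne hkB hq hjB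
      rw [Function.update_self, Function.update_of_ne hne]
      apply hx1 q hq hdj
      have : t (nb i q) ≠ t i := fun h => hne (ht _ hjB _ hkB h)
      omega
    · rw [Function.update_of_ne hik]
      have hli' : m + 1 ≤ t i := by
        have : t i ≠ t k := fun h => hik (ht _ hiB _ hkB h)
        omega
      by_cases hjk : nb i q = k
      · rw [hjk, Function.update_self]
        obtain ⟨q', hq', h1, h2⟩ := hT.inv i hiB q hq hjB
        rw [hjk] at h1 h2
        have h3 := hx1 q' hq' (by rw [h1]; exact hdi) (by rw [h1]; exact hli')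
        rw [h1] at h3
        rw [h3, h2 x hx]
      · rw [Function.update_of_ne hjk]
        have : t (nb i q) ≠ t k := fun h => hjk (ht _ hjB _ hkB h)
        exact hs.2 i q hq hdi hli' hdj (by omega)

theorem oks_mono_none {t : ℕ → ℕ} {T : ℕ → ℕ → ℕ → ℕ} {Dm : ℕ → Prop} {m : ℕ} {s : ℕ → ℕ}
    (hno : ∀ i, Dm i → t i ≠ m) (hs : OKS t T Dm (m + 1) s) : OKS t T Dm m s := by
  refine ⟨hs.1, fun i q hq hdi hli hdj hlj => ?_⟩
  have h1 := hno i hdi
  have h2 := hno _ hdj
  exact hs.2 i q hq hdi (by omega) hdj (by omega)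

theorem walk_spec {k q0 q : ℕ} (hk : k < nB) (hq0 : q0 < 4) (hq : q < 4) (hne : q0 ≠ q)
    (hn0 : nb k q0 < nB) (hn : nb k q < nB)
    (he : Nat.land (edg k q0 q) 16383 ≠ edg k q0 q) :
    (nb k q0 < nW ∧ nb k q < nW ∧ k < nW) ∨
    ∀ x < 3, walk tr nB (edg k q0 q) k (nb k q) (tr k q x) 30 k (nb k q0) (tr k q0 x) = true := by
  have h := h_walk
  unfold chkWalk at h
  rw [allLt_iff] at h
  have h2 := h k hk
  rw [allLt_iff] at h2
  have h3 := h2 q0 hq0
  rw [allLt_iff] at h3
  have h4 := h3 q hq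
  have a1 : Nat.blt (nb k q0) nB = true := by rw [Nat.blt_eq]; exact hn0
  have a2 : Nat.blt (nb k q) nB = true := by rw [Nat.blt_eq]; exact hn
  have a3 : (q0 == q) = false := by simpa using hne
  have a4 : (Nat.land (edg k q0 q) 16383 == edg k q0 q) = false := by simpa using he
  rw [a1, a2, a3, a4] at h4
  simp only [Bool.not_true, Bool.false_or, Bool.or_false, Bool.or_eq_true, Bool.and_eq_true,
    allLt_iff, Nat.blt_eq] at h4
  rcases h4 with h4 | h4
  · left; exact ⟨h4.1.1.2, h4.1.2, h4.2⟩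
  · right; exact h4

theorem walkW_spec {k q0 q : ℕ} (hk : k < nW) (hq0 : q0 < 4) (hq : q < 4) (hne : q0 ≠ q)
    (hn0 : nb k q0 < nW) (hn : nb k q < nW) :
    ∀ x < 3, walk triv nW (edg k q0 q) k (nb k q) x 30 k (nb k q0) x = true := by
  have h := h_walkW
  unfold chkWalkW at h
  rw [allLt_iff] at h
  have h2 := h k hk
  rw [allLt_iff] at h2
  have h3 := h2 q0 hq0
  rw [allLt_iff] at h3
  have h4 := h3 q hq
  have a1 : Nat.blt (nb k q0) nW = true := by rw [Nat.blt_eq]; exact hn0
  have a2 : Nat.blt (nb k q) nW = true := by rw [Nat.blt_eq]; exact hn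
  have a3 : (q0 == q) = false := by simpa using hne
  rw [a1, a2, a3] at h4
  simp only [Bool.not_true, Bool.false_or, allLt_iff] at h4
  exact h4

theorem nW_lt_nB : nW < nB := by decide

theorem w0_spec {i q : ℕ} (hi : i < nW) (hq : q < 4) (hn : nb i q < nW) {x : ℕ} (hx : x < 3) :
    tr i q x = 0 ↔ x = 0 := by
  have h := h_w0
  unfold chkW0 at h
  rw [allLt_iff] at h
  have h2 := h i hi
  rw [allLt_iff] at h2
  have h3 := h2 q hq
  have a1 : Nat.blt (nb i q) nW = true := by rw [Nat.blt_eq]; exact hn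
  rw [a1] at h3
  simp only [Bool.not_true, Bool.false_or, Bool.and_eq_true, Bool.not_eq_true',
    beq_eq_false_iff_ne, beq_iff_eq] at h3
  interval_cases x
  · simp [h3.1.1]
  · simp [h3.1.2]
  · simp [h3.2]

theorem wconn {s : ℕ → ℕ} (hs : ∀ i < nW, ∀ q < 4, nb i q < nW → s (nb i q) = s i) :
    ∀ i, i < nW → s i = s 0 := by
  intro i
  induction i using Nat.strong_induction_on with
  | _ i ih =>
    intro hi
    have h := h_wconn
    unfold chkWconn at h
    rw [allLt_iff] at h
    have h2 := h i hi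
    simp only [Bool.or_eq_true, beq_iff_eq, List.any_eq_true, List.mem_range, Nat.blt_eq] at h2
    rcases h2 with h2 | ⟨q, hq, hlt⟩
    · rw [h2]
    · rw [← hs i hi q hq (lt_trans hlt hi)]
      exact ih _ hlt (lt_trans hlt hi)

/-- every facet containing 14 except the latest one has a later neighbour containing 14 -/
theorem lemmaD {t : ℕ → ℕ} (ht : ∀ i < nB, ∀ j < nB, t i = t j → i = j) (hRS : RS t)
    {l k : ℕ} (hl : l < nW) (hlast : ∀ i < nW, t i ≤ t l) (hk : k < nW) (hkl : k ≠ l) :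
    ∃ q < 4, nb k q < nW ∧ t k < t (nb k q) := by
  by_contra hcon
  push Not at hcon
  have htkl : t k < t l := by
    rcases lt_or_eq_of_le (hlast k hk) with h | h
    · exact h
    · exact absurd (ht k (hk.trans nW_lt_nB) l (hl.trans nW_lt_nB) h) hkl
  have key : ∀ d, d ≤ t k → ∃ s, OKS t triv (· < nW) (t k - d) s ∧ s k = 1 ∧ s l = 0 := by
    intro d
    induction d with
    | zero =>
      intro _
      refine ⟨fun i => if i = k then 1 else 0, ⟨?_, ?_⟩, by simp, by simp [Ne.symm hkl]⟩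
      · intro i; dsimp only; split_ifs <;> norm_num
      · intro i q hq hi hli hj hlj
        have hiB := hi.trans nW_lt_nB
        have hjB := hj.trans nW_lt_nB
        have hkB := hk.trans nW_lt_nB
        have hne := nb_ne hiB hq hjB
        simp only [Nat.sub_zero] at hli hlj
        unfold triv
        by_cases hik : i = k
        · exfalso
          subst hik
          have h1 := hcon q hq hj
          have : t (nb i q) = t i := le_antisymm h1 hlj
          exact hne (ht _ hjB _ hiB this)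
        · by_cases hjk : nb i q = k
          · exfalso
            obtain ⟨q', hq', h1, _⟩ := good_tr.inv i hiB q hq hjB
            rw [hjk] at h1
            have h2 := hcon q' hq' (by rw [h1]; exact hi)
            rw [h1] at h2
            exact hik (ht _ hiB _ hkB (le_antisymm h2 hli))
          · simp [hik, hjk]
    | succ d ih =>
      intro hd
      obtain ⟨s, hs, hsk, hsl⟩ := ih (by omega)
      have hm : t k - d = (t k - (d + 1)) + 1 := by omega
      rw [hm] at hs
      set m := t k - (d + 1) with hmdef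
      by_cases hex : ∃ k', k' < nW ∧ t k' = m
      · obtain ⟨k', hk', hk'm⟩ := hex
        have hk'B := hk'.trans nW_lt_nB
        have hag : ∀ q0 < 4, ∀ q < 4, q0 ≠ q → nb k' q0 < nW → m + 1 ≤ t (nb k' q0) →
            nb k' q < nW → m + 1 ≤ t (nb k' q) →
            ∀ x < 3, s (nb k' q0) = triv k' q0 x → s (nb k' q) = triv k' q x := by
          intro q0 hq0 q hq hne hn0 hl0 hn hl1 x hx hxe
          have he := new_edge' ht hRS hk'B hq0 hq hne (hn0.trans nW_lt_nB) (hn.trans nW_lt_nB)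
            (by omega) (by omega)
          have hw := walkW_spec hk' hq0 hq hne hn0 hn x hx
          unfold triv at hxe ⊢
          refine walk_sound s (fun i => i < nW ∧ m + 1 ≤ t i) ?_ ?_ _ _ _ _ hw hxe
          · intro i hi hie hik
            have := he.2 i (hi.trans nW_lt_nB) hie hik
            exact ⟨hi, by omega⟩
          · intro i q hq hi hj
            exact hs.2 i q hq hi.1 hi.2 hj.1 hj.2
        obtain ⟨x, hx, h1, _, _⟩ := ext_step ht good_triv
          (Dm := (· < nW)) (fun i hi => lt_trans hi nW_lt_nB) hk' hk'm hs hag (x0 := 0) (by norm_num)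
        refine ⟨_, h1, ?_, ?_⟩
        · rw [Function.update_of_ne, hsk]
          rintro rfl; omega
        · rw [Function.update_of_ne, hsl]
          rintro rfl; omega
      · push Not at hex
        exact ⟨s, oks_mono_none (fun i hi => hex i hi) hs, hsk, hsl⟩
  obtain ⟨s, hs, hsk, hsl⟩ := key (t k) le_rfl
  rw [Nat.sub_self] at hs
  have hc := wconn (s := s) (fun i hi q hq hj => hs.2 i q hq hi (Nat.zero_le _) hj (Nat.zero_le _))
  have h1 := hc k hk
  have h2 := hc l hl
  omega

theorem run_sound {s : ℕ → ℕ} (hs : ∀ i < nB, ∀ q < 4, nb i q < nB → s (nb i q) = tr i q (s i))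
    (x0 : ℕ) : ∀ (l : List ℕ) (i x : ℕ), i < nB → s i = x → runOK x0 l i x = true → s 0 ≠ x0 := by
  intro l
  induction l with
  | nil =>
    intro i x _ hx h
    simp only [runOK, Bool.and_eq_true, beq_iff_eq, Bool.not_eq_true', beq_eq_false_iff_ne] at h
    rw [← h.1, hx]; exact h.2
  | cons q l ih =>
    intro i x hi hx h
    simp only [runOK, Bool.and_eq_true, Nat.blt_eq] at h
    refine ih _ _ h.1.2 ?_ h.2
    rw [hs i hi q h.1.1 h.1.2, hx]

theorem no_section (s : ℕ → ℕ) (h3 : s 0 < 3)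
    (hs : ∀ i < nB, ∀ q < 4, nb i q < nB → s (nb i q) = tr i q (s i)) : False := by
  have h := h_run
  unfold chkRun at h
  rw [allLt_iff] at h
  exact run_sound hs (s 0) pathL 0 (s 0) (by decide) rfl (h _ h3) rfl

theorem agree_tr {t : ℕ → ℕ} (ht : ∀ i < nB, ∀ j < nB, t i = t j → i = j) (hRS : RS t)
    {k m : ℕ} (hk : k < nB) (hkm : t k = m) {s : ℕ → ℕ} (hs : OKS t tr (· < nB) (m + 1) s)
    {q0 q : ℕ} (hq0 : q0 < 4) (hq : q < 4) (hne : q0 ≠ q)
    (hn0 : nb k q0 < nB) (hl0 : m + 1 ≤ t (nb k q0))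
    (hn : nb k q < nB) (hl : m + 1 ≤ t (nb k q)) :
    (nb k q0 < nW ∧ nb k q < nW ∧ k < nW) ∨
    ∀ x < 3, s (nb k q0) = tr k q0 x → s (nb k q) = tr k q x := by
  have he := new_edge' ht hRS hk hq0 hq hne hn0 hn (by omega) (by omega)
  rcases walk_spec hk hq0 hq hne hn0 hn he.1 with h | h
  · exact Or.inl h
  · right
    intro x hx hxe
    refine walk_sound s (fun i => i < nB ∧ m + 1 ≤ t i) ?_ ?_ _ _ _ _ (h x hx) hxe
    · intro i hi hie hik
      have := he.2 i hi hie hik
      exact ⟨hi, by omega⟩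
    · intro i q hq hi hj
      exact hs.2 i q hq hi.1 hi.2 hj.1 hj.2

theorem tr_inj {i q : ℕ} (hi : i < nB) (hq : q < 4) {x x' : ℕ} (hx : x < 3) (hx' : x' < 3)
    (h : tr i q x = tr i q x') : x = x' := by
  have h1 := h_inj
  unfold chkInj at h1
  rw [allLt_iff] at h1
  have h2 := h1 i hi
  rw [allLt_iff] at h2
  have h3 := h2 q hq
  simp only [Bool.and_eq_true, Bool.not_eq_true', beq_eq_false_iff_ne] at h3
  obtain ⟨⟨a, b⟩, c⟩ := h3
  interval_cases x <;> interval_cases x' <;>
    first | rfl | (exfalso; omega)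

/-- Stage 1 -/
theorem stage1 {t : ℕ → ℕ} (ht : ∀ i < nB, ∀ j < nB, t i = t j → i = j) (hRS : RS t)
    {l M : ℕ} (hlast : ∀ i < nW, t i ≤ t l) (hM : ∀ i < nB, t i < M) :
    ∀ d, ∀ m, m + d = M → t l ≤ m →
      (∃ s, OKS t tr (· < nB) m s) ∧
      ∀ k0 x0, k0 < nB → m ≤ t k0 → x0 < 3 → ∃ s, OKS t tr (· < nB) m s ∧ s k0 = x0 := by
  intro d
  induction d with
  | zero =>
    intro m hm _
    refine ⟨⟨fun _ => 0, fun _ => by norm_num, ?_⟩, ?_⟩
    · intro i q hq hi hli _ _
      have := hM i hi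
      omega
    · intro k0 x0 hk0 hl0 _
      have := hM k0 hk0
      omega
  | succ d ih =>
    intro m hm hlm
    obtain ⟨⟨s1, hs1⟩, h2⟩ := ih (m + 1) (by omega) (by omega)
    by_cases hex : ∃ k, k < nB ∧ t k = m
    · obtain ⟨k, hk, hkm⟩ := hex
      have hag : ∀ s, OKS t tr (· < nB) (m + 1) s →
          ∀ q0 < 4, ∀ q < 4, q0 ≠ q → nb k q0 < nB → m + 1 ≤ t (nb k q0) →
            nb k q < nB → m + 1 ≤ t (nb k q) →
            ∀ x < 3, s (nb k q0) = tr k q0 x → s (nb k q) = tr k q x := by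
        intro s hs q0 hq0 q hq hne hn0 hl0 hn hl
        rcases agree_tr ht hRS hk hkm hs hq0 hq hne hn0 hl0 hn hl with h | h
        · have := hlast _ h.1
          omega
        · exact h
      constructor
      · obtain ⟨x, _, h3, _⟩ := ext_step ht good_tr (Dm := (· < nB)) (fun i hi => hi) hk hkm hs1
          (hag s1 hs1) (x0 := 0) (by norm_num)
        exact ⟨_, h3⟩
      · intro k0 x0 hk0 hl0 hx0
        by_cases hkk : k0 = k
        · subst hkk
          by_cases hnb : ∃ q < 4, nb k0 q < nB ∧ m + 1 ≤ t (nb k0 q)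
          · obtain ⟨q, hq, hn, hl⟩ := hnb
            have hTlt : tr k0 q x0 < 3 := Nat.mod_lt _ (by norm_num)
            obtain ⟨s, hs, hse⟩ := h2 (nb k0 q) (tr k0 q x0) hn hl hTlt
            obtain ⟨x, hx, h3, h4, _⟩ := ext_step ht good_tr (Dm := (· < nB)) (fun i hi => hi) hk hkm hs
              (hag s hs) (x0 := 0) (by norm_num)
            refine ⟨_, h3, ?_⟩
            rw [Function.update_self]
            have h5 := h4 q hq hn hl
            rw [hse] at h5
            -- injectivity of tr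
            exact (tr_inj hk hq hx0 hx h5).symm
          · push Not at hnb
            obtain ⟨x, hx, h3, _, h5⟩ := ext_step ht good_tr (Dm := (· < nB)) (fun i hi => hi) hk hkm hs1
              (hag s1 hs1) hx0
            refine ⟨_, h3, ?_⟩
            rw [Function.update_self]
            exact h5 (fun q hq hn => not_le.2 (hnb q hq hn))
        · have hl0' : m + 1 ≤ t k0 := by
            have : t k0 ≠ t k := fun h => hkk (ht _ hk0 _ hk h)
            omega
          obtain ⟨s, hs, hse⟩ := h2 k0 x0 hk0 hl0' hx0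
          obtain ⟨x, hx, h3, _, _⟩ := ext_step ht good_tr (Dm := (· < nB)) (fun i hi => hi) hk hkm hs
            (hag s hs) (x0 := 0) (by norm_num)
          refine ⟨_, h3, ?_⟩
          rw [Function.update_of_ne hkk, hse]
    · push Not at hex
      constructor
      · exact ⟨s1, oks_mono_none (fun i hi => hex i hi) hs1⟩
      · intro k0 x0 hk0 hl0 hx0
        have : t k0 ≠ m := hex k0 hk0
        obtain ⟨s, hs, hse⟩ := h2 k0 x0 hk0 (by omega) hx0
        exact ⟨s, oks_mono_none (fun i hi => hex i hi) hs, hse⟩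

theorem stage2 {t : ℕ → ℕ} (ht : ∀ i < nB, ∀ j < nB, t i = t j → i = j) (hRS : RS t)
    {l : ℕ} (hl : l < nW) (hlast : ∀ i < nW, t i ≤ t l)
    (hbase : ∃ s, OKS t tr (· < nB) (t l) s ∧ s l = 0) :
    ∀ d, d ≤ t l → ∃ s, OKS t tr (· < nB) (t l - d) s ∧
      ∀ i < nW, t l - d ≤ t i → s i = 0 := by
  intro d
  induction d with
  | zero =>
    intro _
    obtain ⟨s, hs, hsl⟩ := hbase
    refine ⟨s, hs, ?_⟩
    intro i hi hli
    have : t i = t l := le_antisymm (hlast i hi) (by simpa using hli)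
    rw [ht i (hi.trans nW_lt_nB) l (hl.trans nW_lt_nB) this, hsl]
  | succ d ih =>
    intro hd
    obtain ⟨s, hs, hsW⟩ := ih (by omega)
    have hm : t l - d = (t l - (d + 1)) + 1 := by omega
    rw [hm] at hs hsW
    have hml : t l - (d + 1) < t l := by omega
    generalize t l - (d + 1) = m at hs hsW hml ⊢
    by_cases hex : ∃ k, k < nB ∧ t k = m
    · obtain ⟨k, hk, hkm⟩ := hex
      have hag : ∀ q0 < 4, ∀ q < 4, q0 ≠ q → nb k q0 < nB → m + 1 ≤ t (nb k q0) →
            nb k q < nB → m + 1 ≤ t (nb k q) →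
            ∀ x < 3, s (nb k q0) = tr k q0 x → s (nb k q) = tr k q x := by
        intro q0 hq0 q hq hne hn0 hl0 hn hlq x hx hxe
        rcases agree_tr ht hRS hk hkm hs hq0 hq hne hn0 hl0 hn hlq with h | h
        · have h1 := hsW _ h.1 hl0
          have h2 := hsW _ h.2.1 hlq
          rw [h1] at hxe
          rw [h2]
          have hx0 := (w0_spec h.2.2 hq0 h.1 hx).1 hxe.symm
          subst hx0
          exact ((w0_spec h.2.2 hq h.2.1 (by norm_num)).2 rfl).symm
        · exact h x hx hxe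
      obtain ⟨x, hx, h3, h4, _⟩ := ext_step ht good_tr (Dm := (· < nB)) (fun i hi => hi) hk hkm hs
        hag (x0 := 0) (by norm_num)
      refine ⟨_, h3, ?_⟩
      intro i hi hli
      by_cases hik : i = k
      · subst hik
        rw [Function.update_self]
        have hil : i ≠ l := by rintro rfl; omega
        obtain ⟨q, hq, hn, hlt⟩ := lemmaD ht hRS hl hlast hi hil
        have h5 := h4 q hq (hn.trans nW_lt_nB) (by omega)
        rw [hsW _ hn (by omega)] at h5
        exact (w0_spec hi hq hn hx).1 h5.symm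
      · rw [Function.update_of_ne hik]
        apply hsW i hi
        have : t i ≠ t k := fun h => hik (ht _ (hi.trans nW_lt_nB) _ hk h)
        omega
    · push Not at hex
      refine ⟨s, oks_mono_none (fun i hi => hex i hi) hs, ?_⟩
      intro i hi hli
      apply hsW i hi
      have := hex i (hi.trans nW_lt_nB)
      omega

/-- The ball has no relative shelling. -/
theorem no_RS (t : ℕ → ℕ) (ht : ∀ i < nB, ∀ j < nB, t i = t j → i = j) : ¬ RS t := by
  intro hRS
  obtain ⟨l, hl, hlast⟩ : ∃ l, l < nW ∧ ∀ i < nW, t i ≤ t l := by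
    obtain ⟨l, hl, h⟩ := Finset.exists_max_image (Finset.range nW) t ⟨0, by decide⟩
    exact ⟨l, Finset.mem_range.1 hl, fun i hi => h i (Finset.mem_range.2 hi)⟩
  obtain ⟨M, hM⟩ : ∃ M, ∀ i < nB, t i < M := by
    refine ⟨((Finset.range nB).sup t) + 1, fun i hi => ?_⟩
    exact Nat.lt_succ_of_le (Finset.le_sup (f := t) (Finset.mem_range.2 hi))
  have hlB := hl.trans nW_lt_nB
  have h1 := stage1 ht hRS hlast hM (M - t l) (t l) (by have := hM l hlB; omega) le_rfl
  have hb := h1.2 l 0 hlB le_rfl (by norm_num)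
  obtain ⟨s, hs, _⟩ := stage2 ht hRS hl hlast hb (t l) le_rfl
  rw [Nat.sub_self] at hs
  exact no_section s (hs.1 0)
    (fun i hi q hq hj => hs.2 i q hq hi (Nat.zero_le _) hj (Nat.zero_le _))

end Q152Ear
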