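import Pool.Agent.Q152.EarC

/-! The polytope `S` and the ball `B`. -/

namespace Q152Ear

open Finset Matrix

/-- facets of the boundary complex of the polytope -/
def SS : Finset (Finset ℕ) := (Finset.range nS).image fun i => fs (sm i)
/-- facets of the ball -/
def BB : Finset (Finset ℕ) := (Finset.range nB).image fun i => fs (gm i)

theorem sm_lt {i : ℕ} : sm i < 2 ^ 23 := by
  unfold sm; exact Nat.mod_lt _ (by norm_num)

theorem sm_eq_gm {i : ℕ} (hi : i < nB) : sm i = gm i := by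
  have h := h_SB
  unfold chkSB at h
  rw [allLt_iff] at h
  have h2 := h i (hi.trans (by decide))
  have h3 : Nat.blt i nB = true := by rw [Nat.blt_eq]; exact hi
  rw [h3] at h2
  simpa using h2

theorem sm_inner {i : ℕ} (hi : i < nS) (hi' : ¬ i < nB) : fs (sm i) ⊆ Finset.range 14 := by
  have h := h_SB
  unfold chkSB at h
  rw [allLt_iff] at h
  have h2 := h i hi
  have h3 : Nat.blt i nB = false := by
    rw [← Bool.not_eq_true, Nat.blt_eq]; exact hi'
  rw [h3] at h2
  simp only [cond_false, beq_iff_eq] at h2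
  rw [← fs_16383]
  exact fs_sub_of_land h2

theorem mem_range23 {i v : ℕ} (hv : v ∈ fs (sm i)) : v < 23 := by
  rw [mem_fs] at hv
  by_contra h
  have : (sm i).testBit v = false := by
    apply Nat.testBit_lt_two_pow
    exact lt_of_lt_of_le sm_lt (Nat.pow_le_pow_right (by norm_num) (not_lt.1 h))
  rw [this] at hv
  simp at hv

theorem fs_erase {m v : ℕ} (hv : v ∈ fs m) : fs (m ^^^ 2 ^ v) = (fs m).erase v := by
  ext u
  rw [mem_erase, mem_fs, mem_fs, Nat.testBit_xor, Nat.testBit_two_pow]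
  rw [mem_fs] at hv
  by_cases hu : u = v
  · subst hu; simp [hv.2]
  · have : ¬ v = u := fun h => hu h.symm
    simp [this, hu]

theorem poly_check {i v : ℕ} (hi : i < nS) (hv : v < 23) :
    0 < A i 4 ∧ ((sm i).testBit v = true →
      A i 0 * PT v 0 + A i 1 * PT v 1 + A i 2 * PT v 2 + A i 3 * PT v 3 = A i 4) ∧
    ((sm i).testBit v = false →
      A i 0 * PT v 0 + A i 1 * PT v 1 + A i 2 * PT v 2 + A i 3 * PT v 3 < A i 4) := by
  have h := h_poly
  unfold chkPoly at h
  rw [allLt_iff] at h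
  have h2 := h i hi
  rw [Bool.and_eq_true, allLt_iff] at h2
  have h3 := h2.2 v hv
  refine ⟨by simpa using h2.1, ?_, ?_⟩
  · intro hb
    rw [hb] at h3
    simpa using h3
  · intro hb
    rw [hb] at h3
    simpa using h3

theorem ridge_check {i v : ℕ} (hi : i < nS) (hv : v ∈ fs (sm i)) :
    ∃ j < nS, (fs (sm i)).erase v ⊆ fs (sm j) ∧ v ∉ fs (sm j) := by
  have h := h_ridgeS
  unfold chkRidgeS at h
  rw [allLt_iff] at h
  have h2 := h i hi
  rw [allLt_iff] at h2
  have h3 := h2 v (mem_range23 hv)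
  have hb : (sm i).testBit v = true := (mem_fs.1 hv).2
  rw [hb] at h3
  simp only [Bool.not_true, Bool.false_or, List.any_eq_true, List.mem_range,
    Bool.and_eq_true, Bool.not_eq_true', beq_iff_eq] at h3
  obtain ⟨j, hj, h4, h5⟩ := h3
  refine ⟨j, hj, ?_, ?_⟩
  · rw [← fs_erase hv]
    exact fs_sub_of_land h5
  · intro h6
    rw [mem_fs, h4] at h6
    simp at h6

theorem card_check {i : ℕ} (hi : i < nS) : (fs (sm i)).card = 4 := by
  have h := h_card
  unfold chkCard at h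
  rw [allLt_iff] at h
  simpa using h i hi

theorem dot4 (f g : ℕ → ℤ) :
    (fun k : Fin 4 => (f k : ℝ)) ⬝ᵥ (fun k : Fin 4 => (g k : ℝ)) =
      ((f 0 * g 0 + f 1 * g 1 + f 2 * g 2 + f 3 * g 3 : ℤ) : ℝ) := by
  simp [dotProduct, Fin.sum_univ_four]

theorem poly_SS_aux (n : ℕ) (hn : n = nS) :
    IsPolytopeBoundary 4 ((Finset.range n).image fun i => fs (sm i)) := by
  have c0 : ∀ i ∈ Finset.range n, i < nS := fun i hi => hn ▸ Finset.mem_range.1 hi
  have c1 : ∀ i ∈ Finset.range n, (fs (sm i)).card = 4 :=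
    fun i hi => card_check (c0 i hi)
  have c2 : ∀ i ∈ Finset.range n, (0 : ℝ) < (A i 4 : ℝ) := by
    intro i hi
    have := (poly_check (c0 i hi) (v := 0) (by norm_num)).1
    exact Int.cast_pos.2 this
  have c3 : ∀ i ∈ Finset.range n, ∀ v ∈ fs (sm i),
      (fun k : Fin 4 => (A i k : ℝ)) ⬝ᵥ (fun k : Fin 4 => (PT v k : ℝ)) = (A i 4 : ℝ) := by
    intro i hi v hv
    have h1 : v < 23 := mem_range23 hv
    have h2 : (sm i).testBit v = true := (mem_fs.1 hv).2
    have h := (poly_check (c0 i hi) h1).2.1 h2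
    rw [dot4 (A i) (PT v)]
    exact congrArg _ h
  have c4 : ∀ i ∈ Finset.range n, ∀ v ∈ (Finset.range n).biUnion (fun i => fs (sm i)),
      v ∉ fs (sm i) →
      (fun k : Fin 4 => (A i k : ℝ)) ⬝ᵥ (fun k : Fin 4 => (PT v k : ℝ)) < (A i 4 : ℝ) := by
    intro i hi v hv hvi
    obtain ⟨j, _, hvj⟩ := Finset.mem_biUnion.1 hv
    have hv23 := mem_range23 hvj
    have hb : (sm i).testBit v = false := by
      rw [← Bool.not_eq_true]
      intro hb
      exact hvi (mem_fs.2 ⟨by omega, hb⟩)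
    have h := (poly_check (c0 i hi) hv23).2.2 hb
    rw [dot4 (A i) (PT v)]
    exact Int.cast_lt.2 h
  have c5 : ∀ i ∈ Finset.range n, ∀ v ∈ fs (sm i),
      ∃ j ∈ Finset.range n, (fs (sm i)).erase v ⊆ fs (sm j) ∧ v ∉ fs (sm j) := by
    intro i hi v hv
    obtain ⟨j, hj, h1, h2⟩ := ridge_check (c0 i hi) hv
    exact ⟨j, Finset.mem_range.2 (hn ▸ hj), h1, h2⟩
  have hne : (Finset.range n).Nonempty := ⟨0, Finset.mem_range.2 (by rw [hn]; decide)⟩
  exact poly_cert (by norm_num) (Finset.range n) hne (fun i => fs (sm i))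
    (fun v k => (PT v k : ℝ)) (fun i k => (A i k : ℝ)) (fun i => (A i 4 : ℝ)) c1 c2 c3 c4 c5

theorem poly_SS : IsPolytopeBoundary 4 SS := poly_SS_aux nS rfl

/-! ### the ball -/

/-- the facet family given by a list of masks -/
def toC (K : List ℕ) : Finset (Finset ℕ) := (K.map fs).toFinset

theorem mem_toC {K : List ℕ} {σ : Finset ℕ} : σ ∈ toC K ↔ ∃ m ∈ K, fs m = σ := by
  simp [toC]

theorem land_self_sub {r g : ℕ} (hr : r < 2 ^ 23) : fs r ⊆ fs g ↔ Nat.land r g = r :=
  ⟨fun h => land_of_fs_sub (lt_trans hr (by norm_num)) h, fs_sub_of_land⟩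

theorem fs_inj {r g : ℕ} (hr : r < 2 ^ 23) (hg : g < 2 ^ 23) (h : fs r = fs g) : r = g := by
  have h1 := (land_self_sub (g := g) hr).1 h.subset
  have h2 := (land_self_sub (g := r) hg).1 h.symm.subset
  have h3 : r &&& g = g &&& r := Nat.and_comm r g
  change Nat.land r g = Nat.land g r at h3
  rw [h1, h2] at h3
  exact h3

theorem mem_fs_lt {m v : ℕ} (hm : m < 2 ^ 23) (hv : v ∈ fs m) : v < 23 := by
  rw [mem_fs] at hv
  by_contra h
  have : m.testBit v = false := by
    apply Nat.testBit_lt_two_pow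
    exact lt_of_lt_of_le hm (Nat.pow_le_pow_right (by norm_num) (not_lt.1 h))
  rw [this] at hv
  simp at hv

theorem xor_lt {m v : ℕ} (hm : m < 2 ^ 23) (hv : v < 23) : m ^^^ 2 ^ v < 2 ^ 23 :=
  Nat.xor_lt_two_pow hm (Nat.pow_lt_pow_right (by norm_num) hv)

theorem mem_faces_toC {K : List ℕ} {σ : Finset ℕ} : σ ∈ faces (toC K) ↔ ∃ m ∈ K, σ ⊆ fs m := by
  unfold faces
  simp only [Set.mem_ofPred_eq, mem_toC]
  constructor
  · rintro ⟨_, ⟨m, hm, rfl⟩, hσ⟩; exact ⟨m, hm, hσ⟩
  · rintro ⟨m, hm, hσ⟩; exact ⟨_, ⟨m, hm, rfl⟩, hσ⟩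

theorem attach_sound {K : List ℕ} {G R : ℕ} (hK : IsBall 4 (toC K)) (_hKb : ∀ m ∈ K, m < 2 ^ 23)
    (h : attachOK K G R = true) : IsBall 4 (toC (G :: K)) ∧ G < 2 ^ 23 := by
  simp only [attachOK, Bool.and_eq_true, Bool.not_eq_true', beq_eq_false_iff_ne,
    beq_iff_eq, Nat.blt_eq, allLt_iff, List.all_eq_true, Bool.or_eq_true, List.any_eq_true,
    List.mem_range] at h
  obtain ⟨⟨⟨⟨⟨⟨hR0, hRG⟩, hRne⟩, hG⟩, hcard⟩, hnf⟩, hbd⟩ := h
  have hG' : G < 2 ^ 23 := hG
  have hRlt : R < 2 ^ 23 := by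
    rw [← hRG]; exact lt_of_le_of_lt Nat.and_le_right hG'
  refine ⟨?_, hG'⟩
  have hsub : fs R ⊆ fs G := (land_self_sub hRlt).2 hRG
  have hfs0 : fs 0 = ∅ := by decide
  -- boundary ridges
  have hb : ∀ v ∈ fs R, ∃ H0 ∈ K, (fs G).erase v ⊆ fs H0 ∧
      (∃ v' ∈ fs H0, (fs H0).erase v' = (fs G).erase v) ∧
      ∀ H ∈ K, (fs G).erase v ⊆ fs H → H = H0 := by
    intro v hv
    have hvG := hsub hv
    have hv23 := mem_fs_lt hG' hvG
    rcases hbd v hv23 with h1 | ⟨H0, hH0, ⟨h2, v', hv', h3, h4⟩, h5⟩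
    · rw [mem_fs] at hv; rw [hv.2] at h1; simp at h1
    · have hv'm : v' ∈ fs H0 := mem_fs.2 ⟨by omega, h3⟩
      refine ⟨H0, hH0, ?_, ⟨v', hv'm, ?_⟩, ?_⟩
      · rw [← fs_erase hvG]; exact fs_sub_of_land h2
      · rw [← fs_erase hvG, ← fs_erase hv'm, h4]
      · intro H hH hs
        rw [← fs_erase hvG] at hs
        have h6 := (land_self_sub (xor_lt hG' hv23)).1 hs
        rcases h5 H hH with h7 | h7
        · exact absurd h6 h7
        · exact h7
  have hins : toC (G :: K) = insert (fs G) (toC K) := by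
    simp [toC]
  rw [hins]
  refine IsBall.attach (toC K) (fs G) (fs R) hK hcard ?_ ?_ ?_ ?_
  · rw [Finset.nonempty_iff_ne_empty]
    intro h0
    apply hR0
    apply fs_inj hRlt (by norm_num)
    rw [h0, hfs0]
  · refine lt_of_le_of_ne hsub ?_
    intro h0
    exact hRne (fs_inj hRlt hG' h0)
  · intro σ hσ
    rw [mem_faces_toC]
    constructor
    · rintro ⟨m, hm, hσm⟩ hR
      exact hnf m hm ((land_self_sub hRlt).1 (hR.trans hσm))
    · intro hR
      obtain ⟨v, hv, hvσ⟩ := Finset.not_subset.1 hR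
      obtain ⟨H0, hH0, h1, _⟩ := hb v hv
      refine ⟨H0, hH0, ?_⟩
      intro u hu
      exact h1 (mem_erase.2 ⟨fun h => hvσ (h ▸ hu), hσ hu⟩)
  · intro v hv
    obtain ⟨H0, hH0, h1, ⟨v', hv', h2⟩, h3⟩ := hb v hv
    refine ⟨fs H0, mem_toC.2 ⟨H0, hH0, rfl⟩, v', hv', ?_, ?_⟩
    · rw [h2]
    · intro H hH hs
      obtain ⟨m, hm, rfl⟩ := mem_toC.1 hH
      rw [h2] at hs
      rw [h3 m hm hs]

theorem detach_sound {K : List ℕ} {G A : ℕ} (hK : IsBall 4 (toC K)) (hKb : ∀ m ∈ K, m < 2 ^ 23)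
    (h : detachOK K G A = true) : IsBall 4 (toC (K.filter fun H => !(H == G))) := by
  simp only [detachOK, Bool.and_eq_true, Bool.not_eq_true', beq_eq_false_iff_ne,
    beq_iff_eq, allLt_iff, List.all_eq_true, Bool.or_eq_true, List.any_eq_true,
    List.contains_iff_mem] at h
  obtain ⟨⟨⟨⟨⟨hA0, hAG⟩, hAne⟩, hGK⟩, hbd⟩, hnb⟩ := h
  have hG' : G < 2 ^ 23 := hKb G hGK
  have hAlt : A < 2 ^ 23 := by
    rw [← hAG]; exact lt_of_le_of_lt Nat.and_le_right hG'
  have hsub : fs A ⊆ fs G := (land_self_sub hAlt).2 hAG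
  have hfs0 : fs 0 = ∅ := by decide
  have hfil : toC (K.filter fun H => !(H == G)) = (toC K).erase (fs G) := by
    ext σ
    rw [mem_erase, mem_toC, mem_toC]
    simp only [List.mem_filter, Bool.not_eq_true', beq_eq_false_iff_ne]
    constructor
    · rintro ⟨m, ⟨hm, hne⟩, rfl⟩
      exact ⟨fun h => hne (fs_inj (hKb m hm) hG' h), m, hm, rfl⟩
    · rintro ⟨hne, m, hm, rfl⟩
      exact ⟨m, ⟨hm, fun h => hne (by rw [h])⟩, rfl⟩
  rw [hfil]
  refine IsBall.detach (toC K) (fs G) (fs A) hK (mem_toC.2 ⟨G, hGK, rfl⟩) ?_ ?_ ?_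
  · rw [Finset.nonempty_iff_ne_empty]
    intro h0
    apply hA0
    apply fs_inj hAlt (by norm_num)
    rw [h0, hfs0]
  · refine lt_of_le_of_ne hsub ?_
    intro h0
    exact hAne (fs_inj hAlt hG' h0)
  · intro σ hσ
    constructor
    · rintro ⟨G1, hG1, v', hv', hs, hu⟩ hA
      obtain ⟨m, hm, rfl⟩ := mem_toC.1 hG1
      have hv23 := mem_fs_lt (hKb m hm) hv'
      rcases hnb m hm v' hv23 with (h1 | h1) | h1
      · rw [mem_fs] at hv'; rw [hv'.2] at h1; simp at h1
      · apply h1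
        apply (land_self_sub hAlt).1
        rw [fs_erase hv']
        exact hA.trans hs
      · obtain ⟨H, hH, hne, hl⟩ := h1
        apply hne
        apply fs_inj (hKb H hH) (hKb m hm)
        apply hu (fs H) (mem_toC.2 ⟨H, hH, rfl⟩)
        rw [← fs_erase hv']
        exact fs_sub_of_land hl
    · intro hA
      obtain ⟨v, hv, hvσ⟩ := Finset.not_subset.1 hA
      have hvG := hsub hv
      have hv23 := mem_fs_lt hG' hvG
      refine ⟨fs G, mem_toC.2 ⟨G, hGK, rfl⟩, v, hvG, ?_, ?_⟩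
      · intro u hu
        exact mem_erase.2 ⟨fun h => hvσ (h ▸ hu), hσ hu⟩
      · intro H hH hs
        obtain ⟨m, hm, rfl⟩ := mem_toC.1 hH
        rcases hbd v hv23 with h1 | h1
        · rw [mem_fs] at hv; rw [hv.2] at h1; simp at h1
        · rcases h1 m hm with h2 | h2
          · rw [← fs_erase hvG] at hs
            exact absurd ((land_self_sub (xor_lt hG' hv23)).1 hs) h2
          · rw [h2]

theorem run_ops_sound : ∀ (l : List (ℕ × ℕ × ℕ)) (K : List ℕ), IsBall 4 (toC K) →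
    (∀ m ∈ K, m < 2 ^ 23) → runOps l K = true → IsBall 4 BB := by
  intro l
  induction l with
  | nil =>
    intro K hK hKb h
    simp only [runOps, Bool.and_eq_true, List.all_eq_true, List.any_eq_true, List.mem_range,
      beq_iff_eq, allLt_iff, List.contains_iff_mem] at h
    have : toC K = BB := by
      ext σ
      rw [mem_toC]
      unfold BB
      simp only [Finset.mem_image, Finset.mem_range]
      constructor
      · rintro ⟨m, hm, rfl⟩
        obtain ⟨i, hi, rfl⟩ := h.1 m hm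
        exact ⟨i, hi, rfl⟩
      · rintro ⟨i, hi, rfl⟩
        exact ⟨_, h.2 i hi, rfl⟩
    rw [← this]; exact hK
  | cons x l ih =>
    intro K hK hKb h
    obtain ⟨o, G, R⟩ := x
    cases o with
    | zero =>
      simp only [runOps, Bool.and_eq_true] at h
      have h1 := attach_sound hK hKb h.1
      refine ih _ h1.1 ?_ h.2
      intro m hm
      rcases List.mem_cons.1 hm with h2 | h2
      · rw [h2]; exact h1.2
      · exact hKb m h2
    | succ o =>
      simp only [runOps, Bool.and_eq_true] at h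
      have h1 := detach_sound hK hKb h.1
      refine ih _ h1 ?_ h.2
      intro m hm
      exact hKb m (List.mem_of_mem_filter hm)

theorem ball_BB : IsBall 4 BB := by
  have h := h_ops
  unfold chkOps at h
  split at h
  · simp at h
  · rename_i G _ l heq
    simp only [Bool.and_eq_true, Nat.blt_eq, beq_iff_eq] at h
    refine run_ops_sound l [G] ?_ ?_ h.2
    · have : toC [G] = {fs G} := by simp [toC]
      rw [this]
      exact IsBall.simplex _ h.1.2
    · intro m hm
      rw [List.mem_singleton] at hm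
      rw [hm]; exact h.1.1

theorem BB_ssub_SS : BB ⊂ SS := by
  refine Finset.ssubset_iff_subset_ne.2 ⟨?_, ?_⟩
  · intro σ hσ
    unfold BB at hσ
    obtain ⟨i, hi, rfl⟩ := Finset.mem_image.1 hσ
    rw [Finset.mem_range] at hi
    unfold SS
    refine Finset.mem_image.2 ⟨i, Finset.mem_range.2 (hi.trans (by decide)), ?_⟩
    simp only [sm_eq_gm hi]
  · intro h
    have h1 : fs (sm 90) ∈ SS := Finset.mem_image.2 ⟨90, by decide, rfl⟩
    rw [← h] at h1
    obtain ⟨i, hi, h2⟩ := Finset.mem_image.1 h1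
    rw [Finset.mem_range] at hi
    simp only [← sm_eq_gm hi] at h2
    have h3 := fs_inj sm_lt sm_lt h2
    have h4 := h_dist
    unfold chkDist at h4
    rw [allLt_iff] at h4
    have h5 := h4 90 (by decide)
    rw [allLt_iff] at h5
    have h6 := h5 i hi
    rw [h3] at h6
    simp at h6

end Q152Ear
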