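import Mathlib

/-! Definitions: simplicial complexes given by their facets, shellability, boundary complexes of
simplicial polytopes, simplicial balls, convex ear decompositions. -/

namespace Q152Ear

open Finset Matrix

variable {V W : Type} [DecidableEq V] [DecidableEq W]

/-- The faces of the simplicial complex generated by the finite family `F` of vertex sets. -/
def faces (F : Finset (Finset V)) : Set (Finset V) := {σ | ∃ G ∈ F, σ ⊆ G}

/-- `F` is the facet family of a pure `(d-1)`-dimensional complex: all members have `d`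
vertices. -/
def PureCx (d : ℕ) (F : Finset (Finset V)) : Prop := ∀ G ∈ F, G.card = d

/-- The vertices of the complex. -/
def verts (F : Finset (Finset V)) : Finset V := F.biUnion id

/-- The facets can be ordered `f 0, …, f (s-1)` such that for every `j ≥ 1` the intersection of
`⟨f j⟩` with `⟨f 0, …, f (j-1)⟩` is pure of dimension `dim (f j) - 1`. -/
def Shellable (F : Finset (Finset V)) : Prop :=
  ∃ (s : ℕ) (f : ℕ → Finset V),
    (∀ i < s, ∀ j < s, f i = f j → i = j) ∧ (∀ G, G ∈ F ↔ ∃ i < s, f i = G) ∧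
    ∀ j < s, ∀ σ, σ ⊆ f j → (∃ i < j, σ ⊆ f i) →
      ∃ τ, σ ⊆ τ ∧ τ ⊆ f j ∧ τ.card + 1 = (f j).card ∧ ∃ k < j, τ ⊆ f k

/-- `K` is the boundary complex of a simplicial `d`-polytope, with vertices placed at the points
`p v` of `ℝ^d`: the points `p v` do not lie in a hyperplane, and the faces of `K` are
exactly the vertex sets of the proper faces of the convex hull, a proper face being cut out by a
supporting hyperplane `a ⬝ x = c`. -/
def IsPolytopeBoundary (d : ℕ) (K : Finset (Finset V)) : Prop :=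
  PureCx d K ∧ ∃ p : V → (Fin d → ℝ),
    (∀ (a : Fin d → ℝ) (c : ℝ), (∀ v ∈ verts K, a ⬝ᵥ p v = c) → a = 0) ∧
    ∀ σ : Finset V, σ ∈ faces K ↔
      σ ⊆ verts K ∧ σ ≠ verts K ∧
        ∃ (a : Fin d → ℝ) (c : ℝ), (∀ v ∈ σ, a ⬝ᵥ p v = c) ∧ ∀ v ∈ verts K, v ∉ σ → a ⬝ᵥ p v < c

/-- The boundary complex of a pure complex: generated by the ridges `G ∖ {v}` that lie in
exactly one facet. -/
def bdry (F : Finset (Finset V)) : Set (Finset V) :=
  {σ | ∃ G ∈ F, ∃ v ∈ G, σ ⊆ G.erase v ∧ ∀ H ∈ F, G.erase v ⊆ H → H = G}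

/-- Simplicial (`d-1`)-balls, in the combinatorial form of Pachner: a single simplex is a
ball; a ball stays a ball when a new facet `G` is attached that meets it exactly in the
`(d-2)`-ball formed by the facets `G ∖ {v}` (`v ∈ R`, `∅ ≠ R ≠ G`) of `G`, these being ridges
in the boundary; and a ball stays a ball when a facet `G` is removed whose intersection with the
boundary is the `(d-2)`-ball formed by the facets `G ∖ {v}` (`v ∈ A`, `∅ ≠ A ≠ G`) of `G`. -/
inductive IsBall (d : ℕ) : Finset (Finset V) → Prop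
  | simplex (G : Finset V) (hG : G.card = d) : IsBall d {G}
  | attach (K : Finset (Finset V)) (G R : Finset V) (hK : IsBall d K) (hG : G.card = d)
      (hR : R.Nonempty) (hRG : R ⊂ G) (h : ∀ σ, σ ⊆ G → (σ ∈ faces K ↔ ¬ R ⊆ σ))
      (hb : ∀ v ∈ R, G.erase v ∈ bdry K) : IsBall d (insert G K)
  | detach (K : Finset (Finset V)) (G A : Finset V) (hK : IsBall d K) (hG : G ∈ K)
      (hA : A.Nonempty) (hAG : A ⊂ G) (h : ∀ σ, σ ⊆ G → (σ ∈ bdry K ↔ ¬ A ⊆ σ)) :
      IsBall d (K.erase G)

/-- `φ` restricts to an isomorphism from the complex with facets `F` onto the complex with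
facets `F'`. -/
def IsoVia (φ : V → W) (F : Finset (Finset V)) (F' : Finset (Finset W)) : Prop :=
  (∀ u ∈ verts F, ∀ v ∈ verts F, φ u = φ v → u = v) ∧ F.image (fun G => G.image φ) = F'

/-- `Δ` is a pure `(d-1)`-dimensional complex with a convex ear decomposition
`E 0, E 1, …, E m`. -/
def HasConvexEarDecomposition (d : ℕ) (Δ : Finset (Finset V)) : Prop :=
  PureCx d Δ ∧ ∃ (m : ℕ) (E : ℕ → Finset (Finset V)),
    -- the `E j` are pure `(d-1)`-dimensional complexes
    (∀ j ≤ m, PureCx d (E j)) ∧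
    -- `E 0` is isomorphic to the boundary complex of a simplicial `d`-polytope
    (∃ (P : Finset (Finset ℕ)) (φ : V → ℕ), IsPolytopeBoundary d P ∧ IsoVia φ (E 0) P) ∧
    -- for `j ≥ 1`, `E j` is a ball isomorphic to a proper subcomplex of the boundary complex of
    -- a simplicial `d`-polytope
    (∀ j, 1 ≤ j → j ≤ m → ∃ (P B : Finset (Finset ℕ)) (φ : V → ℕ),
      IsPolytopeBoundary d P ∧ B ⊂ P ∧ IsBall d B ∧ IsoVia φ (E j) B) ∧
    -- `E j` meets the union of the previous ones exactly in its boundary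
    (∀ j, 1 ≤ j → j ≤ m → {σ | σ ∈ faces (E j) ∧ ∃ i < j, σ ∈ faces (E i)} = bdry (E j)) ∧
    -- `Δ` is the union
    faces Δ = {σ | ∃ j ≤ m, σ ∈ faces (E j)}

end Q152Ear
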