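import Pool.Agent.Q152.EarD

/-! Gluing many copies of the ball along its boundary. -/

namespace Q152Ear

open Finset

/-! ### facts about the ball and the polytope boundary -/

theorem mem_BB {G : Finset ℕ} : G ∈ BB ↔ ∃ i < nB, fs (gm i) = G := by
  simp [BB]

theorem mem_SS {G : Finset ℕ} : G ∈ SS ↔ ∃ i < nS, fs (sm i) = G := by
  simp [SS]

theorem card_BB {G : Finset ℕ} (hG : G ∈ BB) : G.card = 4 := by
  obtain ⟨i, hi, rfl⟩ := mem_BB.1 hG
  rw [← sm_eq_gm hi]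
  exact card_check (hi.trans (by decide))

theorem card_SS {G : Finset ℕ} (hG : G ∈ SS) : G.card = 4 := by
  obtain ⟨i, hi, rfl⟩ := mem_SS.1 hG
  exact card_check hi

theorem SS_cases {G : Finset ℕ} (hG : G ∈ SS) : G ∈ BB ∨ G ⊆ Finset.range 14 := by
  obtain ⟨i, hi, rfl⟩ := mem_SS.1 hG
  by_cases h : i < nB
  · left; exact mem_BB.2 ⟨i, h, by rw [sm_eq_gm h]⟩
  · right; exact sm_inner hi h

theorem out_BB {G : Finset ℕ} (hG : G ∈ BB) : ∃ v ∈ G, 14 ≤ v := by
  obtain ⟨i, hi, rfl⟩ := mem_BB.1 hG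
  have h : allLt nB (fun k => Nat.blt 13 (vx k 3)) = true := by decide +kernel
  rw [allLt_iff] at h
  have h2 := h i hi
  rw [Nat.blt_eq] at h2
  exact ⟨vx i 3, mem_gm.2 ⟨3, by norm_num, rfl⟩, h2⟩

theorem gm_lt23 {i : ℕ} (hi : i < nB) : gm i < 2 ^ 23 := by
  rw [← sm_eq_gm hi]; exact sm_lt

theorem gm_inj {i j : ℕ} (hi : i < nB) (hj : j < nB) (h : fs (gm i) = fs (gm j)) : i = j := by
  have h1 := fs_inj (gm_lt23 hi) (gm_lt23 hj) h
  rw [← sm_eq_gm hi, ← sm_eq_gm hj] at h1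
  have h4 := h_dist
  unfold chkDist at h4
  rw [allLt_iff] at h4
  have hS : nB < nS := by decide
  rcases lt_trichotomy i j with h5 | h5 | h5
  · have h6 := h4 j (hj.trans hS)
    rw [allLt_iff] at h6
    have h7 := h6 i h5
    rw [h1] at h7
    simp at h7
  · exact h5
  · have h6 := h4 i (hi.trans hS)
    rw [allLt_iff] at h6
    have h7 := h6 j h5
    rw [h1] at h7
    simp at h7

theorem bd_inner {k q : ℕ} (hk : k < nB) (hq : q < 4) (hn : nb k q < nB) :
    (fs (gm k)).erase (vx k q) ⊆ fs (gm (nb k q)) := by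
  have h := h_bd
  unfold chkBd at h
  rw [allLt_iff] at h
  have h2 := h k hk
  rw [allLt_iff] at h2
  have h3 := h2 q hq
  have hn' : Nat.blt (nb k q) nB = true := by rw [Nat.blt_eq]; exact hn
  rw [hn'] at h3
  simp only [cond_true, beq_iff_eq] at h3
  rw [← fs_rdg hq]
  exact fs_sub_of_land h3

theorem bd_outer {k q : ℕ} (hk : k < nB) (hq : q < 4) (hn : ¬ nb k q < nB) :
    (fs (gm k)).erase (vx k q) ⊆ Finset.range 14 ∧
    ∀ j < nB, (fs (gm k)).erase (vx k q) ⊆ fs (gm j) → j = k := by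
  have h := h_bd
  unfold chkBd at h
  rw [allLt_iff] at h
  have h2 := h k hk
  rw [allLt_iff] at h2
  have h3 := h2 q hq
  have hn' : Nat.blt (nb k q) nB = false := by
    rw [← Bool.not_eq_true, Nat.blt_eq]; exact hn
  rw [hn'] at h3
  simp only [cond_false, Bool.and_eq_true, beq_iff_eq, allLt_iff, Bool.or_eq_true,
    Bool.not_eq_true', beq_eq_false_iff_ne] at h3
  rw [← fs_rdg hq, ← fs_16383]
  refine ⟨fs_sub_of_land h3.1, ?_⟩
  intro j hj hs
  rcases h3.2 j hj with h4 | h4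
  · exact absurd (land_of_fs_sub rdg_lt hs) h4
  · exact h4

theorem bdry_BB_sub {σ : Finset ℕ} (h : σ ∈ bdry BB) : σ ⊆ Finset.range 14 := by
  obtain ⟨G, hG, v, hv, hs, hu⟩ := h
  obtain ⟨k, hk, rfl⟩ := mem_BB.1 hG
  obtain ⟨q, hq, rfl⟩ := mem_gm.1 hv
  by_cases hn : nb k q < nB
  · exfalso
    have h1 := bd_inner hk hq hn
    have h2 := hu _ (mem_BB.2 ⟨_, hn, rfl⟩) h1
    exact nb_ne hk hq hn (gm_inj hn hk h2)
  · exact hs.trans (bd_outer hk hq hn).1

theorem full_BB {σ : Finset ℕ} (h : σ ∈ faces BB) (hσ : σ ⊆ Finset.range 14) : σ ∈ bdry BB := by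
  obtain ⟨G, hG, hs⟩ := h
  obtain ⟨k, hk, rfl⟩ := mem_BB.1 hG
  have h1 := h_full
  unfold chkFull at h1
  rw [allLt_iff] at h1
  have h2 := h1 k hk
  simp only [List.any_eq_true, List.mem_range, Bool.and_eq_true, Bool.not_eq_true',
    beq_iff_eq] at h2
  obtain ⟨i, hi, q, hq, h3, h4⟩ := h2
  have h3' : ¬ nb i q < nB := by
    rw [← Nat.blt_eq, h3]; simp
  have h5 : σ ⊆ fs (Nat.land (gm k) 16383) := by
    intro v hv
    have a := hs hv
    have b := hσ hv
    rw [← fs_16383] at b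
    rw [mem_fs] at a b ⊢
    refine ⟨a.1, ?_⟩
    change (gm k &&& 16383).testBit v = true
    rw [Nat.testBit_and, a.2, b.2]; rfl
  have h6 := h5.trans (fs_sub_of_land h4)
  rw [fs_rdg hq] at h6
  refine ⟨fs (gm i), mem_BB.2 ⟨i, hi, rfl⟩, vx i q, mem_gm.2 ⟨q, hq, rfl⟩, h6, ?_⟩
  intro H hH hs2
  obtain ⟨j, hj, rfl⟩ := mem_BB.1 hH
  rw [(bd_outer hi hq h3').2 j hj hs2]

/-! ### copies -/

/-- the inclusion of the `j`-th copy -/
def ren (j v : ℕ) : ℕ × ℕ := if v < 14 then (v, 0) else (v, j)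

theorem ren_fst (j v : ℕ) : (ren j v).1 = v := by
  unfold ren; split_ifs <;> rfl

theorem ren_inj (j : ℕ) : Function.Injective (ren j) := by
  intro u v h
  rw [← ren_fst j u, h, ren_fst]

theorem ren_small {j v : ℕ} (hv : v < 14) : ren j v = ren 0 v := by
  unfold ren; simp [hv]

theorem ren_cross {i j u v : ℕ} (h : ren i u = ren j v) : u = v ∧ (14 ≤ u → i = j) := by
  have h1 : u = v := by rw [← ren_fst i u, h, ren_fst]
  refine ⟨h1, fun hu => ?_⟩
  subst h1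
  unfold ren at h
  have : ¬ u < 14 := not_lt.2 hu
  simp only [this, if_false, Prod.mk.injEq] at h
  exact h.2

def copy (j : ℕ) (K : Finset (Finset ℕ)) : Finset (Finset (ℕ × ℕ)) :=
  K.image fun G => G.image (ren j)

theorem mem_copy {j : ℕ} {K : Finset (Finset ℕ)} {σ : Finset (ℕ × ℕ)} :
    σ ∈ copy j K ↔ ∃ G ∈ K, G.image (ren j) = σ := by
  simp [copy]

theorem iso_copy (j : ℕ) (K : Finset (Finset ℕ)) : IsoVia Prod.fst (copy j K) K := by
  have hv : ∀ u ∈ verts (copy j K), ren j u.1 = u := by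
    intro u hu
    unfold verts at hu
    rw [Finset.mem_biUnion] at hu
    obtain ⟨σ, hσ, hu⟩ := hu
    obtain ⟨G, _, rfl⟩ := mem_copy.1 hσ
    obtain ⟨v, _, rfl⟩ := Finset.mem_image.1 hu
    rw [ren_fst]
  constructor
  · intro u hu v hv' h
    rw [← hv u hu, ← hv v hv', h]
  · unfold copy
    rw [Finset.image_image]
    have : ((fun G : Finset (ℕ × ℕ) => G.image Prod.fst) ∘ fun G : Finset ℕ => G.image (ren j))
        = id := by
      funext G
      simp only [Function.comp, Finset.image_image, id]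
      have h2 : (Prod.fst ∘ ren j) = id := by funext v; exact ren_fst j v
      rw [h2, Finset.image_id]
    rw [this, Finset.image_id]

theorem image_sub_iff {j : ℕ} {ρ G : Finset ℕ} : ρ.image (ren j) ⊆ G.image (ren j) ↔ ρ ⊆ G :=
  Finset.image_subset_image_iff (ren_inj j)

theorem bdry_copy {j : ℕ} {K : Finset (Finset ℕ)} {σ : Finset (ℕ × ℕ)} :
    σ ∈ bdry (copy j K) ↔ ∃ ρ ∈ bdry K, σ = ρ.image (ren j) := by
  constructor
  · rintro ⟨G', hG', v', hv', hs, hu⟩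
    obtain ⟨G, hG, rfl⟩ := mem_copy.1 hG'
    obtain ⟨v, hv, rfl⟩ := Finset.mem_image.1 hv'
    rw [← Finset.image_erase (ren_inj j)] at hs hu
    obtain ⟨ρ, hρ, rfl⟩ := Finset.subset_image_iff.1 hs
    refine ⟨ρ, ⟨G, hG, v, hv, ?_, ?_⟩, rfl⟩
    · exact_mod_cast hρ
    · intro H hH hs2
      have := hu (H.image (ren j)) (mem_copy.2 ⟨H, hH, rfl⟩) (image_sub_iff.2 hs2)
      exact Finset.image_injective (ren_inj j) this
  · rintro ⟨ρ, ⟨G, hG, v, hv, hs, hu⟩, rfl⟩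
    refine ⟨G.image (ren j), mem_copy.2 ⟨G, hG, rfl⟩, ren j v, Finset.mem_image_of_mem _ hv, ?_, ?_⟩
    · rw [← Finset.image_erase (ren_inj j)]
      exact image_sub_iff.2 hs
    · intro H' hH' hs2
      obtain ⟨H, hH, rfl⟩ := mem_copy.1 hH'
      rw [← Finset.image_erase (ren_inj j), image_sub_iff] at hs2
      rw [hu H hH hs2]

def EE (j : ℕ) : Finset (Finset (ℕ × ℕ)) := if j = 0 then copy 0 SS else copy j BB

/-- the complex: the boundary of the polytope with `m` more copies of the ball -/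
def Dl (m : ℕ) : Finset (Finset (ℕ × ℕ)) := (Finset.range (m + 1)).biUnion EE

theorem mem_Dl {m : ℕ} {σ : Finset (ℕ × ℕ)} : σ ∈ Dl m ↔ ∃ j ≤ m, σ ∈ EE j := by
  unfold Dl
  rw [Finset.mem_biUnion]
  constructor
  · rintro ⟨j, hj, h⟩; exact ⟨j, Nat.lt_succ_iff.1 (Finset.mem_range.1 hj), h⟩
  · rintro ⟨j, hj, h⟩; exact ⟨j, Finset.mem_range.2 (Nat.lt_succ_iff.2 hj), h⟩

/-- a facet of `EE j` is the image of a facet of `S` under `ren j` -/
theorem EE_sub {j : ℕ} {σ : Finset (ℕ × ℕ)} (h : σ ∈ EE j) :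
    ∃ G ∈ SS, G.image (ren j) = σ ∧ (j ≠ 0 → G ∈ BB) := by
  unfold EE at h
  split_ifs at h with h0
  · obtain ⟨G, hG, rfl⟩ := mem_copy.1 h
    exact ⟨G, hG, by rw [h0], fun h => absurd h0 h⟩
  · obtain ⟨G, hG, rfl⟩ := mem_copy.1 h
    exact ⟨G, BB_ssub_SS.1 hG, rfl, fun _ => hG⟩

theorem BB_EE {j : ℕ} {G : Finset ℕ} (hG : G ∈ BB) : G.image (ren j) ∈ EE j := by
  unfold EE
  split_ifs with h0
  · rw [h0]; exact mem_copy.2 ⟨G, BB_ssub_SS.1 hG, rfl⟩
  · exact mem_copy.2 ⟨G, hG, rfl⟩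

theorem card_EE {j : ℕ} {σ : Finset (ℕ × ℕ)} (h : σ ∈ EE j) : σ.card = 4 := by
  obtain ⟨G, hG, rfl, _⟩ := EE_sub h
  rw [Finset.card_image_of_injective _ (ren_inj j)]
  exact card_SS hG

theorem cross_small {i j : ℕ} (hij : i ≠ j) {ρ G : Finset ℕ}
    (h : ρ.image (ren j) ⊆ G.image (ren i)) : ρ ⊆ Finset.range 14 ∧ ρ ⊆ G := by
  constructor
  · intro v hv
    obtain ⟨u, _, hu2⟩ := Finset.mem_image.1 (h (Finset.mem_image_of_mem _ hv))
    have := ren_cross hu2
    rw [Finset.mem_range]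
    by_contra hcon
    exact hij (this.2 (by omega))
  · intro v hv
    obtain ⟨u, hu, hu2⟩ := Finset.mem_image.1 (h (Finset.mem_image_of_mem _ hv))
    have := ren_cross hu2
    rw [← this.1]; exact hu

theorem image_small {i j : ℕ} {ρ : Finset ℕ} (h : ρ ⊆ Finset.range 14) :
    ρ.image (ren j) = ρ.image (ren i) := by
  apply Finset.image_congr
  intro v hv
  have hv' : v < 14 := Finset.mem_range.1 (h hv)
  rw [ren_small hv', ren_small (j := i) hv']

theorem ced (m : ℕ) : HasConvexEarDecomposition 4 (Dl m) := by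
  refine ⟨?_, m, EE, ?_, ?_, ?_, ?_, ?_⟩
  · intro σ hσ
    obtain ⟨j, _, hj⟩ := mem_Dl.1 hσ
    exact card_EE hj
  · intro j _ σ hσ
    exact card_EE hσ
  · refine ⟨SS, Prod.fst, poly_SS, ?_⟩
    have : EE 0 = copy 0 SS := by unfold EE; simp
    rw [this]
    exact iso_copy 0 SS
  · intro j hj _
    refine ⟨SS, BB, Prod.fst, poly_SS, BB_ssub_SS, ball_BB, ?_⟩
    have : EE j = copy j BB := by unfold EE; simp [Nat.one_le_iff_ne_zero.1 hj]
    rw [this]
    exact iso_copy j BB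
  · intro j hj _
    have hEj : EE j = copy j BB := by unfold EE; simp [Nat.one_le_iff_ne_zero.1 hj]
    ext σ
    constructor
    · rintro ⟨⟨G', hG', hs⟩, i, hij, H', hH', hs2⟩
      rw [hEj] at hG' ⊢
      obtain ⟨G, hG, rfl⟩ := mem_copy.1 hG'
      obtain ⟨H, hH, rfl, _⟩ := EE_sub hH'
      obtain ⟨ρ, hρ, rfl⟩ := Finset.subset_image_iff.1 hs
      have hρ' : ρ ⊆ G := by exact_mod_cast hρ
      have hsm := cross_small (ne_of_lt hij) hs2
      exact bdry_copy.2 ⟨ρ, full_BB ⟨G, hG, hρ'⟩ hsm.1, rfl⟩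
    · intro h
      rw [hEj] at h
      obtain ⟨ρ, hρ, rfl⟩ := bdry_copy.1 h
      have hsm := bdry_BB_sub hρ
      obtain ⟨G, hG, v, hv, hs, _⟩ := hρ
      have hρG : ρ ⊆ G := hs.trans (Finset.erase_subset _ _)
      refine ⟨⟨G.image (ren j), BB_EE hG, image_sub_iff.2 hρG⟩, 0, hj, G.image (ren 0),
        BB_EE hG, ?_⟩
      rw [image_small (i := 0) hsm]
      exact image_sub_iff.2 hρG
  · ext σ
    constructor
    · rintro ⟨G, hG, hs⟩
      obtain ⟨j, hj, h⟩ := mem_Dl.1 hG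
      exact ⟨j, hj, G, h, hs⟩
    · rintro ⟨j, hj, G, h, hs⟩
      exact ⟨G, mem_Dl.2 ⟨j, hj, h⟩, hs⟩

/-- pigeonhole: some copy never introduces a new face on the common boundary -/
theorem good_copy {m : ℕ} (hm : 2 ^ 14 ≤ m) (s : ℕ) (f : ℕ → Finset (ℕ × ℕ)) :
    ∃ j ≤ m, ∀ τ ⊆ Finset.range 14, ∀ i < s, (∃ G ∈ BB, f i = G.image (ren j)) →
      τ.image (ren 0) ⊆ f i → ∃ i' < i, τ.image (ren 0) ⊆ f i' := by
  by_contra hcon
  push Not at hcon
  choose! τ hτ i _ hG hsub hfirst using hcon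
  have hinj : Set.InjOn τ (Finset.range (m + 1) : Set ℕ) := by
    intro j hj j' hj' hjj
    have hjm : j ≤ m := Nat.lt_succ_iff.1 (Finset.mem_range.1 (Finset.mem_coe.1 hj))
    have hjm' : j' ≤ m := Nat.lt_succ_iff.1 (Finset.mem_range.1 (Finset.mem_coe.1 hj'))
    have hii : i j = i j' := by
      rcases lt_trichotomy (i j) (i j') with h | h | h
      · exfalso
        apply hfirst j' hjm' (i j) h
        rw [← hjj]; exact hsub j hjm
      · exact h
      · exfalso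
        apply hfirst j hjm (i j') h
        rw [hjj]; exact hsub j' hjm'
    obtain ⟨G, hGB, hG1⟩ := hG j hjm
    obtain ⟨G', _, hG2⟩ := hG j' hjm'
    rw [hii, hG2] at hG1
    obtain ⟨v, hv, hv14⟩ := out_BB hGB
    have : ren j v ∈ G'.image (ren j') := by
      rw [hG1]; exact Finset.mem_image_of_mem _ hv
    obtain ⟨u, _, hu⟩ := Finset.mem_image.1 this
    have h3 := ren_cross hu
    exact (h3.2 (by omega)).symm
  have hmaps : ∀ j ∈ Finset.range (m + 1), τ j ∈ (Finset.range 14).powerset := by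
    intro j hj
    rw [Finset.mem_powerset]
    exact hτ j (Nat.lt_succ_iff.1 (Finset.mem_range.1 hj))
  have hcard := Finset.card_le_card_of_injOn τ hmaps hinj
  rw [Finset.card_range, Finset.card_powerset, Finset.card_range] at hcard
  omega

theorem not_shellable {m : ℕ} (hm : 2 ^ 14 ≤ m) : ¬ Shellable (Dl m) := by
  rintro ⟨s, f, hfinj, hfmem, hshell⟩
  obtain ⟨j, hjm, hgood⟩ := good_copy hm s f
  have hex : ∀ k, ∃ i, k < nB → i < s ∧ f i = (fs (gm k)).image (ren j) := by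
    intro k
    by_cases hk : k < nB
    · have hmem : (fs (gm k)).image (ren j) ∈ Dl m :=
        mem_Dl.2 ⟨j, hjm, BB_EE (mem_BB.2 ⟨k, hk, rfl⟩)⟩
      obtain ⟨i, hi, h⟩ := (hfmem _).1 hmem
      exact ⟨i, fun _ => ⟨hi, h⟩⟩
    · exact ⟨0, fun h => absurd h hk⟩
  choose t ht using hex
  have htinj : ∀ i < nB, ∀ k < nB, t i = t k → i = k := by
    intro i hi k hk h
    have h1 := (ht i hi).2
    have h2 := (ht k hk).2
    rw [h, h2] at h1
    exact (gm_inj hk hi (Finset.image_injective (ren_inj j) h1)).symm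
  apply no_RS t htinj
  intro k hk σ hσ hold
  obtain ⟨hts, htk⟩ := ht k hk
  have hσ' : σ.image (ren j) ⊆ f (t k) := by rw [htk]; exact image_sub_iff.2 hσ
  have hearlier : ∃ i < t k, σ.image (ren j) ⊆ f i := by
    rcases hold with h | ⟨i, hi, hit, hs⟩
    · have h1 := image_small (i := 0) (j := j) h
      rw [h1]
      refine hgood σ h (t k) hts ⟨fs (gm k), mem_BB.2 ⟨k, hk, rfl⟩, htk⟩ ?_
      rw [← h1]; exact hσ'
    · refine ⟨t i, hit, ?_⟩
      rw [(ht i hi).2]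
      exact image_sub_iff.2 hs
  obtain ⟨τ, h1, h2, h3, k', hk', h4⟩ := hshell (t k) hts _ hσ' hearlier
  rw [htk] at h2 h3
  obtain ⟨ρ, hρ, rfl⟩ := Finset.subset_image_iff.1 h2
  have hρ' : ρ ⊆ fs (gm k) := by exact_mod_cast hρ
  rw [Finset.card_image_of_injective _ (ren_inj j), Finset.card_image_of_injective _ (ren_inj j)]
    at h3
  -- ρ is a ridge
  obtain ⟨v, hv, hρv⟩ : ∃ v ∈ fs (gm k), (fs (gm k)).erase v = ρ := by
    have hne : ρ ≠ fs (gm k) := by intro h; rw [h] at h3; omega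
    obtain ⟨v, hv, hvρ⟩ := Finset.exists_of_ssubset (Finset.ssubset_iff_subset_ne.2 ⟨hρ', hne⟩)
    refine ⟨v, hv, ?_⟩
    symm
    apply Finset.eq_of_subset_of_card_le
    · intro u hu
      exact Finset.mem_erase.2 ⟨fun h => hvρ (h ▸ hu), hρ' hu⟩
    · rw [Finset.card_erase_of_mem hv]; omega
  refine ⟨v, hv, ?_, ?_⟩
  · rw [hρv]; exact image_sub_iff.1 h1
  · rw [hρv]
    have hk's : k' < s := hk'.trans hts
    have hmem : f k' ∈ Dl m := (hfmem _).2 ⟨k', hk's, rfl⟩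
    obtain ⟨i, _, hi⟩ := mem_Dl.1 hmem
    obtain ⟨G, hG, hGf, _⟩ := EE_sub hi
    rw [← hGf] at h4
    by_cases hij : i = j
    · subst hij
      have h5 := image_sub_iff.1 h4
      rcases SS_cases hG with h6 | h6
      · right
        obtain ⟨i', hi', hG'⟩ := mem_BB.1 h6
        refine ⟨i', hi', ?_, by rw [hG']; exact h5⟩
        have h7 := (ht i' hi').2
        rw [hG', hGf] at h7
        rw [hfinj _ (ht i' hi').1 _ hk's h7]
        exact hk'
      · left; exact h5.trans h6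
    · left; exact (cross_small hij h4).1

end Q152Ear
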