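import Pool.Agent.Q152.EarDef

/-! A certificate for boundary complexes of simplicial polytopes. -/

namespace Q152Ear

open Finset Matrix

theorem cone_lemma {d : ℕ} (I : Finset ℕ) (hI : I.Nonempty) (F : ℕ → Finset ℕ)
    (p : ℕ → Fin d → ℝ) (a : ℕ → Fin d → ℝ) (c : ℕ → ℝ)
    (hcard : ∀ i ∈ I, (F i).card = d) (hc : ∀ i ∈ I, 0 < c i)
    (heq : ∀ i ∈ I, ∀ v ∈ F i, a i ⬝ᵥ p v = c i)
    (hlt : ∀ i ∈ I, ∀ v ∈ I.biUnion F, v ∉ F i → a i ⬝ᵥ p v < c i)
    (hr : ∀ i ∈ I, ∀ v ∈ F i, ∃ j ∈ I, (F i).erase v ⊆ F j ∧ v ∉ F j) (z : Fin d → ℝ) :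
    ∃ i ∈ I, ∃ g : ℕ → ℝ, (∀ v ∈ F i, 0 ≤ g v) ∧ z = ∑ v ∈ F i, g v • p v := by
  obtain ⟨i, hi, hmax⟩ := Finset.exists_max_image I (fun i => (a i ⬝ᵥ z) / c i) hI
  refine ⟨i, hi, ?_⟩
  choose! j hj1 hj2 hj3 using hr i hi
  set b : ℕ → Fin d → ℝ := fun v => (c i)⁻¹ • a i - (c (j v))⁻¹ • a (j v) with hb
  have hb0 : ∀ v ∈ F i, ∀ u ∈ F i, u ≠ v → b v ⬝ᵥ p u = 0 := by
    intro v hv u hu huv
    have h1 := heq i hi u hu
    have h2 := heq (j v) (hj1 v hv) u (hj2 v hv (mem_erase.2 ⟨huv, hu⟩))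
    have h3 := (hc i hi).ne'
    have h4 := (hc (j v) (hj1 v hv)).ne'
    simp only [hb, sub_dotProduct, smul_dotProduct, h1, h2, smul_eq_mul]
    field_simp
    ring
  have hb1 : ∀ v ∈ F i, 0 < b v ⬝ᵥ p v := by
    intro v hv
    have h1 := heq i hi v hv
    have h2 := hlt (j v) (hj1 v hv) v (mem_biUnion.2 ⟨i, hi, hv⟩) (hj3 v hv)
    have h3 := (hc i hi).ne'
    have h4 := hc (j v) (hj1 v hv)
    simp only [hb, sub_dotProduct, smul_dotProduct, h1, smul_eq_mul]
    have h5 : (c (j v))⁻¹ * (a (j v) ⬝ᵥ p v) < 1 := by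
      rw [inv_mul_lt_iff₀ h4]; linarith
    rw [inv_mul_cancel₀ h3]
    linarith
  have hli : LinearIndependent ℝ (fun u : F i => p u.1) := by
    rw [Fintype.linearIndependent_iff]
    intro g hg v
    have h1 : b v.1 ⬝ᵥ (∑ u : F i, g u • p u.1) = 0 := by rw [hg]; simp
    rw [dotProduct_sum] at h1
    rw [Finset.sum_eq_single v] at h1
    · rw [dotProduct_smul, smul_eq_mul] at h1
      rcases mul_eq_zero.1 h1 with h | h
      · exact h
      · exact absurd h (hb1 v.1 v.2).ne'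
    · intro u _ huv
      rw [dotProduct_smul, hb0 v.1 v.2 u.1 u.2 (fun h => huv (Subtype.ext h)), smul_zero]
    · intro h; exact absurd (Finset.mem_univ _) h
  have hspan : Submodule.span ℝ (Set.range (fun u : F i => p u.1)) = ⊤ := by
    apply hli.span_eq_top_of_card_eq_finrank'
    rw [Fintype.card_coe, hcard i hi]
    simp
  have hz : z ∈ Submodule.span ℝ (Set.range (fun u : F i => p u.1)) := by
    rw [hspan]; trivial
  rw [Submodule.mem_span_range_iff_exists_fun] at hz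
  obtain ⟨g, hg⟩ := hz
  refine ⟨fun v => if h : v ∈ F i then g ⟨v, h⟩ else 0, ?_, ?_⟩
  · intro v hv
    simp only [hv, dif_pos]
    have h1 : b v ⬝ᵥ z = g ⟨v, hv⟩ * (b v ⬝ᵥ p v) := by
      rw [← hg, dotProduct_sum, Finset.sum_eq_single ⟨v, hv⟩]
      · rw [dotProduct_smul, smul_eq_mul]
      · intro u _ huv
        rw [dotProduct_smul, hb0 v hv u.1 u.2 (fun h => huv (Subtype.ext h)), smul_zero]
      · intro h; exact absurd (Finset.mem_univ _) h
    have h2 : 0 ≤ b v ⬝ᵥ z := by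
      have := hmax (j v) (hj1 v hv)
      simp only [hb, sub_dotProduct, smul_dotProduct, smul_eq_mul]
      rw [div_eq_inv_mul, div_eq_inv_mul] at this
      linarith
    rw [h1] at h2
    exact nonneg_of_mul_nonneg_left h2 (hb1 v hv)
  · rw [← hg, ← Finset.sum_coe_sort (F i)]
    apply Finset.sum_congr rfl
    intro u _
    simp

theorem poly_cert {d : ℕ} (hd : 0 < d) (I : Finset ℕ) (hI : I.Nonempty) (F : ℕ → Finset ℕ)
    (p : ℕ → Fin d → ℝ) (a : ℕ → Fin d → ℝ) (c : ℕ → ℝ)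
    (hcard : ∀ i ∈ I, (F i).card = d) (hc : ∀ i ∈ I, 0 < c i)
    (heq : ∀ i ∈ I, ∀ v ∈ F i, a i ⬝ᵥ p v = c i)
    (hlt : ∀ i ∈ I, ∀ v ∈ I.biUnion F, v ∉ F i → a i ⬝ᵥ p v < c i)
    (hr : ∀ i ∈ I, ∀ v ∈ F i, ∃ j ∈ I, (F i).erase v ⊆ F j ∧ v ∉ F j) :
    IsPolytopeBoundary d (I.image F) := by
  have cone := cone_lemma I hI F p a c hcard hc heq hlt hr
  have hverts : verts (I.image F) = I.biUnion F := by
    ext v; simp [verts]
  have hfaces : ∀ σ, σ ∈ faces (I.image F) ↔ ∃ i ∈ I, σ ⊆ F i := by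
    intro σ; simp [faces]
  have hle : ∀ i ∈ I, ∀ v ∈ I.biUnion F, a i ⬝ᵥ p v ≤ c i := by
    intro i hi v hv
    by_cases h : v ∈ F i
    · exact (heq i hi v h).le
    · exact (hlt i hi v hv h).le
  refine ⟨?_, p, ?_, ?_⟩
  · intro G hG
    obtain ⟨i, hi, rfl⟩ := Finset.mem_image.1 hG
    exact hcard i hi
  · rw [hverts]
    intro b e hbe
    have h1 : ∀ z, ∃ s, 0 ≤ s ∧ b ⬝ᵥ z = e * s := by
      intro z
      obtain ⟨i, hi, g, hg, rfl⟩ := cone z
      refine ⟨∑ v ∈ F i, g v, Finset.sum_nonneg hg, ?_⟩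
      rw [dotProduct_sum, Finset.mul_sum]
      apply Finset.sum_congr rfl
      intro v hv
      rw [dotProduct_smul, hbe v (mem_biUnion.2 ⟨i, hi, hv⟩), smul_eq_mul, mul_comm]
    obtain ⟨s, hs, h2⟩ := h1 b
    obtain ⟨s', hs', h3⟩ := h1 (-b)
    rw [dotProduct_neg] at h3
    have h4 : b ⬝ᵥ b ≤ 0 := by
      rcases le_total e 0 with h | h
      · rw [h2]; exact mul_nonpos_of_nonpos_of_nonneg h hs
      · have : 0 ≤ e * s' := mul_nonneg h hs'
        linarith
    have h5 : 0 ≤ b ⬝ᵥ b := by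
      unfold dotProduct
      exact Finset.sum_nonneg fun i _ => mul_self_nonneg _
    exact dotProduct_self_eq_zero.1 (le_antisymm h4 h5)
  · rw [hverts]
    intro σ
    rw [hfaces]
    constructor
    · rintro ⟨i, hi, hσ⟩
      have hsub : σ ⊆ I.biUnion F := fun v hv => mem_biUnion.2 ⟨i, hi, hσ hv⟩
      refine ⟨hsub, ?_, ∑ j ∈ I with σ ⊆ F j, a j, ∑ j ∈ I with σ ⊆ F j, c j, ?_, ?_⟩
      · intro h
        have hne : (F i).Nonempty := by
          rw [← Finset.card_pos, hcard i hi]; exact hd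
        obtain ⟨v, hv⟩ := hne
        obtain ⟨j, hj, h1, h2⟩ := hr i hi v hv
        have h3 : F j ⊆ F i := by
          intro u hu
          apply hσ
          rw [h]
          exact mem_biUnion.2 ⟨j, hj, hu⟩
        have h4 : F j = F i := Finset.eq_of_subset_of_card_le h3 (by rw [hcard i hi, hcard j hj])
        exact h2 (h4 ▸ hv)
      · intro v hv
        rw [sum_dotProduct]
        apply Finset.sum_congr rfl
        intro j hj
        rw [mem_filter] at hj
        exact heq j hj.1 v (hj.2 hv)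
      · intro v hv hvσ
        rw [sum_dotProduct]
        apply Finset.sum_lt_sum
        · intro j hj
          rw [mem_filter] at hj
          exact hle j hj.1 v hv
        · by_cases hvi : v ∈ F i
          · obtain ⟨j, hj, h1, h2⟩ := hr i hi v hvi
            refine ⟨j, mem_filter.2 ⟨hj, ?_⟩, hlt j hj v hv h2⟩
            intro u hu
            exact h1 (mem_erase.2 ⟨fun h => hvσ (h ▸ hu), hσ hu⟩)
          · exact ⟨i, mem_filter.2 ⟨hi, hσ⟩, hlt i hi v hv hvi⟩
    · rintro ⟨hsub, hne, b, e, hb1, hb2⟩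
      obtain ⟨u, hu, huσ⟩ : ∃ u ∈ I.biUnion F, u ∉ σ := by
        by_contra hcon
        push Not at hcon
        exact hne (Finset.Subset.antisymm hsub hcon)
      have hble : ∀ v ∈ I.biUnion F, b ⬝ᵥ p v ≤ e := by
        intro v hv
        by_cases h : v ∈ σ
        · exact (hb1 v h).le
        · exact (hb2 v hv h).le
      have he : 0 < e := by
        by_contra hcon
        push Not at hcon
        obtain ⟨i, hi, g, hg, hz⟩ := cone (-(p u))
        have h1 : b ⬝ᵥ (-(p u)) ≤ 0 := by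
          rw [hz, dotProduct_sum]
          apply Finset.sum_nonpos
          intro v hv
          rw [dotProduct_smul, smul_eq_mul]
          exact mul_nonpos_of_nonneg_of_nonpos (hg v hv)
            ((hble v (mem_biUnion.2 ⟨i, hi, hv⟩)).trans hcon)
        rw [dotProduct_neg] at h1
        have := hb2 u hu huσ
        linarith
      rcases Finset.eq_empty_or_nonempty σ with h0 | h0
      · obtain ⟨i, hi⟩ := hI
        exact ⟨i, hi, by rw [h0]; exact Finset.empty_subset _⟩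
      · obtain ⟨i, hi, g, hg, hz⟩ := cone (∑ v ∈ σ, p v)
        refine ⟨i, hi, ?_⟩
        by_contra hcon
        obtain ⟨v0, hv0, hv0i⟩ := Finset.not_subset.1 hcon
        have h1 : a i ⬝ᵥ (∑ v ∈ σ, p v) < σ.card * c i := by
          rw [dotProduct_sum]
          calc ∑ v ∈ σ, a i ⬝ᵥ p v < ∑ v ∈ σ, c i := by
                apply Finset.sum_lt_sum
                · intro v hv; exact hle i hi v (hsub hv)
                · exact ⟨v0, hv0, hlt i hi v0 (hsub hv0) hv0i⟩
            _ = σ.card * c i := by rw [Finset.sum_const, nsmul_eq_mul]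
        have h2 : a i ⬝ᵥ (∑ v ∈ σ, p v) = (∑ v ∈ F i, g v) * c i := by
          rw [hz, dotProduct_sum, Finset.sum_mul]
          apply Finset.sum_congr rfl
          intro v hv
          rw [dotProduct_smul, heq i hi v hv, smul_eq_mul]
        have h3 : (∑ v ∈ F i, g v) < σ.card := by
          rw [h2] at h1
          exact lt_of_mul_lt_mul_right h1 (hc i hi).le
        have h4 : b ⬝ᵥ (∑ v ∈ σ, p v) = σ.card * e := by
          rw [dotProduct_sum, Finset.sum_congr rfl hb1, Finset.sum_const, nsmul_eq_mul]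
        have h5 : b ⬝ᵥ (∑ v ∈ σ, p v) ≤ (∑ v ∈ F i, g v) * e := by
          rw [hz, dotProduct_sum, Finset.sum_mul]
          apply Finset.sum_le_sum
          intro v hv
          rw [dotProduct_smul, smul_eq_mul]
          exact mul_le_mul_of_nonneg_left (hble v (mem_biUnion.2 ⟨i, hi, hv⟩)) (hg v hv)
        rw [h4] at h5
        have := mul_lt_mul_of_pos_right h3 he
        linarith

end Q152Ear
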