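import Pool.Agent.Q152.ExcData4
import Pool.Agent.Q152.ExcData5
import Pool.Agent.Q152.ExcData6

/-!
# Edge mappings on eight vertices: the clauses and the check of the refutations
-/

set_option autoImplicit false

namespace Pool.Agent.Q152.Exc

open Pool.Agent.Q45.Rup

/-- The pairs of vertices. -/
def E : List (Nat × Nat) := [(0,1),(0,2),(0,3),(0,4),(0,5),(0,6),(0,7),(1,2),(1,3),(1,4),(1,5),(1,6),
  (1,7),(2,3),(2,4),(2,5),(2,6),(2,7),(3,4),(3,5),(3,6),(3,7),(4,5),(4,6),(4,7),(5,6),(5,7),(6,7)]

/-- The first vertex of a pair. -/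
def e1 (i : Nat) : Nat := (E.getD i (0, 0)).1

/-- The second vertex of a pair. -/
def e2 (i : Nat) : Nat := (E.getD i (0, 0)).2

/-- The variable of adjacency. -/
def hv (a b : Nat) : Nat :=
  cond (Nat.ble a b) (Nat.add (Nat.mul 8 a) b) (Nat.add (Nat.mul 8 b) a)

/-- The variable that the image of the edge `ab` contains `c`. -/
def tv (a b c : Nat) : Nat := Nat.add 64 (Nat.add (Nat.mul 8 (hv a b)) c)

/-- The variable of the counter. -/
def sv (i j : Nat) : Nat := Nat.add 576 (Nat.add (Nat.mul 16 i) j)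

/-- Distinctness. -/
def ne (a b : Nat) : Bool := !Nat.beq a b

/-- The side conditions of a code. -/
def Code.ok : Code → Bool
  | .ex a b c => Nat.blt a 8 && Nat.blt b 8 && Nat.blt c 8 && ne a b && ne a c && ne b c
  | .ad a b c d => Nat.blt a 8 && Nat.blt b 8 && Nat.blt c 8 && Nat.blt d 8 && ne a b && ne a c &&
      ne b c && ne a d && ne b d && ne c d
  | .am a b c d e => Nat.blt a 8 && Nat.blt b 8 && Nat.blt c 8 && Nat.blt d 8 && Nat.blt e 8 &&
      ne a b && ne c d && ne c e && ne d e
  | .pt a b c => Nat.blt a 8 && Nat.blt b 8 && Nat.blt c 8 && ne a b && ne a c && ne b c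
  | .c0 i => Nat.blt i 28
  | .c1 j => Nat.blt j 14 && Nat.blt 0 j
  | .c2 i j => Nat.blt i 28 && Nat.blt 0 i && Nat.blt j 14
  | .c3 i j => Nat.blt i 28 && Nat.blt 0 i && Nat.blt j 14 && Nat.blt 0 j
  | .c4 i => Nat.blt i 28 && Nat.blt 0 i
  | .f1 i => Nat.blt i 8 && Nat.blt 0 i
  | .f0 i => Nat.blt i 8 && Nat.blt 0 i

/-- The positive literals of a code. -/
def Code.pos : Code → List Nat
  | .ex a b c => ((List.range 8).filter fun d => ne d a && ne d b && ne d c).map (tv a b)
  | .ad _ _ c d => [hv c d]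
  | .am _ _ _ _ _ => []
  | .pt a b c => [tv a b c, tv b c a]
  | .c0 i => [hv (e1 i) (e2 i), sv i 0]
  | .c1 _ => []
  | .c2 i j => [sv i j]
  | .c3 i j => [hv (e1 i) (e2 i), sv i j]
  | .c4 i => [hv (e1 i) (e2 i)]
  | .f1 i => [hv 0 i]
  | .f0 _ => []

/-- The negative literals of a code. -/
def Code.neg : Code → List Nat
  | .ex a b c => [hv a b, tv a b c]
  | .ad a b c d => [hv a b, tv a b c, tv a b d]
  | .am a b c d e => [hv a b, tv a b c, tv a b d, tv a b e]
  | .pt a b c => [hv a b, hv b c]
  | .c0 _ => []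
  | .c1 j => [sv 0 j]
  | .c2 i j => [sv (i - 1) j]
  | .c3 i j => [sv (i - 1) (j - 1)]
  | .c4 i => [sv (i - 1) 13]
  | .f1 _ => []
  | .f0 i => [hv 0 i]

/-- The unit clauses used match the degree of the root. -/
def Code.fits (d : Nat) : Code → Bool
  | .f1 i => Nat.ble i d
  | .f0 i => Nat.blt d i && Nat.blt d 6
  | _ => true

/-- The masks are right, and the side conditions hold. -/
def okAll (d : Nat) : List (Code × Nat × Nat) → Bool
  | [] => true
  | (c, P, N) :: rest =>
    cond (c.ok && c.fits d) (cond (Nat.beq (mask c.pos) P)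
      (cond (Nat.beq (mask c.neg) N) (okAll d rest) false) false) false

theorem codes_ok4 : okAll 4 codes4 = true := by decide +kernel

theorem codes_ok5 : okAll 5 codes5 = true := by decide +kernel

theorem codes_ok6 : okAll 6 codes6 = true := by decide +kernel

theorem check4 : checkAll (codes4.map Prod.snd) 809 steps4 = true := by
  decide +kernel

theorem check5 : checkAll (codes5.map Prod.snd) 449 steps5 = true := by
  decide +kernel

theorem check6 : checkAll (codes6.map Prod.snd) 75 steps6 = true := by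
  decide +kernel

theorem okAll_mem (d : Nat) : ∀ (l : List (Code × Nat × Nat)), okAll d l = true → ∀ x ∈ l,
    (x.1.ok && x.1.fits d) = true ∧ mask x.1.pos = x.2.1 ∧ mask x.1.neg = x.2.2
  | [], _, x, hx => by simp at hx
  | (c, P, N) :: rest, h, x, hx => by
    rw [okAll] at h
    rcases h1 : (c.ok && c.fits d) with _ | _ <;> rw [h1] at h
    · exact absurd h (by simp)
    rcases h2 : Nat.beq (mask c.pos) P with _ | _ <;> rw [h2] at h
    · exact absurd h (by simp)
    rcases h3 : Nat.beq (mask c.neg) N with _ | _ <;> rw [h3] at h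
    · exact absurd h (by simp)
    simp only [cond_true] at h
    rcases List.mem_cons.1 hx with rfl | hx
    · exact ⟨h1, Nat.eq_of_beq_eq_true h2, Nat.eq_of_beq_eq_true h3⟩
    · exact okAll_mem d rest h x hx

end Pool.Agent.Q152.Exc
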