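import Pool.Agent.Q152.ExcCheck

/-!
# Edge mappings on eight vertices: soundness of the encoding
-/

set_option autoImplicit false

namespace Pool.Agent.Q152.Exc

open Pool.Agent.Q45.Rup

open Classical in
/-- The valuation. -/
noncomputable def val (A : ℕ → ℕ → Prop) (T : ℕ → ℕ → ℕ → Prop) (cnt : ℕ → ℕ) (x : ℕ) : Bool :=
  if x < 64 then decide (A (x / 8) (x % 8))
  else if x < 576 then decide (T ((x - 64) / 64) ((x - 64) / 8 % 8) ((x - 64) % 8))
  else decide ((x - 576) % 16 + 1 ≤ cnt ((x - 576) / 16))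

theorem hv_eq (a b : ℕ) : hv a b = if a ≤ b then 8 * a + b else 8 * b + a := by
  unfold hv
  rcases h : Nat.ble a b with _ | _
  · have : ¬ a ≤ b := fun hc => by rw [Nat.ble_eq_true_of_le hc] at h; exact absurd h (by decide)
    rw [if_neg this]
    rfl
  · rw [if_pos (Nat.le_of_ble_eq_true h)]
    rfl

section

variable {A : ℕ → ℕ → Prop} {T : ℕ → ℕ → ℕ → Prop} {cnt : ℕ → ℕ}

theorem val_hv (hA : ∀ a b, A a b → A b a) {a b : ℕ} (ha : a < 8) (hb : b < 8) :
    val A T cnt (hv a b) = true ↔ A a b := by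
  classical
  rw [hv_eq]
  by_cases h : a ≤ b
  · rw [if_pos h, val, if_pos (by omega)]
    have h1 : (8 * a + b) / 8 = a := by omega
    have h2 : (8 * a + b) % 8 = b := by omega
    rw [h1, h2, decide_eq_true_eq]
  · rw [if_neg h, val, if_pos (by omega)]
    have h1 : (8 * b + a) / 8 = b := by omega
    have h2 : (8 * b + a) % 8 = a := by omega
    rw [h1, h2, decide_eq_true_eq]
    exact ⟨hA _ _, hA _ _⟩

theorem val_tv (hT : ∀ a b c, T a b c → T b a c) {a b c : ℕ} (ha : a < 8) (hb : b < 8)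
    (hc : c < 8) : val A T cnt (tv a b c) = true ↔ T a b c := by
  classical
  have h0 : tv a b c = 64 + (8 * hv a b + c) := rfl
  rw [h0, hv_eq]
  by_cases h : a ≤ b
  · rw [if_pos h, val, if_neg (by omega), if_pos (by omega)]
    have h1 : (64 + (8 * (8 * a + b) + c) - 64) / 64 = a := by omega
    have h2 : (64 + (8 * (8 * a + b) + c) - 64) / 8 % 8 = b := by omega
    have h3 : (64 + (8 * (8 * a + b) + c) - 64) % 8 = c := by omega
    rw [h1, h2, h3, decide_eq_true_eq]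
  · rw [if_neg h, val, if_neg (by omega), if_pos (by omega)]
    have h1 : (64 + (8 * (8 * b + a) + c) - 64) / 64 = b := by omega
    have h2 : (64 + (8 * (8 * b + a) + c) - 64) / 8 % 8 = a := by omega
    have h3 : (64 + (8 * (8 * b + a) + c) - 64) % 8 = c := by omega
    rw [h1, h2, h3, decide_eq_true_eq]
    exact ⟨hT _ _ _, hT _ _ _⟩

theorem val_sv {i j : ℕ} (hj : j < 16) : val A T cnt (sv i j) = true ↔ j + 1 ≤ cnt i := by
  have h0 : sv i j = 576 + (16 * i + j) := rfl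
  rw [h0, val, if_neg (by omega), if_neg (by omega)]
  have h1 : (576 + (16 * i + j) - 576) / 16 = i := by omega
  have h2 : (576 + (16 * i + j) - 576) % 16 = j := by omega
  rw [h1, h2, decide_eq_true_eq]

theorem blt_iff {a b : ℕ} : Nat.blt a b = true ↔ a < b := by
  unfold Nat.blt
  rw [Nat.ble_eq]
  exact Iff.rfl

theorem ne_iff {a b : ℕ} : ne a b = true ↔ a ≠ b := by
  unfold ne
  rw [Bool.not_eq_true', ← Bool.not_eq_true, Nat.beq_eq]

theorem e_lt : ∀ i < 28, e1 i < 8 ∧ e2 i < 8 := by decide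

variable (hA : ∀ a b, A a b → A b a) (hT : ∀ a b c, T a b c → T b a c)
  (hex : ∀ a b c, a < 8 → b < 8 → c < 8 → a ≠ b → a ≠ c → b ≠ c → A a b → T a b c →
    ∃ d < 8, d ≠ a ∧ d ≠ b ∧ d ≠ c ∧ T a b d)
  (had : ∀ a b c d, a < 8 → b < 8 → c < 8 → d < 8 → c ≠ d → A a b → T a b c → T a b d → A c d)
  (ham : ∀ a b c d e, a < 8 → b < 8 → c < 8 → d < 8 → e < 8 → c ≠ d → c ≠ e → d ≠ e → A a b →
    T a b c → T a b d → T a b e → False)
  (hpt : ∀ a b c, a < 8 → b < 8 → c < 8 → a ≠ c → A a b → A b c → T a b c ∨ T b c a)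
  (hc0 : ∀ i < 28, ¬ A (e1 i) (e2 i) → 1 ≤ cnt i) (hc1 : cnt 0 ≤ 1)
  (hc2 : ∀ i, 0 < i → i < 28 → cnt (i - 1) ≤ cnt i)
  (hc3 : ∀ i, 0 < i → i < 28 → ¬ A (e1 i) (e2 i) → cnt (i - 1) + 1 ≤ cnt i)
  (hc4 : ∀ i < 28, cnt i ≤ 14) (d : ℕ)
  (hf1 : ∀ i, 0 < i → i < 8 → i ≤ d → A 0 i)
  (hf0 : ∀ i, 0 < i → i < 8 → d < i → d < 6 → ¬ A 0 i)

include hA hT hex had ham hpt hc0 hc1 hc2 hc3 hc4 hf1 hf0

theorem code_sat (c : Code) (hc : (c.ok && c.fits d) = true) :
    Sat (val A T cnt) (mask c.pos) (mask c.neg) := by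
  apply sat_mask
  by_contra hcon
  rw [not_or] at hcon
  obtain ⟨hpos, hneg⟩ := hcon
  have hp : ∀ x ∈ c.pos, ¬ val A T cnt x = true := fun x hx h => hpos ⟨x, hx, h⟩
  have hn : ∀ x ∈ c.neg, val A T cnt x = true := fun x hx => by
    by_contra h
    exact hneg ⟨x, hx, by simpa using h⟩
  rw [Bool.and_eq_true] at hc
  obtain ⟨hok, hfit⟩ := hc
  cases c with
  | ex a b c =>
    simp only [Code.ok, Bool.and_eq_true, blt_iff, ne_iff] at hok
    obtain ⟨⟨⟨⟨⟨ha, hb⟩, hc⟩, hab⟩, hac⟩, hbc⟩ := hok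
    have h1 := hn (hv a b) (by simp [Code.neg])
    have h2 := hn (tv a b c) (by simp [Code.neg])
    rw [val_hv hA ha hb] at h1
    rw [val_tv hT ha hb hc] at h2
    obtain ⟨d', hd, hda, hdb, hdc, hTd⟩ := hex a b c ha hb hc hab hac hbc h1 h2
    refine hp (tv a b d') ?_ ((val_tv hT ha hb hd).2 hTd)
    simp only [Code.pos, List.mem_map, List.mem_filter, List.mem_range, Bool.and_eq_true, ne_iff]
    exact ⟨d', ⟨hd, ⟨⟨hda, hdb⟩, hdc⟩⟩, rfl⟩
  | ad a b c d' =>
    simp only [Code.ok, Bool.and_eq_true, blt_iff, ne_iff] at hok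
    obtain ⟨⟨⟨⟨⟨⟨⟨⟨⟨ha, hb⟩, hc⟩, hd⟩, hab⟩, hac⟩, hbc⟩, had'⟩, hbd⟩, hcd⟩ := hok
    have h1 := hn (hv a b) (by simp [Code.neg])
    have h2 := hn (tv a b c) (by simp [Code.neg])
    have h3 := hn (tv a b d') (by simp [Code.neg])
    rw [val_hv hA ha hb] at h1
    rw [val_tv hT ha hb hc] at h2
    rw [val_tv hT ha hb hd] at h3
    exact hp (hv c d') (by simp [Code.pos])
      ((val_hv hA hc hd).2 (had a b c d' ha hb hc hd hcd h1 h2 h3))
  | am a b c d' e =>
    simp only [Code.ok, Bool.and_eq_true, blt_iff, ne_iff] at hok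
    obtain ⟨⟨⟨⟨⟨⟨⟨⟨ha, hb⟩, hc⟩, hd⟩, he⟩, hab⟩, hcd⟩, hce⟩, hde⟩ := hok
    have h1 := hn (hv a b) (by simp [Code.neg])
    have h2 := hn (tv a b c) (by simp [Code.neg])
    have h3 := hn (tv a b d') (by simp [Code.neg])
    have h4 := hn (tv a b e) (by simp [Code.neg])
    rw [val_hv hA ha hb] at h1
    rw [val_tv hT ha hb hc] at h2
    rw [val_tv hT ha hb hd] at h3
    rw [val_tv hT ha hb he] at h4
    exact ham a b c d' e ha hb hc hd he hcd hce hde h1 h2 h3 h4
  | pt a b c =>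
    simp only [Code.ok, Bool.and_eq_true, blt_iff, ne_iff] at hok
    obtain ⟨⟨⟨⟨⟨ha, hb⟩, hc⟩, hab⟩, hac⟩, hbc⟩ := hok
    have h1 := hn (hv a b) (by simp [Code.neg])
    have h2 := hn (hv b c) (by simp [Code.neg])
    rw [val_hv hA ha hb] at h1
    rw [val_hv hA hb hc] at h2
    rcases hpt a b c ha hb hc hac h1 h2 with h | h
    · exact hp (tv a b c) (by simp [Code.pos]) ((val_tv hT ha hb hc).2 h)
    · exact hp (tv b c a) (by simp [Code.pos]) ((val_tv hT hb hc ha).2 h)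
  | c0 i =>
    simp only [Code.ok, blt_iff] at hok
    obtain ⟨h1, h2⟩ := e_lt i hok
    have h3 := hp (hv (e1 i) (e2 i)) (by simp [Code.pos])
    have h4 := hp (sv i 0) (by simp [Code.pos])
    rw [val_hv hA h1 h2] at h3
    rw [val_sv (by norm_num)] at h4
    exact h4 (hc0 i hok h3)
  | c1 j =>
    simp only [Code.ok, Bool.and_eq_true, blt_iff] at hok
    have h3 := hn (sv 0 j) (by simp [Code.neg])
    rw [val_sv (by omega)] at h3
    omega
  | c2 i j =>
    simp only [Code.ok, Bool.and_eq_true, blt_iff] at hok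
    have h3 := hn (sv (i - 1) j) (by simp [Code.neg])
    have h4 := hp (sv i j) (by simp [Code.pos])
    rw [val_sv (by omega)] at h3 h4
    have := hc2 i hok.1.2 hok.1.1
    omega
  | c3 i j =>
    simp only [Code.ok, Bool.and_eq_true, blt_iff] at hok
    obtain ⟨⟨⟨hi, hi0⟩, hj⟩, hj0⟩ := hok
    obtain ⟨h1, h2⟩ := e_lt i hi
    have h3 := hn (sv (i - 1) (j - 1)) (by simp [Code.neg])
    have h4 := hp (sv i j) (by simp [Code.pos])
    have h5 := hp (hv (e1 i) (e2 i)) (by simp [Code.pos])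
    rw [val_hv hA h1 h2] at h5
    rw [val_sv (by omega)] at h3 h4
    have := hc3 i hi0 hi h5
    omega
  | c4 i =>
    simp only [Code.ok, Bool.and_eq_true, blt_iff] at hok
    obtain ⟨hi, hi0⟩ := hok
    obtain ⟨h1, h2⟩ := e_lt i hi
    have h3 := hn (sv (i - 1) 13) (by simp [Code.neg])
    have h5 := hp (hv (e1 i) (e2 i)) (by simp [Code.pos])
    rw [val_hv hA h1 h2] at h5
    rw [val_sv (by omega)] at h3
    have := hc3 i hi0 hi h5
    have := hc4 i hi
    omega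
  | f1 i =>
    simp only [Code.ok, Bool.and_eq_true, blt_iff] at hok
    simp only [Code.fits, Nat.ble_eq] at hfit
    have h5 := hp (hv 0 i) (by simp [Code.pos])
    rw [val_hv hA (by norm_num) hok.1] at h5
    exact h5 (hf1 i hok.2 hok.1 hfit)
  | f0 i =>
    simp only [Code.ok, Bool.and_eq_true, blt_iff] at hok
    simp only [Code.fits, Bool.and_eq_true, blt_iff] at hfit
    have h5 := hn (hv 0 i) (by simp [Code.neg])
    rw [val_hv hA (by norm_num) hok.1] at h5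
    exact hf0 i hok.2 hok.1 hfit.1 hfit.2 h5

theorem refute (hd : d = 4 ∨ d = 5 ∨ d = 6) : False := by
  have key : ∀ l : List (Code × Nat × Nat), okAll d l = true →
      ∀ c ∈ l.map Prod.snd, Sat (val A T cnt) c.1 c.2 := by
    intro l hl c hc
    obtain ⟨x, hx, rfl⟩ := List.mem_map.1 hc
    obtain ⟨h1, h2, h3⟩ := okAll_mem d l hl x hx
    rw [← h2, ← h3]
    exact code_sat hA hT hex had ham hpt hc0 hc1 hc2 hc3 hc4 d hf1 hf0 x.1 h1
  rcases hd with rfl | rfl | rfl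
  · exact checkAll_sound _ _ _ check4 (key codes4 codes_ok4)
  · exact checkAll_sound _ _ _ check5 (key codes5 codes_ok5)
  · exact checkAll_sound _ _ _ check6 (key codes6 codes_ok6)

end

end Pool.Agent.Q152.Exc
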