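import Pool.Agent.Q152.Toggle

/-!
The comparability graph of a fence.
-/

namespace Pool.Agent.Q152.FenceGraph

open Finset Pool.Agent.Q152.Toggle

variable {F : Type} [Fintype F] [DecidableEq F] [PartialOrder F] {n : ℕ}

/-- `x_1, ..., x_n` is the list of the elements of a fence: consecutive elements form covers, and
there are no other covers. -/
def IsFence (x : Fin n ≃ F) : Prop :=
  (∀ i j : Fin n, x i ⋖ x j → (j : ℕ) = i + 1 ∨ (i : ℕ) = j + 1) ∧
    ∀ i j : Fin n, (j : ℕ) = i + 1 → x i ⋖ x j ∨ x j ⋖ x i

variable (F) in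
/-- The comparability graph. -/
def cg : SimpleGraph F where
  Adj u v := u < v ∨ v < u
  symm := ⟨fun _ _ h => h.symm⟩
  loopless := ⟨fun u h => by rcases h with h | h <;> exact lt_irrefl u h⟩

/-- The position of an element. -/
def pos (x : Fin n ≃ F) (v : F) : ℕ := (x.symm v : ℕ)

/-- the cover at the place `k` is upwards -/
def Up (x : Fin n ≃ F) (k : ℕ) : Prop := ∀ u v, pos x u = k → pos x v = k + 1 → u ⋖ v

/-- the cover at the place `k` is downwards -/
def Dn (x : Fin n ≃ F) (k : ℕ) : Prop := ∀ u v, pos x u = k → pos x v = k + 1 → v ⋖ u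

/-- all the covers between the places `a` and `b` have the same direction -/
def Mono (x : Fin n ≃ F) (a b : ℕ) : Prop :=
  (∀ k, a ≤ k → k < b → Up x k) ∨ (∀ k, a ≤ k → k < b → Dn x k)

variable {x : Fin n ≃ F}

theorem pos_inj {u v : F} (h : pos x u = pos x v) : u = v :=
  x.symm.injective (Fin.ext h)

theorem pos_lt (x : Fin n ≃ F) (v : F) : pos x v < n := (x.symm v).2

theorem exists_pos (x : Fin n ≃ F) {k : ℕ} (hk : k < n) : ∃ v, pos x v = k :=
  ⟨x ⟨k, hk⟩, by simp [pos]⟩

variable (hx : IsFence x)

include hx

theorem cov_pos {u v : F} (h : u ⋖ v) : pos x v = pos x u + 1 ∨ pos x u = pos x v + 1 := by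
  have := hx.1 (x.symm u) (x.symm v)
  rw [Equiv.apply_symm_apply, Equiv.apply_symm_apply] at this
  exact this h

theorem up_or_dn (k : ℕ) : Up x k ∨ Dn x k := by
  by_cases h : ∃ u v, pos x u = k ∧ pos x v = k + 1
  · obtain ⟨u, v, hu, hv⟩ := h
    have := hx.2 (x.symm u) (x.symm v) (by
      change pos x v = pos x u + 1
      omega)
    rw [Equiv.apply_symm_apply, Equiv.apply_symm_apply] at this
    rcases this with h1 | h1
    · left
      intro u' v' hu' hv'
      have e1 : u' = u := pos_inj (hu'.trans hu.symm)
      have e2 : v' = v := pos_inj (hv'.trans hv.symm)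
      rw [e1, e2]; exact h1
    · right
      intro u' v' hu' hv'
      have e1 : u' = u := pos_inj (hu'.trans hu.symm)
      have e2 : v' = v := pos_inj (hv'.trans hv.symm)
      rw [e1, e2]; exact h1
  · left
    intro u v hu hv
    exact absurd ⟨u, v, hu, hv⟩ h

omit hx in
theorem not_both {k : ℕ} (hk : k + 1 < n) (h1 : Up x k) (h2 : Dn x k) : False := by
  obtain ⟨u, hu⟩ := exists_pos x (show k < n by omega)
  obtain ⟨v, hv⟩ := exists_pos x hk
  exact lt_asymm (h1 u v hu hv).lt (h2 u v hu hv).lt

omit hx in
theorem lt_of_up {a : ℕ} : ∀ (d : ℕ) {u v : F}, pos x u = a → pos x v = a + (d + 1) →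
    (∀ k, a ≤ k → k < a + (d + 1) → Up x k) → u < v := by
  intro d
  induction d with
  | zero =>
    intro u v hu hv h
    exact (h a le_rfl (by omega) u v hu (by omega)).lt
  | succ d ih =>
    intro u v hu hv h
    obtain ⟨w, hw⟩ := exists_pos x (show a + (d + 1) < n by have := pos_lt x v; omega)
    exact (ih hu hw (fun k h1 h2 => h k h1 (by omega))).trans
      (h (a + (d + 1)) (by omega) (by omega) w v hw (by omega)).lt

omit hx in
theorem lt_of_dn {a : ℕ} : ∀ (d : ℕ) {u v : F}, pos x u = a → pos x v = a + (d + 1) →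
    (∀ k, a ≤ k → k < a + (d + 1) → Dn x k) → v < u := by
  intro d
  induction d with
  | zero =>
    intro u v hu hv h
    exact (h a le_rfl (by omega) u v hu (by omega)).lt
  | succ d ih =>
    intro u v hu hv h
    obtain ⟨w, hw⟩ := exists_pos x (show a + (d + 1) < n by have := pos_lt x v; omega)
    exact lt_trans (h (a + (d + 1)) (by omega) (by omega) w v hw (by omega)).lt
      (ih hu hw (fun k h1 h2 => h k h1 (by omega)))

/-- the shape of the comparable pairs -/
theorem shape {u v : F} (h : u < v) :
    (pos x u < pos x v ∧ ∀ k, pos x u ≤ k → k < pos x v → Up x k) ∨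
      (pos x v < pos x u ∧ ∀ k, pos x v ≤ k → k < pos x u → Dn x k) := by
  have h' : Relation.TransGen (· ⋖ ·) u v := by
    classical
    let _ : LocallyFiniteOrder F := Fintype.toLocallyFiniteOrder
    exact (lt_iff_transGen_covBy).1 h
  have up1 : ∀ {a b : F}, a ⋖ b → pos x b = pos x a + 1 → Up x (pos x a) := by
    intro a b hab hp u' v' hu' hv'
    have e1 : u' = a := pos_inj hu'
    have e2 : v' = b := pos_inj (x := x) (by omega)
    rw [e1, e2]; exact hab
  have dn1 : ∀ {a b : F}, a ⋖ b → pos x a = pos x b + 1 → Dn x (pos x b) := by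
    intro a b hab hp u' v' hu' hv'
    have e1 : u' = b := pos_inj hu'
    have e2 : v' = a := pos_inj (x := x) (by omega)
    rw [e1, e2]; exact hab
  clear h
  induction h' with
  | single h =>
    rcases cov_pos hx h with h1 | h1
    · left
      refine ⟨by omega, fun k h2 h3 => ?_⟩
      have : k = pos x u := by omega
      rw [this]; exact up1 h h1
    · right
      refine ⟨by omega, fun k h2 h3 => ?_⟩
      rename_i b
      have : k = pos x b := by omega
      rw [this]; exact dn1 h h1
  | tail _ h ih =>
    rename_i b c _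
    rcases cov_pos hx h with h1 | h1
    · rcases ih with ⟨i1, i2⟩ | ⟨i1, i2⟩
      · left
        refine ⟨by omega, fun k h2 h3 => ?_⟩
        rcases Nat.lt_or_ge k (pos x b) with h4 | h4
        · exact i2 k h2 h4
        · have : k = pos x b := by omega
          rw [this]; exact up1 h h1
      · exfalso
        exact not_both (x := x) (k := pos x b) (by have := pos_lt x c; omega) (up1 h h1)
          (i2 _ le_rfl i1)
    · rcases ih with ⟨i1, i2⟩ | ⟨i1, i2⟩
      · exfalso
        exact not_both (x := x) (k := pos x c) (by have := pos_lt x b; omega)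
          (i2 _ (by omega) (by omega)) (dn1 h h1)
      · right
        refine ⟨by omega, fun k h2 h3 => ?_⟩
        rcases Nat.lt_or_ge k (pos x b) with h4 | h4
        · have : k = pos x c := by omega
          rw [this]; exact dn1 h h1
        · exact i2 k h4 h3

theorem adj_iff {u v : F} (h : pos x u < pos x v) : (cg F).Adj u v ↔ Mono x (pos x u) (pos x v) := by
  constructor
  · rintro (h1 | h1)
    · rcases shape hx h1 with ⟨_, h3⟩ | ⟨h2, _⟩
      · exact Or.inl h3
      · omega
    · rcases shape hx h1 with ⟨h2, _⟩ | ⟨_, h3⟩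
      · omega
      · exact Or.inr h3
  · have e : pos x v = pos x u + ((pos x v - pos x u - 1) + 1) := by omega
    rintro (h1 | h1)
    · left
      exact lt_of_up (x := x) _ rfl e (fun k h2 h3 => h1 k h2 (by omega))
    · right
      exact lt_of_dn (x := x) _ rfl e (fun k h2 h3 => h1 k h2 (by omega))

/-- The direction does not change at the element `v`. -/
def Free (x : Fin n ≃ F) (v : F) : Prop :=
  0 < pos x v → pos x v + 1 < n → Mono x (pos x v - 1) (pos x v + 1)

omit hx in
theorem Mono.sub {a b a' b' : ℕ} (h : Mono x a b) (h1 : a ≤ a') (h2 : b' ≤ b) : Mono x a' b' := by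
  rcases h with h | h
  · exact Or.inl fun k h3 h4 => h k (by omega) (by omega)
  · exact Or.inr fun k h3 h4 => h k (by omega) (by omega)

omit hx in
theorem free_of_mono {a b : ℕ} {v : F} (h : Mono x a b) (h1 : a < pos x v) (h2 : pos x v < b) :
    Free x v := fun _ _ => h.sub (by omega) (by omega)

omit hx in
theorem Mono.glue {a b : ℕ} {v : F} (hv : Free x v) (h1 : a < pos x v) (h2 : pos x v < b)
    (hb : b < n) (h3 : Mono x a (pos x v)) (h4 : Mono x (pos x v) b) : Mono x a b := by
  have h5 := hv (by omega) (by omega)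
  have hU : ∀ k, k + 1 < n → Up x k → ¬ Dn x k := fun k hk hu hd => not_both hk hu hd
  rcases h3 with h3 | h3
  · have e1 := h3 (pos x v - 1) (by omega) (by omega)
    rcases h5 with h5 | h5
    · have e2 := h5 (pos x v) (by omega) (by omega)
      rcases h4 with h4 | h4
      · left
        intro k h6 h7
        rcases Nat.lt_or_ge k (pos x v) with h8 | h8
        · exact h3 k h6 h8
        · exact h4 k h8 h7
      · exact absurd (h4 (pos x v) le_rfl h2) (hU _ (by omega) e2)
    · exact absurd (h5 (pos x v - 1) le_rfl (by omega)) (hU _ (by omega) e1)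
  · have e1 := h3 (pos x v - 1) (by omega) (by omega)
    rcases h5 with h5 | h5
    · exact absurd e1 (hU _ (by omega) (h5 (pos x v - 1) le_rfl (by omega)))
    · have e2 := h5 (pos x v) (by omega) (by omega)
      rcases h4 with h4 | h4
      · exact absurd e2 (hU _ (by omega) (h4 (pos x v) le_rfl h2))
      · right
        intro k h6 h7
        rcases Nat.lt_or_ge k (pos x v) with h8 | h8
        · exact h3 k h6 h8
        · exact h4 k h8 h7

/-- the comparability in terms of the positions, symmetric form -/
theorem adj_iff' {u v : F} : (cg F).Adj u v ↔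
    (pos x u < pos x v ∧ Mono x (pos x u) (pos x v)) ∨
      (pos x v < pos x u ∧ Mono x (pos x v) (pos x u)) := by
  rcases Nat.lt_trichotomy (pos x u) (pos x v) with h | h | h
  · rw [adj_iff hx h]
    constructor
    · intro h1; exact Or.inl ⟨h, h1⟩
    · rintro (h1 | h1)
      · exact h1.2
      · omega
  · have : u = v := pos_inj h
    subst this
    constructor
    · intro h1; exact absurd h1 ((cg F).loopless.irrefl u)
    · rintro (h1 | h1) <;> omega
  · rw [(cg F).adj_comm, adj_iff hx h]
    constructor
    · intro h1; exact Or.inr ⟨h, h1⟩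
    · rintro (h1 | h1)
      · omega
      · exact h1.2

/-- the neighbours of a free element are neighbours of each neighbour of it -/
theorem twin_free {i q v : F} (hi : Free x i) (hadj : (cg F).Adj i q) (hvi : v ≠ i)
    (hvq : v ≠ q) (h : (cg F).Adj v i) : (cg F).Adj v q := by
  have n1 : pos x v ≠ pos x i := fun h => hvi (pos_inj h)
  have n2 : pos x v ≠ pos x q := fun h => hvq (pos_inj h)
  have l1 := pos_lt x v
  have l2 := pos_lt x i
  have l3 := pos_lt x q
  rw [adj_iff' hx] at hadj h ⊢
  rcases hadj with ⟨a1, a2⟩ | ⟨a1, a2⟩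
  · rcases h with ⟨b1, b2⟩ | ⟨b1, b2⟩
    · -- v < i < q
      exact Or.inl ⟨by omega, Mono.glue hi b1 a1 l3 b2 a2⟩
    · -- i < v, i < q
      rcases Nat.lt_or_ge (pos x v) (pos x q) with h3 | h3
      · exact Or.inl ⟨h3, a2.sub (by omega) (by omega)⟩
      · exact Or.inr ⟨by omega, b2.sub (by omega) (by omega)⟩
  · rcases h with ⟨b1, b2⟩ | ⟨b1, b2⟩
    · -- v < i, q < i
      rcases Nat.lt_or_ge (pos x v) (pos x q) with h3 | h3
      · exact Or.inl ⟨h3, b2.sub (by omega) (by omega)⟩
      · exact Or.inr ⟨by omega, a2.sub (by omega) (by omega)⟩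
    · -- q < i < v
      exact Or.inr ⟨by omega, Mono.glue hi a1 b1 l1 a2 b2⟩

/-- The hypotheses of the exchange lemma hold for a free element. -/
theorem exch {i q : F} (hi : Free x i) (hadj : (cg F).Adj i q) : ∃ L, Exch (cg F) L i q := by
  have hiq : i ≠ q := fun h => (cg F).loopless.irrefl q (h ▸ hadj)
  by_cases hq : Free x q
  · refine ⟨fun v => v ≠ q, hiq, fun h => h rfl, hadj, ?_, ?_⟩
    · intro v hvq hvi
      constructor
      · intro h; exact twin_free hx hi hadj hvi hvq h
      · intro h; exact twin_free hx hq hadj.symm hvq hvi h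
    · intro v v' _ h1 h2
      exact absurd h2 h1
  · have hadj' := hadj
    rw [adj_iff' hx] at hadj'
    rcases hadj' with ⟨a1, a2⟩ | ⟨a1, a2⟩
    · refine ⟨fun v => pos x v < pos x q, a1, lt_irrefl _, hadj, ?_, ?_⟩
      · intro v hvq hvi
        have hvq' : v ≠ q := fun h => by rw [h] at hvq; exact lt_irrefl _ hvq
        constructor
        · intro h; exact twin_free hx hi hadj hvi hvq' h
        · intro h
          have n1 : pos x v ≠ pos x i := fun h => hvi (pos_inj h)
          rw [adj_iff' hx] at h ⊢
          rcases h with ⟨b1, b2⟩ | ⟨b1, b2⟩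
          · rcases Nat.lt_or_ge (pos x v) (pos x i) with h3 | h3
            · exact Or.inl ⟨h3, b2.sub (by omega) (by omega)⟩
            · exact Or.inr ⟨by omega, a2.sub (by omega) (by omega)⟩
          · omega
      · intro v v' h1 h2 h3 h4
        have n1 : pos x v' ≠ pos x q := fun h => h3 (pos_inj h)
        have h1' : pos x v < pos x q := h1
        have h2' : ¬ pos x v' < pos x q := h2
        rw [adj_iff' hx] at h4
        rcases h4 with ⟨b1, b2⟩ | ⟨b1, b2⟩
        · exact hq (free_of_mono b2 h1' (by omega))
        · omega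
    · refine ⟨fun v => pos x q < pos x v, a1, lt_irrefl _, hadj, ?_, ?_⟩
      · intro v hvq hvi
        have hvq' : v ≠ q := fun h => by rw [h] at hvq; exact lt_irrefl _ hvq
        constructor
        · intro h; exact twin_free hx hi hadj hvi hvq' h
        · intro h
          have n1 : pos x v ≠ pos x i := fun h => hvi (pos_inj h)
          rw [adj_iff' hx] at h ⊢
          rcases h with ⟨b1, b2⟩ | ⟨b1, b2⟩
          · omega
          · rcases Nat.lt_or_ge (pos x v) (pos x i) with h3 | h3
            · exact Or.inl ⟨h3, a2.sub (by omega) (by omega)⟩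
            · exact Or.inr ⟨by omega, b2.sub (by omega) (by omega)⟩
      · intro v v' h1 h2 h3 h4
        have n1 : pos x v' ≠ pos x q := fun h => h3 (pos_inj h)
        have h1' : pos x q < pos x v := h1
        have h2' : ¬ pos x q < pos x v' := h2
        rw [adj_iff' hx] at h4
        rcases h4 with ⟨b1, b2⟩ | ⟨b1, b2⟩
        · omega
        · exact hq (free_of_mono b2 (by omega) h1')

/-- The comparable pairs of elements which are not free. -/
theorem bridge {p q : F} (hp : ¬ Free x p) (hq : ¬ Free x q) (hadj : (cg F).Adj p q) :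
    ∃ P : F → Prop, P p ∧ ¬ P q ∧
      ∀ a b, ¬ Free x a → ¬ Free x b → P a → ¬ P b → (cg F).Adj a b → a = p ∧ b = q := by
  rw [adj_iff' hx] at hadj
  rcases hadj with ⟨a1, a2⟩ | ⟨a1, a2⟩
  · refine ⟨fun v => pos x v ≤ pos x p, le_rfl, by omega, ?_⟩
    intro a b ha hb hPa hPb h
    have hPa' : pos x a ≤ pos x p := hPa
    have hPb' : ¬ pos x b ≤ pos x p := hPb
    rw [adj_iff' hx] at h
    rcases h with ⟨b1, b2⟩ | ⟨b1, b2⟩
    · have e1 : pos x a = pos x p := by
        by_contra hc
        exact hp (free_of_mono b2 (by omega) (by omega))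
      have e2 : pos x b = pos x q := by
        by_contra hc
        rcases Nat.lt_or_ge (pos x b) (pos x q) with h3 | h3
        · exact hb (free_of_mono a2 (by omega) h3)
        · exact hq (free_of_mono b2 (by omega) (by omega))
      exact ⟨pos_inj e1, pos_inj e2⟩
    · omega
  · refine ⟨fun v => pos x p ≤ pos x v, le_rfl, by omega, ?_⟩
    intro a b ha hb hPa hPb h
    have hPa' : pos x p ≤ pos x a := hPa
    have hPb' : ¬ pos x p ≤ pos x b := hPb
    rw [adj_iff' hx] at h
    rcases h with ⟨b1, b2⟩ | ⟨b1, b2⟩
    · omega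
    · have e1 : pos x a = pos x p := by
        by_contra hc
        exact hp (free_of_mono b2 (by omega) (by omega))
      have e2 : pos x b = pos x q := by
        by_contra hc
        rcases Nat.lt_or_ge (pos x b) (pos x q) with h3 | h3
        · exact hq (free_of_mono b2 (by omega) (by omega))
        · exact hb (free_of_mono a2 (by omega) (by omega))
      exact ⟨pos_inj e1, pos_inj e2⟩

/-- **Any two Coxeter words of a fence are equivalent.** -/
theorem coxeter_eqv {l l' : List F} (hl : l.Nodup) (hl' : l'.Nodup) (h : ∀ v, v ∈ l)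
    (h' : ∀ v, v ∈ l') : Eqv (G := cg F) l l' := by
  have hp : l.Perm l' := (List.perm_ext_iff_of_nodup hl hl').2 fun v => ⟨fun _ => h' v, fun _ => h v⟩
  exact Eqv.of_perm (free := Free x) (fun i q hi ha => exch hx hi ha)
    (fun p q hp hq ha => bridge hx hp hq ha) hp [] hl

end Pool.Agent.Q152.FenceGraph
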