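import Mathlib

/-! Counting maximal isotropic subspaces: the Kraft inequality argument. -/

namespace Q152Iso

open Finset Module

section Kraft

variable {K V : Type} [Field K] [Fintype K] [AddCommGroup V] [Module K V] [Fintype V]
  (P : V → Submodule K V)

/-- common perp of all the vectors of the tuple -/
def CA {k : ℕ} (b : Fin k → V) : Submodule K V := ⨅ i, P (b i)

/-- common perp of the vectors with index larger than `j` -/
def CC {k : ℕ} (b : Fin k → V) (j : Fin k) : Submodule K V := ⨅ i : {i : Fin k // j < i}, P (b i)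

theorem mem_CA {k : ℕ} {b : Fin k → V} {v : V} : v ∈ CA P b ↔ ∀ i, v ∈ P (b i) := by
  simp [CA]

theorem mem_CC {k : ℕ} {b : Fin k → V} {j : Fin k} {v : V} :
    v ∈ CC P b j ↔ ∀ i, j < i → v ∈ P (b i) := by
  simp [CC]

theorem CC_cons_zero {k : ℕ} (v : V) (b : Fin k → V) :
    CC P (Fin.cons v b : Fin (k + 1) → V) 0 = CA P b := by
  ext x
  rw [mem_CC, mem_CA]
  constructor
  · intro h i
    have := h i.succ (Fin.succ_pos i)
    rwa [Fin.cons_succ] at this
  · intro h i hi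
    obtain ⟨i', rfl⟩ := Fin.exists_succ_eq.2 hi.ne'
    rw [Fin.cons_succ]; exact h i'

theorem CC_cons_succ {k : ℕ} (v : V) (b : Fin k → V) (j : Fin k) :
    CC P (Fin.cons v b : Fin (k + 1) → V) j.succ = CC P b j := by
  ext x
  rw [mem_CC, mem_CC]
  constructor
  · intro h i hi
    have := h i.succ (Fin.succ_lt_succ_iff.2 hi)
    rwa [Fin.cons_succ] at this
  · intro h i hi
    have h0 : i ≠ 0 := by
      rintro rfl
      exact absurd hi (Fin.not_lt_zero _)
    obtain ⟨i', rfl⟩ := Fin.exists_succ_eq.2 h0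
    rw [Fin.cons_succ]; exact h i' (Fin.succ_lt_succ_iff.1 hi)

/-- the weight of a tuple -/
noncomputable def wt {k : ℕ} (b : Fin k → V) : ℝ :=
  ∏ j : Fin k, ((Fintype.card K : ℝ) ^ finrank K (CC P b j))⁻¹

open scoped Classical in
noncomputable def tm {k : ℕ} (b : Fin k → V) : ℝ := if ∀ j, b j ∈ CC P b j then wt P b else 0

theorem card_pos' : (0 : ℝ) < (Fintype.card K : ℝ) := by
  exact_mod_cast Fintype.card_pos

theorem wt_pos {k : ℕ} (b : Fin k → V) : 0 < wt P b := by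
  unfold wt
  exact Finset.prod_pos fun j _ => inv_pos.2 (pow_pos card_pos' _)

theorem tm_nonneg {k : ℕ} (b : Fin k → V) : 0 ≤ tm P b := by
  unfold tm
  split_ifs
  · exact (wt_pos P b).le
  · exact le_rfl

open scoped Classical in
theorem tm_cons {k : ℕ} (v : V) (b : Fin k → V) :
    tm P (Fin.cons v b : Fin (k + 1) → V) =
      (if v ∈ CA P b then ((Fintype.card K : ℝ) ^ finrank K (CA P b))⁻¹ else 0) * tm P b := by
  have h1 : (∀ j, (Fin.cons v b : Fin (k + 1) → V) j ∈ CC P (Fin.cons v b : Fin (k + 1) → V) j) ↔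
      v ∈ CA P b ∧ ∀ j, b j ∈ CC P b j := by
    constructor
    · intro h
      refine ⟨?_, fun j => ?_⟩
      · have := h 0
        rwa [CC_cons_zero, Fin.cons_zero] at this
      · have := h j.succ
        rwa [CC_cons_succ, Fin.cons_succ] at this
    · rintro ⟨h, h'⟩ j
      refine Fin.cases ?_ (fun j => ?_) j
      · rw [CC_cons_zero, Fin.cons_zero]; exact h
      · rw [CC_cons_succ, Fin.cons_succ]; exact h' j
  have h2 : wt P (Fin.cons v b : Fin (k + 1) → V) =
      ((Fintype.card K : ℝ) ^ finrank K (CA P b))⁻¹ * wt P b := by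
    unfold wt
    rw [Fin.prod_univ_succ, CC_cons_zero]
    congr 1
    apply Finset.prod_congr rfl
    intro j _
    rw [CC_cons_succ]
  unfold tm
  by_cases ha : v ∈ CA P b
  · by_cases hb : ∀ j, b j ∈ CC P b j
    · rw [if_pos (h1.2 ⟨ha, hb⟩), if_pos ha, if_pos hb, h2]
    · rw [if_neg (fun h => hb (h1.1 h).2), if_neg hb, mul_zero]
  · rw [if_neg (fun h => ha (h1.1 h).1), if_neg ha, zero_mul]

open scoped Classical in
theorem sum_mem (S : Submodule K V) :
    ∑ v : V, (if v ∈ S then ((Fintype.card K : ℝ) ^ finrank K S)⁻¹ else 0) = 1 := by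
  rw [← Finset.sum_filter, Finset.sum_const, nsmul_eq_mul]
  have h1 : (Finset.univ.filter fun v : V => v ∈ S).card = Fintype.card S := by
    rw [Fintype.card_subtype]
  rw [h1, Module.card_eq_pow_finrank (K := K) (V := S)]
  push_cast
  exact mul_inv_cancel₀ (pow_pos card_pos' _).ne'

/-- the Kraft (in)equality -/
theorem kraft (k : ℕ) : ∑ b : Fin k → V, tm P b = 1 := by
  classical
  induction k with
  | zero =>
    rw [Fintype.sum_unique]
    unfold tm
    rw [if_pos (fun j => Fin.elim0 j)]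
    unfold wt
    simp
  | succ k ih =>
    rw [← (Fin.consEquiv fun _ : Fin (k + 1) => V).sum_comp, Fintype.sum_prod_type_right]
    have : ∀ b : Fin k → V, ∑ v : V, tm P ((Fin.consEquiv fun _ : Fin (k + 1) => V) (v, b)) =
        tm P b := by
      intro b
      have h : ∀ v : V, tm P ((Fin.consEquiv fun _ : Fin (k + 1) => V) (v, b)) =
          (if v ∈ CA P b then ((Fintype.card K : ℝ) ^ finrank K (CA P b))⁻¹ else 0) * tm P b :=
        fun v => tm_cons P v b
      simp only [h]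
      rw [← Finset.sum_mul, sum_mem, one_mul]
    calc _ = ∑ b : Fin k → V, tm P b := Finset.sum_congr rfl fun b _ => this b
      _ = 1 := ih

/-! ### the reversed basis -/

/-- common perp of the vectors with index smaller than `j` -/
def CM {k : ℕ} (b : Fin k → V) (j : Fin k) : Submodule K V := ⨅ i : {i : Fin k // i < j}, P (b i)

theorem mem_CM {k : ℕ} {b : Fin k → V} {j : Fin k} {v : V} :
    v ∈ CM P b j ↔ ∀ i, i < j → v ∈ P (b i) := by
  simp [CM]

theorem CC_rev {k : ℕ} (b : Fin k → V) (j : Fin k) : CC P (b ∘ Fin.rev) j = CM P b j.rev := by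
  ext x
  rw [mem_CC, mem_CM]
  constructor
  · intro h i hi
    have := h i.rev (by rwa [Fin.lt_rev_iff] at hi)
    simpa using this
  · intro h i hi
    exact h i.rev (by rwa [Fin.rev_lt_rev])

theorem sum_dim {k n : ℕ} (hn : finrank K V = n) (U : Submodule K V)
    (b : Fin (k + 1) → V) (hU : finrank K U = k + 1) (hCA : CA P b = U) :
    ∑ j, finrank K (CC P b j) + ∑ j, finrank K (CC P (b ∘ Fin.rev) j) ≤
      k * (n + (k + 1)) + 2 * n := by
  have h1 : ∑ j, finrank K (CC P (b ∘ Fin.rev) j) = ∑ j, finrank K (CM P b j) := by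
    calc _ = ∑ j : Fin (k + 1), finrank K (CM P b j.rev) :=
          Finset.sum_congr rfl fun j _ => by rw [CC_rev]
      _ = _ := Equiv.sum_comp Fin.revPerm (fun j => finrank K (CM P b j))
  rw [h1, Fin.sum_univ_castSucc, Fin.sum_univ_succ (fun j => finrank K (CM P b j))]
  have h2 : ∀ j : Fin k, finrank K (CC P b j.castSucc) + finrank K (CM P b j.succ) ≤
      n + (k + 1) := by
    intro j
    rw [← Submodule.finrank_sup_add_finrank_inf_eq]
    have h3 : CC P b j.castSucc ⊓ CM P b j.succ = U := by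
      rw [← hCA]
      ext x
      rw [Submodule.mem_inf, mem_CC, mem_CM, mem_CA]
      constructor
      · rintro ⟨ha, hb⟩ i
        by_cases hi : j.castSucc < i
        · exact ha i hi
        · refine hb i ?_
          rw [Fin.lt_def] at hi ⊢
          simp only [Fin.val_castSucc, Fin.val_succ] at hi ⊢
          omega
      · intro h
        exact ⟨fun i _ => h i, fun i _ => h i⟩
    rw [h3, hU, ← hn]
    have := Submodule.finrank_le (CC P b j.castSucc ⊔ CM P b j.succ)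
    omega
  have h4 : finrank K (CC P b (Fin.last k)) ≤ n := hn ▸ Submodule.finrank_le _
  have h5 : finrank K (CM P b 0) ≤ n := hn ▸ Submodule.finrank_le _
  have h6 : ∑ j : Fin k, finrank K (CC P b j.castSucc) + ∑ j : Fin k, finrank K (CM P b j.succ) ≤
      k * (n + (k + 1)) := by
    rw [← Finset.sum_add_distrib]
    calc _ ≤ ∑ _j : Fin k, (n + (k + 1)) := Finset.sum_le_sum fun j _ => h2 j
      _ = k * (n + (k + 1)) := by simp
  omega

theorem wt_mul_rev {k n : ℕ} (hn : finrank K V = n) (U : Submodule K V)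
    (b : Fin (k + 1) → V) (hU : finrank K U = k + 1) (hCA : CA P b = U) :
    ((Fintype.card K : ℝ) ^ (k * (n + (k + 1)) + 2 * n))⁻¹ ≤ wt P b * wt P (b ∘ Fin.rev) := by
  unfold wt
  rw [Finset.prod_inv_distrib, Finset.prod_inv_distrib, ← mul_inv, Finset.prod_pow_eq_pow_sum,
    Finset.prod_pow_eq_pow_sum, ← pow_add]
  apply inv_anti₀ (pow_pos card_pos' _)
  apply pow_le_pow_right₀
  · exact_mod_cast Fintype.card_pos
  · exact sum_dim P hn U b hU hCA

open scoped Classical in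
/-- ordered bases of `U` -/
noncomputable def BB (k : ℕ) (U : Submodule K V) : Finset (Fin k → V) :=
  Finset.univ.filter fun b => LinearIndependent K b ∧ ∀ i, b i ∈ U

theorem mem_BB {k : ℕ} {U : Submodule K V} {b : Fin k → V} :
    b ∈ BB k U ↔ LinearIndependent K b ∧ ∀ i, b i ∈ U := by
  simp [BB]

theorem span_BB {k : ℕ} {U : Submodule K V} (hU : finrank K U = k) {b : Fin k → V}
    (hb : b ∈ BB k U) : Submodule.span K (Set.range b) = U := by
  rw [mem_BB] at hb
  apply Submodule.eq_of_le_of_finrank_eq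
  · rw [Submodule.span_le]
    rintro _ ⟨i, rfl⟩
    exact hb.2 i
  · rw [finrank_span_eq_card hb.1, Fintype.card_fin, hU]

theorem CA_BB (hsym : ∀ u v, v ∈ P u → u ∈ P v) {k : ℕ} {U : Submodule K V}
    (hU : finrank K U = k) (hperp : ∀ v, v ∈ U ↔ ∀ u ∈ U, v ∈ P u) {b : Fin k → V}
    (hb : b ∈ BB k U) : CA P b = U := by
  have hspan := span_BB hU hb
  rw [mem_BB] at hb
  ext x
  rw [mem_CA, hperp]
  constructor
  · intro h u hu
    rw [← hspan] at hu
    have h1 : Submodule.span K (Set.range b) ≤ P x := by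
      rw [Submodule.span_le]
      rintro _ ⟨i, rfl⟩
      exact hsym _ _ (h i)
    exact hsym _ _ (h1 hu)
  · intro h i
    exact h _ (hb.2 i)

theorem sum_BB_ge (hsym : ∀ u v, v ∈ P u → u ∈ P v) {k n : ℕ} (hn : finrank K V = n)
    {U : Submodule K V} (hU : finrank K U = k + 1) (hperp : ∀ v, v ∈ U ↔ ∀ u ∈ U, v ∈ P u)
    {z : ℝ} (hz0 : 0 ≤ z)
    (hz : z ^ 2 ≤ ((Fintype.card K : ℝ) ^ (k * (n + (k + 1)) + 2 * n))⁻¹) :
    ((BB (k + 1) U).card : ℝ) * z ≤ ∑ b ∈ BB (k + 1) U, wt P b := by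
  have hrev : ∑ b ∈ BB (k + 1) U, wt P (b ∘ Fin.rev) = ∑ b ∈ BB (k + 1) U, wt P b := by
    have hmem : ∀ b ∈ BB (k + 1) U, b ∘ Fin.rev ∈ BB (k + 1) U := by
      intro b hb
      rw [mem_BB] at hb ⊢
      exact ⟨hb.1.comp _ Fin.rev_injective, fun i => hb.2 _⟩
    have hinv : ∀ b : Fin (k + 1) → V, (b ∘ Fin.rev) ∘ Fin.rev = b := by
      intro b; funext i; simp
    refine Finset.sum_nbij' (fun b => b ∘ Fin.rev) (fun b => b ∘ Fin.rev) hmem hmem
      (fun b _ => hinv b) (fun b _ => hinv b) (fun b _ => rfl)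
  have h2 : ∀ b ∈ BB (k + 1) U, 2 * z ≤ wt P b + wt P (b ∘ Fin.rev) := by
    intro b hb
    have h3 := wt_mul_rev P hn U b hU (CA_BB P hsym hU hperp hb)
    have h4 := wt_pos P b
    have h5 := wt_pos P (b ∘ Fin.rev)
    nlinarith [sq_nonneg (wt P b - wt P (b ∘ Fin.rev)), mul_pos h4 h5]
  have h6 : ∑ b ∈ BB (k + 1) U, 2 * z ≤ ∑ b ∈ BB (k + 1) U, (wt P b + wt P (b ∘ Fin.rev)) :=
    Finset.sum_le_sum h2
  rw [Finset.sum_add_distrib, hrev, Finset.sum_const, nsmul_eq_mul] at h6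
  linarith

theorem card_BB {k : ℕ} {U : Submodule K V} (hU : finrank K U = k) :
    (BB k U).card = ∏ i : Fin k, (Fintype.card K ^ k - Fintype.card K ^ (i : ℕ)) := by
  classical
  have h1 := card_linearIndependent (K := K) (V := U) (k := k) hU.ge
  rw [hU] at h1
  rw [← h1, ← Fintype.card_coe, ← Nat.card_eq_fintype_card]
  refine Nat.card_congr
    { toFun := fun b => ⟨fun i => ⟨b.1 i, (mem_BB.1 b.2).2 i⟩, ?_⟩
      invFun := fun s => ⟨fun i => (s.1 i : V), mem_BB.2 ⟨?_, fun i => (s.1 i).2⟩⟩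
      left_inv := fun b => rfl
      right_inv := fun s => rfl }
  · exact LinearIndependent.of_comp U.subtype (mem_BB.1 b.2).1
  · exact s.2.map' U.subtype (Submodule.ker_subtype U)

/-- `∏ (q^k - q^i) ≥ q^{k^2}/4` -/
theorem prod_ge (q : ℝ) (hq : 2 ≤ q) (k : ℕ) :
    q ^ (k * k) / 4 ≤ ∏ i : Fin k, (q ^ k - q ^ (i : ℕ)) := by
  have hq0 : 0 < q := by linarith
  have h1 : ∏ i : Fin k, (q ^ k - q ^ (i : ℕ)) = q ^ (k * k) * ∏ i ∈ Finset.range k, (1 - (q ^ (i + 1))⁻¹) := by
    have h2 : ∏ i : Fin k, (q ^ k - q ^ (i : ℕ)) = ∏ i ∈ Finset.range k, (q ^ k - q ^ i) :=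
      Fin.prod_univ_eq_prod_range (fun i => q ^ k - q ^ i) k
    rw [h2, ← Finset.prod_range_reflect]
    have h3 : q ^ (k * k) = ∏ _i ∈ Finset.range k, q ^ k := by
      rw [Finset.prod_const, Finset.card_range, ← pow_mul]
    rw [h3, ← Finset.prod_mul_distrib]
    apply Finset.prod_congr rfl
    intro i hi
    have hi' := Finset.mem_range.1 hi
    rw [mul_sub, mul_one]
    congr 1
    rw [← div_eq_mul_inv, eq_div_iff (pow_pos hq0 _).ne', ← pow_add]
    congr 1
    omega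
  have h4 : ∀ m : ℕ, (1 : ℝ) / 4 + ((2 : ℝ) ^ (m + 2))⁻¹ ≤
      ∏ i ∈ Finset.range (m + 1), (1 - (q ^ (i + 1))⁻¹) := by
    intro m
    induction m with
    | zero =>
      rw [Finset.prod_range_one]
      have : (q ^ (0 + 1))⁻¹ ≤ 2⁻¹ := by
        rw [zero_add, pow_one]
        exact inv_anti₀ (by norm_num) hq
      norm_num at this ⊢
      linarith
    | succ m ih =>
      rw [Finset.prod_range_succ]
      have hx : ((2 : ℝ) ^ (m + 2))⁻¹ ≤ 1 / 4 := by
        have : (4 : ℝ) ≤ 2 ^ (m + 2) := by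
          rw [pow_add]
          have := one_le_pow₀ (M₀ := ℝ) (a := 2) (n := m) (by norm_num)
          nlinarith
        rw [one_div]
        exact inv_anti₀ (by norm_num) this
      have hx0 : 0 < ((2 : ℝ) ^ (m + 2))⁻¹ := by positivity
      have hy : (q ^ (m + 1 + 1))⁻¹ ≤ ((2 : ℝ) ^ (m + 2))⁻¹ := by
        apply inv_anti₀ (by positivity)
        exact pow_le_pow_left₀ (by norm_num) hq _
      have hz : ((2 : ℝ) ^ (m + 1 + 2))⁻¹ = ((2 : ℝ) ^ (m + 2))⁻¹ / 2 := by
        rw [show m + 1 + 2 = (m + 2) + 1 by ring, pow_succ, mul_inv, div_eq_mul_inv]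
      rw [hz]
      set x := ((2 : ℝ) ^ (m + 2))⁻¹ with hxdef
      have h5 : (1 / 4 + x) * (1 - x) ≤
          (∏ i ∈ Finset.range (m + 1), (1 - (q ^ (i + 1))⁻¹)) * (1 - (q ^ (m + 1 + 1))⁻¹) := by
        apply mul_le_mul ih (by linarith) (by linarith)
        exact le_trans (by positivity) ih
      nlinarith
  have h6 : (1 : ℝ) / 4 ≤ ∏ i ∈ Finset.range k, (1 - (q ^ (i + 1))⁻¹) := by
    cases k with
    | zero => norm_num
    | succ m =>
      refine le_trans ?_ (h4 m)
      have : 0 < ((2 : ℝ) ^ (m + 2))⁻¹ := by positivity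
      linarith
  rw [h1]
  have := mul_le_mul_of_nonneg_left h6 (pow_pos hq0 (k * k)).le
  linarith

/-- the number of closed isotropic subspaces of dimension `k + 1` -/
theorem count_le (hsym : ∀ u v, v ∈ P u → u ∈ P v) {k n : ℕ} (hn : finrank K V = n)
    (𝒰 : Finset (Submodule K V)) (hU : ∀ U ∈ 𝒰, finrank K U = k + 1)
    (hperp : ∀ U ∈ 𝒰, ∀ v, v ∈ U ↔ ∀ u ∈ U, v ∈ P u) (hkn : k + 1 ≤ n) :
    𝒰.card ^ 2 ≤ 16 * Fintype.card K ^ ((k + 2) * (n - (k + 1))) := by
  classical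
  set q : ℝ := (Fintype.card K : ℝ) with hq
  have hq2 : 2 ≤ q := by
    have : 1 < Fintype.card K := Fintype.one_lt_card
    rw [hq]; exact_mod_cast this
  have hq0 : 0 < q := by linarith
  set E := k * (n + (k + 1)) + 2 * n with hE
  set z : ℝ := Real.sqrt ((q ^ E)⁻¹) with hz
  have hz2 : z ^ 2 = (q ^ E)⁻¹ := Real.sq_sqrt (by positivity)
  have hz0 : 0 ≤ z := Real.sqrt_nonneg _
  have hdisj : ∀ U ∈ 𝒰, ∀ U' ∈ 𝒰, U ≠ U' → Disjoint (BB (k + 1) U) (BB (k + 1) U') := by
    intro U h1 U' h2 hne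
    rw [Finset.disjoint_left]
    intro b hb hb'
    exact hne ((span_BB (hU U h1) hb).symm.trans (span_BB (hU U' h2) hb'))
  have htot : ∑ U ∈ 𝒰, ∑ b ∈ BB (k + 1) U, wt P b ≤ 1 := by
    rw [← kraft P (k + 1)]
    rw [← Finset.sum_biUnion (fun U h1 U' h2 hne => hdisj U h1 U' h2 hne)]
    have h1 : ∑ b ∈ 𝒰.biUnion (BB (k + 1)), wt P b = ∑ b ∈ 𝒰.biUnion (BB (k + 1)), tm P b := by
      apply Finset.sum_congr rfl
      intro b hb
      obtain ⟨U, hUm, hbU⟩ := Finset.mem_biUnion.1 hb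
      unfold tm
      rw [if_pos]
      intro j
      rw [mem_CC]
      intro i _
      have h2 := (mem_BB.1 hbU).2
      exact ((hperp U hUm) (b j)).1 (h2 j) (b i) (h2 i)
    rw [h1]
    exact Finset.sum_le_sum_of_subset_of_nonneg (Finset.subset_univ _)
      (fun b _ _ => tm_nonneg P b)
  have hcard : ∀ U ∈ 𝒰, q ^ ((k + 1) * (k + 1)) / 4 ≤ ((BB (k + 1) U).card : ℝ) := by
    intro U h1
    rw [card_BB (hU U h1)]
    push_cast
    refine le_trans (prod_ge q hq2 (k + 1)) (le_of_eq ?_)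
    apply Finset.prod_congr rfl
    intro i _
    rw [Nat.cast_sub]
    · push_cast; rfl
    · exact Nat.pow_le_pow_right Fintype.card_pos i.2.le
  have hmain : (𝒰.card : ℝ) * (q ^ ((k + 1) * (k + 1)) / 4 * z) ≤ 1 := by
    refine le_trans ?_ htot
    rw [← nsmul_eq_mul, ← Finset.sum_const]
    apply Finset.sum_le_sum
    intro U h1
    refine le_trans ?_ (sum_BB_ge P hsym hn (hU U h1) (hperp U h1) hz0 hz2.le)
    exact mul_le_mul_of_nonneg_right (hcard U h1) hz0
  have hsq : ((𝒰.card : ℝ) * (q ^ ((k + 1) * (k + 1)) / 4 * z)) ^ 2 ≤ 1 := by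
    apply pow_le_one₀ _ hmain
    positivity
  have hexp : (k + 1) * (k + 1) * 2 + (k + 2) * (n - (k + 1)) = E := by
    obtain ⟨m, rfl⟩ := Nat.exists_eq_add_of_le hkn
    rw [Nat.add_sub_cancel_left, hE]
    ring
  have h7 : (𝒰.card : ℝ) ^ 2 ≤ 16 * q ^ ((k + 2) * (n - (k + 1))) := by
    rw [mul_pow, mul_pow, hz2, div_pow, ← pow_mul] at hsq
    have h8 : (q ^ E)⁻¹ * q ^ E = 1 := inv_mul_cancel₀ (pow_pos hq0 _).ne'
    have h9 : q ^ E = q ^ ((k + 1) * (k + 1) * 2) * q ^ ((k + 2) * (n - (k + 1))) := by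
      rw [← pow_add, hexp]
    have h10 : 0 < q ^ ((k + 1) * (k + 1) * 2) := pow_pos hq0 _
    have h11 : 0 < q ^ E := pow_pos hq0 _
    have h12 : (𝒰.card : ℝ) ^ 2 * q ^ ((k + 1) * (k + 1) * 2) ≤ 16 * q ^ E := by
      have h13 := mul_le_mul_of_nonneg_right hsq h11.le
      have h14 : (𝒰.card : ℝ) ^ 2 * (q ^ ((k + 1) * (k + 1) * 2) / 4 ^ 2 * (q ^ E)⁻¹) * q ^ E =
          (𝒰.card : ℝ) ^ 2 * q ^ ((k + 1) * (k + 1) * 2) / 16 := by
        rw [mul_assoc, mul_assoc, h8]; ring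
      rw [h14] at h13
      linarith
    rw [h9] at h12
    have h15 : (𝒰.card : ℝ) ^ 2 * q ^ ((k + 1) * (k + 1) * 2) ≤
        (16 * q ^ ((k + 2) * (n - (k + 1)))) * q ^ ((k + 1) * (k + 1) * 2) := by
      linarith
    exact le_of_mul_le_mul_right h15 h10
  rw [hq] at h7
  exact_mod_cast h7

end Kraft

end Q152Iso
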