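import Pool.Agent.Q152.MaxIso

/-! Maximal isotropic spaces of alternating matrix spaces. -/

namespace Q152Iso

open Finset Module Matrix

section Defs

variable {K : Type} [Field K] {n : ℕ}

/-- `v^t A v = 0` for all vectors `v`. -/
def IsAlternating (A : Matrix (Fin n) (Fin n) K) : Prop := ∀ v : Fin n → K, v ⬝ᵥ (A *ᵥ v) = 0

/-- `U` is isotropic for the matrix space `𝒜`: `u^t A u' = 0` for all `u, u' ∈ U`, `A ∈ 𝒜`. -/
def Isotropic (𝒜 : Submodule K (Matrix (Fin n) (Fin n) K)) (U : Submodule K (Fin n → K)) : Prop :=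
  ∀ u ∈ U, ∀ u' ∈ U, ∀ A ∈ 𝒜, u ⬝ᵥ (A *ᵥ u') = 0

/-- maximal isotropic spaces -/
def MaxIsotropic (𝒜 : Submodule K (Matrix (Fin n) (Fin n) K)) (U : Submodule K (Fin n → K)) :
    Prop :=
  Isotropic 𝒜 U ∧ ∀ W, Isotropic 𝒜 W → U ≤ W → W = U

/-- the number of maximal isotropic spaces -/
noncomputable def numMax (𝒜 : Submodule K (Matrix (Fin n) (Fin n) K)) : ℕ :=
  {U : Submodule K (Fin n → K) | MaxIsotropic 𝒜 U}.ncard

variable (K n) in
/-- `M(n,q)`: the maximum number of maximal isotropic spaces of an alternating matrix space -/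
noncomputable def M : ℕ :=
  ⨆ 𝒜 : {𝒜 : Submodule K (Matrix (Fin n) (Fin n) K) // ∀ A ∈ 𝒜, IsAlternating A}, numMax 𝒜.1

end Defs

section Upper

variable {K : Type} [Field K] [Fintype K] {n : ℕ}
  (𝒜 : Submodule K (Matrix (Fin n) (Fin n) K))

/-- the common perp of a vector -/
def perp (u : Fin n → K) : Submodule K (Fin n → K) where
  carrier := {v | ∀ A ∈ 𝒜, u ⬝ᵥ (A *ᵥ v) = 0}
  add_mem' := by
    intro a b ha hb A hA
    rw [mulVec_add, dotProduct_add, ha A hA, hb A hA, add_zero]
  zero_mem' := by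
    intro A _
    rw [mulVec_zero, dotProduct_zero]
  smul_mem' := by
    intro c a ha A hA
    rw [mulVec_smul, dotProduct_smul, ha A hA, smul_zero]

theorem mem_perp {u v : Fin n → K} : v ∈ perp 𝒜 u ↔ ∀ A ∈ 𝒜, u ⬝ᵥ (A *ᵥ v) = 0 := Iff.rfl

variable {𝒜}

theorem alt_symm {A : Matrix (Fin n) (Fin n) K} (hA : IsAlternating A) (u v : Fin n → K)
    (h : u ⬝ᵥ (A *ᵥ v) = 0) : v ⬝ᵥ (A *ᵥ u) = 0 := by
  have h1 := hA (u + v)
  rw [mulVec_add, dotProduct_add, add_dotProduct, add_dotProduct, hA u, hA v, h] at h1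
  simpa using h1

theorem perp_symm (h𝒜 : ∀ A ∈ 𝒜, IsAlternating A) (u v : Fin n → K) (h : v ∈ perp 𝒜 u) :
    u ∈ perp 𝒜 v := fun A hA => alt_symm (h𝒜 A hA) u v (h A hA)

theorem max_closed (h𝒜 : ∀ A ∈ 𝒜, IsAlternating A) {U : Submodule K (Fin n → K)}
    (hU : MaxIsotropic 𝒜 U) (v : Fin n → K) : v ∈ U ↔ ∀ u ∈ U, v ∈ perp 𝒜 u := by
  constructor
  · intro hv u hu A hA
    exact hU.1 u hu v hv A hA
  · intro h
    have hW : Isotropic 𝒜 (U ⊔ Submodule.span K {v}) := by
      intro x hx y hy A hA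
      rw [Submodule.mem_sup] at hx hy
      obtain ⟨a, ha, b, hb, rfl⟩ := hx
      obtain ⟨a', ha', b', hb', rfl⟩ := hy
      rw [Submodule.mem_span_singleton] at hb hb'
      obtain ⟨c, rfl⟩ := hb
      obtain ⟨c', rfl⟩ := hb'
      rw [mulVec_add, dotProduct_add, add_dotProduct, add_dotProduct, hU.1 a ha a' ha' A hA,
        mulVec_smul, dotProduct_smul, dotProduct_smul, smul_dotProduct, smul_dotProduct,
        h a ha A hA, h𝒜 A hA v, alt_symm (h𝒜 A hA) a' v (h a' ha' A hA)]
      simp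
    have h1 := hU.2 _ hW le_sup_left
    rw [← h1]
    exact Submodule.mem_sup_right (Submodule.mem_span_singleton_self v)

open scoped Classical in
/-- maximal isotropic spaces of dimension `k` -/
noncomputable def maxK (𝒜 : Submodule K (Matrix (Fin n) (Fin n) K)) (k : ℕ) :
    Finset (Submodule K (Fin n → K)) :=
  (Set.toFinite {U : Submodule K (Fin n → K) | MaxIsotropic 𝒜 U ∧ finrank K U = k}).toFinset

theorem mem_maxK {k : ℕ} {U : Submodule K (Fin n → K)} :
    U ∈ maxK 𝒜 k ↔ MaxIsotropic 𝒜 U ∧ finrank K U = k := by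
  simp [maxK]

theorem card_maxK (h𝒜 : ∀ A ∈ 𝒜, IsAlternating A) (k : ℕ) :
    ((maxK 𝒜 k).card : ℝ) ≤ 4 * (Fintype.card K : ℝ) ^ (((n : ℝ) + 1) ^ 2 / 8) := by
  have hq : (1 : ℝ) ≤ (Fintype.card K : ℝ) := by exact_mod_cast Fintype.card_pos
  have hq0 : (0 : ℝ) < (Fintype.card K : ℝ) := by linarith
  have hone : (1 : ℝ) ≤ (Fintype.card K : ℝ) ^ (((n : ℝ) + 1) ^ 2 / 8) :=
    Real.one_le_rpow hq (by positivity)
  by_cases hkn : k ≤ n
  · cases k with
    | zero =>
      have : (maxK 𝒜 0).card ≤ 1 := by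
        rw [Finset.card_le_one]
        intro U hU W hW
        rw [mem_maxK] at hU hW
        rw [Submodule.finrank_eq_zero] at hU hW
        rw [hU.2, hW.2]
      have h2 : ((maxK 𝒜 0).card : ℝ) ≤ 1 := by exact_mod_cast this
      linarith
    | succ k =>
      have h := count_le (perp 𝒜) (perp_symm h𝒜) (n := n) (by simp) (maxK 𝒜 (k + 1))
        (fun U hU => (mem_maxK.1 hU).2) (fun U hU => max_closed h𝒜 (mem_maxK.1 hU).1) hkn
      have h1 : ((maxK 𝒜 (k + 1)).card : ℝ) ^ 2 ≤
          16 * (Fintype.card K : ℝ) ^ ((k + 2) * (n - (k + 1))) := by exact_mod_cast h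
      have h2 : (4 * (Fintype.card K : ℝ) ^ (((n : ℝ) + 1) ^ 2 / 8)) ^ 2 =
          16 * (Fintype.card K : ℝ) ^ (((n : ℝ) + 1) ^ 2 / 4) := by
        rw [mul_pow, ← Real.rpow_natCast (_ ^ _) 2, ← Real.rpow_mul hq0.le]
        norm_num
        ring_nf
      have h3 : (Fintype.card K : ℝ) ^ ((k + 2) * (n - (k + 1))) ≤
          (Fintype.card K : ℝ) ^ (((n : ℝ) + 1) ^ 2 / 4) := by
        rw [← Real.rpow_natCast]
        apply Real.rpow_le_rpow_of_exponent_le hq
        push_cast [Nat.cast_sub hkn]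
        nlinarith [sq_nonneg (((k : ℝ) + 2) - (n - (k + 1)))]
      have h4 : ((maxK 𝒜 (k + 1)).card : ℝ) ^ 2 ≤
          (4 * (Fintype.card K : ℝ) ^ (((n : ℝ) + 1) ^ 2 / 8)) ^ 2 := by
        rw [h2]; linarith
      exact le_of_sq_le_sq h4 (by positivity)
  · have : maxK 𝒜 k = ∅ := by
      rw [Finset.eq_empty_iff_forall_notMem]
      intro U hU
      rw [mem_maxK] at hU
      have h1 := Submodule.finrank_le U
      rw [hU.2] at h1
      simp at h1
      exact hkn h1
    rw [this]
    simp only [Finset.card_empty, Nat.cast_zero]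
    positivity

theorem numMax_le (h𝒜 : ∀ A ∈ 𝒜, IsAlternating A) :
    (numMax 𝒜 : ℝ) ≤ 4 * (n + 1) * (Fintype.card K : ℝ) ^ (((n : ℝ) + 1) ^ 2 / 8) := by
  classical
  have h1 : numMax 𝒜 = ∑ k ∈ Finset.range (n + 1), (maxK 𝒜 k).card := by
    rw [← Finset.card_biUnion]
    · unfold numMax
      rw [← Set.ncard_coe_finset]
      congr 1
      ext U
      simp only [Set.mem_ofPred_eq, Finset.coe_biUnion, Set.mem_iUnion, Finset.mem_coe,
        Finset.mem_range, mem_maxK, exists_prop]
      constructor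
      · intro h
        refine ⟨finrank K U, ?_, h, rfl⟩
        have := Submodule.finrank_le U
        simp at this
        omega
      · rintro ⟨_, _, h, _⟩
        exact h
    · intro i _ j _ hij
      change Disjoint (maxK 𝒜 i) (maxK 𝒜 j)
      rw [Finset.disjoint_left]
      intro U hU hU'
      exact hij ((mem_maxK.1 hU).2.symm.trans (mem_maxK.1 hU').2)
  rw [h1]
  push_cast
  calc _ ≤ ∑ _k ∈ Finset.range (n + 1),
        4 * (Fintype.card K : ℝ) ^ (((n : ℝ) + 1) ^ 2 / 8) :=
        Finset.sum_le_sum fun k _ => card_maxK h𝒜 k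
    _ = _ := by
      rw [Finset.sum_const, Finset.card_range, nsmul_eq_mul]
      push_cast
      ring

end Upper

section Lower

variable {K : Type} [Field K] [Fintype K] {n : ℕ}

/-- every isotropic space lies in a maximal one -/
theorem exists_max (𝒜 : Submodule K (Matrix (Fin n) (Fin n) K)) (U : Submodule K (Fin n → K))
    (hU : Isotropic 𝒜 U) : ∃ W, MaxIsotropic 𝒜 W ∧ U ≤ W := by
  have hfin : {W : Submodule K (Fin n → K) | Isotropic 𝒜 W ∧ U ≤ W}.Finite := Set.toFinite _
  obtain ⟨W, hW⟩ := hfin.exists_maximal ⟨U, hU, le_rfl⟩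
  refine ⟨W, ⟨hW.prop.1, fun W' hW' hle => ?_⟩, hW.prop.2⟩
  exact le_antisymm (hW.2 ⟨hW', hW.prop.2.trans hle⟩ hle) hle

/-- the standard symplectic form (with a radical) on `(K^m × K^m) × K^r` -/
def stdForm (m r : ℕ) : ((Fin m → K) × (Fin m → K)) × (Fin r → K) →ₗ[K]
    ((Fin m → K) × (Fin m → K)) × (Fin r → K) →ₗ[K] K :=
  LinearMap.mk₂ K (fun u v => ∑ i, (u.1.1 i * v.1.2 i - u.1.2 i * v.1.1 i))
    (by intro a b c; simp [add_mul, Finset.sum_add_distrib, Finset.sum_sub_distrib]; ring)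
    (by intro c a b; simp [Finset.mul_sum, mul_sub, mul_assoc])
    (by intro a b c; simp [mul_add, Finset.sum_add_distrib, Finset.sum_sub_distrib]; ring)
    (by
      intro c a b
      simp only [Prod.smul_fst, Prod.smul_snd, Pi.smul_apply, smul_eq_mul, Finset.mul_sum]
      apply Finset.sum_congr rfl
      intro i _
      ring)

theorem stdForm_apply (m r : ℕ) (u v : ((Fin m → K) × (Fin m → K)) × (Fin r → K)) :
    stdForm m r u v = ∑ i, (u.1.1 i * v.1.2 i - u.1.2 i * v.1.1 i) := rfl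

theorem lower (n : ℕ) : ∃ 𝒜 : Submodule K (Matrix (Fin n) (Fin n) K),
    (∀ A ∈ 𝒜, IsAlternating A) ∧ Fintype.card K ^ (n / 2 + 1).choose 2 ≤ numMax 𝒜 := by
  classical
  set m := n / 2 with hm
  have hdim : finrank K (Fin n → K) =
      finrank K (((Fin m → K) × (Fin m → K)) × (Fin (n - 2 * m) → K)) := by
    simp only [Module.finrank_prod, Module.finrank_fin_fun]
    omega
  let e : (Fin n → K) ≃ₗ[K] ((Fin m → K) × (Fin m → K)) × (Fin (n - 2 * m) → K) :=
    LinearEquiv.ofFinrankEq _ _ hdim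
  let B : (Fin n → K) →ₗ[K] (Fin n → K) →ₗ[K] K :=
    (stdForm m (n - 2 * m)).compl₁₂ e.toLinearMap e.toLinearMap
  let A : Matrix (Fin n) (Fin n) K := LinearMap.toMatrix₂' K B
  have hA : ∀ u v : Fin n → K, u ⬝ᵥ (A *ᵥ v) = stdForm m (n - 2 * m) (e u) (e v) := by
    intro u v
    rw [← Matrix.toLinearMap₂'_apply', Matrix.toLinearMap₂'_toMatrix']
    rfl
  refine ⟨Submodule.span K {A}, ?_, ?_⟩
  · intro A' hA' v
    rw [Submodule.mem_span_singleton] at hA'
    obtain ⟨c, rfl⟩ := hA'
    rw [smul_mulVec, dotProduct_smul, hA, stdForm_apply]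
    rw [Finset.sum_eq_zero, smul_zero]
    intro i _
    ring
  · -- the graphs of symmetric matrices
    let S : (Sym2 (Fin m) → K) → Matrix (Fin m) (Fin m) K := fun f i j => f s(i, j)
    have hSsymm : ∀ f i j, S f i j = S f j i := by
      intro f i j
      change f s(i, j) = f s(j, i)
      rw [Sym2.eq_swap]
    have hSinj : ∀ f g, S f = S g → f = g := by
      intro f g h
      funext x
      induction x using Sym2.ind with
      | _ i j => exact congrFun (congrFun h i) j
    have hS2 : ∀ f, ∀ x y : Fin m → K, x ⬝ᵥ (S f *ᵥ y) = (S f *ᵥ x) ⬝ᵥ y := by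
      intro f x y
      simp only [dotProduct, mulVec, Finset.mul_sum, Finset.sum_mul]
      rw [Finset.sum_comm]
      apply Finset.sum_congr rfl
      intro i _
      apply Finset.sum_congr rfl
      intro j _
      rw [hSsymm f i j]
      ring
    let g : (Sym2 (Fin m) → K) → (Fin m → K) → (Fin n → K) := fun f x =>
      e.symm ((x, S f *ᵥ x), 0)
    have hform : ∀ f f' x y, (g f x) ⬝ᵥ (A *ᵥ (g f' y)) =
        x ⬝ᵥ (S f' *ᵥ y) - (S f *ᵥ x) ⬝ᵥ y := by
      intro f f' x y
      rw [hA, stdForm_apply]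
      simp only [g, LinearEquiv.apply_symm_apply]
      rw [Finset.sum_sub_distrib]
      rfl
    let U : (Sym2 (Fin m) → K) → Submodule K (Fin n → K) := fun f =>
      Submodule.span K (Set.range (g f))
    have hgU : ∀ f x, g f x ∈ U f := fun f x => Submodule.subset_span ⟨x, rfl⟩
    have hiso : ∀ f, Isotropic (Submodule.span K {A}) (U f) := by
      intro f u hu v hv A' hA'
      rw [Submodule.mem_span_singleton] at hA'
      obtain ⟨c, rfl⟩ := hA'
      rw [smul_mulVec, dotProduct_smul]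
      have h0 : u ⬝ᵥ (A *ᵥ v) = 0 := by
        induction hu using Submodule.span_induction with
        | mem u hu =>
          obtain ⟨x, rfl⟩ := hu
          induction hv using Submodule.span_induction with
          | mem v hv =>
            obtain ⟨y, rfl⟩ := hv
            rw [hform, hS2, sub_self]
          | zero => rw [mulVec_zero, dotProduct_zero]
          | add a b _ _ ha hb => rw [mulVec_add, dotProduct_add, ha, hb, add_zero]
          | smul c a _ ha => rw [mulVec_smul, dotProduct_smul, ha, smul_zero]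
        | zero => rw [zero_dotProduct]
        | add a b _ _ ha hb => rw [add_dotProduct, ha, hb, add_zero]
        | smul c a _ ha => rw [smul_dotProduct, ha, smul_zero]
      rw [h0, smul_zero]
    choose W hW hUW using fun f => exists_max (Submodule.span K {A}) (U f) (hiso f)
    have hWinj : Function.Injective W := by
      intro f f' h
      apply hSinj
      have h1 : ∀ x y : Fin m → K, x ⬝ᵥ (S f' *ᵥ y) - (S f *ᵥ x) ⬝ᵥ y = 0 := by
        intro x y
        rw [← hform]
        refine (hW f).1 _ (hUW f (hgU f x)) _ ?_ A (Submodule.mem_span_singleton_self A)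
        rw [h]
        exact hUW f' (hgU f' y)
      ext i j
      have h2 := h1 (Pi.single i 1) (Pi.single j 1)
      rw [← hS2, sub_eq_zero] at h2
      simpa using h2.symm
    have hcard : Fintype.card (Sym2 (Fin m) → K) = Fintype.card K ^ (m + 1).choose 2 := by
      rw [Fintype.card_fun, Sym2.card, Fintype.card_fin]
    rw [← hcard]
    unfold numMax
    rw [← Nat.card_eq_fintype_card, ← Set.ncard_range_of_injective hWinj]
    apply Set.ncard_le_ncard _ (Set.toFinite _)
    rintro _ ⟨f, rfl⟩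
    exact hW f

end Lower

end Q152Iso
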