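import Mathlib

/-!
# The distance of the binomial and the Poisson probabilities
-/

set_option autoImplicit false

namespace Pool.Agent.Q152.PoissonCompare

open Finset Filter Topology

/-- One Bernoulli step. -/
def T (p : ℝ) (F : ℕ → ℝ) : ℕ → ℝ := fun k => (1 - p) * F k + p * F (k + 1)

theorem T_bounds {p : ℝ} (h0 : 0 ≤ p) (h1 : p ≤ 1) {F : ℕ → ℝ} (hF : ∀ k, 0 ≤ F k ∧ F k ≤ 1) :
    ∀ k, 0 ≤ T p F k ∧ T p F k ≤ 1 := by
  intro k
  unfold T
  obtain ⟨a1, a2⟩ := hF k
  obtain ⟨b1, b2⟩ := hF (k + 1)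
  constructor
  · have := mul_nonneg (by linarith : 0 ≤ 1 - p) a1
    have := mul_nonneg h0 b1
    linarith
  · have := mul_le_mul_of_nonneg_left a2 (by linarith : 0 ≤ 1 - p)
    have := mul_le_mul_of_nonneg_left b2 h0
    linarith

theorem iter_bounds {p : ℝ} (h0 : 0 ≤ p) (h1 : p ≤ 1) {F : ℕ → ℝ} (hF : ∀ k, 0 ≤ F k ∧ F k ≤ 1)
    (m : ℕ) : ∀ k, 0 ≤ (T p)^[m] F k ∧ (T p)^[m] F k ≤ 1 := by
  induction m with
  | zero => exact hF
  | succ m ih =>
    rw [Function.iterate_succ']
    exact T_bounds h0 h1 ih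

theorem T_lip {p d : ℝ} (h0 : 0 ≤ p) (h1 : p ≤ 1) {F G : ℕ → ℝ} (h : ∀ k, |F k - G k| ≤ d) :
    ∀ k, |T p F k - T p G k| ≤ d := by
  intro k
  unfold T
  have e : (1 - p) * F k + p * F (k + 1) - ((1 - p) * G k + p * G (k + 1)) =
      (1 - p) * (F k - G k) + p * (F (k + 1) - G (k + 1)) := by ring
  rw [e]
  have a := h k
  have b := h (k + 1)
  rw [abs_le] at a b ⊢
  have h2 : 0 ≤ 1 - p := by linarith
  constructor
  · have c1 := mul_le_mul_of_nonneg_left a.1 h2
    have c2 := mul_le_mul_of_nonneg_left b.1 h0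
    nlinarith
  · have c1 := mul_le_mul_of_nonneg_left a.2 h2
    have c2 := mul_le_mul_of_nonneg_left b.2 h0
    nlinarith

theorem iter_lip {p d : ℝ} (h0 : 0 ≤ p) (h1 : p ≤ 1) {F G : ℕ → ℝ} (h : ∀ k, |F k - G k| ≤ d)
    (m : ℕ) : ∀ k, |(T p)^[m] F k - (T p)^[m] G k| ≤ d := by
  induction m with
  | zero => exact h
  | succ m ih =>
    rw [Function.iterate_succ', ]
    exact T_lip h0 h1 ih

/-- Several steps with a small parameter are close to one step. -/
theorem small_steps {x : ℝ} (h0 : 0 ≤ x) (h1 : x ≤ 1) {F : ℕ → ℝ} (hF : ∀ k, 0 ≤ F k ∧ F k ≤ 1)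
    (m : ℕ) : ∀ k, |(T x)^[m] F k - (F k + m * x * (F (k + 1) - F k))| ≤ (m : ℝ) ^ 2 * x ^ 2 := by
  induction m with
  | zero => intro k; simp
  | succ m ih =>
    intro k
    rw [Function.iterate_succ']
    have h2 := T_lip h0 h1 ih k
    have e : T x (fun k => F k + m * x * (F (k + 1) - F k)) k -
        (F k + ((m + 1 : ℕ) : ℝ) * x * (F (k + 1) - F k)) =
        m * x ^ 2 * (F (k + 1 + 1) - 2 * F (k + 1) + F k) := by
      unfold T
      push_cast
      ring
    have h3 : |F (k + 1 + 1) - 2 * F (k + 1) + F k| ≤ 2 := by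
      obtain ⟨a1, a2⟩ := hF k
      obtain ⟨b1, b2⟩ := hF (k + 1)
      obtain ⟨c1, c2⟩ := hF (k + 1 + 1)
      rw [abs_le]
      constructor <;> linarith
    have h4 : |T x (fun k => F k + m * x * (F (k + 1) - F k)) k -
        (F k + ((m + 1 : ℕ) : ℝ) * x * (F (k + 1) - F k))| ≤ m * x ^ 2 * 2 := by
      rw [e, abs_mul, abs_of_nonneg (by positivity : 0 ≤ (m : ℝ) * x ^ 2)]
      exact mul_le_mul_of_nonneg_left h3 (by positivity)
    have h5 := abs_sub_le ((T x ∘ (T x)^[m]) F k) (T x (fun k => F k + m * x * (F (k + 1) - F k)) k)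
      (F k + ((m + 1 : ℕ) : ℝ) * x * (F (k + 1) - F k))
    have h6 : (m : ℝ) ^ 2 * x ^ 2 + m * x ^ 2 * 2 ≤ ((m + 1 : ℕ) : ℝ) ^ 2 * x ^ 2 := by
      push_cast
      nlinarith [sq_nonneg x]
    simp only [Function.comp_apply] at h5 ⊢
    linarith

theorem one_step {p : ℝ} (h0 : 0 ≤ p) (h1 : p ≤ 1) {F : ℕ → ℝ} (hF : ∀ k, 0 ≤ F k ∧ F k ≤ 1)
    {m : ℕ} (hm : 0 < m) : ∀ k, |T p F k - (T (p / m))^[m] F k| ≤ p ^ 2 := by
  intro k
  have hm0 : (0 : ℝ) < m := by exact_mod_cast hm
  have hm1 : (1 : ℝ) ≤ m := by exact_mod_cast hm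
  have h2 := small_steps (x := p / m) (by positivity)
    (by rw [div_le_iff₀ hm0]; linarith) hF m k
  have e1 : F k + m * (p / m) * (F (k + 1) - F k) = T p F k := by
    unfold T
    field_simp
    ring
  have e2 : (m : ℝ) ^ 2 * (p / m) ^ 2 = p ^ 2 := by
    field_simp
  rw [e1, e2] at h2
  rw [abs_sub_comm]
  exact h2

theorem many_steps {p : ℝ} (h0 : 0 ≤ p) (h1 : p ≤ 1) {F : ℕ → ℝ} (hF : ∀ k, 0 ≤ F k ∧ F k ≤ 1)
    {m : ℕ} (hm : 0 < m) (r : ℕ) :
    ∀ k, |(T p)^[r] F k - (T (p / m))^[m * r] F k| ≤ r * p ^ 2 := by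
  have hm0 : (0 : ℝ) < m := by exact_mod_cast hm
  have hm1 : (1 : ℝ) ≤ m := by exact_mod_cast hm
  have hx0 : 0 ≤ p / m := by positivity
  have hx1 : p / m ≤ 1 := by rw [div_le_iff₀ hm0]; linarith
  induction r with
  | zero => intro k; simp
  | succ r ih =>
    intro k
    rw [Function.iterate_succ', Nat.mul_succ, add_comm (m * r) m, Function.iterate_add]
    have h2 := T_lip h0 h1 ih k
    have h3 := one_step h0 h1 (iter_bounds hx0 hx1 hF (m * r)) hm k
    have h4 := abs_sub_le ((T p ∘ (T p)^[r]) F k) (T p ((T (p / m))^[m * r] F) k)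
      (((T (p / m))^[m] ∘ (T (p / m))^[m * r]) F k)
    simp only [Function.comp_apply] at h4 ⊢
    push_cast
    linarith

/-- The binomial formula. -/
theorem binom (p : ℝ) (F : ℕ → ℝ) (r : ℕ) :
    ∀ k, (T p)^[r] F k = ∑ x ∈ antidiagonal r, (r.choose x.1 : ℝ) * (p ^ x.1 * (1 - p) ^ x.2 *
      F (k + x.1)) := by
  induction r with
  | zero => intro k; simp
  | succ r ih =>
    intro k
    rw [Function.iterate_succ']
    rw [Finset.sum_antidiagonal_choose_succ_mul (fun i j => p ^ i * (1 - p) ^ j * F (k + i)) r]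
    simp only [Function.comp_apply]
    unfold T
    change (1 - p) * (T p)^[r] F k + p * (T p)^[r] F (k + 1) = _
    rw [ih k, ih (k + 1), mul_sum, mul_sum]
    congr 1
    · apply sum_congr rfl
      intro x _
      ring
    · apply sum_congr rfl
      intro x hx
      rw [HasAntidiagonal.mem_antidiagonal] at hx
      have e : r.choose x.1 = r.choose x.2 := by
        rw [← hx]
        exact Nat.choose_symm_add
      rw [e]
      have e2 : k + 1 + x.1 = k + (x.1 + 1) := by ring
      rw [e2]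
      ring

theorem binom_point (p : ℝ) (r k : ℕ) (hk : k ≤ r) :
    (T p)^[r] (fun m => if m = k then (1 : ℝ) else 0) 0 =
      (r.choose k : ℝ) * p ^ k * (1 - p) ^ (r - k) := by
  rw [binom]
  rw [sum_eq_single (k, r - k)]
  · simp only [zero_add]
    rw [if_pos trivial]
    ring
  · intro x hx hne
    rw [HasAntidiagonal.mem_antidiagonal] at hx
    have : x.1 ≠ k := by
      intro h
      apply hne
      ext
      · exact h
      · simp only; omega
    rw [zero_add, if_neg this]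
    ring
  · intro h
    exfalso
    apply h
    rw [HasAntidiagonal.mem_antidiagonal]
    simp only
    omega

/-- **Le Cam's inequality** for the point probabilities. -/
theorem le_cam {p : ℝ} (h0 : 0 ≤ p) (h1 : p ≤ 1) (r k : ℕ) :
    |(T p)^[r] (fun m => if m = k then (1 : ℝ) else 0) 0 -
      Real.exp (-(r * p)) * (r * p) ^ k / k.factorial| ≤ r * p ^ 2 := by
  rcases Nat.eq_zero_or_pos r with rfl | hr
  · simp only [Function.iterate_zero, id_eq, Nat.cast_zero, zero_mul, neg_zero, Real.exp_zero,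
      one_mul]
    rcases Nat.eq_zero_or_pos k with rfl | hk
    · simp
    · rw [if_neg (by omega), zero_pow (by omega)]
      simp
  · have hr0 : (0 : ℝ) < r := by exact_mod_cast hr
    -- the limit
    have hlim := ProbabilityTheory.tendsto_choose_mul_pow_of_tendsto_mul_atTop
      (p := fun n : ℕ => (r * p) / n) (r := r * p) k (by
        apply tendsto_const_nhds.congr'
        filter_upwards [eventually_gt_atTop 0] with n hn
        have : (0 : ℝ) < n := by exact_mod_cast hn
        field_simp)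
    have hsub : Tendsto (fun m : ℕ => m * r) atTop atTop :=
      tendsto_id.atTop_mul_const' hr
    have hlim2 := hlim.comp hsub
    have hev : ∀ᶠ m : ℕ in atTop, |(T p)^[r] (fun m => if m = k then (1 : ℝ) else 0) 0 -
        ((m * r).choose k : ℝ) * ((r * p) / (m * r : ℕ)) ^ k *
          (1 - (r * p) / (m * r : ℕ)) ^ (m * r - k)| ≤ r * p ^ 2 := by
      filter_upwards [eventually_ge_atTop (k + 1)] with m hm
      have hm0 : (0 : ℝ) < m := by exact_mod_cast (by omega : 0 < m)
      have hk : k ≤ m * r := le_trans (by omega : k ≤ m) (Nat.le_mul_of_pos_right m hr)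
      have h2 := many_steps h0 h1 (F := fun m => if m = k then (1 : ℝ) else 0)
        (fun j => by split_ifs <;> norm_num) (by omega : 0 < m) r 0
      rw [binom_point _ _ _ hk] at h2
      have e : (r * p) / ((m * r : ℕ) : ℝ) = p / m := by
        push_cast
        field_simp
      rw [e]
      exact h2
    have h3 : Tendsto (fun m : ℕ => |(T p)^[r] (fun m => if m = k then (1 : ℝ) else 0) 0 -
        ((m * r).choose k : ℝ) * ((r * p) / (m * r : ℕ)) ^ k *
          (1 - (r * p) / (m * r : ℕ)) ^ (m * r - k)|) atTop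
        (𝓝 |(T p)^[r] (fun m => if m = k then (1 : ℝ) else 0) 0 -
          Real.exp (-(r * p)) * (r * p) ^ k / k.factorial|) := by
      apply Tendsto.abs
      apply Tendsto.sub tendsto_const_nhds
      exact hlim2
    exact le_of_tendsto h3 hev

end Pool.Agent.Q152.PoissonCompare
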