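import Mathlib

/-!
Product intersection sets (Nathanson).  Shared definitions and the semigroup of matrix units.
-/

namespace Pool.Agent.Q152.ProdInter

/-- For a subset `A` of a semigroup and `h ≥ 1`, `powSet A h = A ^ h` is the set of all products
`a₁ a₂ ⋯ a_h` with all `a_i ∈ A`.  (The value at `h = 0` is a dummy and is never used.) -/
def powSet {S : Type*} [Semigroup S] (A : Set S) : ℕ → Set S
  | 0 => ∅
  | 1 => A
  | n + 2 => {x | ∃ y ∈ powSet A (n + 1), ∃ a ∈ A, x = y * a}

/-- The product intersection set of a family `A` of subsets of a semigroup: the set of all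
`h ≥ 1` with `(⋂ q, A q) ^ h = ⋂ q, (A q) ^ h`. -/
def interSet {S : Type*} [Semigroup S] {Q : Type*} (A : Q → Set S) : Set ℕ :=
  {h | 1 ≤ h ∧ powSet (⋂ q, A q) h = ⋂ q, powSet (A q) h}

/-- The semigroup of matrix units over the index set `V`, with zero: its elements are `0` and the
`E u v`, with `E u v * E v w = E u w` and all other products equal to `0`. -/
inductive MU (V : Type) : Type
  | zero : MU V
  | E : V → V → MU V
  deriving DecidableEq

namespace MU

open Classical in
/-- Multiplication of matrix units. -/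
noncomputable def mul {V : Type} : MU V → MU V → MU V
  | zero, _ => zero
  | E _ _, zero => zero
  | E u v, E v' w => if v = v' then E u w else zero

noncomputable instance {V : Type} : Semigroup (MU V) where
  mul := mul
  mul_assoc := by
    intro a b c
    change mul (mul a b) c = mul a (mul b c)
    cases a with
    | zero => simp [mul]
    | E a a' =>
      cases b with
      | zero => simp [mul]
      | E b b' =>
        cases c with
        | zero =>
          by_cases h : a' = b <;> simp [mul, h]
        | E c c' =>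
          by_cases h : a' = b <;> by_cases h' : b' = c <;> simp [mul, h, h']

variable {V : Type}

theorem zero_mul' (x : MU V) : zero * x = zero := by
  cases x <;> rfl

theorem mul_zero' (x : MU V) : x * zero = zero := by
  cases x <;> rfl

theorem E_mul (u v v' w : V) (h : v = v') : (E u v : MU V) * E v' w = E u w := by
  change mul _ _ = _
  simp [mul, h]

theorem E_mul_ne (u v v' w : V) (h : v ≠ v') : (E u v : MU V) * E v' w = zero := by
  change mul _ _ = _
  simp [mul, h]

end MU

open MU

/-- The vertices. -/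
abbrev V : Type := ℕ × ℕ × ℕ

/-- The `i`-th vertex of the `r`-th chain of length `h`; the end points do not depend on `r`. -/
def vtx (h r i : ℕ) : V := if i = 0 ∨ i = h then (h, 0, i) else (h, r, i)

theorem vtx_fst (h r i : ℕ) : (vtx h r i).1 = h := by
  unfold vtx; split_ifs <;> rfl

theorem vtx_thd (h r i : ℕ) : (vtx h r i).2.2 = i := by
  unfold vtx; split_ifs <;> rfl

theorem vtx_snd (h r i : ℕ) (h0 : i ≠ 0) (h1 : i ≠ h) : (vtx h r i).2.1 = r := by
  unfold vtx; rw [if_neg (by tauto)]

theorem vtx_eq {h r i h' r' i' : ℕ} (e : vtx h r i = vtx h' r' i') : h = h' ∧ i = i' := by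
  constructor
  · rw [← vtx_fst h r i, e, vtx_fst]
  · rw [← vtx_thd h r i, e, vtx_thd]

theorem vtx_eq_snd {h r r' i : ℕ} (e : vtx h r i = vtx h r' i) (h0 : i ≠ 0) (h1 : i ≠ h) :
    r = r' := by
  rw [← vtx_snd h r i h0 h1, e, vtx_snd h r' i h0 h1]

/-- The sets: zero, isolated edges, and the edges of the chains `r ≥ q` of length `h ∉ X`. -/
def fam (X : Set ℕ) (q : ℕ) : Set (MU V) :=
  {x | x = zero ∨ (∃ r, q ≤ r ∧ x = E (0, r, 0) (0, r, 1)) ∨
    ∃ h r i, h ∉ X ∧ 2 ≤ h ∧ q ≤ r ∧ i + 1 ≤ h ∧ x = E (vtx h r i) (vtx h r (i + 1))}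

theorem mem_pow (X : Set ℕ) (q : ℕ) (j : ℕ) (x : MU V) :
    x ∈ powSet (fam X q) (j + 1) ↔ (x = zero ∨ (j = 0 ∧ ∃ r, q ≤ r ∧ x = E (0, r, 0) (0, r, 1)) ∨
    ∃ h r i, h ∉ X ∧ 2 ≤ h ∧ q ≤ r ∧ i + (j + 1) ≤ h ∧
      x = E (vtx h r i) (vtx h r (i + (j + 1)))) := by
  induction j generalizing x with
  | zero => simp [powSet, fam]
  | succ j ih =>
    constructor
    · rintro ⟨y, hy, a, ha, rfl⟩
      rw [ih] at hy
      rcases hy with rfl | ⟨-, r, hr, rfl⟩ | ⟨h, r, i, h1, h2, h3, h4, rfl⟩
      · left; exact zero_mul' _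
      · left
        rcases ha with rfl | ⟨r', hr', rfl⟩ | ⟨h', r', i', h1', h2', h3', h4', rfl⟩
        · exact mul_zero' _
        · apply E_mul_ne
          intro e
          simp at e
        · apply E_mul_ne
          intro e
          have := congrArg Prod.fst e
          rw [vtx_fst] at this
          simp only at this
          omega
      · rcases ha with rfl | ⟨r', hr', rfl⟩ | ⟨h', r', i', h1', h2', h3', h4', rfl⟩
        · left; exact mul_zero' _
        · left
          apply E_mul_ne
          intro e
          have := congrArg Prod.fst e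
          rw [vtx_fst] at this
          simp only at this
          omega
        · by_cases e : vtx h r (i + (j + 1)) = vtx h' r' i'
          · obtain ⟨rfl, rfl⟩ := vtx_eq e
            have hr : r = r' := vtx_eq_snd e (by omega) (by omega)
            subst hr
            right; right
            refine ⟨h, r, i, h1, h2, h3, by omega, ?_⟩
            rw [E_mul _ _ _ _ rfl]
            congr 2
          · left
            exact E_mul_ne _ _ _ _ e
    · rintro (rfl | ⟨h, -⟩ | ⟨h, r, i, h1, h2, h3, h4, rfl⟩)
      · exact ⟨zero, (ih _).2 (Or.inl rfl), zero, Or.inl rfl, rfl⟩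
      · omega
      · refine ⟨E (vtx h r i) (vtx h r (i + (j + 1))), (ih _).2 (Or.inr (Or.inr
          ⟨h, r, i, h1, h2, h3, by omega, rfl⟩)), E (vtx h r (i + (j + 1)))
          (vtx h r (i + (j + 1) + 1)), Or.inr (Or.inr ⟨h, r, _, h1, h2, h3, by omega, rfl⟩), ?_⟩
        rw [E_mul _ _ _ _ rfl]
        congr 2

theorem fam_anti (X : Set ℕ) {q q' : ℕ} (h : q ≤ q') : fam X q' ⊆ fam X q := by
  rintro x (rfl | ⟨r, hr, rfl⟩ | ⟨k, r, i, h1, h2, h3, h4, rfl⟩)
  · exact Or.inl rfl
  · exact Or.inr (Or.inl ⟨r, h.trans hr, rfl⟩)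
  · exact Or.inr (Or.inr ⟨k, r, i, h1, h2, h.trans h3, h4, rfl⟩)

theorem fam_mem (X : Set ℕ) (q : ℕ) : E (0, q, 0) (0, q, 1) ∈ fam X q :=
  Or.inr (Or.inl ⟨q, le_rfl, rfl⟩)

theorem fam_not_mem (X : Set ℕ) {q q' : ℕ} (h : q < q') : E (0, q, 0) (0, q, 1) ∉ fam X q' := by
  rintro (h' | ⟨r, hr, e⟩ | ⟨k, r, i, h1, h2, h3, h4, e⟩)
  · cases h'
  · simp only [MU.E.injEq, Prod.mk.injEq, true_and, and_true] at e
    omega
  · simp only [MU.E.injEq] at e
    have := congrArg Prod.fst e.1
    rw [vtx_fst] at this
    simp only at this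
    omega

theorem fam_injective (X : Set ℕ) : Function.Injective (fam X) := by
  intro q q' h
  by_contra hne
  rcases Nat.lt_or_gt_of_ne hne with h1 | h1
  · exact fam_not_mem X h1 (h ▸ fam_mem X q)
  · exact fam_not_mem X h1 (h ▸ fam_mem X q')

theorem iInter_fam (X : Set ℕ) : ⋂ q, fam X q = {zero} := by
  ext x
  simp only [Set.mem_iInter, Set.mem_singleton_iff]
  constructor
  · intro hx
    have h0 := hx 0
    rcases h0 with rfl | ⟨r, hr, rfl⟩ | ⟨k, r, i, h1, h2, h3, h4, rfl⟩
    · rfl
    · exact absurd (hx (r + 1)) (fam_not_mem X (by omega))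
    · rcases hx (r + 1) with h' | ⟨r', hr', e⟩ | ⟨k', r', i', h1', h2', h3', h4', e⟩
      · cases h'
      · simp only [MU.E.injEq] at e
        have := congrArg Prod.fst e.1
        rw [vtx_fst] at this
        simp only at this
        omega
      · simp only [MU.E.injEq] at e
        obtain ⟨e1, e2⟩ := e
        obtain ⟨rfl, rfl⟩ := vtx_eq e1
        by_cases hi : i = 0
        · subst hi
          have := vtx_eq_snd e2 (by omega) (by omega)
          omega
        · have := vtx_eq_snd e1 hi (by omega)
          omega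
  · rintro rfl q
    exact Or.inl rfl

theorem pow_zero_set (j : ℕ) : powSet ({zero} : Set (MU V)) (j + 1) = {zero} := by
  induction j with
  | zero => rfl
  | succ j ih =>
    ext x
    simp only [powSet, ih, Set.mem_singleton_iff, exists_eq_left, Set.mem_ofPred_eq]
    constructor
    · rintro rfl; rfl
    · rintro rfl; rfl

theorem interSet_fam (X : Set ℕ) (h0 : 0 ∉ X) (h1X : 1 ∈ X) : interSet (fam X) = X := by
  ext j
  constructor
  · rintro ⟨hj, e⟩
    by_contra hjX
    have hj2 : 2 ≤ j := by
      rcases Nat.lt_or_ge j 2 with h | h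
      · exact absurd ((show j = 1 by omega) ▸ h1X) hjX
      · exact h
    obtain ⟨k, rfl⟩ : ∃ k, j = k + 1 := ⟨j - 1, by omega⟩
    rw [iInter_fam X, pow_zero_set] at e
    have hmem : E (vtx (k + 1) 0 0) (vtx (k + 1) 0 (k + 1)) ∈ ⋂ q, powSet (fam X q) (k + 1) := by
      rw [Set.mem_iInter]
      intro q
      rw [mem_pow]
      right; right
      refine ⟨k + 1, q, 0, hjX, hj2, le_rfl, by omega, ?_⟩
      rw [show 0 + (k + 1) = k + 1 by omega]
      unfold vtx
      simp
    rw [← e] at hmem
    cases hmem
  · intro hjX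
    have hj0 : j ≠ 0 := fun h => h0 (h ▸ hjX)
    refine ⟨by omega, ?_⟩
    obtain ⟨k, rfl⟩ : ∃ k, j = k + 1 := ⟨j - 1, by omega⟩
    rw [iInter_fam X, pow_zero_set]
    ext x
    simp only [Set.mem_singleton_iff, Set.mem_iInter]
    constructor
    · rintro rfl q
      rw [mem_pow]
      exact Or.inl rfl
    · intro hx
      have h0' := hx 0
      rw [mem_pow] at h0'
      rcases h0' with rfl | ⟨hk, r, hr, rfl⟩ | ⟨h, r, i, h1, h2, h3, h4, rfl⟩
      · rfl
      · subst hk
        exact absurd (hx (r + 1)) (fam_not_mem X (by omega))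
      · have h1' := hx (r + 1)
        rw [mem_pow] at h1'
        rcases h1' with h' | ⟨-, r', hr', e⟩ | ⟨h', r', i', h1', h2', h3', h4', e⟩
        · cases h'
        · simp only [MU.E.injEq] at e
          have := congrArg Prod.fst e.1
          rw [vtx_fst] at this
          simp only at this
          omega
        · simp only [MU.E.injEq] at e
          obtain ⟨e1, e2⟩ := e
          obtain ⟨rfl, rfl⟩ := vtx_eq e1
          by_cases hi : i = 0
          · subst hi
            by_cases hk : 0 + (k + 1) = h
            · exact absurd ((show k + 1 = h by omega) ▸ hjX) h1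
            · have := vtx_eq_snd e2 (by omega) hk
              omega
          · have := vtx_eq_snd e1 hi (by omega)
            omega

instance {V : Type} [Countable V] : Countable (MU V) := by
  have : Function.Injective (fun x : MU V => match x with
      | zero => (none : Option (V × V))
      | E u v => some (u, v)) := by
    intro x y h
    cases x <;> cases y <;> simp_all
  exact this.countable

end Pool.Agent.Q152.ProdInter
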