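import Pool.Agent.Q152.RigidScale

set_option autoImplicit false

/-! Random rigid displacements of pieces of a set: all scales. -/

namespace Pool.Agent.Q152.RigidPieces

open MeasureTheory ProbabilityTheory Finset Filter
open Pool.Agent.W167.ET

variable {Ω : Type*} [MeasurableSpace Ω] {μ : Measure Ω} {w : ℕ → ℕ} {B : ℝ} {ε : ℕ → Ω → ℕ}

/-- a piece with many elements has many representations, wherever it is moved -/
lemma bigpiece (P : Finset ℕ) (h K u l t : ℕ) (hP : ∀ a ∈ P, u ≤ a ∧ a < u + l) (A : Set ℕ)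
    (hA : ∀ a ∈ P, a + t ∈ A) (hK : h ^ h * K * (h * l + 1) ≤ P.card ^ h) : ∃ m, K ≤ r A h m := by
  classical
  by_contra hcon
  push Not at hcon
  have hK0 : 0 < K := by
    have := hcon 0
    omega
  have h1 : (Fintype.piFinset (fun _ : Fin h => P)).card = P.card ^ h := by
    rw [Fintype.card_piFinset]
    simp
  set S := Fintype.piFinset (fun _ : Fin h => P) with hS
  have h2 : S.card ≤ ∑ m ∈ Finset.Icc (h * (u + t)) (h * (u + t) + h * l),
      (S.filter (fun f => ∑ i, (f i + t) = m)).card := by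
    apply le_of_eq
    apply Finset.card_eq_sum_card_fiberwise
    intro f hf
    rw [Finset.mem_coe, hS, Fintype.mem_piFinset] at hf
    show (∑ i, (f i + t)) ∈ (↑(Finset.Icc (h * (u + t)) (h * (u + t) + h * l)) : Set ℕ)
    rw [Finset.mem_coe, Finset.mem_Icc]
    have e1 : ∑ _i : Fin h, (u + t) = h * (u + t) := by simp
    have e2 : ∑ _i : Fin h, (u + l + t) = h * (u + t) + h * l := by
      simp
      ring
    rw [← e1]
    constructor
    · exact Finset.sum_le_sum fun i _ => by have := hP _ (hf i); omega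
    · rw [e1, ← e2]
      exact Finset.sum_le_sum fun i _ => by have := hP _ (hf i); omega
  have h3 : ∀ m, (S.filter (fun f => ∑ i, (f i + t) = m)).card ≤ h ^ h * (K - 1) := by
    intro m
    have h4 := card_le_mul_r A h m (h ^ h) (S.filter (fun f => ∑ i, (f i + t) = m))
      (fun f => mset (fun i => f i + t)) (by
        intro f hf
        rw [Finset.mem_filter, hS, Fintype.mem_piFinset] at hf
        refine ⟨card_mset _, ?_, ?_⟩
        · intro v hv
          obtain ⟨i, rfl⟩ := mem_mset.1 hv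
          exact hA _ (hf.1 i)
        · rw [sum_mset]
          exact hf.2) (by
        intro M
        have h5 := fiber_mset ((S.filter (fun f => ∑ i, (f i + t) = m)).image
          (fun f i => f i + t)) M
        refine le_trans ?_ h5
        rw [← Finset.card_image_of_injective
          ((S.filter (fun f => ∑ i, (f i + t) = m)).filter (fun f => mset (fun i => f i + t) = M))
          (f := fun (f : Fin h → ℕ) i => f i + t) (by
            intro f g hfg
            funext i
            have := congrFun hfg i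
            have h6 : f i + t = g i + t := this
            omega)]
        apply Finset.card_le_card
        intro g hg
        rw [Finset.mem_image] at hg
        obtain ⟨f, hf, rfl⟩ := hg
        rw [Finset.mem_filter] at hf
        rw [Finset.mem_filter]
        exact ⟨Finset.mem_image_of_mem _ hf.1, hf.2⟩)
    have h5 := hcon m
    exact h4.trans (Nat.mul_le_mul_left _ (by omega))
  have h4 : P.card ^ h ≤ h ^ h * (K - 1) * (h * l + 1) := by
    rw [← h1]
    refine h2.trans ((Finset.sum_le_sum fun m _ => h3 m).trans (le_of_eq ?_))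
    rw [Finset.sum_const, Nat.card_Icc, smul_eq_mul, mul_comm]
    congr 1
    omega
  have h5 : h ^ h * (K - 1) * (h * l + 1) < h ^ h * K * (h * l + 1) := by
    apply Nat.mul_lt_mul_of_pos_right _ (by omega)
    apply Nat.mul_lt_mul_of_pos_left _ (Nat.pow_self_pos)
    omega
  omega

/-- independence of disjoint scales -/
lemma scales_indep (hP : Pert μ w B ε) {p : ℝ} (hp1 : p ≤ 1) (F : ℕ → Finset ℕ)
    (E : ℕ → (ℕ → ℕ) → Prop) (hF : ∀ i j, i < j → Disjoint (F i) (F j))
    (hE : ∀ i, DepOn (F i) (E i)) (h : ∀ i, p ≤ Pr μ ε (E i)) (M : ℕ) :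
    Pr μ ε (fun x => ∀ i < M, ¬ E i x) ≤ (1 - p) ^ M := by
  classical
  induction M with
  | zero =>
    rw [pow_zero]
    exact Pr_le_one hP _
  | succ M ih =>
    have hd : Disjoint ((range M).biUnion F) (F M) := by
      rw [Finset.disjoint_biUnion_left]
      intro i hi
      rw [Finset.mem_range] at hi
      exact hF i M hi
    have h2 := Pr_and hP hd (E := fun x => ∀ i < M, ¬ E i x) (F := fun x => ¬ E M x)
      (DepOn.all fun i => DepOn.all fun hi =>
        ((hE i).mono (Finset.subset_biUnion_of_mem F (Finset.mem_range.2 hi))).not) (hE M).not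
    have e : Pr μ ε (fun x => ∀ i < M + 1, ¬ E i x) =
        Pr μ ε (fun x => (∀ i < M, ¬ E i x) ∧ ¬ E M x) := by
      apply Pr_congr hP
      intro x _
      constructor
      · intro h
        exact ⟨fun i hi => h i (by omega), h M (by omega)⟩
      · rintro ⟨h3, h4⟩ i hi
        rcases Nat.lt_succ_iff_lt_or_eq.1 hi with h5 | h5
        · exact h3 i h5
        · rw [h5]; exact h4
    rw [e, h2, pow_succ]
    apply mul_le_mul ih _ (Pr_nonneg _) (pow_nonneg (by linarith) _)
    rw [Pr_not hP (hE M)]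
    linarith [h M]

/-- integer roots -/
lemma exists_root (h X : ℕ) (hh : 1 ≤ h) (hX : 1 ≤ X) :
    ∃ y : ℕ, 1 ≤ y ∧ y ^ h ≤ X ∧ X ≤ (2 * y) ^ h := by
  classical
  set y := Nat.findGreatest (fun y => y ^ h ≤ X) X with hy
  have h1 : y ^ h ≤ X := by
    have := Nat.findGreatest_spec (P := fun y => y ^ h ≤ X) (m := 1) (n := X) hX (by simpa using hX)
    exact this
  have h2 : 1 ≤ y := by
    apply Nat.le_findGreatest hX
    simpa using hX
  refine ⟨y, h2, h1, ?_⟩
  by_contra hcon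
  push Not at hcon
  have h3 : (y + 1) ^ h ≤ X := (Nat.pow_le_pow_left (by omega) h).trans hcon.le
  have h4 : y + 1 ≤ X := le_trans (Nat.le_self_pow (by omega) _) h3
  have h5 : y + 1 ≤ y := Nat.le_findGreatest (P := fun y => y ^ h ≤ X) h4 h3
  omega

open Classical in
/-- the elements of `A` in a dyadic block -/
noncomputable def Blk (A : Set ℕ) (j : ℕ) : Finset ℕ :=
  (Finset.Ico (2 ^ j) (2 ^ (j + 1))).filter (· ∈ A)

/-- infinitely many dyadic blocks with many elements -/
lemma exists_blocks (A : Set ℕ) (h : ℕ) (hh : 1 ≤ h) (c : ℝ) (hc : 0 < c)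
    (hA : ∃ᶠ n : ℕ in atTop, c * n ≤ ((A ∩ Set.Icc 1 n).ncard : ℝ) ^ h) :
    ∃ c1 : ℝ, 0 < c1 ∧ ∀ j0 : ℕ, ∃ j, j0 ≤ j ∧ ∀ y : ℕ, y ^ h ≤ 2 ^ j →
      c1 * y ≤ ((Blk A j).card : ℝ) := by
  classical
  have hh0 : (h : ℝ) ≠ 0 := by
    have : (0 : ℝ) < h := by exact_mod_cast hh
    exact this.ne'
  obtain ⟨ρ, hρ1, hρ⟩ : ∃ ρ : ℝ, 1 < ρ ∧ ρ ^ h = 2 := by
    refine ⟨(2 : ℝ) ^ ((h : ℝ)⁻¹), ?_, ?_⟩
    · exact Real.one_lt_rpow (by norm_num) (by positivity)
    · rw [← Real.rpow_natCast, ← Real.rpow_mul (by norm_num), inv_mul_cancel₀ hh0, Real.rpow_one]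
  obtain ⟨γ, hγ0, hγ⟩ : ∃ γ : ℝ, 0 < γ ∧ γ ^ h = c := by
    refine ⟨c ^ ((h : ℝ)⁻¹), Real.rpow_pos_of_pos hc _, ?_⟩
    rw [← Real.rpow_natCast, ← Real.rpow_mul hc.le, inv_mul_cancel₀ hh0, Real.rpow_one]
  refine ⟨γ * (ρ - 1) / (4 * ρ), by have : 0 < ρ - 1 := by linarith
                                    positivity, ?_⟩
  intro j0
  by_contra hcon
  push Not at hcon
  -- every block is small
  have hsmall : ∀ j, j0 ≤ j → ((Blk A j).card : ℝ) ≤ γ * (ρ - 1) / (4 * ρ) * ρ ^ j := by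
    intro j hj
    obtain ⟨y, hy1, hy2⟩ := hcon j hj
    refine hy2.le.trans (mul_le_mul_of_nonneg_left ?_ (by
      have : 0 < ρ - 1 := by linarith
      positivity))
    have h1 : ((y : ℝ)) ^ h ≤ (ρ ^ j) ^ h := by
      rw [← pow_mul, mul_comm j h, pow_mul, hρ]
      exact_mod_cast hy1
    exact (pow_le_pow_iff_left₀ (by positivity) (by positivity) (by omega)).1 h1
  -- a large `n`
  have htend : Tendsto (fun J : ℕ => ρ ^ J) atTop atTop := tendsto_pow_atTop_atTop_of_one_lt hρ1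
  obtain ⟨J1, hJ1⟩ := (htend.eventually_gt_atTop (2 ^ (j0 + 1) * 2 / γ)).exists_forall_of_atTop
  obtain ⟨n, hn1, hn2⟩ := (hA.and_eventually (eventually_ge_atTop (2 ^ (J1 + j0 + 1)))).exists
  have hn0 : n ≠ 0 := by
    have : 0 < 2 ^ (J1 + j0 + 1) := Nat.two_pow_pos _
    omega
  set J := Nat.log 2 n with hJ
  have hJn : 2 ^ J ≤ n := Nat.pow_log_le_self 2 hn0
  have hJn' : n < 2 ^ (J + 1) := Nat.lt_pow_succ_log_self (by norm_num) n
  have hJJ : J1 + j0 + 1 ≤ J := Nat.le_log_of_pow_le (by norm_num) hn2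
  -- counting
  have hcount : ((A ∩ Set.Icc 1 n).ncard : ℝ) ≤ ∑ j ∈ range (J + 1), ((Blk A j).card : ℝ) := by
    have h1 : (A ∩ Set.Icc 1 n) ⊆ (((range (J + 1)).biUnion (Blk A) : Finset ℕ) : Set ℕ) := by
      rintro a ⟨ha, ha1, ha2⟩
      rw [Finset.mem_coe, Finset.mem_biUnion]
      refine ⟨Nat.log 2 a, ?_, ?_⟩
      · rw [Finset.mem_range]
        have := Nat.log_mono_right (b := 2) ha2
        omega
      · unfold Blk
        rw [Finset.mem_filter, Finset.mem_Ico]
        exact ⟨⟨Nat.pow_log_le_self 2 (by omega), Nat.lt_pow_succ_log_self (by norm_num) a⟩, ha⟩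
    have h2 := Set.ncard_le_ncard h1 (Finset.finite_toSet _)
    rw [Set.ncard_coe_finset] at h2
    have h3 := h2.trans Finset.card_biUnion_le
    exact_mod_cast h3
  have hsplit : ∑ j ∈ range (J + 1), ((Blk A j).card : ℝ) ≤
      2 ^ (j0 + 1) + γ * (ρ - 1) / (4 * ρ) * ∑ j ∈ range (J + 1), ρ ^ j := by
    have h1 : ∀ j ∈ range (J + 1), ((Blk A j).card : ℝ) ≤
        (if j < j0 then (2 : ℝ) ^ j else 0) + γ * (ρ - 1) / (4 * ρ) * ρ ^ j := by
      intro j _
      have hpos : 0 ≤ γ * (ρ - 1) / (4 * ρ) * ρ ^ j := by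
        have : 0 < ρ - 1 := by linarith
        positivity
      by_cases hj : j < j0
      · rw [if_pos hj]
        have h2 : (Blk A j).card ≤ 2 ^ j := by
          unfold Blk
          refine (Finset.card_filter_le _ _).trans ?_
          rw [Nat.card_Ico, pow_succ]
          omega
        have h3 : ((Blk A j).card : ℝ) ≤ 2 ^ j := by exact_mod_cast h2
        linarith
      · rw [if_neg hj, zero_add]
        exact hsmall j (by omega)
    refine (Finset.sum_le_sum h1).trans ?_
    rw [Finset.sum_add_distrib, ← Finset.mul_sum]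
    apply add_le_add_left
    rw [← Finset.sum_filter]
    have h2 : ∑ j ∈ (range (J + 1)).filter (fun j => j < j0), (2 : ℝ) ^ j ≤
        ∑ j ∈ range (j0 + 1), (2 : ℝ) ^ j := by
      apply Finset.sum_le_sum_of_subset_of_nonneg
      · intro j hj
        rw [Finset.mem_filter] at hj
        rw [Finset.mem_range]
        omega
      · intro j _ _
        positivity
    refine h2.trans ?_
    rw [geom_sum_eq (by norm_num)]
    norm_num
  have hgeo : ∑ j ∈ range (J + 1), ρ ^ j ≤ ρ ^ (J + 1) / (ρ - 1) := by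
    rw [geom_sum_eq hρ1.ne']
    apply div_le_div_of_nonneg_right _ (by linarith)
    linarith
  have hρ0 : 0 < ρ - 1 := by linarith
  have htot : ((A ∩ Set.Icc 1 n).ncard : ℝ) ≤ 2 ^ (j0 + 1) + γ * ρ ^ J / 4 := by
    refine hcount.trans (hsplit.trans ?_)
    have h1 : γ * (ρ - 1) / (4 * ρ) * ∑ j ∈ range (J + 1), ρ ^ j ≤
        γ * (ρ - 1) / (4 * ρ) * (ρ ^ (J + 1) / (ρ - 1)) :=
      mul_le_mul_of_nonneg_left hgeo (by positivity)
    have h2 : γ * (ρ - 1) / (4 * ρ) * (ρ ^ (J + 1) / (ρ - 1)) = γ * ρ ^ J / 4 := by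
      have : ρ ≠ 0 := by linarith
      have : ρ - 1 ≠ 0 := hρ0.ne'
      field_simp
      ring
    linarith
  have hlow : γ * ρ ^ J ≤ ((A ∩ Set.Icc 1 n).ncard : ℝ) := by
    have h1 : (γ * ρ ^ J) ^ h ≤ ((A ∩ Set.Icc 1 n).ncard : ℝ) ^ h := by
      refine le_trans ?_ hn1
      rw [mul_pow, hγ, ← pow_mul, mul_comm J h, pow_mul, hρ]
      apply mul_le_mul_of_nonneg_left _ hc.le
      exact_mod_cast hJn
    exact (pow_le_pow_iff_left₀ (by positivity) (by positivity) (by omega)).1 h1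
  have hbig := hJ1 J (by omega)
  rw [div_lt_iff₀ hγ0] at hbig
  have h2 : (0 : ℝ) < 2 ^ (j0 + 1) := by positivity
  nlinarith

/-- the pieces which meet a dyadic block -/
def Fam (N : ℕ → ℕ) (j : ℕ) : Finset ℕ :=
  (range (2 ^ (j + 1))).filter (fun s => N s < 2 ^ (j + 1) ∧ 2 ^ j < N (s + 1))

open Classical in
/-- the part of a piece in a dyadic block -/
noncomputable def Pie (A : Set ℕ) (N : ℕ → ℕ) (j s : ℕ) : Finset ℕ :=
  (Finset.Ico (N s) (N (s + 1))).filter (· ∈ Blk A j)

lemma mem_Pie {A : Set ℕ} {N : ℕ → ℕ} {j s a : ℕ} :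
    a ∈ Pie A N j s ↔ (N s ≤ a ∧ a < N (s + 1)) ∧ (2 ^ j ≤ a ∧ a < 2 ^ (j + 1)) ∧ a ∈ A := by
  classical
  unfold Pie Blk
  rw [Finset.mem_filter, Finset.mem_Ico, Finset.mem_filter, Finset.mem_Ico]

lemma sum_Pie (A : Set ℕ) (N : ℕ → ℕ) (hN0 : N 0 = 0) (hN : StrictMono N) (j : ℕ) :
    (Blk A j).card ≤ ∑ s ∈ Fam N j, (Pie A N j s).card := by
  classical
  have h1 : Blk A j ⊆ (Fam N j).biUnion (Pie A N j) := by
    intro a ha
    have ha' := ha
    unfold Blk at ha'
    rw [Finset.mem_filter, Finset.mem_Ico] at ha'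
    rw [Finset.mem_biUnion]
    set s := Nat.findGreatest (fun s => N s ≤ a) a with hs
    have h2 : N s ≤ a := Nat.findGreatest_spec (P := fun s => N s ≤ a) (m := 0) (n := a)
      (Nat.zero_le _) (by rw [hN0]; exact Nat.zero_le _)
    have h3 : a < N (s + 1) := by
      by_contra hcon
      push Not at hcon
      have h4 : s + 1 ≤ a := (hN.id_le (s + 1)).trans hcon
      have h5 : s + 1 ≤ s := Nat.le_findGreatest (P := fun s => N s ≤ a) h4 hcon
      omega
    have h6 : s ≤ N s := hN.id_le s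
    refine ⟨s, ?_, mem_Pie.2 ⟨⟨h2, h3⟩, ha'.1, ha'.2⟩⟩
    unfold Fam
    rw [Finset.mem_filter, Finset.mem_range]
    refine ⟨by omega, by omega, by omega⟩
  exact (Finset.card_le_card h1).trans Finset.card_biUnion_le

/-- **Main theorem.** -/
theorem rigid (hP : Pert μ w B ε) (h C : ℕ) (hh : 2 ≤ h) (A : Set ℕ) (c δ : ℝ) (hc : 0 < c)
    (hA : ∃ᶠ n : ℕ in atTop, c * n ≤ ((A ∩ Set.Icc 1 n).ncard : ℝ) ^ h) (N : ℕ → ℕ)
    (hN0 : N 0 = 0) (hN : StrictMono N)
    (hN1 : Tendsto (fun s => (N (s + 1) : ℝ) / N s) atTop (nhds 1)) (hδ : 0 < δ)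
    (hw1 : ∀ s, δ * N (s + 1) ≤ w s + 1) (hw2 : ∀ s, w s ≤ C * N (s + 1)) :
    ∀ᵐ ω ∂μ, ∀ K, ∃ m, K ≤
      r {v | ∃ s, ∃ a ∈ A, N s ≤ a ∧ a < N (s + 1) ∧ v = a + ε s ω} h m := by
  classical
  have := hP.prob
  rw [ae_all_iff]
  intro K0
  obtain ⟨K, hK⟩ : ∃ K, K = K0 + 1 := ⟨_, rfl⟩
  obtain ⟨k, rfl⟩ : ∃ k, h = k + 1 := ⟨h - 1, by omega⟩
  obtain ⟨c1, hc1, hblocks⟩ := exists_blocks A (k + 1) (by omega) c hc hA
  obtain ⟨θ, hθ, p, ⟨hp0, hp1⟩, y0, hscale⟩ := scale hP k K (4 * C) (by omega) (by omega) hδ hc1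
  obtain ⟨κ, hκ⟩ : ∃ κ : ℝ, κ = ((k + 1 : ℕ) : ℝ) ^ (k + 1) * K := ⟨_, rfl⟩
  have hK0 : (0 : ℝ) < K := by rw [hK]; push_cast; positivity
  have hκ0 : 0 < κ := by rw [hκ]; positivity
  obtain ⟨η, hη⟩ : ∃ η : ℝ, η = min 1 (θ ^ (k + 1) / (4 * κ * ((k + 1 : ℕ) : ℝ) * 2 ^ (k + 1))) :=
    ⟨_, rfl⟩
  have hη0 : 0 < η := by rw [hη]; exact lt_min one_pos (by positivity)
  have hη1 : η ≤ 1 := hη.le.trans (min_le_left _ _)
  have hη2 : η * (4 * κ * ((k + 1 : ℕ) : ℝ) * 2 ^ (k + 1)) ≤ θ ^ (k + 1) := by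
    have := hη.le.trans (min_le_right _ _)
    rwa [le_div_iff₀ (by positivity)] at this
  -- large pieces are short
  obtain ⟨s1, hs1⟩ : ∃ s1, ∀ s, s1 ≤ s → (N (s + 1) : ℝ) ≤ (1 + η) * N s := by
    have h1 := hN1.eventually (ge_mem_nhds (show (1 : ℝ) < 1 + η by linarith))
    obtain ⟨s1, hs1⟩ := h1.exists_forall_of_atTop
    refine ⟨s1 + 1, fun s hs => ?_⟩
    have h2 := hs1 s (by omega)
    have h3 : 0 < N s := by
      have h0 : s ≤ N s := hN.id_le s
      omega
    have h4 : (0 : ℝ) < N s := by exact_mod_cast h3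
    rwa [div_le_iff₀ h4] at h2
  have hs2 : ∀ s, s1 ≤ s → N (s + 1) ≤ 2 * N s := by
    intro s hs
    have h1 := hs1 s hs
    have h2 : (0 : ℝ) ≤ N s := by positivity
    have h3 : (N (s + 1) : ℝ) ≤ 2 * N s := by nlinarith
    exact_mod_cast h3
  obtain ⟨y1, hy1⟩ := exists_nat_ge (max 1 (2 * κ / θ ^ (k + 1)))
  -- good scales
  have hlarge : ∀ j, N s1 ≤ j → ∀ s ∈ Fam N j, s1 ≤ s := by
    intro j hj s hs
    unfold Fam at hs
    rw [Finset.mem_filter] at hs
    have h1 : j < 2 ^ j := Nat.lt_two_pow_self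
    have h2 : N s1 < N (s + 1) := by omega
    have h3 := hN.lt_iff_lt.1 h2
    omega
  have hgood : ∀ j0, ∃ j, j0 ≤ j ∧ N s1 ≤ j ∧
      p ≤ Pr μ ε (Lots (Pie A N j) (Fam N j) (k + 1) K) := by
    intro j0
    obtain ⟨j, hj, hjc⟩ := hblocks (j0 + N s1 + (2 * (y0 + y1)) ^ (k + 1))
    refine ⟨j, by omega, by omega, ?_⟩
    obtain ⟨y, hy0, hya, hyb⟩ := exists_root (k + 1) (2 ^ j) (by omega) Nat.one_le_two_pow
    have hyy : y0 + y1 ≤ y := by
      by_contra hcon
      push Not at hcon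
      have h1 : (2 * y) ^ (k + 1) ≤ (2 * (y0 + y1)) ^ (k + 1) :=
        Nat.pow_le_pow_left (by omega) _
      have h2 : j < 2 ^ j := Nat.lt_two_pow_self
      omega
    have hFs : ∀ s ∈ Fam N j, s1 ≤ s := hlarge j (by omega)
    have hmem : ∀ s ∈ Fam N j, N s < 2 ^ (j + 1) ∧ 2 ^ j < N (s + 1) := by
      intro s hs
      unfold Fam at hs
      rw [Finset.mem_filter] at hs
      exact hs.2
    by_cases hpie : ∀ s ∈ Fam N j, ((Pie A N j s).card : ℝ) ≤ θ * y
    · apply hscale y (by omega) (2 ^ j) hya hyb (Pie A N j) (Fam N j)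
      · intro s _ a ha
        have := (mem_Pie.1 ha).2.1.2
        rw [pow_succ] at this
        omega
      · intro s hs
        refine le_trans ?_ (hw1 s)
        apply mul_le_mul_of_nonneg_left _ hδ.le
        have := (hmem s hs).2
        exact_mod_cast this.le
      · intro s hs
        have h1 := hw2 s
        have h2 := hs2 s (hFs s hs)
        have h3 := (hmem s hs).1
        rw [pow_succ] at h3
        calc w s ≤ C * N (s + 1) := h1
          _ ≤ C * (4 * 2 ^ j) := Nat.mul_le_mul_left _ (by omega)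
          _ = 4 * C * 2 ^ j := by ring
      · exact hpie
      · have h1 := hjc y hya
        have h2 : ((Blk A j).card : ℝ) ≤ ∑ s ∈ Fam N j, ((Pie A N j s).card : ℝ) := by
          exact_mod_cast sum_Pie A N hN0 hN j
        exact h1.trans h2
    · push Not at hpie
      obtain ⟨s, hs, hbig⟩ := hpie
      rw [Pr_true hP]
      · exact hp1
      · intro x _
        obtain ⟨l, hl⟩ : ∃ l, l = N (s + 1) - N s := ⟨_, rfl⟩
        have hNs : N s < N (s + 1) := hN (Nat.lt_succ_self s)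
        refine bigpiece (Pie A N j s) (k + 1) K (N s) l (x s) ?_ _ ?_ ?_
        · intro a ha
          have := (mem_Pie.1 ha).1
          omega
        · intro a ha
          exact ⟨s, hs, a, ha, rfl⟩
        · have hlr : (l : ℝ) ≤ η * (2 * 2 ^ j) := by
            have h1 : (l : ℝ) = N (s + 1) - N s := by
              rw [hl, Nat.cast_sub hNs.le]
            have h2 := hs1 s (hFs s hs)
            have h3 : (N s : ℝ) ≤ 2 * 2 ^ j := by
              have := (hmem s hs).1
              rw [pow_succ] at this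
              have h4 : N s ≤ 2 * 2 ^ j := by omega
              exact_mod_cast h4
            rw [h1]
            have h5 : η * (N s : ℝ) ≤ η * (2 * 2 ^ j) := mul_le_mul_of_nonneg_left h3 hη0.le
            linarith
          have hXr : ((2 : ℝ)) ^ j ≤ 2 ^ (k + 1) * y ^ (k + 1) := by
            rw [← mul_pow]
            exact_mod_cast hyb
          have hy1r : (max 1 (2 * κ / θ ^ (k + 1))) ≤ (y : ℝ) := by
            refine hy1.trans ?_
            have : y1 ≤ y := by omega
            exact_mod_cast this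
          have hyone : (1 : ℝ) ≤ y := (le_max_left _ _).trans hy1r
          have hyk : 2 * κ ≤ θ ^ (k + 1) * y ^ (k + 1) := by
            have h1 := (le_max_right _ _).trans hy1r
            rw [div_le_iff₀ (by positivity)] at h1
            have h2 : (y : ℝ) ≤ y ^ (k + 1) := le_self_pow₀ hyone (by omega)
            have h3 : 0 < θ ^ (k + 1) := by positivity
            nlinarith
          have h6 : (((k + 1 : ℕ) : ℝ) ^ (k + 1) * K * (((k + 1 : ℕ) : ℝ) * l + 1)) ≤
              ((Pie A N j s).card : ℝ) ^ (k + 1) := by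
            rw [← hκ]
            have h7 : (θ * y) ^ (k + 1) ≤ ((Pie A N j s).card : ℝ) ^ (k + 1) :=
              pow_le_pow_left₀ (by positivity) hbig.le _
            refine le_trans ?_ h7
            rw [mul_pow]
            have h8 : κ * (((k + 1 : ℕ) : ℝ) * l) ≤ θ ^ (k + 1) * y ^ (k + 1) / 2 := by
              calc κ * (((k + 1 : ℕ) : ℝ) * l)
                  ≤ κ * (((k + 1 : ℕ) : ℝ) * (η * (2 * (2 ^ (k + 1) * y ^ (k + 1))))) := by
                    apply mul_le_mul_of_nonneg_left _ hκ0.le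
                    apply mul_le_mul_of_nonneg_left _ (by positivity)
                    refine hlr.trans ?_
                    apply mul_le_mul_of_nonneg_left _ hη0.le
                    linarith
                _ = η * (4 * κ * ((k + 1 : ℕ) : ℝ) * 2 ^ (k + 1)) * y ^ (k + 1) / 2 := by ring
                _ ≤ θ ^ (k + 1) * y ^ (k + 1) / 2 := by
                    apply div_le_div_of_nonneg_right _ (by norm_num)
                    exact mul_le_mul_of_nonneg_right hη2 (by positivity)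
            linarith
          exact_mod_cast h6
  -- a sequence of good scales
  have hfreq : ∃ᶠ j in atTop, N s1 ≤ j ∧
      p ≤ Pr μ ε (Lots (Pie A N j) (Fam N j) (k + 1) K) := by
    rw [frequently_atTop]
    intro j0
    obtain ⟨j, h1, h2, h3⟩ := hgood j0
    exact ⟨j, h1, h2, h3⟩
  obtain ⟨φ, hφ, hφg⟩ := extraction_of_frequently_atTop hfreq
  have hdisj : ∀ i j, i < j → Disjoint (Fam N (φ (2 * i))) (Fam N (φ (2 * j))) := by
    intro i j hij
    rw [Finset.disjoint_left]
    intro s h1 h2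
    have h3 : φ (2 * i) + 2 ≤ φ (2 * j) := by
      have h4 : φ (2 * i) < φ (2 * i + 1) := hφ (by omega)
      have h5 : φ (2 * i + 1) < φ (2 * j) := hφ (by omega)
      omega
    have h4 := hlarge _ (hφg (2 * i)).1 s h1
    have h5 := hs2 s h4
    unfold Fam at h1 h2
    rw [Finset.mem_filter] at h1 h2
    have h6 : 2 ^ (φ (2 * i) + 2) ≤ 2 ^ φ (2 * j) := Nat.pow_le_pow_right (by norm_num) h3
    have h7 : 2 ^ (φ (2 * i) + 2) = 2 * 2 ^ (φ (2 * i) + 1) := by ring
    omega
  -- the bad event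
  set bad : Set Ω := {ω | ¬ ∃ m, K0 ≤
    r {v | ∃ s, ∃ a ∈ A, N s ≤ a ∧ a < N (s + 1) ∧ v = a + ε s ω} (k + 1) m} with hbad
  have hbound : ∀ M : ℕ, μ.real bad ≤ (1 - p) ^ M := by
    intro M
    have h1 := scales_indep hP hp1 (fun i => Fam N (φ (2 * i)))
      (fun i => Lots (Pie A N (φ (2 * i))) (Fam N (φ (2 * i))) (k + 1) K) hdisj
      (fun i => dep_Lots _ _ _ _) (fun i => (hφg (2 * i)).2) M
    refine le_trans ?_ h1
    unfold Pr
    refine measureReal_mono ?_ (measure_ne_top _ _)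
    intro ω hω i _ hM
    apply hω
    obtain ⟨m, hm⟩ := hM
    refine ⟨m, le_trans (by omega) (hm.trans (r_mono ?_ _ _))⟩
    rintro v ⟨s, _, a, ha, rfl⟩
    have h2 := mem_Pie.1 ha
    exact ⟨s, a, h2.2.2, h2.1.1, h2.1.2, rfl⟩
  have hzero : μ.real bad = 0 := by
    apply le_antisymm _ measureReal_nonneg
    have h1 : Tendsto (fun M : ℕ => (1 - p) ^ M) atTop (nhds 0) :=
      tendsto_pow_atTop_nhds_zero_of_lt_one (by linarith) (by linarith)
    exact ge_of_tendsto' h1 hbound
  rw [ae_iff]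
  exact (measureReal_eq_zero_iff).1 hzero

end Pool.Agent.Q152.RigidPieces
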