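import Pool.Agent.W167.ET.Induct
import Pool.Agent.W167.ET.Uniform

set_option autoImplicit false

/-! Random rigid displacements of pieces of a set: combinatorial part. -/

namespace Pool.Agent.Q152.RigidPieces

open MeasureTheory ProbabilityTheory Finset
open Pool.Agent.W167.ET

/-- the union of the shifted pieces -/
def PImg (P : ℕ → Finset ℕ) (F : Finset ℕ) (x : ℕ → ℕ) : Set ℕ :=
  {v | ∃ s ∈ F, ∃ a ∈ P s, v = a + x s}

def Lots (P : ℕ → Finset ℕ) (F : Finset ℕ) (h K : ℕ) (x : ℕ → ℕ) : Prop :=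
  ∃ m, K ≤ r (PImg P F x) h m

lemma PImg_congr {P : ℕ → Finset ℕ} {F : Finset ℕ} {x y : ℕ → ℕ} (h : ∀ n ∈ F, x n = y n) :
    PImg P F x = PImg P F y := by
  ext v
  constructor
  · rintro ⟨s, hs, a, ha, rfl⟩
    exact ⟨s, hs, a, ha, by rw [h s hs]⟩
  · rintro ⟨s, hs, a, ha, rfl⟩
    exact ⟨s, hs, a, ha, by rw [h s hs]⟩

lemma PImg_mono {P : ℕ → Finset ℕ} {F G : Finset ℕ} (hFG : F ⊆ G) (x : ℕ → ℕ) :
    PImg P F x ⊆ PImg P G x := by
  rintro v ⟨s, hs, a, ha, rfl⟩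
  exact ⟨s, hFG hs, a, ha, rfl⟩

lemma dep_Lots (P : ℕ → Finset ℕ) (F : Finset ℕ) (h K : ℕ) : DepOn F (Lots P F h K) := by
  intro x y hxy
  unfold Lots
  rw [PImg_congr hxy]

lemma Lots_mono {P : ℕ → Finset ℕ} {F G : Finset ℕ} (hFG : F ⊆ G) {h K : ℕ} {x : ℕ → ℕ}
    (hx : Lots P F h K x) : Lots P G h K x := by
  obtain ⟨m, hm⟩ := hx
  exact ⟨m, hm.trans (r_mono (PImg_mono hFG x) h m)⟩

/-- the sums of `k` elements of `Q` -/
def Bs (Q : Finset ℕ) (k : ℕ) : Finset ℕ :=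
  (Fintype.piFinset (fun _ : Fin k => Q)).image (fun t => ∑ i, t i)

lemma exists_mset {Q : Finset ℕ} {k b : ℕ} (hb : b ∈ Bs Q k) :
    ∃ M : Multiset ℕ, M ∈ msets (Q : Set ℕ) k b := by
  unfold Bs at hb
  rw [Finset.mem_image] at hb
  obtain ⟨t, ht, rfl⟩ := hb
  rw [Fintype.mem_piFinset] at ht
  refine ⟨mset t, card_mset t, ?_, sum_mset t⟩
  intro v hv
  obtain ⟨i, rfl⟩ := mem_mset.1 hv
  exact ht i

lemma card_Bs_le (Q : Finset ℕ) (k : ℕ) : (Bs Q k).card ≤ Q.card ^ k := by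
  refine Finset.card_image_le.trans ?_
  rw [Fintype.card_piFinset]
  simp

/-- few representations: many sums -/
lemma card_Bs_ge (Q : Finset ℕ) (k K : ℕ) (hQ : Q.Nonempty)
    (hK : ∀ n, r (Q : Set ℕ) (k + 1) n ≤ K) : Q.card ^ k ≤ k ^ k * K * (Bs Q k).card := by
  classical
  obtain ⟨x0, hx0⟩ := hQ
  have h1 : (Fintype.piFinset (fun _ : Fin k => Q)).card = Q.card ^ k := by
    rw [Fintype.card_piFinset]
    simp
  rw [← h1]
  unfold Bs
  apply Finset.card_le_mul_card_image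
  intro b _
  have h2 := card_le_mul_r (Q : Set ℕ) k b (k ^ k)
    ((Fintype.piFinset (fun _ : Fin k => Q)).filter (fun t => ∑ i, t i = b)) mset (by
      intro t ht
      rw [Finset.mem_filter, Fintype.mem_piFinset] at ht
      refine ⟨card_mset t, ?_, ht.2⟩
      intro v hv
      obtain ⟨i, rfl⟩ := mem_mset.1 hv
      exact ht.1 i) (fun M => fiber_mset _ M)
  refine h2.trans (Nat.mul_le_mul_left _ ?_)
  exact (r_add_one (K := r (Q : Set ℕ) k b) (Finset.mem_coe.2 hx0) le_rfl).trans (hK _)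

/-- the elements which complete a sum of `k` elements of `Q` to `n` -/
lemma hitsB (Q : Finset ℕ) (k n : ℕ) (A : Set ℕ) (hQ : (Q : Set ℕ) ⊆ A) (V : Finset ℕ)
    (hV : ∀ v ∈ V, v ∈ A ∧ ∃ b ∈ Bs Q k, b + v = n) : V.card ≤ (k + 1) * r A (k + 1) n := by
  classical
  have h1 : ∀ v ∈ V, ∃ M : Multiset ℕ, M ∈ msets (Q : Set ℕ) k (n - v) ∧ v ≤ n := by
    intro v hv
    obtain ⟨_, b, hb, hbn⟩ := hV v hv
    obtain ⟨M, hM⟩ := exists_mset hb
    have : n - v = b := by omega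
    exact ⟨M, by rw [this]; exact hM, by omega⟩
  choose! f hf using h1
  apply hits V (fun v => v ::ₘ f v)
  intro v hv
  obtain ⟨⟨h2, h3, h4⟩, h5⟩ := hf v hv
  refine ⟨⟨by rw [Multiset.card_cons, h2], ?_, by rw [Multiset.sum_cons, h4]; omega⟩,
    Multiset.mem_cons_self _ _⟩
  intro a ha
  rw [Multiset.mem_cons] at ha
  rcases ha with rfl | ha
  · exact (hV _ hv).1
  · exact hQ (h3 a ha)

/-- the sums of an element of `B` and of an element of `P` -/
def Su (B P : Finset ℕ) : Finset ℕ := (B ×ˢ P).image (fun p => p.1 + p.2)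

lemma mem_Su {B P : Finset ℕ} {v : ℕ} : v ∈ Su B P ↔ ∃ b ∈ B, ∃ a ∈ P, b + a = v := by
  unfold Su
  rw [Finset.mem_image]
  constructor
  · rintro ⟨p, hp, rfl⟩
    rw [Finset.mem_product] at hp
    exact ⟨p.1, hp.1, p.2, hp.2, rfl⟩
  · rintro ⟨b, hb, a, ha, rfl⟩
    exact ⟨(b, a), Finset.mem_product.2 ⟨hb, ha⟩, rfl⟩

lemma card_Su_le (B P : Finset ℕ) : (Su B P).card ≤ B.card * P.card := by
  refine Finset.card_image_le.trans ?_
  rw [Finset.card_product]

/-- either the pairs have few coincidences or there is an integer with many representations, for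
every shift of the piece -/
lemma pairs (Q : Finset ℕ) (k K : ℕ) (P : Finset ℕ) :
    ((Bs Q k).card * P.card ≤ (k + 1) * K * (Su (Bs Q k) P).card) ∨
      ∀ t : ℕ, ∀ A : Set ℕ, (Q : Set ℕ) ⊆ A → (∀ a ∈ P, a + t ∈ A) → ∃ m, K ≤ r A (k + 1) m := by
  classical
  by_cases h : ∀ v, (((Bs Q k) ×ˢ P).filter (fun p => p.1 + p.2 = v)).card ≤ (k + 1) * K
  · left
    rw [← Finset.card_product]
    exact Finset.card_le_mul_card_image _ _ (fun v _ => h v)
  · right
    push Not at h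
    obtain ⟨v, hv⟩ := h
    intro t A hQ hA
    refine ⟨v + t, ?_⟩
    set S := (((Bs Q k) ×ˢ P).filter (fun p => p.1 + p.2 = v)) with hS
    have h1 : (S.image (fun p => p.2 + t)).card = S.card := by
      apply Finset.card_image_of_injOn
      intro p hp q hq hpq
      rw [hS, Finset.mem_coe, Finset.mem_filter] at hp hq
      have e1 := hp.2
      have e2 := hq.2
      have e3 : p.2 + t = q.2 + t := hpq
      apply Prod.ext
      · omega
      · omega
    have h2 := hitsB Q k (v + t) A hQ (S.image (fun p => p.2 + t)) (by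
      intro u hu
      rw [Finset.mem_image] at hu
      obtain ⟨p, hp, rfl⟩ := hu
      rw [hS, Finset.mem_filter, Finset.mem_product] at hp
      refine ⟨hA _ hp.1.2, p.1, hp.1.1, ?_⟩
      have := hp.2
      omega)
    rw [h1] at h2
    have h3 : (k + 1) * K < (k + 1) * r A (k + 1) (v + t) := lt_of_lt_of_le hv h2
    exact (Nat.lt_of_mul_lt_mul_left h3).le

section prob

variable {Ω : Type*} [MeasurableSpace Ω] {μ : Measure Ω} {w : ℕ → ℕ} {B : ℝ} {ε : ℕ → Ω → ℕ}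

/-- the shift `v` of the piece `P s` hits the target `n` -/
def Tgt (Bt : Finset ℕ) (P : ℕ → Finset ℕ) (n s v : ℕ) : Prop := ∃ b ∈ Bt, ∃ a ∈ P s, b + a + v = n

/-- the sum over the targets of the hitting probabilities of one piece -/
lemma sum_hit (hP : Pert μ w B ε) (Bt : Finset ℕ) (P : ℕ → Finset ℕ) (s N : ℕ)
    (hN : ∀ b ∈ Bt, ∀ a ∈ P s, b + a + w s < N) :
    ∑ n ∈ range N, Pr μ ε (fun x => Tgt Bt P n s (x s)) = ((Su Bt (P s)).card : ℝ) := by
  classical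
  have h1 : ∀ n ∈ range N, Pr μ ε (fun x => Tgt Bt P n s (x s)) =
      ∑ j ∈ range (w s + 1), if Tgt Bt P n s j then Pr μ ε (fun x => x s = j) else 0 := by
    intro n _
    rw [Pr_coord hP s (fun v => Tgt Bt P n s v) (w s + 1) (Nat.lt_succ_self _), Finset.sum_filter]
  rw [Finset.sum_congr rfl h1, Finset.sum_comm]
  have h2 : ∀ j ∈ range (w s + 1), (∑ n ∈ range N,
      if Tgt Bt P n s j then Pr μ ε (fun x => x s = j) else 0) =
      ((Su Bt (P s)).card : ℝ) * Pr μ ε (fun x => x s = j) := by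
    intro j hj
    rw [Finset.mem_range] at hj
    rw [← Finset.sum_filter, Finset.sum_const, nsmul_eq_mul]
    congr 2
    have e : (range N).filter (fun n => Tgt Bt P n s j) = (Su Bt (P s)).image (fun v => v + j) := by
      ext n
      rw [Finset.mem_filter, Finset.mem_range, Finset.mem_image]
      constructor
      · rintro ⟨_, b, hb, a, ha, rfl⟩
        exact ⟨b + a, mem_Su.2 ⟨b, hb, a, ha, rfl⟩, rfl⟩
      · rintro ⟨v, hv, rfl⟩
        obtain ⟨b, hb, a, ha, rfl⟩ := mem_Su.1 hv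
        have := hN b hb a ha
        exact ⟨by omega, b, hb, a, ha, rfl⟩
    rw [e, Finset.card_image_of_injective _ (add_left_injective j)]
  rw [Finset.sum_congr rfl h2, ← Finset.mul_sum, Pr_sum_one hP s (w s + 1) (Nat.lt_succ_self _),
    mul_one]

/-- a target which is hit by the pieces with the average intensity -/
lemma exists_target (hP : Pert μ w B ε) (Bt : Finset ℕ) (P : ℕ → Finset ℕ) (G : Finset ℕ) (N : ℕ)
    (hN0 : 0 < N) (hN : ∀ s ∈ G, ∀ b ∈ Bt, ∀ a ∈ P s, b + a + w s < N) :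
    ∃ n, (∑ s ∈ G, ((Su Bt (P s)).card : ℝ)) / N ≤
      ∑ s ∈ G, Pr μ ε (fun x => Tgt Bt P n s (x s)) := by
  have h1 : ∑ n ∈ range N, ∑ s ∈ G, Pr μ ε (fun x => Tgt Bt P n s (x s)) =
      ∑ s ∈ G, ((Su Bt (P s)).card : ℝ) := by
    rw [Finset.sum_comm]
    exact Finset.sum_congr rfl fun s hs => sum_hit hP Bt P s N (hN s hs)
  by_contra hcon
  push Not at hcon
  have h2 : ∑ n ∈ range N, ∑ s ∈ G, Pr μ ε (fun x => Tgt Bt P n s (x s)) <
      ∑ _n ∈ range N, (∑ s ∈ G, ((Su Bt (P s)).card : ℝ)) / N := by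
    apply Finset.sum_lt_sum_of_nonempty
    · rw [Finset.nonempty_range_iff]
      omega
    · exact fun n _ => hcon n
  rw [h1, Finset.sum_const, Finset.card_range, nsmul_eq_mul] at h2
  have h3 : (N : ℝ) ≠ 0 := by
    have : (0 : ℝ) < N := by exact_mod_cast hN0
    exact this.ne'
  rw [mul_div_cancel₀ _ h3] at h2
  exact lt_irrefl _ h2

/-- upper bound for the hitting probability -/
lemma hit_le (hP : Pert μ w B ε) (Bt : Finset ℕ) (P : ℕ → Finset ℕ) (n s : ℕ) :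
    Pr μ ε (fun x => Tgt Bt P n s (x s)) ≤
      (Bt.card * (P s).card : ℕ) * (B / (w s + 1)) := by
  classical
  have hB : 0 ≤ B := (zero_le_one).trans (one_le_B hP)
  have h1 : Pr μ ε (fun x => Tgt Bt P n s (x s)) ≤
      Pr μ ε (fun x => ∃ p ∈ Bt ×ˢ P s, p.1 + p.2 + x s = n) := by
    apply Pr_mono hP
    rintro x _ ⟨b, hb, a, ha, h⟩
    exact ⟨(b, a), Finset.mem_product.2 ⟨hb, ha⟩, h⟩
  refine h1.trans ((Pr_exists_le _ _ hP).trans ?_)
  rw [← Finset.card_product, ← nsmul_eq_mul, ← Finset.sum_const]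
  apply Finset.sum_le_sum
  intro p _
  by_cases hp : p.1 + p.2 ≤ n
  · refine (Pr_mono hP fun x _ h => ?_).trans (Pr_dens hP s (n - (p.1 + p.2)))
    change p.1 + p.2 + x s = n at h
    omega
  · refine le_trans (le_of_eq ?_) (div_nonneg hB (by positivity))
    have := hP.prob
    have e : {ω | p.1 + p.2 + ε s ω = n} = ∅ := by
      ext ω
      simp only [Set.mem_ofPred_eq, Set.mem_empty_iff_false, iff_false]
      omega
    unfold Pr
    rw [e]
    exact measureReal_empty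

/-- the labelled elements of the pieces -/
def Lab (P : ℕ → Finset ℕ) (G : Finset ℕ) : Finset (Σ _ : ℕ, ℕ) := G.sigma P

lemma card_Lab (P : ℕ → Finset ℕ) (G : Finset ℕ) : (Lab P G).card = ∑ s ∈ G, (P s).card :=
  Finset.card_sigma _ _

/-- the pairs of labelled elements of different pieces -/
def LP (P : ℕ → Finset ℕ) (G : Finset ℕ) : Finset ((Σ _ : ℕ, ℕ) × (Σ _ : ℕ, ℕ)) :=
  ((Lab P G) ×ˢ (Lab P G)).filter (fun q => q.1.1 ≠ q.2.1)

lemma mem_LP {P : ℕ → Finset ℕ} {G : Finset ℕ} {q : (Σ _ : ℕ, ℕ) × (Σ _ : ℕ, ℕ)} :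
    q ∈ LP P G ↔ ((q.1.1 ∈ G ∧ q.1.2 ∈ P q.1.1) ∧ (q.2.1 ∈ G ∧ q.2.2 ∈ P q.2.1)) ∧
      q.1.1 ≠ q.2.1 := by
  unfold LP Lab
  rw [Finset.mem_filter, Finset.mem_product, Finset.mem_sigma, Finset.mem_sigma]

lemma card_LP_le (P : ℕ → Finset ℕ) (G : Finset ℕ) : (LP P G).card ≤ (Lab P G).card ^ 2 := by
  refine (Finset.card_filter_le _ _).trans ?_
  rw [Finset.card_product, pow_two]

/-- two shifted elements of different pieces coincide -/
def Col (P : ℕ → Finset ℕ) (G : Finset ℕ) (x : ℕ → ℕ) : Prop :=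
  ∃ q ∈ LP P G, q.1.2 + x q.1.1 = q.2.2 + x q.2.1

/-- two shifted elements of different pieces coincide and hit the target -/
def Coin (Bt : Finset ℕ) (P : ℕ → Finset ℕ) (n : ℕ) (G : Finset ℕ) (x : ℕ → ℕ) : Prop :=
  ∃ q ∈ LP P G, q.1.2 + x q.1.1 = q.2.2 + x q.2.1 ∧ ∃ b ∈ Bt, b + q.1.2 + x q.1.1 = n

lemma dep_Col (P : ℕ → Finset ℕ) (G : Finset ℕ) : DepOn G (Col P G) := by
  intro x y hxy
  unfold Col
  apply exists_congr
  intro q
  constructor
  · rintro ⟨hq, h⟩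
    have := mem_LP.1 hq
    rw [hxy _ this.1.1.1, hxy _ this.1.2.1] at h
    exact ⟨hq, h⟩
  · rintro ⟨hq, h⟩
    have := mem_LP.1 hq
    rw [← hxy _ this.1.1.1, ← hxy _ this.1.2.1] at h
    exact ⟨hq, h⟩

/-- collisions are rare -/
lemma Pr_Col (hP : Pert μ w B ε) (P : ℕ → Finset ℕ) (G : Finset ℕ) {D : ℝ} (hD : 0 < D)
    (hw : ∀ s ∈ G, D ≤ w s + 1) :
    Pr μ ε (Col P G) ≤ ((Lab P G).card : ℝ) ^ 2 * (B / D) := by
  have hB : 0 ≤ B := (zero_le_one).trans (one_le_B hP)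
  refine (Pr_exists_le _ _ hP).trans ?_
  have h1 : ∀ q ∈ LP P G, Pr μ ε (fun x => q.1.2 + x q.1.1 = q.2.2 + x q.2.1) ≤ B / D := by
    intro q hq
    have hq' := mem_LP.1 hq
    have h2 := Pr_coinc hP hB hq'.2 q.1.2 q.2.2 (fun _ => True)
    have h3 : Pr μ ε (fun x => q.1.2 + x q.1.1 = q.2.2 + x q.2.1) ≤
        Pr μ ε (fun x => q.1.2 + x q.1.1 = q.2.2 + x q.2.1 ∧ True) :=
      Pr_mono hP fun x _ h => ⟨h, trivial⟩
    refine h3.trans (h2.trans ?_)
    have h4 := Pr_le_one hP (fun _ => True)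
    have h5 : B / (w q.2.1 + 1) ≤ B / D :=
      div_le_div_of_nonneg_left hB hD (hw _ hq'.1.2.1)
    calc Pr μ ε (fun _ => True) * (B / (w q.2.1 + 1)) ≤ 1 * (B / (w q.2.1 + 1)) :=
          mul_le_mul_of_nonneg_right h4 (div_nonneg hB (by positivity))
      _ ≤ B / D := by rw [one_mul]; exact h5
  refine (Finset.sum_le_sum h1).trans ?_
  rw [Finset.sum_const, nsmul_eq_mul]
  apply mul_le_mul_of_nonneg_right _ (by positivity)
  exact_mod_cast card_LP_le P G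

/-- coincidences at the target are very rare -/
lemma Pr_Coin (hP : Pert μ w B ε) (Bt : Finset ℕ) (P : ℕ → Finset ℕ) (n : ℕ) (G : Finset ℕ)
    {D : ℝ} (hD : 0 < D) (hw : ∀ s ∈ G, D ≤ w s + 1) :
    Pr μ ε (Coin Bt P n G) ≤ ((Lab P G).card : ℝ) ^ 2 * ((Bt.card : ℝ) * (B / D) * (B / D)) := by
  have hB : 0 ≤ B := (zero_le_one).trans (one_le_B hP)
  refine (Pr_exists_le _ _ hP).trans ?_
  have h1 : ∀ q ∈ LP P G, Pr μ ε (fun x => q.1.2 + x q.1.1 = q.2.2 + x q.2.1 ∧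
      ∃ b ∈ Bt, b + q.1.2 + x q.1.1 = n) ≤ (Bt.card : ℝ) * (B / D) * (B / D) := by
    intro q hq
    have hq' := mem_LP.1 hq
    have h2 := Pr_coinc hP hB hq'.2 q.1.2 q.2.2 (fun v => ∃ b ∈ Bt, b + q.1.2 + v = n)
    refine h2.trans ?_
    have h5 : B / (w q.2.1 + 1) ≤ B / D :=
      div_le_div_of_nonneg_left hB hD (hw _ hq'.1.2.1)
    have h6 : B / (w q.1.1 + 1) ≤ B / D :=
      div_le_div_of_nonneg_left hB hD (hw _ hq'.1.1.1)
    have h7 := hit_le hP Bt (fun _ => {q.1.2}) n q.1.1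
    have h8 : Pr μ ε (fun x => ∃ b ∈ Bt, b + q.1.2 + x q.1.1 = n) ≤
        (Bt.card : ℝ) * (B / D) := by
      have h9 : Pr μ ε (fun x => ∃ b ∈ Bt, b + q.1.2 + x q.1.1 = n) ≤
          Pr μ ε (fun x => Tgt Bt (fun _ => {q.1.2}) n q.1.1 (x q.1.1)) := by
        apply Pr_mono hP
        rintro x _ ⟨b, hb, h⟩
        exact ⟨b, hb, q.1.2, Finset.mem_singleton_self _, h⟩
      refine h9.trans (h7.trans ?_)
      rw [Finset.card_singleton, mul_one]
      exact mul_le_mul_of_nonneg_left h6 (by positivity)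
    exact mul_le_mul h8 h5 (div_nonneg hB (by positivity)) (by positivity)
  refine (Finset.sum_le_sum h1).trans ?_
  rw [Finset.sum_const, nsmul_eq_mul]
  apply mul_le_mul_of_nonneg_right _ (by positivity)
  exact_mod_cast card_LP_le P G

/-- hits in different groups which are not coincidences give many representations -/
lemma Lots_of_hits (Q : Finset ℕ) (k K n : ℕ) (P : ℕ → Finset ℕ) (G : Finset ℕ) (H : ℕ → Finset ℕ)
    (hH : ∀ i < (k + 1) * K, H i ⊆ G)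
    (hHd : ∀ i < (k + 1) * K, ∀ j < (k + 1) * K, i ≠ j → Disjoint (H i) (H j))
    (A : Set ℕ) (hQ : (Q : Set ℕ) ⊆ A) (x : ℕ → ℕ) (hA : ∀ s ∈ G, ∀ a ∈ P s, a + x s ∈ A)
    (hhit : ∀ i < (k + 1) * K, ∃ s ∈ H i, Tgt (Bs Q k) P n s (x s))
    (hcoin : ¬ Coin (Bs Q k) P n G x) : K ≤ r A (k + 1) n := by
  classical
  have h1 : ∀ i < (k + 1) * K, ∃ s, ∃ a, s ∈ H i ∧ a ∈ P s ∧ ∃ b ∈ Bs Q k, b + a + x s = n := by
    intro i hi
    obtain ⟨s, hs, b, hb, a, ha, h⟩ := hhit i hi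
    exact ⟨s, a, hs, ha, b, hb, h⟩
  choose! σ α hσ hα hβ using h1
  set V := (range ((k + 1) * K)).image (fun i => α i + x (σ i)) with hV
  have hinj : Set.InjOn (fun i => α i + x (σ i)) (range ((k + 1) * K) : Set ℕ) := by
    intro i hi j hj hij
    rw [Finset.mem_coe, Finset.mem_range] at hi hj
    by_contra hne
    apply hcoin
    refine ⟨(⟨σ i, α i⟩, ⟨σ j, α j⟩), ?_, hij, ?_⟩
    · rw [mem_LP]
      refine ⟨⟨⟨hH i hi (hσ i hi), hα i hi⟩, ⟨hH j hj (hσ j hj), hα j hj⟩⟩, ?_⟩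
      intro h
      have h' : σ i = σ j := h
      have h2 := hHd i hi j hj hne
      rw [Finset.disjoint_left] at h2
      exact h2 (hσ i hi) (h' ▸ hσ j hj)
    · exact hβ i hi
  have hc : V.card = (k + 1) * K := by
    rw [hV, Finset.card_image_of_injOn hinj, Finset.card_range]
  have h2 := hitsB Q k n A hQ V (by
    intro v hv
    rw [hV, Finset.mem_image] at hv
    obtain ⟨i, hi, rfl⟩ := hv
    rw [Finset.mem_range] at hi
    refine ⟨hA _ (hH i hi (hσ i hi)) _ (hα i hi), ?_⟩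
    obtain ⟨b, hb, h⟩ := hβ i hi
    exact ⟨b, hb, by omega⟩)
  rw [hc] at h2
  exact Nat.le_of_mul_le_mul_left h2 (Nat.succ_pos k)

end prob

end Pool.Agent.Q152.RigidPieces
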