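import Pool.Agent.Q152.RigidPieces

set_option autoImplicit false

/-! Random rigid displacements of pieces of a set: one scale. -/

namespace Pool.Agent.Q152.RigidPieces

open MeasureTheory ProbabilityTheory Finset
open Pool.Agent.W167.ET

variable {Ω : Type*} [MeasurableSpace Ω] {μ : Measure Ω} {w : ℕ → ℕ} {B : ℝ} {ε : ℕ → Ω → ℕ}

lemma frozen (hP : Pert μ w B ε) {k K : ℕ} (P : ℕ → Finset ℕ) {G0 G1 : Finset ℕ}
    (hd : Disjoint G0 G1) (z : ℕ → ℕ) {β D : ℝ} (hβ0 : 0 < β) (hβ1 : β ≤ 1) (hD : 0 < D)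
    (hw : ∀ s ∈ G1, D ≤ w s + 1) (N : ℕ) (hN0 : 0 < N) (Q : Finset ℕ)
    (hQ : (Q : Set ℕ) = PImg P G0 z) (hQne : Q.Nonempty)
    (hN : ∀ s ∈ G1, ∀ b ∈ Bs Q k, ∀ a ∈ P s, b + a + w s < N)
    (h2 : Q.card ^ k ≤ k ^ k * K * (Bs Q k).card →
      (∀ s ∈ G1, (Bs Q k).card * (P s).card ≤ (k + 1) * K * (Su (Bs Q k) (P s)).card) →
      2 * (((k + 1) * K : ℕ) : ℝ) * β ≤ (∑ s ∈ G1, ((Su (Bs Q k) (P s)).card : ℝ)) / N)
    (h3 : ∀ s ∈ G1, (((Bs Q k).card * (P s).card : ℕ) : ℝ) * (B / D) ≤ β)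
    (h4 : ((Lab P G1).card : ℝ) ^ 2 * (((Bs Q k).card : ℝ) * (B / D) * (B / D)) ≤
      (β / 2) ^ ((k + 1) * K) / 2) :
    (β / 2) ^ ((k + 1) * K) / 2 ≤
      Pr μ ε (fun x => Lots P (G0 ∪ G1) (k + 1) K (glue G0 z x)) := by
  classical
  have hB : 0 ≤ B := (zero_le_one).trans (one_le_B hP)
  have hsmall : (β / 2) ^ ((k + 1) * K) / 2 ≤ 1 := by
    have : (β / 2) ^ ((k + 1) * K) ≤ 1 := pow_le_one₀ (by linarith) (by linarith)
    linarith
  -- the image contains the frozen set and the shifted pieces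
  have hA1 : ∀ x : ℕ → ℕ, (Q : Set ℕ) ⊆ PImg P (G0 ∪ G1) (glue G0 z x) := by
    intro x
    rw [hQ]
    rintro v ⟨s, hs, a, ha, rfl⟩
    refine ⟨s, Finset.mem_union_left _ hs, a, ha, ?_⟩
    simp [glue, hs]
  have hA2 : ∀ x : ℕ → ℕ, ∀ s ∈ G1, ∀ a ∈ P s, a + x s ∈ PImg P (G0 ∪ G1) (glue G0 z x) := by
    intro x s hs a ha
    refine ⟨s, Finset.mem_union_right _ hs, a, ha, ?_⟩
    have h : s ∉ G0 := fun h => (Finset.disjoint_left.1 hd) h hs
    simp [glue, h]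
  by_cases hr : ∀ n, r (Q : Set ℕ) (k + 1) n ≤ K
  swap
  · push Not at hr
    obtain ⟨n, hn⟩ := hr
    rw [Pr_true hP]
    · exact hsmall
    · intro x _
      exact ⟨n, hn.le.trans (r_mono (hA1 x) _ _)⟩
  have hBs := card_Bs_ge Q k K hQne hr
  by_cases hpairs : ∀ s ∈ G1,
      (Bs Q k).card * (P s).card ≤ (k + 1) * K * (Su (Bs Q k) (P s)).card
  swap
  · push Not at hpairs
    obtain ⟨s, hs, hlt⟩ := hpairs
    rcases pairs Q k K (P s) with h | h
    · omega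
    · rw [Pr_true hP]
      · exact hsmall
      · intro x _
        exact h (x s) _ (hA1 x) (hA2 x s hs)
  have h5 := h2 hBs hpairs
  obtain ⟨n, hn⟩ := exists_target hP (Bs Q k) P G1 N hN0 hN
  have hq : ∀ s ∈ G1, Pr μ ε (fun x => Tgt (Bs Q k) P n s (x s)) ≤ β := by
    intro s hs
    refine (hit_le hP (Bs Q k) P n s).trans (le_trans ?_ (h3 s hs))
    apply mul_le_mul_of_nonneg_left _ (by positivity)
    exact div_le_div_of_nonneg_left hB hD (hw s hs)
  obtain ⟨H, hH1, hH2, hH3⟩ := exists_groups (fun s => Pr μ ε (fun x => Tgt (Bs Q k) P n s (x s)))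
    hβ0.le ((k + 1) * K) G1 (fun s _ => Pr_nonneg _) hq (h5.trans hn)
  have h6 := Pr_groups hP H ((k + 1) * K) hH2 (fun s v => Tgt (Bs Q k) P n s v) hβ0.le hβ1
    (fun i hi => (hH3 i hi).1)
  have h7 : Pr μ ε (fun x => ∀ i < (k + 1) * K, ∃ s ∈ H i, Tgt (Bs Q k) P n s (x s)) ≤
      Pr μ ε (fun x => Lots P (G0 ∪ G1) (k + 1) K (glue G0 z x) ∨ Coin (Bs Q k) P n G1 x) := by
    apply Pr_mono hP
    intro x _ hx
    by_cases hc : Coin (Bs Q k) P n G1 x
    · exact Or.inr hc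
    · left
      exact ⟨n, Lots_of_hits Q k K n P G1 H hH1 hH2 _ (hA1 x) x (hA2 x) hx hc⟩
  have h8 := Pr_or_le hP (fun x => Lots P (G0 ∪ G1) (k + 1) K (glue G0 z x))
    (Coin (Bs Q k) P n G1)
  have h9 := Pr_Coin hP (Bs Q k) P n G1 hD hw
  linarith

/-- **One scale.** -/
theorem scale (hP : Pert μ w B ε) (k K C' : ℕ) (hk : 1 ≤ k) (hK : 1 ≤ K) {δ c : ℝ} (hδ : 0 < δ)
    (hc : 0 < c) : ∃ θ : ℝ, 0 < θ ∧ ∃ p : ℝ, (0 < p ∧ p ≤ 1) ∧ ∃ y0 : ℕ, ∀ y : ℕ, y0 ≤ y → ∀ X : ℕ,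
      y ^ (k + 1) ≤ X → X ≤ (2 * y) ^ (k + 1) → ∀ (P : ℕ → Finset ℕ) (F : Finset ℕ),
      (∀ s ∈ F, ∀ a ∈ P s, a ≤ 2 * X) → (∀ s ∈ F, δ * X ≤ w s + 1) →
      (∀ s ∈ F, w s ≤ C' * X) → (∀ s ∈ F, ((P s).card : ℝ) ≤ θ * y) →
      c * y ≤ ∑ s ∈ F, ((P s).card : ℝ) → p ≤ Pr μ ε (Lots P F (k + 1) K) := by
  classical
  have hB1 : 1 ≤ B := one_le_B hP
  have hB : 0 < B := by linarith
  obtain ⟨α, hα⟩ : ∃ α : ℝ, α = min (c / 4) (min 1 (δ / (8 * B))) := ⟨_, rfl⟩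
  have hα0 : 0 < α := by
    rw [hα]
    exact lt_min (by linarith) (lt_min one_pos (by positivity))
  have hαc : 4 * α ≤ c := by
    have : α ≤ c / 4 := hα.le.trans (min_le_left _ _)
    linarith
  have hα1 : α ≤ 1 := hα.le.trans ((min_le_right _ _).trans (min_le_left _ _))
  have hαδ : α * (8 * B) ≤ δ := by
    have : α ≤ δ / (8 * B) := hα.le.trans ((min_le_right _ _).trans (min_le_right _ _))
    rwa [le_div_iff₀ (by positivity)] at this
  obtain ⟨C1, hC1⟩ : ∃ C1 : ℕ, C1 = (k + 1) * (2 + C') + 1 := ⟨_, rfl⟩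
  obtain ⟨den, hden⟩ : ∃ den : ℝ, den = ((k : ℝ) ^ k * K) * ((k + 1) * K) * (C1 * 2 ^ (k + 1)) :=
    ⟨_, rfl⟩
  have hk0 : (0 : ℝ) < k := by exact_mod_cast hk
  have hK0 : (0 : ℝ) < K := by exact_mod_cast hK
  have hC10 : (0 : ℝ) < C1 := by rw [hC1]; push_cast; positivity
  have hden0 : 0 < den := by rw [hden]; positivity
  obtain ⟨lam, hlam⟩ : ∃ lam : ℝ, lam = α ^ (k + 1) / den := ⟨_, rfl⟩
  have hlam0 : 0 < lam := by rw [hlam]; positivity
  obtain ⟨m, hm⟩ : ∃ m : ℕ, m = (k + 1) * K := ⟨_, rfl⟩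
  have hm0 : (0 : ℝ) < m := by rw [hm]; push_cast; positivity
  obtain ⟨β, hβ⟩ : ∃ β : ℝ, β = min 1 (lam / (2 * m)) := ⟨_, rfl⟩
  have hβ0 : 0 < β := by rw [hβ]; exact lt_min one_pos (by positivity)
  have hβ1 : β ≤ 1 := hβ.le.trans (min_le_left _ _)
  have hβl : 2 * (m : ℝ) * β ≤ lam := by
    have : β ≤ lam / (2 * m) := hβ.le.trans (min_le_right _ _)
    rw [le_div_iff₀ (by positivity)] at this
    linarith
  obtain ⟨θ, hθ⟩ : ∃ θ : ℝ, θ = min α (β * δ / (2 ^ k * B)) := ⟨_, rfl⟩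
  have hθ0 : 0 < θ := by rw [hθ]; exact lt_min hα0 (by positivity)
  have hθα : θ ≤ α := hθ.le.trans (min_le_left _ _)
  have hθβ : θ * (2 ^ k * B) ≤ β * δ := by
    have : θ ≤ β * δ / (2 ^ k * B) := hθ.le.trans (min_le_right _ _)
    rwa [le_div_iff₀ (by positivity)] at this
  obtain ⟨p1, hp1⟩ : ∃ p1 : ℝ, p1 = (β / 2) ^ m / 2 := ⟨_, rfl⟩
  have hp10 : 0 < p1 := by rw [hp1]; positivity
  obtain ⟨y0, hy0⟩ := exists_nat_ge (max 1 (2 ^ (k + 2) * (B / δ) ^ 2 / p1))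
  have hp11 : p1 ≤ 1 := by
    have : (β / 2) ^ m ≤ 1 := pow_le_one₀ (by linarith) (by linarith)
    rw [hp1]
    linarith
  refine ⟨θ, hθ0, p1 / 2, ⟨by linarith, by linarith⟩, y0, ?_⟩
  intro y hy X hX1 hX2 P F hPX hwX hwC hPs hsum
  have hyy0 : (y0 : ℝ) ≤ y := by exact_mod_cast hy
  have hy1 : (1 : ℝ) ≤ y := (le_max_left _ _).trans (hy0.trans hyy0)
  have hy1' : 1 ≤ y := by exact_mod_cast hy1
  have hy2 : 2 ^ (k + 2) * (B / δ) ^ 2 ≤ p1 * y := by
    have := (le_max_right _ _).trans (hy0.trans hyy0)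
    rw [div_le_iff₀ hp10] at this
    linarith
  have hX1r : (y : ℝ) ^ (k + 1) ≤ X := by exact_mod_cast hX1
  have hX2r : (X : ℝ) ≤ (2 * y) ^ (k + 1) := by exact_mod_cast hX2
  have hX0 : (0 : ℝ) < X := lt_of_lt_of_le (by positivity) hX1r
  have hX0' : 0 < X := by exact_mod_cast hX0
  have hy0' : (0 : ℝ) < y := by linarith
  obtain ⟨D, hD⟩ : ∃ D : ℝ, D = δ * X := ⟨_, rfl⟩
  have hD0 : 0 < D := by rw [hD]; positivity
  have hwD : ∀ s ∈ F, D ≤ w s + 1 := fun s hs => by rw [hD]; exact hwX s hs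
  have hBD : B / D ≤ B / (δ * y ^ (k + 1)) := by
    apply div_le_div_of_nonneg_left hB.le (by positivity)
    rw [hD]
    exact mul_le_mul_of_nonneg_left hX1r hδ.le
  have hBD0 : 0 ≤ B / D := by positivity
  -- the two groups
  obtain ⟨G, hG1, hG2, hG3⟩ := exists_groups (fun s => ((P s).card : ℝ)) (β := α * y)
    (by positivity) 2 F (fun s _ => by positivity)
    (fun s hs => (hPs s hs).trans (mul_le_mul_of_nonneg_right hθα hy0'.le))
    (by push_cast; nlinarith)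
  have hG0F := hG1 0 (by norm_num)
  have hG1F := hG1 1 (by norm_num)
  have hdis := hG2 0 (by norm_num) 1 (by norm_num) (by norm_num)
  obtain ⟨hA0, hA0'⟩ := hG3 0 (by norm_num)
  obtain ⟨hA1, hA1'⟩ := hG3 1 (by norm_num)
  generalize hg0 : G 0 = G0 at hG0F hdis hA0 hA0'
  generalize hg1 : G 1 = G1 at hG1F hdis hA1 hA1'
  clear hG1 hG2 hG3
  have hL0 : ((Lab P G0).card : ℝ) = ∑ s ∈ G0, ((P s).card : ℝ) := by
    rw [card_Lab]; push_cast; rfl
  have hL1 : ((Lab P G1).card : ℝ) = ∑ s ∈ G1, ((P s).card : ℝ) := by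
    rw [card_Lab]; push_cast; rfl
  -- collisions in the first group
  have hcol : Pr μ ε (Col P G0) ≤ 1 / 2 := by
    refine (Pr_Col hP P G0 hD0 (fun s hs => hwD s (hG0F hs))).trans ?_
    have h1 : ((Lab P G0).card : ℝ) ^ 2 ≤ (2 * (α * y)) ^ 2 := by
      rw [hL0]
      exact pow_le_pow_left₀ (by positivity) hA0' 2
    have h2 : (y : ℝ) ^ 2 ≤ X := by
      refine le_trans ?_ hX1r
      exact pow_le_pow_right₀ hy1 (by omega)
    calc ((Lab P G0).card : ℝ) ^ 2 * (B / D) ≤ (2 * (α * y)) ^ 2 * (B / D) :=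
          mul_le_mul_of_nonneg_right h1 hBD0
      _ = 4 * α ^ 2 * B * y ^ 2 / D := by ring
      _ ≤ 1 / 2 := by
          rw [div_le_iff₀ hD0, hD]
          have h3 : α ^ 2 ≤ α := by nlinarith
          have h4 : 4 * α ^ 2 * B ≤ δ / 2 := by nlinarith
          have h5 : 4 * α ^ 2 * B * (y : ℝ) ^ 2 ≤ δ / 2 * X :=
            mul_le_mul h4 h2 (by positivity) (by positivity)
          linarith
  have hncol : 1 / 2 ≤ Pr μ ε (fun x => ¬ Col P G0 x) := by
    rw [Pr_not hP (dep_Col P G0)]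
    linarith
  -- freezing
  have hfr := Pr_freeze hP hdis.symm (E := Lots P (G0 ∪ G1) (k + 1) K)
    (Y := fun x => ¬ Col P G0 x) (by rw [Finset.union_comm]; exact dep_Lots P (G0 ∪ G1) (k + 1) K)
    (dep_Col P G0).not hp10.le (by
    intro z hz hzc
    obtain ⟨Q, hQdef⟩ : ∃ Q : Finset ℕ, Q = (Lab P G0).image (fun q => q.2 + z q.1) := ⟨_, rfl⟩
    have hQcard : Q.card = (Lab P G0).card := by
      rw [hQdef]
      apply Finset.card_image_of_injOn
      rintro ⟨s, a⟩ hq ⟨s', a'⟩ hq' h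
      rw [Finset.mem_coe] at hq hq'
      unfold Lab at hq hq'
      rw [Finset.mem_sigma] at hq hq'
      have h' : a + z s = a' + z s' := h
      by_cases hss : s = s'
      · subst hss
        have : a = a' := by omega
        subst this
        rfl
      · exfalso
        exact hzc ⟨(⟨s, a⟩, ⟨s', a'⟩), mem_LP.2 ⟨⟨hq, hq'⟩, hss⟩, h'⟩
    have hQset : (Q : Set ℕ) = PImg P G0 z := by
      ext v
      rw [hQdef, Finset.mem_coe, Finset.mem_image]
      constructor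
      · rintro ⟨⟨s, a⟩, hq, rfl⟩
        unfold Lab at hq
        rw [Finset.mem_sigma] at hq
        exact ⟨s, hq.1, a, hq.2, rfl⟩
      · rintro ⟨s, hs, a, ha, rfl⟩
        exact ⟨⟨s, a⟩, Finset.mem_sigma.2 ⟨hs, ha⟩, rfl⟩
    have hQr : (Q.card : ℝ) = ∑ s ∈ G0, ((P s).card : ℝ) := by rw [hQcard, hL0]
    have hQlow : α * y ≤ (Q.card : ℝ) := by rw [hQr]; exact hA0
    have hQup : (Q.card : ℝ) ≤ 2 * y := by
      rw [hQr]
      refine hA0'.trans ?_
      nlinarith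
    have hQne : Q.Nonempty := by
      rw [← Finset.card_pos]
      have : (0 : ℝ) < Q.card := lt_of_lt_of_le (by positivity) hQlow
      exact_mod_cast this
    have hQmem : ∀ v ∈ Q, v ≤ (2 + C') * X := by
      intro v hv
      rw [hQdef, Finset.mem_image] at hv
      obtain ⟨⟨s, a⟩, hq, rfl⟩ := hv
      unfold Lab at hq
      rw [Finset.mem_sigma] at hq
      have h1 := hPX s (hG0F hq.1) a hq.2
      have h2 := hwC s (hG0F hq.1)
      have h3 := hz s
      show a + z s ≤ _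
      nlinarith
    have hBsup : ∀ b ∈ Bs Q k, b ≤ k * ((2 + C') * X) := by
      intro b hb
      unfold Bs at hb
      rw [Finset.mem_image] at hb
      obtain ⟨t, ht, rfl⟩ := hb
      rw [Fintype.mem_piFinset] at ht
      calc ∑ i, t i ≤ ∑ _i : Fin k, (2 + C') * X := Finset.sum_le_sum fun i _ => hQmem _ (ht i)
        _ = k * ((2 + C') * X) := by simp
    have hBsr : ((Bs Q k).card : ℝ) ≤ (2 * y) ^ k := by
      have h1 : ((Bs Q k).card : ℝ) ≤ (Q.card : ℝ) ^ k := by exact_mod_cast card_Bs_le Q k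
      exact h1.trans (pow_le_pow_left₀ (by positivity) hQup k)
    rw [hp1, hm]
    apply frozen hP P hdis z hβ0 hβ1 hD0 (fun s hs => hwD s (hG1F hs)) (C1 * X)
      (Nat.mul_pos (by exact_mod_cast hC10) hX0') Q hQset hQne
    · intro s hs b hb a ha
      have h1 := hBsup b hb
      have h2 := hPX s (hG1F hs) a ha
      have h3 := hwC s (hG1F hs)
      have h4 : C1 * X = k * ((2 + C') * X) + 2 * X + C' * X + X := by rw [hC1]; ring
      omega
    · intro hb1 hb2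
      have hb1r : (Q.card : ℝ) ^ k ≤ (k : ℝ) ^ k * K * (Bs Q k).card := by exact_mod_cast hb1
      have hb2r : ∀ s ∈ G1, ((Bs Q k).card : ℝ) * (P s).card ≤
          (k + 1) * K * (Su (Bs Q k) (P s)).card := fun s hs => by exact_mod_cast hb2 s hs
      have h1 : ((Bs Q k).card : ℝ) * ∑ s ∈ G1, ((P s).card : ℝ) ≤
          (k + 1) * K * ∑ s ∈ G1, ((Su (Bs Q k) (P s)).card : ℝ) := by
        rw [Finset.mul_sum, Finset.mul_sum]
        exact Finset.sum_le_sum hb2r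
      have h2 : (α * y) ^ k ≤ (k : ℝ) ^ k * K * (Bs Q k).card :=
        (pow_le_pow_left₀ (by positivity) hQlow k).trans hb1r
      have h3 : (α * y) ^ (k + 1) ≤ ((k : ℝ) ^ k * K) * ((k + 1) * K) *
          ∑ s ∈ G1, ((Su (Bs Q k) (P s)).card : ℝ) := by
        calc (α * y) ^ (k + 1) = (α * y) ^ k * (α * y) := by ring
          _ ≤ ((k : ℝ) ^ k * K * (Bs Q k).card) * ∑ s ∈ G1, ((P s).card : ℝ) :=
              mul_le_mul h2 hA1 (by positivity) (by positivity)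
          _ = ((k : ℝ) ^ k * K) * (((Bs Q k).card : ℝ) * ∑ s ∈ G1, ((P s).card : ℝ)) := by ring
          _ ≤ ((k : ℝ) ^ k * K) * ((k + 1) * K * ∑ s ∈ G1, ((Su (Bs Q k) (P s)).card : ℝ)) :=
              mul_le_mul_of_nonneg_left h1 (by positivity)
          _ = _ := by ring
      rw [← hm]
      refine hβl.trans ?_
      rw [hlam, hden, div_le_div_iff₀ (by positivity) (by push_cast; positivity)]
      push_cast
      have h4 : (X : ℝ) ≤ 2 ^ (k + 1) * y ^ (k + 1) := by rw [← mul_pow]; exact hX2r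
      have h5 : 0 ≤ ∑ s ∈ G1, ((Su (Bs Q k) (P s)).card : ℝ) :=
        Finset.sum_nonneg fun s _ => by positivity
      calc α ^ (k + 1) * ((C1 : ℝ) * X) ≤ α ^ (k + 1) * (C1 * (2 ^ (k + 1) * y ^ (k + 1))) := by
            apply mul_le_mul_of_nonneg_left _ (by positivity)
            exact mul_le_mul_of_nonneg_left h4 hC10.le
        _ = (α * y) ^ (k + 1) * (C1 * 2 ^ (k + 1)) := by rw [mul_pow]; ring
        _ ≤ (((k : ℝ) ^ k * K) * ((k + 1) * K) *
          ∑ s ∈ G1, ((Su (Bs Q k) (P s)).card : ℝ)) * (C1 * 2 ^ (k + 1)) :=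
              mul_le_mul_of_nonneg_right h3 (by positivity)
        _ = _ := by ring
    · intro s hs
      push_cast
      calc ((Bs Q k).card : ℝ) * (P s).card * (B / D)
          ≤ ((2 * y) ^ k * (θ * y)) * (B / (δ * y ^ (k + 1))) := by
            apply mul_le_mul _ hBD hBD0 (by positivity)
            exact mul_le_mul hBsr (hPs s (hG1F hs)) (by positivity) (by positivity)
        _ = θ * (2 ^ k * B) / δ := by
            field_simp
            ring
        _ ≤ β := by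
            rw [div_le_iff₀ hδ]
            exact hθβ
    · rw [hL1]
      have h1 : (∑ s ∈ G1, ((P s).card : ℝ)) ^ 2 ≤ (2 * y) ^ 2 := by
        apply pow_le_pow_left₀ (Finset.sum_nonneg fun s _ => by positivity)
        refine hA1'.trans ?_
        nlinarith
      calc (∑ s ∈ G1, ((P s).card : ℝ)) ^ 2 * (((Bs Q k).card : ℝ) * (B / D) * (B / D))
          ≤ (2 * y) ^ 2 * ((2 * y) ^ k * (B / (δ * y ^ (k + 1))) * (B / (δ * y ^ (k + 1)))) := by
            apply mul_le_mul h1 _ (by positivity) (by positivity)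
            apply mul_le_mul _ hBD hBD0 (by positivity)
            exact mul_le_mul hBsr hBD hBD0 (by positivity)
        _ = 2 ^ (k + 2) * (B / δ) ^ 2 / y ^ k := by
            field_simp
            ring
        _ ≤ 2 ^ (k + 2) * (B / δ) ^ 2 / y := by
            apply div_le_div_of_nonneg_left (by positivity) hy0'
            calc (y : ℝ) = y ^ 1 := (pow_one _).symm
              _ ≤ y ^ k := pow_le_pow_right₀ hy1 hk
        _ ≤ (β / 2) ^ ((k + 1) * K) / 2 := by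
            rw [← hm, ← hp1, div_le_iff₀ hy0']
            exact hy2)
  have h1 : p1 / 2 ≤ Pr μ ε (Lots P (G0 ∪ G1) (k + 1) K) := by
    refine le_trans ?_ hfr
    calc p1 / 2 = p1 * (1 / 2) := by ring
      _ ≤ _ := mul_le_mul_of_nonneg_left hncol hp10.le
  refine h1.trans (Pr_mono hP fun x _ hx => Lots_mono ?_ hx)
  exact Finset.union_subset hG0F hG1F

end Pool.Agent.Q152.RigidPieces
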