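import Mathlib

/-!
# Sampling

Let `hit m` be subsets of a finite set `X`, for `m` in a finite set `M`, such that for every subset
`A` of `X` which is not too small all but few `m` hit a proportion of at least `δ` of `A`. Then for
most tuples `v` of elements of `M` most elements of `X` are hit by many members of the tuple.
-/

set_option autoImplicit false

namespace Pool.Agent.Q152.Sampling

open Finset Classical

/-- The number of the members of the tuple which hit `a`. -/
noncomputable def cnt (hit : ℕ → ℕ → Prop) (r : ℕ) (v : Fin r → ℕ) (a : ℕ) : ℕ :=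
  ((univ : Finset (Fin r)).filter fun i => hit (v i) a).card

/-- The potential. -/
noncomputable def Phi (hit : ℕ → ℕ → Prop) (X : Finset ℕ) (β : ℝ) (r : ℕ) (v : Fin r → ℕ) : ℝ :=
  ∑ a ∈ X, β ^ cnt hit r v a

theorem cnt_le (hit : ℕ → ℕ → Prop) (r : ℕ) (v : Fin r → ℕ) (a : ℕ) : cnt hit r v a ≤ r := by
  refine (card_filter_le _ _).trans ?_
  simp

theorem cnt_succ (hit : ℕ → ℕ → Prop) (r : ℕ) (v : Fin (r + 1) → ℕ) (a : ℕ) :
    cnt hit (r + 1) v a = (if hit (v 0) a then 1 else 0) + cnt hit r (fun i => v i.succ) a := by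
  unfold cnt
  rw [card_filter, card_filter, Fin.sum_univ_succ]

section

variable {hit : ℕ → ℕ → Prop} {X : Finset ℕ} {δ τ : ℝ}

/-- The member `m` is bad for the set `A`. -/
def BadFor (hit : ℕ → ℕ → Prop) (δ : ℝ) (A : Finset ℕ) (m : ℕ) : Prop :=
  ((A.filter fun a => hit m a).card : ℝ) < δ * A.card

theorem step (_hδ0 : 0 ≤ δ) (hδ1 : δ ≤ 1) (hτ : 0 ≤ τ) {β : ℝ} (hβ0 : 0 ≤ β) (hβ1 : β ≤ 1) (r : ℕ)
    (v : Fin (r + 1) → ℕ)
    (hgood : ∀ j ≤ r, τ ≤ (X.filter fun a => cnt hit r (fun i => v i.succ) a = j).card →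
      ¬ BadFor hit δ (X.filter fun a => cnt hit r (fun i => v i.succ) a = j) (v 0)) :
    Phi hit X β (r + 1) v ≤ (1 - (1 - β) * δ) * Phi hit X β r (fun i => v i.succ) +
      (r + 1) * τ := by
  obtain ⟨c, hc⟩ : ∃ c : ℕ → ℕ, c = cnt hit r (fun i => v i.succ) := ⟨_, rfl⟩
  rw [← hc] at hgood
  have h1 : Phi hit X β (r + 1) v = ∑ a ∈ X, β ^ c a -
      (1 - β) * ∑ a ∈ X.filter (fun a => hit (v 0) a), β ^ c a := by
    unfold Phi
    rw [sum_filter, mul_sum, ← sum_sub_distrib]
    apply sum_congr rfl
    intro a _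
    rw [cnt_succ, ← hc]
    split_ifs <;> ring
  have h2 : Phi hit X β r (fun i => v i.succ) = ∑ a ∈ X, β ^ c a := by
    unfold Phi
    rw [hc]
  have hmaps : ∀ Y : Finset ℕ, ∑ a ∈ Y, β ^ c a =
      ∑ j ∈ range (r + 1), β ^ j * ((Y.filter fun a => c a = j).card : ℝ) := by
    intro Y
    rw [← sum_fiberwise_of_maps_to (s := Y) (t := range (r + 1)) (g := c)]
    · apply sum_congr rfl
      intro j _
      rw [mul_comm, ← nsmul_eq_mul, ← sum_const]
      apply sum_congr rfl
      intro a ha
      rw [(mem_filter.1 ha).2]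
    · intro a _
      rw [hc, mem_range]
      exact Nat.lt_succ_of_le (cnt_le _ _ _ _)
  have h3 : δ * ∑ a ∈ X, β ^ c a - (r + 1) * τ ≤
      ∑ a ∈ X.filter (fun a => hit (v 0) a), β ^ c a := by
    rw [hmaps X, hmaps (X.filter _), mul_sum]
    have h4 : ((r : ℝ) + 1) * τ = ∑ _j ∈ range (r + 1), τ := by
      rw [sum_const, card_range, nsmul_eq_mul]
      push_cast
      ring
    rw [h4, ← sum_sub_distrib]
    apply sum_le_sum
    intro j hj
    rw [mem_range] at hj
    have hb0 : 0 ≤ β ^ j := pow_nonneg hβ0 j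
    have hb1 : β ^ j ≤ 1 := pow_le_one₀ hβ0 hβ1
    rw [filter_filter]
    have h5 : (X.filter fun a => hit (v 0) a ∧ c a = j) =
        (X.filter fun a => c a = j).filter fun a => hit (v 0) a := by
      rw [filter_filter]
      congr 1
      funext a
      exact propext and_comm
    rw [h5]
    by_cases hL : τ ≤ (X.filter fun a => c a = j).card
    · have h6 := hgood j (by omega) hL
      unfold BadFor at h6
      rw [not_lt] at h6
      nlinarith
    · rw [not_le] at hL
      have h7 : (0 : ℝ) ≤ (((X.filter fun a => c a = j).filter fun a => hit (v 0) a).card : ℝ) :=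
        Nat.cast_nonneg _
      have h8 : (0 : ℝ) ≤ ((X.filter fun a => c a = j).card : ℝ) := Nat.cast_nonneg _
      have h9 : δ * (β ^ j * ((X.filter fun a => c a = j).card : ℝ)) ≤ τ := by
        calc δ * (β ^ j * ((X.filter fun a => c a = j).card : ℝ))
            ≤ 1 * (1 * ((X.filter fun a => c a = j).card : ℝ)) := by gcongr
          _ ≤ τ := by linarith
      nlinarith [mul_nonneg hb0 h7]
  rw [h1, h2]
  nlinarith [mul_le_mul_of_nonneg_left h3 (sub_nonneg.2 hβ1), mul_nonneg (add_nonneg (Nat.cast_nonneg r) zero_le_one) hτ]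

/-- The tuples with a large potential. -/
noncomputable def Bad (hit : ℕ → ℕ → Prop) (ok : ℕ → Prop) (X M : Finset ℕ) (δ τ β : ℝ) (r : ℕ) :
    Finset (Fin r → ℕ) :=
  (Fintype.piFinset fun _ : Fin r => M).filter fun v => (∀ i, ok (v i)) ∧
    (1 - (1 - β) * δ) ^ r * X.card + r * (r + 1) * τ < Phi hit X β r v

theorem bad_card {ok : ℕ → Prop} {M : Finset ℕ} {η : ℝ} (hδ0 : 0 ≤ δ) (hδ1 : δ ≤ 1) (hτ : 0 ≤ τ)
    (hη : 0 ≤ η) {β : ℝ} (hβ0 : 0 ≤ β) (hβ1 : β ≤ 1)
    (H : ∀ A ⊆ X, τ ≤ (A.card : ℝ) →
      ((M.filter fun m => ok m ∧ BadFor hit δ A m).card : ℝ) ≤ η * M.card) (r : ℕ) :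
    ((Bad hit ok X M δ τ β r).card : ℝ) ≤ r * (r + 1) * η * (M.card : ℝ) ^ r := by
  have hρ0 : 0 ≤ 1 - (1 - β) * δ := by nlinarith
  have hρ1 : 1 - (1 - β) * δ ≤ 1 := by nlinarith
  induction r with
  | zero =>
    have : Bad hit ok X M δ τ β 0 = ∅ := by
      apply filter_eq_empty_iff.2
      rintro v _ ⟨_, h⟩
      unfold Phi cnt at h
      simp at h
    rw [this]
    simp
  | succ r ih =>
    have hsub : (Bad hit ok X M δ τ β (r + 1)).card ≤
        ((M ×ˢ Bad hit ok X M δ τ β r) ∪
          (Fintype.piFinset fun _ : Fin r => M).biUnion fun w =>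
            (range (r + 1)).biUnion fun j =>
              if τ ≤ ((X.filter fun a => cnt hit r w a = j).card : ℝ) then
                ((M.filter fun m => ok m ∧
                  BadFor hit δ (X.filter fun a => cnt hit r w a = j) m) ×ˢ {w}) else ∅).card := by
      apply card_le_card_of_injOn fun v => (v 0, fun i : Fin r => v i.succ)
      · intro v hv
        rw [mem_coe, Bad, mem_filter, Fintype.mem_piFinset] at hv
        obtain ⟨hv1, hv2, hv3⟩ := hv
        rw [mem_coe, mem_union]
        by_cases h : (fun i : Fin r => v i.succ) ∈ Bad hit ok X M δ τ β r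
        · exact Or.inl (mem_product.2 ⟨hv1 0, h⟩)
        · right
          rw [Bad, mem_filter, Fintype.mem_piFinset] at h
          have h1 : Phi hit X β r (fun i => v i.succ) ≤
              (1 - (1 - β) * δ) ^ r * X.card + r * (r + 1) * τ := by
            by_contra hc
            exact h ⟨fun i => hv1 _, fun i => hv2 _, not_le.1 hc⟩
          have h2 : ¬ ∀ j ≤ r, τ ≤ (X.filter fun a => cnt hit r (fun i => v i.succ) a = j).card →
              ¬ BadFor hit δ (X.filter fun a => cnt hit r (fun i => v i.succ) a = j) (v 0) := by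
            intro hg
            have h3 := step hδ0 hδ1 hτ hβ0 hβ1 r v hg
            have h4 := mul_le_mul_of_nonneg_left h1 hρ0
            have h5 : (1 - (1 - β) * δ) * ((1 - (1 - β) * δ) ^ r * X.card + r * (r + 1) * τ) ≤
                (1 - (1 - β) * δ) ^ (r + 1) * X.card + r * (r + 1) * τ := by
              have h6 : 0 ≤ (r : ℝ) * (r + 1) * τ := by positivity
              nlinarith [pow_succ (1 - (1 - β) * δ) r]
            push_cast at hv3
            nlinarith
          push Not at h2
          obtain ⟨j, hj, hj1, hj2⟩ := h2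
          refine mem_biUnion.2 ⟨fun i => v i.succ, Fintype.mem_piFinset.2 fun i => hv1 _,
            mem_biUnion.2 ⟨j, mem_range.2 (by omega), ?_⟩⟩
          rw [if_pos hj1]
          exact mem_product.2 ⟨mem_filter.2 ⟨hv1 0, hv2 0, hj2⟩, mem_singleton_self _⟩
      · intro v _ w _ h
        rw [Prod.mk.injEq] at h
        funext i
        refine Fin.cases h.1 (fun i => ?_) i
        exact congrFun h.2 i
    have hbi : (((Fintype.piFinset fun _ : Fin r => M).biUnion fun w =>
            (range (r + 1)).biUnion fun j =>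
              if τ ≤ ((X.filter fun a => cnt hit r w a = j).card : ℝ) then
                ((M.filter fun m => ok m ∧
                  BadFor hit δ (X.filter fun a => cnt hit r w a = j) m) ×ˢ {w})
              else (∅ : Finset (ℕ × (Fin r → ℕ)))).card : ℝ) ≤
        (M.card : ℝ) ^ r * ((r + 1) * (η * M.card)) := by
      have h1 : (((Fintype.piFinset fun _ : Fin r => M).biUnion fun w =>
            (range (r + 1)).biUnion fun j =>
              if τ ≤ ((X.filter fun a => cnt hit r w a = j).card : ℝ) then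
                ((M.filter fun m => ok m ∧
                  BadFor hit δ (X.filter fun a => cnt hit r w a = j) m) ×ˢ {w})
              else (∅ : Finset (ℕ × (Fin r → ℕ)))).card : ℝ) ≤
          ∑ w ∈ (Fintype.piFinset fun _ : Fin r => M), ∑ j ∈ range (r + 1), η * (M.card : ℝ) := by
        refine (Nat.cast_le.2 card_biUnion_le).trans ?_
        rw [Nat.cast_sum]
        apply sum_le_sum
        intro w _
        refine (Nat.cast_le.2 card_biUnion_le).trans ?_
        rw [Nat.cast_sum]
        apply sum_le_sum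
        intro j _
        split_ifs with h
        · rw [card_product, card_singleton, mul_one]
          exact H _ (filter_subset _ _) h
        · rw [card_empty, Nat.cast_zero]
          positivity
      refine h1.trans (le_of_eq ?_)
      rw [sum_const, sum_const, card_range, Fintype.card_piFinset_const, nsmul_eq_mul,
        nsmul_eq_mul]
      push_cast
      ring
    calc ((Bad hit ok X M δ τ β (r + 1)).card : ℝ)
        ≤ ((M ×ˢ Bad hit ok X M δ τ β r).card : ℝ) + (M.card : ℝ) ^ r * ((r + 1) * (η * M.card)) := by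
          refine (Nat.cast_le.2 (hsub.trans (card_union_le _ _))).trans ?_
          rw [Nat.cast_add]
          exact add_le_add le_rfl hbi
      _ ≤ (M.card : ℝ) * (r * (r + 1) * η * (M.card : ℝ) ^ r) +
          (M.card : ℝ) ^ r * ((r + 1) * (η * M.card)) := by
          rw [card_product, Nat.cast_mul]
          gcongr
      _ = (r + 1) ^ 2 * η * (M.card : ℝ) ^ (r + 1) := by ring
      _ ≤ ((r + 1 : ℕ) : ℝ) * ((r + 1 : ℕ) + 1) * η * (M.card : ℝ) ^ (r + 1) := by
          push_cast
          have h1 : (0 : ℝ) ≤ η * (M.card : ℝ) ^ (r + 1) := by positivity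
          nlinarith [Nat.cast_nonneg (α := ℝ) r]

end

end Pool.Agent.Q152.Sampling
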