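import Mathlib

/-!
# Sampling: a law of large numbers

Let `F m` be bounded nonnegative functions on a finite set `X`, for `m` in a finite set `M`, such that
for every subset `A` of `X` which is not too small the mean of `F m` over `A` is nearly one for all
but few `m`. Then for most tuples `v` of elements of `M` the mean of the `F (v i)` is nearly one at most
points of `X`.
-/

set_option autoImplicit false

namespace Pool.Agent.Q152.SamplingMean

open Finset Classical

/-- `m` is bad for the set `A`. -/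
def BadFor (F : ℕ → ℕ → ℝ) (ε : ℝ) (A : Finset ℕ) (m : ℕ) : Prop :=
  ε * A.card < |∑ a ∈ A, F m a - A.card|

section weights

variable {X : Finset ℕ} {w f : ℕ → ℝ} {W C₁ ε τ : ℝ} {L : ℕ}

/-- The level sets of the weight. -/
noncomputable def lev (X : Finset ℕ) (w : ℕ → ℝ) (W : ℝ) (L k : ℕ) : Finset ℕ :=
  X.filter fun a => ((k : ℝ) + 1) * W ≤ w a * L

/-- The number of levels below. -/
noncomputable def nl (w : ℕ → ℝ) (W : ℝ) (L : ℕ) (a : ℕ) : ℕ :=
  ((range L).filter fun k : ℕ => ((k : ℝ) + 1) * W ≤ w a * L).card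

theorem nl_bounds (hW : 0 < W) {a : ℕ} (h0 : 0 ≤ w a) (h1 : w a ≤ W) :
    (nl w W L a : ℝ) * W ≤ w a * L ∧ w a * L ≤ (nl w W L a : ℝ) * W + W := by
  have hq0 : 0 ≤ w a * L / W := by positivity
  have hnl : nl w W L a = ⌊w a * L / W⌋₊ := by
    have h2 : (range L).filter (fun k : ℕ => ((k : ℝ) + 1) * W ≤ w a * L) =
        range ⌊w a * L / W⌋₊ := by
      ext k
      rw [mem_filter, mem_range, mem_range]
      constructor
      · rintro ⟨_, h⟩
        rw [← Nat.succ_le_iff, Nat.le_floor_iff hq0, le_div_iff₀ hW]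
        push_cast
        exact h
      · intro h
        rw [← Nat.succ_le_iff, Nat.le_floor_iff hq0, le_div_iff₀ hW] at h
        push_cast at h
        refine ⟨?_, h⟩
        have h3 : ((k : ℝ) + 1) * W ≤ L * W := by nlinarith [Nat.cast_nonneg (α := ℝ) L]
        have h4 : (k : ℝ) + 1 ≤ L := le_of_mul_le_mul_right h3 hW
        exact_mod_cast h4
    unfold nl
    rw [h2, card_range]
  rw [hnl]
  have h5 := Nat.floor_le hq0
  have h6 := Nat.lt_floor_add_one (w a * L / W)
  rw [le_div_iff₀ hW] at h5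
  rw [div_lt_iff₀ hW] at h6
  exact ⟨h5, by linarith⟩

theorem sum_lev (g : ℕ → ℝ) :
    ∑ k ∈ range L, ∑ a ∈ lev X w W L k, g a = ∑ a ∈ X, (nl w W L a : ℝ) * g a := by
  unfold lev nl
  simp_rw [sum_filter]
  rw [sum_comm]
  apply sum_congr rfl
  intro a _
  rw [← sum_filter, sum_const, nsmul_eq_mul]

theorem weight (hW : 0 < W) (hL : 0 < L) (hC : 1 ≤ C₁) (hε : 0 ≤ ε) (hτ : 0 ≤ τ)
    (hw : ∀ a ∈ X, 0 ≤ w a ∧ w a ≤ W) (hf : ∀ a ∈ X, 0 ≤ f a ∧ f a ≤ C₁)
    (hgood : ∀ k < L, τ ≤ (lev X w W L k).card →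
      |∑ a ∈ lev X w W L k, f a - (lev X w W L k).card| ≤ ε * (lev X w W L k).card) :
    |∑ a ∈ X, w a * f a - ∑ a ∈ X, w a| ≤
      ε * ∑ a ∈ X, w a + W * C₁ * (τ + 2 * X.card / L) := by
  have hL0 : (0 : ℝ) < L := by exact_mod_cast hL
  -- every level set
  have hlev : ∀ k < L, |∑ a ∈ lev X w W L k, f a - (lev X w W L k).card| ≤
      ε * (lev X w W L k).card + C₁ * τ := by
    intro k hk
    by_cases h : τ ≤ (lev X w W L k).card
    · have := hgood k hk h
      have h2 : 0 ≤ C₁ * τ := by positivity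
      linarith
    · rw [not_le] at h
      have h1 : 0 ≤ ∑ a ∈ lev X w W L k, f a :=
        sum_nonneg fun a ha => (hf a (mem_filter.1 ha).1).1
      have h2 : ∑ a ∈ lev X w W L k, f a ≤ C₁ * (lev X w W L k).card := by
        calc ∑ a ∈ lev X w W L k, f a ≤ ∑ _a ∈ lev X w W L k, C₁ :=
              sum_le_sum fun a ha => (hf a (mem_filter.1 ha).1).2
          _ = C₁ * (lev X w W L k).card := by rw [sum_const, nsmul_eq_mul, mul_comm]
      have h3 : (0 : ℝ) ≤ (lev X w W L k).card := Nat.cast_nonneg _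
      rw [abs_le]
      constructor <;> nlinarith
  -- approximation by the levels
  have happ : ∀ g : ℕ → ℝ, (∀ a ∈ X, 0 ≤ g a ∧ g a ≤ C₁) →
      |(∑ a ∈ X, w a * g a) * L - W * ∑ k ∈ range L, ∑ a ∈ lev X w W L k, g a| ≤
        W * (C₁ * X.card) := by
    intro g hg
    rw [sum_lev, sum_mul, mul_sum, ← sum_sub_distrib]
    refine (abs_sum_le_sum_abs _ _).trans ?_
    calc ∑ a ∈ X, |w a * g a * L - W * ((nl w W L a : ℝ) * g a)| ≤ ∑ _a ∈ X, W * C₁ := by
          apply sum_le_sum
          intro a ha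
          obtain ⟨h1, h2⟩ := nl_bounds (L := L) hW (hw a ha).1 (hw a ha).2
          obtain ⟨h3, h4⟩ := hg a ha
          rw [show w a * g a * L - W * ((nl w W L a : ℝ) * g a) =
            (w a * L - (nl w W L a : ℝ) * W) * g a by ring, abs_mul, abs_of_nonneg h3,
            abs_of_nonneg (by linarith)]
          apply mul_le_mul (by linarith) h4 h3 hW.le
      _ = W * (C₁ * X.card) := by rw [sum_const, nsmul_eq_mul]; ring
  have h1 := happ f hf
  have h2 := happ (fun _ => 1) fun a _ => ⟨zero_le_one, hC⟩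
  simp only [mul_one] at h2
  have h3 : |W * ∑ k ∈ range L, ∑ a ∈ lev X w W L k, f a -
      W * ∑ k ∈ range L, ∑ _a ∈ lev X w W L k, (1 : ℝ)| ≤
      W * (ε * ∑ k ∈ range L, ∑ _a ∈ lev X w W L k, (1 : ℝ) + L * (C₁ * τ)) := by
    rw [← mul_sub, abs_mul, abs_of_pos hW]
    apply mul_le_mul_of_nonneg_left _ hW.le
    rw [← sum_sub_distrib]
    refine (abs_sum_le_sum_abs _ _).trans ?_
    calc ∑ k ∈ range L, |∑ a ∈ lev X w W L k, f a - ∑ _a ∈ lev X w W L k, (1 : ℝ)|
        ≤ ∑ k ∈ range L, (ε * ∑ _a ∈ lev X w W L k, (1 : ℝ) + C₁ * τ) := by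
          apply sum_le_sum
          intro k hk
          have := hlev k (mem_range.1 hk)
          rw [sum_const, nsmul_eq_mul, mul_one]
          exact this
      _ = _ := by
          rw [sum_add_distrib, ← mul_sum, sum_const, card_range, nsmul_eq_mul]
  have h4 : W * ∑ k ∈ range L, ∑ _a ∈ lev X w W L k, (1 : ℝ) ≤ (∑ a ∈ X, w a) * L := by
    rw [sum_lev, mul_sum, sum_mul]
    apply sum_le_sum
    intro a ha
    have := (nl_bounds (L := L) hW (hw a ha).1 (hw a ha).2).1
    linarith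
  have h5 : |∑ a ∈ X, w a * f a - ∑ a ∈ X, w a| * L ≤
      (ε * ∑ a ∈ X, w a + W * C₁ * (τ + 2 * X.card / L)) * L := by
    have e1 : |∑ a ∈ X, w a * f a - ∑ a ∈ X, w a| * L =
        |(∑ a ∈ X, w a * f a) * L - (∑ a ∈ X, w a) * L| := by
      rw [← sub_mul, abs_mul, abs_of_pos hL0]
    have e2 : (ε * ∑ a ∈ X, w a + W * C₁ * (τ + 2 * X.card / L)) * L =
        ε * ((∑ a ∈ X, w a) * L) + W * (L * (C₁ * τ)) + 2 * (W * (C₁ * X.card)) := by
      field_simp
      ring
    rw [e1, e2]
    rw [abs_le] at h1 h2 h3 ⊢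
    have h6 := mul_le_mul_of_nonneg_left h4 hε
    constructor <;> nlinarith
  exact le_of_mul_le_mul_right h5 hL0

end weights

/-- The sum over the tuple. -/
noncomputable def S (F : ℕ → ℕ → ℝ) (r : ℕ) (v : Fin r → ℕ) (a : ℕ) : ℝ := ∑ i, F (v i) a

/-- The potential. -/
noncomputable def Phi (F : ℕ → ℕ → ℝ) (X : Finset ℕ) (l : ℝ) (r : ℕ) (v : Fin r → ℕ) : ℝ :=
  ∑ a ∈ X, Real.exp (l * S F r v a)

section steps

variable {F : ℕ → ℕ → ℝ} {X : Finset ℕ} {C₁ ε τ W l lam : ℝ} {L : ℕ}

theorem exp_bound {x : ℝ} (hx : |x| ≤ 1) : Real.exp x ≤ 1 + x + x ^ 2 := by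
  have h := Real.abs_exp_sub_one_sub_id_le hx
  rw [abs_le] at h
  linarith [h.2]

theorem step (hW : 0 < W) (hL : 0 < L) (hC : 1 ≤ C₁) (hε : 0 ≤ ε) (hτ : 0 ≤ τ) (r : ℕ)
    (v : Fin (r + 1) → ℕ) (hl : |l| = lam) (hlam : lam * C₁ ≤ 1) (hlam0 : 0 ≤ lam)
    (hF : ∀ a ∈ X, 0 ≤ F (v 0) a ∧ F (v 0) a ≤ C₁)
    (hw : ∀ a ∈ X, Real.exp (l * S F r (fun i => v i.succ) a) ≤ W)
    (hgood : ∀ k < L, τ ≤ (lev X (fun a => Real.exp (l * S F r (fun i => v i.succ) a)) W L k).card →
      ¬ BadFor F ε (lev X (fun a => Real.exp (l * S F r (fun i => v i.succ) a)) W L k) (v 0)) :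
    Phi F X l (r + 1) v ≤
      Real.exp (l + lam * ε + lam ^ 2 * C₁ ^ 2) * Phi F X l r (fun i => v i.succ) +
        lam * (W * C₁ * (τ + 2 * X.card / L)) := by
  obtain ⟨w, hw0⟩ : ∃ w : ℕ → ℝ, w = fun a => Real.exp (l * S F r (fun i => v i.succ) a) := ⟨_, rfl⟩
  have hwt := weight (X := X) (w := w) (f := F (v 0)) hW hL hC hε hτ
    (fun a ha => by rw [hw0]; exact ⟨(Real.exp_pos _).le, hw a ha⟩) hF
    (fun k hk hk2 => by
      rw [hw0] at hk2 ⊢
      exact not_lt.1 (hgood k hk hk2))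
  have h1 : Phi F X l (r + 1) v = ∑ a ∈ X, w a * Real.exp (l * F (v 0) a) := by
    unfold Phi
    apply sum_congr rfl
    intro a _
    rw [hw0]
    simp only
    rw [← Real.exp_add]
    congr 1
    unfold S
    rw [Fin.sum_univ_succ]
    ring
  have h2 : Phi F X l r (fun i => v i.succ) = ∑ a ∈ X, w a := by
    unfold Phi
    rw [hw0]
  have hwn : ∀ a, 0 ≤ w a := fun a => by rw [hw0]; exact (Real.exp_pos _).le
  have h3 : ∑ a ∈ X, w a * Real.exp (l * F (v 0) a) ≤
      ∑ a ∈ X, w a * (1 + l * F (v 0) a + lam ^ 2 * C₁ ^ 2) := by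
    apply sum_le_sum
    intro a ha
    apply mul_le_mul_of_nonneg_left _ (hwn a)
    obtain ⟨h4, h5⟩ := hF a ha
    have h6 : |l * F (v 0) a| ≤ lam * C₁ := by
      rw [abs_mul, hl, abs_of_nonneg h4]
      gcongr
    refine (exp_bound (h6.trans hlam)).trans ?_
    have h7 : (l * F (v 0) a) ^ 2 ≤ (lam * C₁) ^ 2 := by
      rw [← sq_abs]
      gcongr
    nlinarith
  have h8 : ∑ a ∈ X, w a * (1 + l * F (v 0) a + lam ^ 2 * C₁ ^ 2) =
      (1 + l + lam ^ 2 * C₁ ^ 2) * ∑ a ∈ X, w a + l * (∑ a ∈ X, w a * F (v 0) a - ∑ a ∈ X, w a) := by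
    rw [mul_sub, mul_sum, mul_sum, mul_sum, ← sum_sub_distrib, ← sum_add_distrib]
    apply sum_congr rfl
    intro a _
    ring
  have h9 : l * (∑ a ∈ X, w a * F (v 0) a - ∑ a ∈ X, w a) ≤
      lam * (ε * ∑ a ∈ X, w a + W * C₁ * (τ + 2 * X.card / L)) := by
    refine (le_abs_self _).trans ?_
    rw [abs_mul, hl]
    exact mul_le_mul_of_nonneg_left hwt hlam0
  have h10 : 1 + l + lam ^ 2 * C₁ ^ 2 + lam * ε ≤ Real.exp (l + lam * ε + lam ^ 2 * C₁ ^ 2) := by
    have := Real.add_one_le_exp (l + lam * ε + lam ^ 2 * C₁ ^ 2)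
    linarith
  have h11 : 0 ≤ ∑ a ∈ X, w a := sum_nonneg fun a _ => hwn a
  rw [h1, h2]
  have h12 := mul_le_mul_of_nonneg_right h10 h11
  nlinarith

end steps

section count

variable {F : ℕ → ℕ → ℝ} {X M : Finset ℕ} {C₁ ε τ η lam : ℝ} {L : ℕ}

/-- The error of one step. -/
noncomputable def err (C₁ τ : ℝ) (n L r : ℕ) : ℝ := Real.exp r * C₁ * (τ + 2 * n / L)

/-- The tuples with a large potential. -/
noncomputable def Bad (F : ℕ → ℕ → ℝ) (ok : ℕ → Prop) (X M : Finset ℕ) (C₁ ε τ lam l : ℝ)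
    (L R r : ℕ) : Finset (Fin r → ℕ) :=
  (Fintype.piFinset fun _ : Fin r => M).filter fun v => (∀ i, ok (v i)) ∧
    Real.exp (l + lam * ε + lam ^ 2 * C₁ ^ 2) ^ r * X.card +
      r * Real.exp (lam + lam * ε + lam ^ 2 * C₁ ^ 2) ^ r * err C₁ τ X.card L R < Phi F X l r v

theorem S_bounds {r : ℕ} {v : Fin r → ℕ} {a : ℕ} (h : ∀ i, 0 ≤ F (v i) a ∧ F (v i) a ≤ C₁) :
    0 ≤ S F r v a ∧ S F r v a ≤ r * C₁ := by
  refine ⟨sum_nonneg fun i _ => (h i).1, ?_⟩
  calc S F r v a ≤ ∑ _i : Fin r, C₁ := sum_le_sum fun i _ => (h i).2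
    _ = r * C₁ := by rw [sum_const, card_univ, Fintype.card_fin, nsmul_eq_mul]

theorem bad_card {ok : ℕ → Prop} (hL : 0 < L) (hC : 1 ≤ C₁) (hε : 0 ≤ ε) (hτ : 0 ≤ τ) (hη : 0 ≤ η)
    (hlam : lam * C₁ ≤ 1) (hlam0 : 0 ≤ lam)
    (hF : ∀ m ∈ M, ok m → ∀ a ∈ X, 0 ≤ F m a ∧ F m a ≤ C₁)
    (H : ∀ A ⊆ X, τ ≤ (A.card : ℝ) →
      ((M.filter fun m => ok m ∧ BadFor F ε A m).card : ℝ) ≤ η * M.card) (l : ℝ) (hl : |l| = lam)
    (R r : ℕ) (hr : r ≤ R) :
    ((Bad F ok X M C₁ ε τ lam l L R r).card : ℝ) ≤ r * (L * η) * (M.card : ℝ) ^ r := by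
  have hE : 0 ≤ err C₁ τ X.card L R := by unfold err; positivity
  have hlam1 : lam ≤ 1 := by nlinarith
  induction r with
  | zero =>
    have : Bad F ok X M C₁ ε τ lam l L R 0 = ∅ := by
      apply filter_eq_empty_iff.2
      rintro v _ ⟨_, h⟩
      unfold Phi S at h
      simp at h
    rw [this]
    simp
  | succ r ih =>
    have ih' := ih (by omega)
    have hsub : (Bad F ok X M C₁ ε τ lam l L R (r + 1)).card ≤
        ((M ×ˢ Bad F ok X M C₁ ε τ lam l L R r) ∪
          (Fintype.piFinset fun _ : Fin r => M).biUnion fun w =>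
            (range L).biUnion fun k =>
              if τ ≤ ((lev X (fun a => Real.exp (l * S F r w a)) (Real.exp R) L k).card : ℝ) then
                ((M.filter fun m => ok m ∧
                  BadFor F ε (lev X (fun a => Real.exp (l * S F r w a)) (Real.exp R) L k) m) ×ˢ {w})
              else ∅).card := by
      apply card_le_card_of_injOn fun v => (v 0, fun i : Fin r => v i.succ)
      · intro v hv
        rw [mem_coe, Bad, mem_filter, Fintype.mem_piFinset] at hv
        obtain ⟨hv1, hv2, hv3⟩ := hv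
        rw [mem_coe, mem_union]
        by_cases h : (fun i : Fin r => v i.succ) ∈ Bad F ok X M C₁ ε τ lam l L R r
        · exact Or.inl (mem_product.2 ⟨hv1 0, h⟩)
        · right
          rw [Bad, mem_filter, Fintype.mem_piFinset] at h
          have h1 : Phi F X l r (fun i => v i.succ) ≤
              Real.exp (l + lam * ε + lam ^ 2 * C₁ ^ 2) ^ r * X.card +
                r * Real.exp (lam + lam * ε + lam ^ 2 * C₁ ^ 2) ^ r * err C₁ τ X.card L R := by
            by_contra hc
            exact h ⟨fun i => hv1 _, fun i => hv2 _, not_le.1 hc⟩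
          have h2 : ¬ ∀ k < L, τ ≤ (lev X (fun a => Real.exp (l * S F r (fun i => v i.succ) a))
              (Real.exp R) L k).card → ¬ BadFor F ε (lev X (fun a =>
                Real.exp (l * S F r (fun i => v i.succ) a)) (Real.exp R) L k) (v 0) := by
            intro hg
            have h3 := step (Real.exp_pos R) hL hC hε hτ r v hl hlam hlam0
              (hF (v 0) (hv1 0) (hv2 0)) (fun a ha => by
                apply Real.exp_le_exp.2
                have h4 := S_bounds (F := F) (C₁ := C₁) (v := fun i : Fin r => v i.succ) (a := a)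
                  fun i => hF _ (hv1 _) (hv2 _) a ha
                have h5 : l ≤ lam := by rw [← hl]; exact le_abs_self l
                have h6 : (r : ℝ) ≤ R := by exact_mod_cast (by omega : r ≤ R)
                calc l * S F r (fun i => v i.succ) a ≤ lam * S F r (fun i => v i.succ) a :=
                      mul_le_mul_of_nonneg_right h5 h4.1
                  _ ≤ lam * (r * C₁) := mul_le_mul_of_nonneg_left h4.2 hlam0
                  _ = r * (lam * C₁) := by ring
                  _ ≤ r * 1 := by gcongr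
                  _ ≤ R := by linarith) hg
            have hρ : Real.exp (l + lam * ε + lam ^ 2 * C₁ ^ 2) ≤
                Real.exp (lam + lam * ε + lam ^ 2 * C₁ ^ 2) := by
              apply Real.exp_le_exp.2
              have h5 : l ≤ lam := by rw [← hl]; exact le_abs_self l
              linarith
            have hρ1 : 1 ≤ Real.exp (lam + lam * ε + lam ^ 2 * C₁ ^ 2) :=
              Real.one_le_exp (by positivity)
            obtain ⟨ρ, hρ2⟩ : ∃ ρ, ρ = Real.exp (l + lam * ε + lam ^ 2 * C₁ ^ 2) := ⟨_, rfl⟩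
            obtain ⟨σ, hσ⟩ : ∃ σ, σ = Real.exp (lam + lam * ε + lam ^ 2 * C₁ ^ 2) := ⟨_, rfl⟩
            rw [← hρ2, ← hσ] at hρ hv3 h1
            rw [← hσ] at hρ1
            rw [← hρ2] at h3
            have hρ0 : 0 ≤ ρ := by rw [hρ2]; exact (Real.exp_pos _).le
            have hσr : 1 ≤ σ ^ r := one_le_pow₀ hρ1
            have h4 := mul_le_mul_of_nonneg_left h1 hρ0
            have h7 : lam * (Real.exp R * C₁ * (τ + 2 * X.card / L)) ≤
                σ ^ (r + 1) * err C₁ τ X.card L R := by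
              have h8 : Real.exp R * C₁ * (τ + 2 * X.card / L) = err C₁ τ X.card L R := rfl
              rw [h8]
              apply mul_le_mul_of_nonneg_right _ hE
              exact hlam1.trans (one_le_pow₀ hρ1)
            have h9 : ρ * (ρ ^ r * X.card + r * σ ^ r * err C₁ τ X.card L R) ≤
                ρ ^ (r + 1) * X.card + r * σ ^ (r + 1) * err C₁ τ X.card L R := by
              have h10 : 0 ≤ r * σ ^ r * err C₁ τ X.card L R := by positivity
              have h11 := mul_le_mul_of_nonneg_right hρ h10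
              rw [pow_succ, pow_succ]
              nlinarith
            push_cast at hv3
            nlinarith
          push Not at h2
          obtain ⟨k, hk, hk1, hk2⟩ := h2
          refine mem_biUnion.2 ⟨fun i => v i.succ, Fintype.mem_piFinset.2 fun i => hv1 _,
            mem_biUnion.2 ⟨k, mem_range.2 hk, ?_⟩⟩
          rw [if_pos hk1]
          exact mem_product.2 ⟨mem_filter.2 ⟨hv1 0, hv2 0, hk2⟩, mem_singleton_self _⟩
      · intro v _ w _ h
        rw [Prod.mk.injEq] at h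
        funext i
        refine Fin.cases h.1 (fun i => ?_) i
        exact congrFun h.2 i
    have hbi : (((Fintype.piFinset fun _ : Fin r => M).biUnion fun w =>
            (range L).biUnion fun k =>
              if τ ≤ ((lev X (fun a => Real.exp (l * S F r w a)) (Real.exp R) L k).card : ℝ) then
                ((M.filter fun m => ok m ∧
                  BadFor F ε (lev X (fun a => Real.exp (l * S F r w a)) (Real.exp R) L k) m) ×ˢ {w})
              else (∅ : Finset (ℕ × (Fin r → ℕ)))).card : ℝ) ≤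
        (M.card : ℝ) ^ r * (L * (η * M.card)) := by
      have h1 : (((Fintype.piFinset fun _ : Fin r => M).biUnion fun w =>
            (range L).biUnion fun k =>
              if τ ≤ ((lev X (fun a => Real.exp (l * S F r w a)) (Real.exp R) L k).card : ℝ) then
                ((M.filter fun m => ok m ∧
                  BadFor F ε (lev X (fun a => Real.exp (l * S F r w a)) (Real.exp R) L k) m) ×ˢ {w})
              else (∅ : Finset (ℕ × (Fin r → ℕ)))).card : ℝ) ≤
          ∑ w ∈ (Fintype.piFinset fun _ : Fin r => M), ∑ k ∈ range L, η * (M.card : ℝ) := by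
        refine (Nat.cast_le.2 card_biUnion_le).trans ?_
        rw [Nat.cast_sum]
        apply sum_le_sum
        intro w _
        refine (Nat.cast_le.2 card_biUnion_le).trans ?_
        rw [Nat.cast_sum]
        apply sum_le_sum
        intro k _
        split_ifs with h
        · rw [card_product, card_singleton, mul_one]
          exact H _ (filter_subset _ _) h
        · rw [card_empty, Nat.cast_zero]
          positivity
      refine h1.trans (le_of_eq ?_)
      rw [sum_const, sum_const, card_range, Fintype.card_piFinset_const, nsmul_eq_mul,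
        nsmul_eq_mul]
      push_cast
      ring
    calc ((Bad F ok X M C₁ ε τ lam l L R (r + 1)).card : ℝ)
        ≤ ((M ×ˢ Bad F ok X M C₁ ε τ lam l L R r).card : ℝ) +
            (M.card : ℝ) ^ r * (L * (η * M.card)) := by
          refine (Nat.cast_le.2 (hsub.trans (card_union_le _ _))).trans ?_
          rw [Nat.cast_add]
          exact add_le_add le_rfl hbi
      _ ≤ (M.card : ℝ) * (r * (L * η) * (M.card : ℝ) ^ r) +
            (M.card : ℝ) ^ r * (L * (η * M.card)) := by
          rw [card_product, Nat.cast_mul]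
          gcongr
      _ = ((r + 1 : ℕ) : ℝ) * (L * η) * (M.card : ℝ) ^ (r + 1) := by
          push_cast
          ring

/-- The points at which the mean over the tuple is not within `γ` of one. -/
noncomputable def off (F : ℕ → ℕ → ℝ) (X : Finset ℕ) (γ : ℝ) (r : ℕ) (v : Fin r → ℕ) : Finset ℕ :=
  X.filter fun a => γ * r < |S F r v a - r|

theorem off_card {ok : ℕ → Prop} (hC : 2 ≤ C₁) (hε : 0 < ε) (hε1 : ε ≤ 1 / 8) (hτ : 0 ≤ τ)
    (hlam : lam = ε / C₁ ^ 2) {r : ℕ} {v : Fin r → ℕ} (hvM : ∀ i, v i ∈ M) (hvok : ∀ i, ok (v i))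
    (h1 : v ∉ Bad F ok X M C₁ ε τ lam lam L r r) (h2 : v ∉ Bad F ok X M C₁ ε τ lam (-lam) L r r) :
    ((off F X (3 * ε) r v).card : ℝ) ≤
      2 * (Real.exp (-(ε ^ 2 / C₁ ^ 2 * r)) * X.card + Real.exp r * (r * err C₁ τ X.card L r)) := by
  have hC0 : 0 < C₁ := by linarith
  have hr : (0 : ℝ) ≤ r := Nat.cast_nonneg r
  have hlam0 : 0 < lam := by rw [hlam]; positivity
  have hE : 0 ≤ err C₁ τ X.card L r := by unfold err; positivity
  have hX : (0 : ℝ) ≤ X.card := Nat.cast_nonneg _
  have hl2 : lam ^ 2 * C₁ ^ 2 = ε * lam := by rw [hlam]; field_simp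
  have hl3 : ε * lam = ε ^ 2 / C₁ ^ 2 := by rw [hlam]; ring
  have hlam4 : lam ≤ 1 / 32 := by
    rw [hlam, div_le_iff₀ (by positivity)]
    nlinarith
  have hp1 : Phi F X lam r v ≤ Real.exp (lam + lam * ε + lam ^ 2 * C₁ ^ 2) ^ r * X.card +
      r * Real.exp (lam + lam * ε + lam ^ 2 * C₁ ^ 2) ^ r * err C₁ τ X.card L r := by
    by_contra hc
    exact h1 (mem_filter.2 ⟨Fintype.mem_piFinset.2 hvM, hvok, not_le.1 hc⟩)
  have hp2 : Phi F X (-lam) r v ≤ Real.exp (-lam + lam * ε + lam ^ 2 * C₁ ^ 2) ^ r * X.card +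
      r * Real.exp (lam + lam * ε + lam ^ 2 * C₁ ^ 2) ^ r * err C₁ τ X.card L r := by
    by_contra hc
    exact h2 (mem_filter.2 ⟨Fintype.mem_piFinset.2 hvM, hvok, not_le.1 hc⟩)
  rw [hl2] at hp1 hp2
  -- the two tails
  have tail : ∀ l t : ℝ, ∀ Y ⊆ X, (∀ a ∈ Y, t ≤ l * S F r v a) →
      (Y.card : ℝ) ≤ Real.exp (-t) * Phi F X l r v := by
    intro l t Y hY ht
    have h3 : (Y.card : ℝ) * Real.exp t ≤ Phi F X l r v := by
      calc (Y.card : ℝ) * Real.exp t = ∑ _a ∈ Y, Real.exp t := by rw [sum_const, nsmul_eq_mul]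
        _ ≤ ∑ a ∈ Y, Real.exp (l * S F r v a) :=
          sum_le_sum fun a ha => Real.exp_le_exp.2 (ht a ha)
        _ ≤ Phi F X l r v :=
          sum_le_sum_of_subset_of_nonneg hY fun _ _ _ => (Real.exp_pos _).le
    rw [Real.exp_neg, inv_mul_eq_div, le_div_iff₀ (Real.exp_pos _)]
    exact h3
  have hU := tail lam (lam * ((1 + 3 * ε) * r))
    (X.filter fun a => (1 + 3 * ε) * r < S F r v a) (filter_subset _ _) fun a ha =>
      mul_le_mul_of_nonneg_left (mem_filter.1 ha).2.le hlam0.le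
  have hD := tail (-lam) (-lam * ((1 - 3 * ε) * r))
    (X.filter fun a => S F r v a < (1 - 3 * ε) * r) (filter_subset _ _) fun a ha => by
      have := mul_le_mul_of_nonneg_left (mem_filter.1 ha).2.le hlam0.le
      linarith
  have hsub : off F X (3 * ε) r v ⊆ (X.filter fun a => (1 + 3 * ε) * r < S F r v a) ∪
      (X.filter fun a => S F r v a < (1 - 3 * ε) * r) := by
    intro a ha
    obtain ⟨ha1, ha2⟩ := mem_filter.1 ha
    rw [mem_union]
    rcases lt_abs.1 ha2 with h | h
    · left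
      exact mem_filter.2 ⟨ha1, by linarith⟩
    · right
      exact mem_filter.2 ⟨ha1, by linarith⟩
  have hexp1 : Real.exp (-(lam * ((1 + 3 * ε) * r))) *
      Real.exp (lam + lam * ε + ε * lam) ^ r = Real.exp (-(ε ^ 2 / C₁ ^ 2 * r)) := by
    rw [← Real.exp_nat_mul, ← Real.exp_add, ← hl3]
    congr 1
    ring
  have hexp2 : Real.exp (-(-lam * ((1 - 3 * ε) * r))) *
      Real.exp (-lam + lam * ε + ε * lam) ^ r = Real.exp (-(ε ^ 2 / C₁ ^ 2 * r)) := by
    rw [← Real.exp_nat_mul, ← Real.exp_add, ← hl3]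
    congr 1
    ring
  have hexp3 : Real.exp (-(lam * ((1 + 3 * ε) * r))) *
      Real.exp (lam + lam * ε + ε * lam) ^ r ≤ Real.exp r := by
    rw [hexp1]
    apply Real.exp_le_exp.2
    have : 0 ≤ ε ^ 2 / C₁ ^ 2 * r := by positivity
    linarith
  have hexp4 : Real.exp (-(-lam * ((1 - 3 * ε) * r))) *
      Real.exp (lam + lam * ε + ε * lam) ^ r ≤ Real.exp r := by
    rw [← Real.exp_nat_mul, ← Real.exp_add]
    apply Real.exp_le_exp.2
    have : -(-lam * ((1 - 3 * ε) * r)) + r * (lam + lam * ε + ε * lam) =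
        r * (lam * (2 - ε)) := by ring
    rw [this]
    have h4 : lam * (2 - ε) ≤ 1 := by nlinarith
    calc r * (lam * (2 - ε)) ≤ r * 1 := by gcongr
      _ = r := mul_one _
  have hrE : 0 ≤ r * err C₁ τ X.card L r := by positivity
  have hU2 : ((X.filter fun a => (1 + 3 * ε) * r < S F r v a).card : ℝ) ≤
      Real.exp (-(ε ^ 2 / C₁ ^ 2 * r)) * X.card + Real.exp r * (r * err C₁ τ X.card L r) := by
    refine hU.trans ((mul_le_mul_of_nonneg_left hp1 (Real.exp_pos _).le).trans ?_)
    rw [mul_add, ← mul_assoc, hexp1]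
    have h5 := mul_le_mul_of_nonneg_right hexp3 hrE
    linarith
  have hD2 : ((X.filter fun a => S F r v a < (1 - 3 * ε) * r).card : ℝ) ≤
      Real.exp (-(ε ^ 2 / C₁ ^ 2 * r)) * X.card + Real.exp r * (r * err C₁ τ X.card L r) := by
    refine hD.trans ((mul_le_mul_of_nonneg_left hp2 (Real.exp_pos _).le).trans ?_)
    rw [mul_add, ← mul_assoc, hexp2]
    have h5 := mul_le_mul_of_nonneg_right hexp4 hrE
    linarith
  have h6 : ((off F X (3 * ε) r v).card : ℝ) ≤
      ((X.filter fun a => (1 + 3 * ε) * r < S F r v a).card : ℝ) +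
        ((X.filter fun a => S F r v a < (1 - 3 * ε) * r).card : ℝ) := by
    exact_mod_cast (card_le_card hsub).trans (card_union_le _ _)
  linarith

end count

end Pool.Agent.Q152.SamplingMean
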