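import Pool.Agent.Q152.Sampling

/-!
# Sampling: the number of the points which are rarely hit, at several scales
-/

set_option autoImplicit false

namespace Pool.Agent.Q152.Sampling

open Finset Classical

/-- The points hit by less than a proportion `γ` of the members of the tuple. -/
noncomputable def few (hit : ℕ → ℕ → Prop) (X : Finset ℕ) (γ : ℝ) (r : ℕ) (v : Fin r → ℕ) :
    Finset ℕ :=
  X.filter fun a => (cnt hit r v a : ℝ) < γ * r

theorem few_card {hit : ℕ → ℕ → Prop} {X : Finset ℕ} {τ ε : ℝ} (hτ : 0 ≤ τ) (hε : 0 < ε)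
    (hε1 : ε ≤ 1 / 8) {r : ℕ} {v : Fin r → ℕ}
    (h : Phi hit X (1 - ε) r v ≤
      (1 - (1 - (1 - ε)) * (1 / 4 - ε)) ^ r * X.card + r * (r + 1) * τ) :
    ((few hit X (1 / 4 - 2 * ε) r v).card : ℝ) ≤
      Real.exp (-(ε ^ 2 * r / 2)) * X.card + Real.exp r * (r * (r + 1) * τ) := by
  have hβ : (0 : ℝ) < 1 - ε := by linarith
  have hlog : Real.log (1 - ε) ≤ 0 := Real.log_nonpos hβ.le (by linarith)
  have hlog2 : -Real.log (1 - ε) ≤ ε + 8 / 7 * ε ^ 2 := by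
    have h1 := Real.one_sub_inv_le_log_of_pos hβ
    have h2 : (1 - ε)⁻¹ ≤ 1 + ε + 8 / 7 * ε ^ 2 := by
      rw [inv_le_comm₀ hβ (by positivity), inv_eq_one_div, div_le_iff₀ (by positivity)]
      nlinarith [pow_pos hε 2, pow_pos hε 3]
    linarith
  have hr : (0 : ℝ) ≤ r := Nat.cast_nonneg r
  obtain ⟨γ, hγ⟩ : ∃ γ : ℝ, γ = 1 / 4 - 2 * ε := ⟨_, rfl⟩
  rw [← hγ]
  have hγ0 : 0 ≤ γ := by rw [hγ]; linarith
  have hγ1 : γ ≤ 1 / 4 := by rw [hγ]; linarith
  -- the lower bound for the potential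
  have h1 : ((few hit X γ r v).card : ℝ) * Real.exp (γ * r * Real.log (1 - ε)) ≤
      Phi hit X (1 - ε) r v := by
    have h2 : ((few hit X γ r v).card : ℝ) * Real.exp (γ * r * Real.log (1 - ε)) =
        ∑ _a ∈ few hit X γ r v, Real.exp (γ * r * Real.log (1 - ε)) := by
      rw [sum_const, nsmul_eq_mul]
    rw [h2]
    unfold Phi
    refine (sum_le_sum (g := fun a => (1 - ε) ^ cnt hit r v a) fun a ha => ?_).trans
      (sum_le_sum_of_subset_of_nonneg (filter_subset _ _) fun _ _ _ => pow_nonneg hβ.le _)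
    have h3 := (mem_filter.1 ha).2
    have h4 : (1 - ε) ^ cnt hit r v a = Real.exp (cnt hit r v a * Real.log (1 - ε)) := by
      rw [Real.exp_nat_mul, Real.exp_log hβ]
    change _ ≤ (1 - ε) ^ cnt hit r v a
    rw [h4]
    apply Real.exp_le_exp.2
    nlinarith
  have h5 : ((few hit X γ r v).card : ℝ) ≤
      Real.exp (-(γ * r * Real.log (1 - ε))) * Phi hit X (1 - ε) r v := by
    rw [Real.exp_neg, inv_mul_eq_div, le_div_iff₀ (Real.exp_pos _)]
    exact h1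
  have h6 : (1 - (1 - (1 - ε)) * (1 / 4 - ε)) ^ r ≤ Real.exp (-(ε * (1 / 4 - ε)) * r) := by
    have h7 : 1 - (1 - (1 - ε)) * (1 / 4 - ε) ≤ Real.exp (-(ε * (1 / 4 - ε))) := by
      have := Real.one_sub_le_exp_neg (ε * (1 / 4 - ε))
      linarith
    have h8 : 0 ≤ 1 - (1 - (1 - ε)) * (1 / 4 - ε) := by nlinarith
    calc (1 - (1 - (1 - ε)) * (1 / 4 - ε)) ^ r ≤ Real.exp (-(ε * (1 / 4 - ε))) ^ r := by gcongr
      _ = Real.exp (-(ε * (1 / 4 - ε)) * r) := by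
        rw [← Real.exp_nat_mul, mul_comm]
  have hX : (0 : ℝ) ≤ X.card := Nat.cast_nonneg _
  have h9 : Real.exp (-(γ * r * Real.log (1 - ε))) * Real.exp (-(ε * (1 / 4 - ε)) * r) ≤
      Real.exp (-(ε ^ 2 * r / 2)) := by
    rw [← Real.exp_add]
    apply Real.exp_le_exp.2
    have h10 : -(γ * r * Real.log (1 - ε)) ≤ γ * r * (ε + 8 / 7 * ε ^ 2) := by
      have := mul_le_mul_of_nonneg_left hlog2 (mul_nonneg hγ0 hr)
      linarith
    have h11 : γ * (ε + 8 / 7 * ε ^ 2) - ε * (1 / 4 - ε) ≤ -(ε ^ 2 / 2) := by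
      have : γ * ε = ε * (1 / 4 - ε) - ε ^ 2 := by rw [hγ]; ring
      nlinarith [pow_pos hε 2]
    nlinarith
  have h12 : Real.exp (-(γ * r * Real.log (1 - ε))) ≤ Real.exp r := by
    apply Real.exp_le_exp.2
    have h13 : -(γ * r * Real.log (1 - ε)) ≤ γ * r * (ε + 8 / 7 * ε ^ 2) := by
      have := mul_le_mul_of_nonneg_left hlog2 (mul_nonneg hγ0 hr)
      linarith
    have h14 : γ * (ε + 8 / 7 * ε ^ 2) ≤ 1 := by nlinarith [pow_pos hε 2]
    nlinarith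
  have hrest : 0 ≤ r * ((r : ℝ) + 1) * τ := by positivity
  calc ((few hit X γ r v).card : ℝ)
      ≤ Real.exp (-(γ * r * Real.log (1 - ε))) * Phi hit X (1 - ε) r v := h5
    _ ≤ Real.exp (-(γ * r * Real.log (1 - ε))) *
        (Real.exp (-(ε * (1 / 4 - ε)) * r) * X.card + r * (r + 1) * τ) := by
        refine mul_le_mul_of_nonneg_left (h.trans ?_) (Real.exp_pos _).le
        gcongr
    _ = Real.exp (-(γ * r * Real.log (1 - ε))) * Real.exp (-(ε * (1 / 4 - ε)) * r) * X.card +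
        Real.exp (-(γ * r * Real.log (1 - ε))) * (r * (r + 1) * τ) := by ring
    _ ≤ _ := by gcongr

theorem several {hit : ℕ → ℕ → ℕ → Prop} {ok : ℕ → Prop} {X M Y : Finset ℕ} {τ η ε : ℝ}
    (hτ : 0 ≤ τ) (hη : 0 ≤ η) (hε : 0 < ε) (hε1 : ε ≤ 1 / 8)
    (H : ∀ y ∈ Y, ∀ A ⊆ X, τ ≤ (A.card : ℝ) →
      ((M.filter fun m => ok m ∧ BadFor (hit y) (1 / 4 - ε) A m).card : ℝ) ≤ η * M.card) (r : ℕ) :
    (((Fintype.piFinset fun _ : Fin r => M).filter fun v => (∀ i, ok (v i)) ∧ ∃ y ∈ Y,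
      Real.exp (-(ε ^ 2 * r / 2)) * X.card + Real.exp r * (r * (r + 1) * τ) <
        ((few (hit y) X (1 / 4 - 2 * ε) r v).card : ℝ)).card : ℝ) ≤
      Y.card * (r * (r + 1) * η * (M.card : ℝ) ^ r) := by
  have hsub : ((Fintype.piFinset fun _ : Fin r => M).filter fun v => (∀ i, ok (v i)) ∧ ∃ y ∈ Y,
      Real.exp (-(ε ^ 2 * r / 2)) * X.card + Real.exp r * (r * (r + 1) * τ) <
        ((few (hit y) X (1 / 4 - 2 * ε) r v).card : ℝ)) ⊆
      Y.biUnion fun y => Bad (hit y) ok X M (1 / 4 - ε) τ (1 - ε) r := by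
    intro v hv
    rw [mem_filter] at hv
    obtain ⟨hv1, hv2, y, hy, hv3⟩ := hv
    refine mem_biUnion.2 ⟨y, hy, mem_filter.2 ⟨hv1, hv2, ?_⟩⟩
    by_contra hc
    exact absurd (few_card hτ hε hε1 (not_lt.1 hc)) (not_le.2 hv3)
  refine (Nat.cast_le.2 ((card_le_card hsub).trans card_biUnion_le)).trans ?_
  rw [Nat.cast_sum]
  refine (sum_le_sum fun y hy => bad_card (by linarith) (by linarith) hτ hη (by linarith)
    (by linarith) (H y hy) r).trans ?_
  rw [sum_const, nsmul_eq_mul]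

end Pool.Agent.Q152.Sampling
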