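import Mathlib

/-!
# Exponential moments of sums along random tuples of elements of a finite set
-/

set_option autoImplicit false

namespace Pool.Agent.Q152.Shifts

open Finset

open Classical in
/-- The number of the tuples of length `r` of elements of `Ω` with the property `E`. -/
noncomputable def tup (Ω : Finset ℕ) (r : ℕ) (E : (Fin r → ℕ) → Prop) : ℝ :=
  (((Fintype.piFinset fun _ : Fin r => Ω).filter E).card : ℝ)

theorem tup_mono {Ω : Finset ℕ} {r : ℕ} {E F : (Fin r → ℕ) → Prop}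
    (h : ∀ v, (∀ i, v i ∈ Ω) → E v → F v) : tup Ω r E ≤ tup Ω r F := by
  classical
  unfold tup
  apply Nat.cast_le.2
  apply card_le_card
  intro v hv
  rw [mem_filter, Fintype.mem_piFinset] at hv ⊢
  exact ⟨hv.1, h v hv.1 hv.2⟩

/-- The union bound. -/
theorem tup_union {Ω : Finset ℕ} {r : ℕ} {ι : Type*} (s : Finset ι) (E : ι → (Fin r → ℕ) → Prop)
    {t : ℝ} (h : ∀ i ∈ s, tup Ω r (E i) ≤ t) :
    tup Ω r (fun v => ∃ i ∈ s, E i v) ≤ s.card * t := by
  classical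
  obtain ⟨F, hF⟩ : ∃ F : (Fin r → ℕ) → Prop, F = fun v => ∃ i ∈ s, E i v := ⟨_, rfl⟩
  rw [← hF]
  have h1 : tup Ω r F ≤ ∑ i ∈ s, tup Ω r (E i) := by
    unfold tup
    rw [← Nat.cast_sum]
    apply Nat.cast_le.2
    refine le_trans (card_le_card ?_) card_biUnion_le
    intro v hv
    obtain ⟨hv, hv2⟩ := mem_filter.1 hv
    rw [hF] at hv2
    obtain ⟨i, hi, hiv⟩ := hv2
    rw [mem_biUnion]
    exact ⟨i, hi, mem_filter.2 ⟨hv, hiv⟩⟩
  refine h1.trans ((sum_le_sum h).trans ?_)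
  rw [sum_const, nsmul_eq_mul]

theorem markov {Ω : Finset ℕ} {r : ℕ} {E : (Fin r → ℕ) → Prop} {g : ℕ → ℝ}
    (hg : ∀ b ∈ Ω, 0 ≤ g b) {q T : ℝ} (hq : ∑ b ∈ Ω, g b ≤ q * Ω.card) (hT : 0 ≤ T)
    (hE : ∀ v : Fin r → ℕ, (∀ i, v i ∈ Ω) → E v → 1 ≤ T * ∏ i, g (v i)) :
    tup Ω r E ≤ T * q ^ r * (Ω.card : ℝ) ^ r := by
  classical
  have h1 : tup Ω r E ≤ ∑ v ∈ Fintype.piFinset fun _ : Fin r => Ω, T * ∏ i, g (v i) := by
    unfold tup
    rw [← nsmul_one, ← sum_const]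
    refine le_trans (sum_le_sum (g := fun v => T * ∏ i, g (v i)) fun v hv => ?_)
      (sum_le_sum_of_subset_of_nonneg (filter_subset _ _) fun v hv _ => ?_)
    · rw [mem_filter, Fintype.mem_piFinset] at hv
      exact hE v hv.1 hv.2
    · rw [Fintype.mem_piFinset] at hv
      exact mul_nonneg hT (prod_nonneg fun i _ => hg _ (hv i))
  have h2 : ∑ v ∈ Fintype.piFinset fun _ : Fin r => Ω, T * ∏ i, g (v i) =
      T * (∑ b ∈ Ω, g b) ^ r := by
    rw [← mul_sum]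
    congr 1
    have := Finset.prod_univ_sum (fun _ : Fin r => Ω) (fun (_ : Fin r) (b : ℕ) => g b)
    rw [← this, prod_const, card_univ, Fintype.card_fin]
  have h3 : (∑ b ∈ Ω, g b) ^ r ≤ (q * Ω.card) ^ r :=
    pow_le_pow_left₀ (sum_nonneg hg) hq r
  calc tup Ω r E ≤ T * (∑ b ∈ Ω, g b) ^ r := by rw [← h2]; exact h1
    _ ≤ T * (q * Ω.card) ^ r := mul_le_mul_of_nonneg_left h3 hT
    _ = _ := by rw [mul_pow]; ring

theorem exp_neg_le {x : ℝ} (hx : 0 ≤ x) : Real.exp (-x) ≤ 1 - x + x ^ 2 / 2 := by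
  have h1 := Real.quadratic_le_exp_of_nonneg hx
  have h2 : 0 < 1 - x + x ^ 2 / 2 := by nlinarith [sq_nonneg (x - 1)]
  rw [Real.exp_neg, inv_le_iff_one_le_mul₀ (Real.exp_pos x)]
  have h3 : (1 - x + x ^ 2 / 2) * (1 + x + x ^ 2 / 2) ≤ (1 - x + x ^ 2 / 2) * Real.exp x :=
    mul_le_mul_of_nonneg_left h1 h2.le
  have h4 : (1 - x + x ^ 2 / 2) * (1 + x + x ^ 2 / 2) = 1 + x ^ 4 / 4 := by ring
  have h5 : 0 ≤ x ^ 4 := by positivity
  linarith

theorem exp_le {x : ℝ} (hx : 0 ≤ x) (hx1 : x ≤ 1) : Real.exp x ≤ 1 + x + x ^ 2 := by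
  have h := Real.abs_exp_sub_one_sub_id_le (x := x) (by rw [abs_of_nonneg hx]; exact hx1)
  rw [abs_le] at h
  linarith [h.2]

/-- The lower tail of a sum of nonnegative numbers along a random tuple. -/
theorem lower_tail {Ω : Finset ℕ} {X : ℕ → ℝ} (h0 : ∀ b ∈ Ω, 0 ≤ X b) {μ S ε : ℝ} (hμ : 0 ≤ μ)
    (hS : 0 < S) (hε : 0 ≤ ε) (h1 : μ * Ω.card ≤ ∑ b ∈ Ω, X b)
    (h2 : ∑ b ∈ Ω, X b ^ 2 ≤ S * Ω.card) (r : ℕ) :
    tup Ω r (fun v => ∑ i, X (v i) ≤ (1 - ε) * (r * μ)) ≤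
      Real.exp (-(ε ^ 2 * μ ^ 2 / (2 * S) * r)) * (Ω.card : ℝ) ^ r := by
  obtain ⟨t, ht⟩ : ∃ t, t = ε * μ / S := ⟨_, rfl⟩
  have ht0 : 0 ≤ t := by rw [ht]; positivity
  have hq : ∑ b ∈ Ω, Real.exp (-(t * X b)) ≤ Real.exp (-(t * μ) + t ^ 2 * S / 2) * Ω.card := by
    calc ∑ b ∈ Ω, Real.exp (-(t * X b)) ≤ ∑ b ∈ Ω, (1 - t * X b + t ^ 2 / 2 * X b ^ 2) := by
          apply sum_le_sum
          intro b hb
          have := exp_neg_le (mul_nonneg ht0 (h0 b hb))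
          linarith [mul_pow t (X b) 2]
      _ = Ω.card - t * ∑ b ∈ Ω, X b + t ^ 2 / 2 * ∑ b ∈ Ω, X b ^ 2 := by
          rw [sum_add_distrib, sum_sub_distrib, ← mul_sum, ← mul_sum, sum_const, nsmul_eq_mul, mul_one]
      _ ≤ Ω.card - t * (μ * Ω.card) + t ^ 2 / 2 * (S * Ω.card) := by
          have h3 := mul_le_mul_of_nonneg_left h1 ht0
          have h4 := mul_le_mul_of_nonneg_left h2 (by positivity : 0 ≤ t ^ 2 / 2)
          linarith
      _ = (-(t * μ) + t ^ 2 * S / 2 + 1) * Ω.card := by ring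
      _ ≤ _ := mul_le_mul_of_nonneg_right (Real.add_one_le_exp _) (Nat.cast_nonneg _)
  refine (markov (g := fun b => Real.exp (-(t * X b))) (fun b _ => (Real.exp_pos _).le) hq
    (Real.exp_pos (t * ((1 - ε) * (r * μ)))).le ?_).trans (le_of_eq ?_)
  · intro v _ hE
    rw [← Real.exp_sum, ← Real.exp_add]
    apply Real.one_le_exp
    rw [sum_neg_distrib, ← mul_sum]
    have := mul_le_mul_of_nonneg_left hE ht0
    linarith
  · rw [← Real.exp_nat_mul, ← Real.exp_add]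
    congr 2
    rw [ht]
    field_simp
    ring

/-- The upper tail of a sum of bounded nonnegative numbers along a random tuple. -/
theorem upper_tail {Ω : Finset ℕ} {X : ℕ → ℝ} (h0 : ∀ b ∈ Ω, 0 ≤ X b) {M μ S ε t : ℝ}
    (hX : ∀ b ∈ Ω, X b ≤ M) (ht : 0 ≤ t) (htM : t * M ≤ 1) (htS : 2 * (t * S) ≤ ε * μ)
    (h1 : ∑ b ∈ Ω, X b ≤ μ * Ω.card) (h2 : ∑ b ∈ Ω, X b ^ 2 ≤ S * Ω.card) (r : ℕ) :
    tup Ω r (fun v => (1 + ε) * (r * μ) ≤ ∑ i, X (v i)) ≤
      Real.exp (-(t * ε * μ / 2 * r)) * (Ω.card : ℝ) ^ r := by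
  have hq : ∑ b ∈ Ω, Real.exp (t * X b) ≤ Real.exp (t * μ + t ^ 2 * S) * Ω.card := by
    calc ∑ b ∈ Ω, Real.exp (t * X b) ≤ ∑ b ∈ Ω, (1 + t * X b + t ^ 2 * X b ^ 2) := by
          apply sum_le_sum
          intro b hb
          have := exp_le (mul_nonneg ht (h0 b hb))
            ((mul_le_mul_of_nonneg_left (hX b hb) ht).trans htM)
          linarith [mul_pow t (X b) 2]
      _ = Ω.card + t * ∑ b ∈ Ω, X b + t ^ 2 * ∑ b ∈ Ω, X b ^ 2 := by
          rw [sum_add_distrib, sum_add_distrib, ← mul_sum, ← mul_sum, sum_const, nsmul_eq_mul,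
            mul_one]
      _ ≤ Ω.card + t * (μ * Ω.card) + t ^ 2 * (S * Ω.card) := by
          have h3 := mul_le_mul_of_nonneg_left h1 ht
          have h4 := mul_le_mul_of_nonneg_left h2 (by positivity : 0 ≤ t ^ 2)
          linarith
      _ = (t * μ + t ^ 2 * S + 1) * Ω.card := by ring
      _ ≤ _ := mul_le_mul_of_nonneg_right (Real.add_one_le_exp _) (Nat.cast_nonneg _)
  refine (markov (g := fun b => Real.exp (t * X b)) (fun b _ => (Real.exp_pos _).le) hq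
    (Real.exp_pos (-(t * ((1 + ε) * (r * μ))))).le ?_).trans ?_
  · intro v _ hE
    rw [← Real.exp_sum, ← Real.exp_add]
    apply Real.one_le_exp
    rw [← mul_sum]
    have := mul_le_mul_of_nonneg_left hE ht
    linarith
  · apply mul_le_mul_of_nonneg_right _ (by positivity)
    rw [← Real.exp_nat_mul, ← Real.exp_add]
    apply Real.exp_le_exp.2
    have h3 : t ^ 2 * S ≤ t * ε * μ / 2 := by nlinarith
    have h4 : (0 : ℝ) ≤ r := Nat.cast_nonneg r
    have h5 := mul_le_mul_of_nonneg_left h3 h4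
    nlinarith

/-- The number of the tuples all of whose elements are zeros of `X`. -/
theorem void {Ω : Finset ℕ} {X : ℕ → ℕ} {p : ℝ}
    (h1 : ∑ b ∈ Ω, (1 - (X b : ℝ) + ((X b : ℝ) ^ 2 - X b) / 2) ≤ (1 - p) * Ω.card) (r : ℕ) :
    tup Ω r (fun v => ∀ i, X (v i) = 0) ≤ Real.exp (-(p * r)) * (Ω.card : ℝ) ^ r := by
  classical
  have hq : ∑ b ∈ Ω, (if X b = 0 then (1 : ℝ) else 0) ≤ Real.exp (-p) * Ω.card := by
    calc ∑ b ∈ Ω, (if X b = 0 then (1 : ℝ) else 0) ≤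
        ∑ b ∈ Ω, (1 - (X b : ℝ) + ((X b : ℝ) ^ 2 - X b) / 2) := by
          apply sum_le_sum
          intro b _
          rcases Nat.lt_or_ge (X b) 1 with h | h
          · have : X b = 0 := by omega
            rw [if_pos this, this]
            norm_num
          · rw [if_neg (by omega)]
            rcases Nat.lt_or_ge (X b) 2 with h2 | h2
            · have : X b = 1 := by omega
              rw [this]
              norm_num
            · have h3 : (2 : ℝ) ≤ X b := by exact_mod_cast h2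
              nlinarith
      _ ≤ (1 - p) * Ω.card := h1
      _ ≤ _ := mul_le_mul_of_nonneg_right (by have := Real.add_one_le_exp (-p); linarith)
          (Nat.cast_nonneg _)
  refine (markov (g := fun b => if X b = 0 then (1 : ℝ) else 0)
    (fun b _ => by split_ifs <;> norm_num) hq zero_le_one ?_).trans (le_of_eq ?_)
  · intro v _ hE
    rw [one_mul]
    apply le_of_eq
    symm
    apply prod_eq_one
    intro i _
    rw [if_pos (hE i)]
  · rw [← Real.exp_nat_mul, one_mul]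
    congr 2
    ring

end Pool.Agent.Q152.Shifts
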