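import Mathlib
import Pool.Agent.Q152.Shifts

/-!
# Concentration and comparison of the law of the values along random tuples
-/

set_option autoImplicit false

namespace Pool.Agent.Q152.ShiftsLaw

open Finset

section cons

variable {α : Type*}

theorem sum_cons (Ω : Finset α) (r : ℕ) (f : (Fin (r + 1) → α) → ℝ) :
    ∑ v ∈ Fintype.piFinset (fun _ : Fin (r + 1) => Ω), f v =
      ∑ b ∈ Ω, ∑ v ∈ Fintype.piFinset (fun _ : Fin r => Ω), f (Fin.cons b v) := by
  rw [← sum_product']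
  apply sum_nbij' (fun v => (v 0, Fin.tail v)) (fun x => Fin.cons x.1 x.2)
  · intro v hv
    rw [Fintype.mem_piFinset] at hv
    rw [mem_product, Fintype.mem_piFinset]
    exact ⟨hv 0, fun i => hv i.succ⟩
  · intro x hx
    rw [mem_product, Fintype.mem_piFinset] at hx
    rw [Fintype.mem_piFinset]
    intro i
    refine Fin.cases ?_ (fun i => ?_) i
    · exact hx.1
    · rw [Fin.cons_succ]; exact hx.2 i
  · intro v _
    exact Fin.cons_self_tail v
  · intro x _
    rw [Fin.cons_zero, Fin.tail_cons]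
  · intro v _
    rw [Fin.cons_self_tail]

/-- The mean over the tuples. -/
noncomputable def avg (Ω : Finset α) (r : ℕ) (f : (Fin r → α) → ℝ) : ℝ :=
  (∑ v ∈ Fintype.piFinset (fun _ : Fin r => Ω), f v) / (Ω.card : ℝ) ^ r

theorem avg_zero (Ω : Finset α) (f : (Fin 0 → α) → ℝ) : avg Ω 0 f = f Fin.elim0 := by
  unfold avg
  have h : Fintype.piFinset (fun _ : Fin 0 => Ω) = {Fin.elim0} := by
    ext v
    rw [Fintype.mem_piFinset, mem_singleton]
    constructor
    · intro _
      funext i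
      exact i.elim0
    · intro _ i
      exact i.elim0
  rw [h, sum_singleton, pow_zero, div_one]

theorem avg_succ (Ω : Finset α) (r : ℕ) (f : (Fin (r + 1) → α) → ℝ) :
    avg Ω (r + 1) f = (∑ b ∈ Ω, avg Ω r (fun v => f (Fin.cons b v))) / Ω.card := by
  unfold avg
  rw [sum_cons, ← sum_div, div_div, pow_succ]

theorem avg_mono {Ω : Finset α} {r : ℕ} {f g : (Fin r → α) → ℝ}
    (h : ∀ v, (∀ i, v i ∈ Ω) → f v ≤ g v) : avg Ω r f ≤ avg Ω r g := by
  unfold avg
  apply div_le_div_of_nonneg_right _ (by positivity)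
  apply sum_le_sum
  intro v hv
  rw [Fintype.mem_piFinset] at hv
  exact h v hv

theorem avg_const {Ω : Finset α} (hΩ : Ω.Nonempty) (r : ℕ) (c : ℝ) :
    avg Ω r (fun _ => c) = c := by
  unfold avg
  rw [sum_const, Fintype.card_piFinset_const, nsmul_eq_mul]
  have : (0 : ℝ) < Ω.card := by exact_mod_cast hΩ.card_pos
  push_cast
  field_simp

theorem avg_sub (Ω : Finset α) (r : ℕ) (f g : (Fin r → α) → ℝ) :
    avg Ω r (fun v => f v - g v) = avg Ω r f - avg Ω r g := by
  unfold avg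
  rw [sum_sub_distrib, sub_div]

/-- One variable. -/
theorem one_var {Ω : Finset α} (hΩ : Ω.Nonempty) {g : α → ℝ} {c s : ℝ}
    (hg : ∀ b ∈ Ω, ∀ b' ∈ Ω, |g b - g b'| ≤ c) :
    ∑ b ∈ Ω, Real.exp (s * (g b - (∑ b ∈ Ω, g b) / Ω.card)) ≤
      Ω.card * Real.exp (s ^ 2 * c ^ 2 / 2) := by
  have hn : (0 : ℝ) < Ω.card := by exact_mod_cast hΩ.card_pos
  have hjen : Real.exp (-(s * ((∑ b ∈ Ω, g b) / Ω.card))) ≤
      (∑ b ∈ Ω, Real.exp (-(s * g b))) / Ω.card := by
    have h1 := convexOn_exp.map_sum_le (t := Ω) (w := fun _ => 1 / (Ω.card : ℝ))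
      (p := fun b => -(s * g b)) (fun _ _ => by positivity)
      (by rw [sum_const, nsmul_eq_mul]; field_simp) (fun _ _ => Set.mem_univ _)
    simp only [smul_eq_mul] at h1
    rw [← mul_sum, ← mul_sum, sum_neg_distrib, ← mul_sum] at h1
    have e1 : 1 / (Ω.card : ℝ) * -(s * ∑ b ∈ Ω, g b) = -(s * ((∑ b ∈ Ω, g b) / Ω.card)) := by ring
    have e2 : 1 / (Ω.card : ℝ) * ∑ b ∈ Ω, Real.exp (-(s * g b)) =
        (∑ b ∈ Ω, Real.exp (-(s * g b))) / Ω.card := by ring
    rw [e1, e2] at h1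
    exact h1
  have h2 : ∑ b ∈ Ω, Real.exp (s * (g b - (∑ b ∈ Ω, g b) / Ω.card)) =
      (∑ b ∈ Ω, Real.exp (s * g b)) * Real.exp (-(s * ((∑ b ∈ Ω, g b) / Ω.card))) := by
    rw [sum_mul]
    apply sum_congr rfl
    intro b _
    rw [← Real.exp_add]
    congr 1; ring
  have h3 : (∑ b ∈ Ω, Real.exp (s * g b)) * (∑ b ∈ Ω, Real.exp (-(s * g b))) =
      ∑ b ∈ Ω, ∑ b' ∈ Ω, Real.cosh (s * (g b - g b')) := by
    have h4 : (∑ b ∈ Ω, Real.exp (s * g b)) * (∑ b ∈ Ω, Real.exp (-(s * g b))) =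
        ∑ b ∈ Ω, ∑ b' ∈ Ω, Real.exp (s * (g b - g b')) := by
      rw [sum_mul_sum]
      apply sum_congr rfl
      intro b _
      apply sum_congr rfl
      intro b' _
      rw [← Real.exp_add]
      congr 1; ring
    have h5 : ∑ b ∈ Ω, ∑ b' ∈ Ω, Real.exp (s * (g b - g b')) =
        ∑ b ∈ Ω, ∑ b' ∈ Ω, Real.exp (-(s * (g b - g b'))) := by
      rw [sum_comm]
      apply sum_congr rfl
      intro b _
      apply sum_congr rfl
      intro b' _
      congr 1; ring
    rw [h4]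
    have h6 : ∑ b ∈ Ω, ∑ b' ∈ Ω, Real.cosh (s * (g b - g b')) =
        (∑ b ∈ Ω, ∑ b' ∈ Ω, Real.exp (s * (g b - g b')) +
          ∑ b ∈ Ω, ∑ b' ∈ Ω, Real.exp (-(s * (g b - g b')))) / 2 := by
      rw [← sum_add_distrib, sum_div]
      apply sum_congr rfl
      intro b _
      rw [← sum_add_distrib, sum_div]
      apply sum_congr rfl
      intro b' _
      rw [Real.cosh_eq]
    rw [h6, ← h5]
    ring
  have h7 : ∑ b ∈ Ω, ∑ b' ∈ Ω, Real.cosh (s * (g b - g b')) ≤
      Ω.card * (Ω.card * Real.exp (s ^ 2 * c ^ 2 / 2)) := by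
    calc ∑ b ∈ Ω, ∑ b' ∈ Ω, Real.cosh (s * (g b - g b')) ≤
        ∑ _b ∈ Ω, ∑ _b' ∈ Ω, Real.exp (s ^ 2 * c ^ 2 / 2) := by
          apply sum_le_sum
          intro b hb
          apply sum_le_sum
          intro b' hb'
          refine (Real.cosh_le_exp_half_sq _).trans (Real.exp_le_exp.2 ?_)
          have h8 := hg b hb b' hb'
          have h9 : (g b - g b') ^ 2 ≤ c ^ 2 := by
            rw [← sq_abs]
            exact pow_le_pow_left₀ (abs_nonneg _) h8 2
          have h10 : 0 ≤ s ^ 2 := sq_nonneg s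
          nlinarith
      _ = _ := by rw [sum_const, sum_const, nsmul_eq_mul, nsmul_eq_mul]
  rw [h2]
  calc (∑ b ∈ Ω, Real.exp (s * g b)) * Real.exp (-(s * ((∑ b ∈ Ω, g b) / Ω.card))) ≤
      (∑ b ∈ Ω, Real.exp (s * g b)) * ((∑ b ∈ Ω, Real.exp (-(s * g b))) / Ω.card) :=
        mul_le_mul_of_nonneg_left hjen (sum_nonneg fun _ _ => (Real.exp_pos _).le)
    _ = ((∑ b ∈ Ω, Real.exp (s * g b)) * (∑ b ∈ Ω, Real.exp (-(s * g b)))) / Ω.card := by ring
    _ ≤ (Ω.card * (Ω.card * Real.exp (s ^ 2 * c ^ 2 / 2))) / Ω.card := by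
        rw [h3]
        exact div_le_div_of_nonneg_right h7 hn.le
    _ = _ := by field_simp

/-- The method of bounded differences: exponential moment. -/
theorem mcdiarmid_exp {Ω : Finset α} (hΩ : Ω.Nonempty) {c s : ℝ} (r : ℕ) :
    ∀ f : (Fin r → α) → ℝ, (∀ v w : Fin r → α, (∀ i, v i ∈ Ω) → (∀ i, w i ∈ Ω) → ∀ i,
      (∀ j, j ≠ i → v j = w j) → |f v - f w| ≤ c) →
    avg Ω r (fun v => Real.exp (s * (f v - avg Ω r f))) ≤ Real.exp (s ^ 2 * c ^ 2 / 2 * r) := by
  have hn : (0 : ℝ) < Ω.card := by exact_mod_cast hΩ.card_pos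
  induction r with
  | zero =>
    intro f _
    rw [avg_zero, avg_zero]
    simp
  | succ r ih =>
    intro f hf
    obtain ⟨m, hm⟩ : ∃ m : α → ℝ, m = fun b => avg Ω r (fun v => f (Fin.cons b v)) := ⟨_, rfl⟩
    have hcons : ∀ b ∈ Ω, ∀ v : Fin r → α, (∀ i, v i ∈ Ω) →
        ∀ i, (Fin.cons b v : Fin (r + 1) → α) i ∈ Ω := by
      intro b hb v hv i
      refine Fin.cases ?_ (fun i => ?_) i
      · exact hb
      · rw [Fin.cons_succ]; exact hv i
    have hM : avg Ω (r + 1) f = (∑ b ∈ Ω, m b) / Ω.card := by rw [avg_succ, hm]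
    have hmc : ∀ b ∈ Ω, ∀ b' ∈ Ω, |m b - m b'| ≤ c := by
      intro b hb b' hb'
      rw [hm]
      simp only
      rw [← avg_sub]
      have key : ∀ v : Fin r → α, (∀ i, v i ∈ Ω) →
          |f (Fin.cons b v) - f (Fin.cons b' v)| ≤ c := by
        intro v hv
        apply hf _ _ (hcons b hb v hv) (hcons b' hb' v hv) 0
        intro j hj
        refine Fin.cases (fun h => absurd rfl h) (fun i _ => ?_) j hj
        rw [Fin.cons_succ, Fin.cons_succ]
      rw [abs_le]
      constructor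
      · rw [← avg_const hΩ r (-c)]
        exact avg_mono fun v hv => (abs_le.1 (key v hv)).1
      · rw [← avg_const hΩ r c]
        exact avg_mono fun v hv => (abs_le.1 (key v hv)).2
    have hone := one_var (s := s) hΩ hmc
    rw [avg_succ, hM]
    have hstep : ∀ b ∈ Ω, avg Ω r (fun v => Real.exp (s * (f (Fin.cons b v) -
        (∑ b ∈ Ω, m b) / Ω.card))) ≤
        Real.exp (s ^ 2 * c ^ 2 / 2 * r) * Real.exp (s * (m b - (∑ b ∈ Ω, m b) / Ω.card)) := by
      intro b hb
      have h1 := ih (fun v => f (Fin.cons b v)) (by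
        intro v w hv hw i hij
        apply hf _ _ (hcons b hb v hv) (hcons b hb w hw) i.succ
        intro j hj
        refine Fin.cases (fun _ => ?_) (fun k hk => ?_) j hj
        · rw [Fin.cons_zero, Fin.cons_zero]
        · rw [Fin.cons_succ, Fin.cons_succ]
          apply hij
          intro h
          exact hk (by rw [h]))
      have h2 : avg Ω r (fun v => f (Fin.cons b v)) = m b := by rw [hm]
      rw [h2] at h1
      have h3 : avg Ω r (fun v => Real.exp (s * (f (Fin.cons b v) - (∑ b ∈ Ω, m b) / Ω.card))) =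
          avg Ω r (fun v => Real.exp (s * (f (Fin.cons b v) - m b))) *
            Real.exp (s * (m b - (∑ b ∈ Ω, m b) / Ω.card)) := by
        obtain ⟨M, hMd⟩ : ∃ M, M = (∑ b ∈ Ω, m b) / Ω.card := ⟨_, rfl⟩
        rw [← hMd]
        unfold avg
        rw [div_mul_eq_mul_div, sum_mul]
        congr 1
        apply sum_congr rfl
        intro v _
        rw [← Real.exp_add]
        change Real.exp (s * (f (Fin.cons b v) - M)) = _
        congr 1
        ring
      rw [h3]
      exact mul_le_mul_of_nonneg_right h1 (Real.exp_pos _).le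
    rw [div_le_iff₀ hn]
    refine (sum_le_sum hstep).trans ?_
    rw [← mul_sum]
    refine (mul_le_mul_of_nonneg_left hone (Real.exp_pos _).le).trans (le_of_eq ?_)
    have h4 : Real.exp (s ^ 2 * c ^ 2 / 2 * r) * (Ω.card * Real.exp (s ^ 2 * c ^ 2 / 2)) =
        (Real.exp (s ^ 2 * c ^ 2 / 2 * r) * Real.exp (s ^ 2 * c ^ 2 / 2)) * Ω.card := by ring
    rw [h4, ← Real.exp_add]
    congr 2
    push_cast
    ring

/-- A comparison of laws. The value of the weight `w` on the point `j` of `T` is the model of the probability of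
the value `sp j`; the mean of a function of the values `g (v i)` is compared with the model. -/
theorem hybrid {β ι : Type*} [DecidableEq ι] {Ω : Finset α} (hΩ : Ω.Nonempty) {T : Finset ι}
    {w : ι → ℝ} (hw : ∀ j ∈ T, 0 ≤ w j) (hw1 : ∑ j ∈ T, w j = 1) (sp : ι → β) (g : α → β) {D : ℝ}
    (hD : ∀ ψ : β → ℝ, (∀ A, 0 ≤ ψ A ∧ ψ A ≤ 1) →
      |(∑ b ∈ Ω, ψ (g b)) / Ω.card - ∑ j ∈ T, w j * ψ (sp j)| ≤ D) (r : ℕ) :
    ∀ φ : (Fin r → β) → ℝ, (∀ p, 0 ≤ φ p ∧ φ p ≤ 1) →
    |avg Ω r (fun v => φ (fun i => g (v i))) -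
      ∑ c ∈ Fintype.piFinset (fun _ : Fin r => T), (∏ i, w (c i)) * φ (fun i => sp (c i))| ≤
      r * D := by
  have hn : (0 : ℝ) < Ω.card := by exact_mod_cast hΩ.card_pos
  induction r with
  | zero =>
    intro φ _
    rw [avg_zero]
    have h : Fintype.piFinset (fun _ : Fin 0 => T) = {Fin.elim0} := by
      ext v
      rw [Fintype.mem_piFinset, mem_singleton]
      constructor
      · intro _
        funext i
        exact i.elim0
      · intro _ i
        exact i.elim0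
    rw [h, sum_singleton]
    have h2 : (fun i => g ((Fin.elim0 : Fin 0 → α) i)) = fun i => sp ((Fin.elim0 : Fin 0 → ι) i) := by
      funext i
      exact i.elim0
    rw [h2]
    simp
  | succ r ih =>
    intro φ hφ
    -- the model for the remaining coordinates
    obtain ⟨ψ, hψ⟩ : ∃ ψ : β → ℝ, ψ = fun A => ∑ c ∈ Fintype.piFinset (fun _ : Fin r => T),
      (∏ i, w (c i)) * φ (Fin.cons A fun i => sp (c i)) := ⟨_, rfl⟩
    have hsum1 : ∑ c ∈ Fintype.piFinset (fun _ : Fin r => T), ∏ i, w (c i) = 1 := by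
      have := Finset.prod_univ_sum (fun _ : Fin r => T) (fun (_ : Fin r) (j : ι) => w j)
      rw [← this]
      simp [hw1]
    have hwc : ∀ c ∈ Fintype.piFinset (fun _ : Fin r => T), 0 ≤ ∏ i, w (c i) := by
      intro c hc
      rw [Fintype.mem_piFinset] at hc
      exact prod_nonneg fun i _ => hw _ (hc i)
    have hψ1 : ∀ A, 0 ≤ ψ A ∧ ψ A ≤ 1 := by
      intro A
      rw [hψ]
      constructor
      · exact sum_nonneg fun c hc => mul_nonneg (hwc c hc) (hφ _).1
      · calc ∑ c ∈ Fintype.piFinset (fun _ : Fin r => T),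
              (∏ i, w (c i)) * φ (Fin.cons A fun i => sp (c i)) ≤
            ∑ c ∈ Fintype.piFinset (fun _ : Fin r => T), (∏ i, w (c i)) * 1 :=
              sum_le_sum fun c hc => mul_le_mul_of_nonneg_left (hφ _).2 (hwc c hc)
          _ = 1 := by rw [← sum_mul, hsum1, one_mul]
    have hone := hD ψ hψ1
    have hmodel : ∑ c ∈ Fintype.piFinset (fun _ : Fin (r + 1) => T),
        (∏ i, w (c i)) * φ (fun i => sp (c i)) = ∑ j ∈ T, w j * ψ (sp j) := by
      rw [sum_cons, hψ]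
      apply sum_congr rfl
      intro j _
      rw [mul_sum]
      apply sum_congr rfl
      intro c _
      rw [Fin.prod_univ_succ, Fin.cons_zero]
      simp only [Fin.cons_succ]
      rw [mul_assoc]
      congr 3
      funext i
      refine Fin.cases ?_ (fun i => ?_) i
      · rw [Fin.cons_zero, Fin.cons_zero]
      · rw [Fin.cons_succ, Fin.cons_succ]
    have hav : avg Ω (r + 1) (fun v => φ (fun i => g (v i))) =
        (∑ b ∈ Ω, avg Ω r (fun v => φ (Fin.cons (g b) fun i => g (v i)))) / Ω.card := by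
      rw [avg_succ]
      congr 1
      apply sum_congr rfl
      intro b _
      congr 1
      funext v
      congr 1
      funext i
      refine Fin.cases ?_ (fun i => ?_) i
      · rw [Fin.cons_zero, Fin.cons_zero]
      · rw [Fin.cons_succ, Fin.cons_succ]
    have hstep : |(∑ b ∈ Ω, avg Ω r (fun v => φ (Fin.cons (g b) fun i => g (v i)))) / Ω.card -
        (∑ b ∈ Ω, ψ (g b)) / Ω.card| ≤ r * D := by
      rw [← sub_div, ← sum_sub_distrib, abs_div, abs_of_pos hn, div_le_iff₀ hn]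
      refine (abs_sum_le_sum_abs _ _).trans ?_
      calc ∑ b ∈ Ω, |avg Ω r (fun v => φ (Fin.cons (g b) fun i => g (v i))) - ψ (g b)| ≤
          ∑ _b ∈ Ω, r * D := by
            apply sum_le_sum
            intro b _
            rw [hψ]
            exact ih (fun p => φ (Fin.cons (g b) p)) (fun p => hφ _)
        _ = r * D * Ω.card := by rw [sum_const, nsmul_eq_mul, mul_comm]
    rw [hmodel, hav]
    have h1 : ((r + 1 : ℕ) : ℝ) * D = r * D + D := by push_cast; ring
    rw [h1]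
    calc |(∑ b ∈ Ω, avg Ω r (fun v => φ (Fin.cons (g b) fun i => g (v i)))) / Ω.card -
          ∑ j ∈ T, w j * ψ (sp j)| ≤
        |(∑ b ∈ Ω, avg Ω r (fun v => φ (Fin.cons (g b) fun i => g (v i)))) / Ω.card -
          (∑ b ∈ Ω, ψ (g b)) / Ω.card| +
        |(∑ b ∈ Ω, ψ (g b)) / Ω.card - ∑ j ∈ T, w j * ψ (sp j)| := abs_sub_le _ _ _
      _ ≤ r * D + D := add_le_add hstep hone

end cons

open Pool.Agent.Q152.Shifts

/-- The method of bounded differences. -/
theorem mcdiarmid {Ω : Finset ℕ} (hΩ : Ω.Nonempty) {c t : ℝ} (hc : 0 < c) (ht : 0 ≤ t) {r : ℕ}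
    (hr : 0 < r) (f : (Fin r → ℕ) → ℝ)
    (hf : ∀ v w : Fin r → ℕ, (∀ i, v i ∈ Ω) → (∀ i, w i ∈ Ω) → ∀ i,
      (∀ j, j ≠ i → v j = w j) → |f v - f w| ≤ c) :
    tup Ω r (fun v => t < |f v - avg Ω r f|) ≤
      2 * Real.exp (-(t ^ 2 / (2 * c ^ 2 * r))) * (Ω.card : ℝ) ^ r := by
  classical
  have hn : (0 : ℝ) < Ω.card := by exact_mod_cast hΩ.card_pos
  have hr0 : (0 : ℝ) < r := by exact_mod_cast hr
  have tail : ∀ s : ℝ, s ^ 2 = (t / (c ^ 2 * r)) ^ 2 → ∀ E : (Fin r → ℕ) → Prop,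
      (∀ v, E v → t ^ 2 / (c ^ 2 * r) ≤ s * (f v - avg Ω r f)) →
      tup Ω r E ≤ Real.exp (-(t ^ 2 / (2 * c ^ 2 * r))) * (Ω.card : ℝ) ^ r := by
    intro s hs E hE
    have h1 := mcdiarmid_exp (s := s) hΩ r f hf
    unfold avg at h1
    rw [div_le_iff₀ (by positivity)] at h1
    have h2 : tup Ω r E * Real.exp (t ^ 2 / (c ^ 2 * r)) ≤
        ∑ v ∈ Fintype.piFinset (fun _ : Fin r => Ω),
          Real.exp (s * (f v - avg Ω r f)) := by
      unfold tup
      rw [← nsmul_eq_mul, ← sum_const]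
      refine le_trans (sum_le_sum (g := fun v => Real.exp (s * (f v - avg Ω r f))) fun v hv => ?_)
        (sum_le_sum_of_subset_of_nonneg (filter_subset _ _) fun v hv _ => (Real.exp_pos _).le)
      rw [mem_filter] at hv
      exact Real.exp_le_exp.2 (hE v hv.2)
    have h3 : tup Ω r E * Real.exp (t ^ 2 / (c ^ 2 * r)) ≤
        Real.exp (s ^ 2 * c ^ 2 / 2 * r) * (Ω.card : ℝ) ^ r := h2.trans h1
    have h4 : s ^ 2 * c ^ 2 / 2 * r = t ^ 2 / (c ^ 2 * r) - t ^ 2 / (2 * c ^ 2 * r) := by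
      rw [hs]
      field_simp
      ring
    rw [h4, Real.exp_sub] at h3
    have h5 := (Real.exp_pos (t ^ 2 / (c ^ 2 * r)))
    rw [Real.exp_neg]
    have h6 : Real.exp (t ^ 2 / (c ^ 2 * r)) / Real.exp (t ^ 2 / (2 * c ^ 2 * r)) *
        (Ω.card : ℝ) ^ r = ((Real.exp (t ^ 2 / (2 * c ^ 2 * r)))⁻¹ * (Ω.card : ℝ) ^ r) *
          Real.exp (t ^ 2 / (c ^ 2 * r)) := by ring
    rw [h6] at h3
    exact le_of_mul_le_mul_right h3 h5
  have hU := tail (t / (c ^ 2 * r)) rfl (fun v => t < f v - avg Ω r f) fun v hv => by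
    have h1 : 0 ≤ t / (c ^ 2 * r) := by positivity
    have h2 := mul_le_mul_of_nonneg_left hv.le h1
    have h3 : t ^ 2 / (c ^ 2 * r) = t / (c ^ 2 * r) * t := by ring
    rw [h3]
    exact h2
  have hL := tail (-(t / (c ^ 2 * r))) (by ring) (fun v => t < -(f v - avg Ω r f)) fun v hv => by
    have h1 : 0 ≤ t / (c ^ 2 * r) := by positivity
    have h2 := mul_le_mul_of_nonneg_left hv.le h1
    have h3 : t ^ 2 / (c ^ 2 * r) = t / (c ^ 2 * r) * t := by ring
    rw [h3]
    linarith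
  have hor := tup_union (Ω := Ω) (r := r) (ι := Bool) (Finset.univ : Finset Bool)
    (fun s v => if s then (t < f v - avg Ω r f) else (t < -(f v - avg Ω r f)))
    (t := Real.exp (-(t ^ 2 / (2 * c ^ 2 * r))) * (Ω.card : ℝ) ^ r) (by
      intro s _
      cases s
      · simpa using hL
      · simpa using hU)
  rw [Finset.card_univ, Fintype.card_bool] at hor
  refine (tup_mono ?_).trans (hor.trans (le_of_eq (by push_cast; ring)))
  intro v _ hv
  rcases lt_abs.1 hv with h | h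
  · exact ⟨true, Finset.mem_univ _, by simpa using h⟩
  · exact ⟨false, Finset.mem_univ _, by simpa using h⟩

end Pool.Agent.Q152.ShiftsLaw
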