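import Pool.Agent.Q152.SlowScale

set_option autoImplicit false

/-! Random rigid displacements of pieces of a set, small amplitudes: all scales. -/

namespace Pool.Agent.Q152.SlowRigid

open MeasureTheory ProbabilityTheory Finset Filter
open Pool.Agent.W167.ET Pool.Agent.Q152.RigidPieces

variable {Ω : Type*} [MeasurableSpace Ω] {μ : Measure Ω} {w : ℕ → ℕ} {B : ℝ} {ε : ℕ → Ω → ℕ}

/-- **Main theorem.** -/
theorem slow_rigid (hP : Pert μ w B ε) (C ρ : ℕ) (hC : 1 ≤ C) (hρ : 1 ≤ ρ) (A : Set ℕ) (c : ℝ)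
    (hc : 0 < c) (hA : ∃ᶠ n : ℕ in atTop, c * n ≤ ((A ∩ Set.Icc 1 n).ncard : ℝ) ^ 2)
    (W : ℕ → ℕ) (hWm : Monotone W) (hWi : Tendsto W atTop atTop) (hWC : ∀ x, W x ≤ C * (x + 1))
    (hWd : ∀ x, 1 ≤ x → W (2 * x) ≤ ρ * W x) (N : ℕ → ℕ) (hN0 : N 0 = 0) (hN : StrictMono N)
    (hN1 : Tendsto (fun s => ((N (s + 1) : ℝ) - N s) / W (N s)) atTop (nhds 0))
    (hw1 : ∀ s, W (N s) ≤ ρ * (w s + 1)) (hw2 : ∀ s, w s ≤ ρ * W (N s)) :
    ∀ᵐ ω ∂μ, ∀ K, ∃ m, K ≤
      r {v | ∃ s, ∃ a ∈ A, N s ≤ a ∧ a < N (s + 1) ∧ v = a + ε s ω} 2 m := by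
  classical
  have := hP.prob
  rw [ae_all_iff]
  intro K0
  obtain ⟨K, hK⟩ : ∃ K, K = K0 + 1 := ⟨_, rfl⟩
  obtain ⟨c1, hc1, hblocks⟩ := exists_blocks A 2 (by omega) c hc hA
  obtain ⟨θ, hθ, p, ⟨hp0, hp1⟩, Y0, hscale⟩ := scale' hP K (2 * C) (ρ * ρ) (by omega) (by omega)
    (Nat.mul_pos hρ hρ) hc1
  have hK0 : (0 : ℝ) < K := by rw [hK]; push_cast; positivity
  have hρ0 : (0 : ℝ) < ρ := by exact_mod_cast hρ
  have hC0 : (0 : ℝ) < C := by exact_mod_cast hC
  obtain ⟨η, hη⟩ : ∃ η : ℝ, η = min (1 / (2 * (C : ℝ))) (θ ^ 2 / (64 * K * ρ)) := ⟨_, rfl⟩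
  have hη0 : 0 < η := by rw [hη]; exact lt_min (by positivity) (by positivity)
  have hη1 : η * (2 * C) ≤ 1 := by
    have := hη.le.trans (min_le_left _ _)
    rwa [le_div_iff₀ (by positivity)] at this
  have hη2 : η * (64 * K * ρ) ≤ θ ^ 2 := by
    have := hη.le.trans (min_le_right _ _)
    rwa [le_div_iff₀ (by positivity)] at this
  -- large pieces are short
  obtain ⟨s1, hs1⟩ : ∃ s1, ∀ s, s1 ≤ s → 1 ≤ N s ∧ (N (s + 1) : ℝ) - N s ≤ η * W (N s) := by
    have h1 := hN1.eventually (ge_mem_nhds hη0)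
    have h2 : ∀ᶠ s in atTop, 1 ≤ W (N s) :=
      (hWi.comp hN.tendsto_atTop).eventually (eventually_ge_atTop 1)
    obtain ⟨s1, hs1⟩ := (h1.and h2).exists_forall_of_atTop
    refine ⟨s1 + 1, fun s hs => ?_⟩
    obtain ⟨h3, h4⟩ := hs1 s (by omega)
    have h5 : s ≤ N s := hN.id_le s
    refine ⟨by omega, ?_⟩
    have h6 : (0 : ℝ) < W (N s) := by exact_mod_cast h4
    rwa [div_le_iff₀ h6] at h3
  have hs2 : ∀ s, s1 ≤ s → N (s + 1) ≤ 2 * N s := by
    intro s hs
    obtain ⟨h1, h2⟩ := hs1 s hs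
    have h3 : (W (N s) : ℝ) ≤ C * (2 * N s) := by
      have h4 := hWC (N s)
      have h5 : C * (N s + 1) ≤ C * (2 * N s) := Nat.mul_le_mul_left _ (by omega)
      exact_mod_cast h4.trans h5
    have h6 : η * (W (N s) : ℝ) ≤ N s := by
      calc η * (W (N s) : ℝ) ≤ η * (C * (2 * N s)) := mul_le_mul_of_nonneg_left h3 hη0.le
        _ = η * (2 * C) * N s := by ring
        _ ≤ 1 * N s := mul_le_mul_of_nonneg_right hη1 (by positivity)
        _ = N s := one_mul _
    have h7 : (N (s + 1) : ℝ) ≤ 2 * N s := by linarith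
    exact_mod_cast h7
  obtain ⟨y1, hy1⟩ := exists_nat_ge (max 1 (8 * K / θ ^ 2))
  obtain ⟨x1, hx1⟩ := (hWi.eventually (eventually_gt_atTop
    ((2 * (Y0 + y1)) ^ 2))).exists_forall_of_atTop
  -- good scales
  have hlarge : ∀ j, N s1 ≤ j → ∀ s ∈ Fam N j, s1 ≤ s := by
    intro j hj s hs
    unfold Fam at hs
    rw [Finset.mem_filter] at hs
    have h1 : j < 2 ^ j := Nat.lt_two_pow_self
    have h2 : N s1 < N (s + 1) := by omega
    have h3 := hN.lt_iff_lt.1 h2
    omega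
  have hgood : ∀ j0, ∃ j, j0 ≤ j ∧ N s1 ≤ j ∧
      p ≤ Pr μ ε (Lots (Pie A N j) (Fam N j) 2 K) := by
    intro j0
    obtain ⟨j, hj, hjc⟩ := hblocks (j0 + N s1 + x1)
    refine ⟨j, by omega, by omega, ?_⟩
    have hj2 : j < 2 ^ j := Nat.lt_two_pow_self
    have hVbig := hx1 (2 ^ j) (by omega)
    obtain ⟨y, hy0, hya, hyb⟩ := exists_root 2 (2 ^ j) (by omega) Nat.one_le_two_pow
    obtain ⟨v, hv0, hva, hvb⟩ := exists_root 2 (W (2 ^ j)) (by omega) (by omega)
    have hvv : Y0 + y1 ≤ v := by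
      by_contra hcon
      push Not at hcon
      have h1 : (2 * v) ^ 2 ≤ (2 * (Y0 + y1)) ^ 2 := Nat.pow_le_pow_left (by omega) _
      omega
    have hFs : ∀ s ∈ Fam N j, s1 ≤ s := hlarge j (by omega)
    have hmem : ∀ s ∈ Fam N j, N s < 2 ^ (j + 1) ∧ 2 ^ j < N (s + 1) := by
      intro s hs
      unfold Fam at hs
      rw [Finset.mem_filter] at hs
      exact hs.2
    have hWup : ∀ s ∈ Fam N j, W (N s) ≤ ρ * W (2 ^ j) := by
      intro s hs
      have h1 := (hmem s hs).1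
      rw [pow_succ] at h1
      exact (hWm (show N s ≤ 2 * 2 ^ j by omega)).trans (hWd _ Nat.one_le_two_pow)
    have hWlow : ∀ s ∈ Fam N j, W (2 ^ j) ≤ ρ * W (N s) := by
      intro s hs
      have h1 := (hmem s hs).2
      have h2 := hs2 s (hFs s hs)
      have h3 := (hs1 s (hFs s hs)).1
      exact (hWm (show 2 ^ j ≤ 2 * N s by omega)).trans (hWd _ h3)
    by_cases hpie : ∀ s ∈ Fam N j, ((Pie A N j s).card : ℝ) ≤ θ * v
    · apply hscale v (W (2 ^ j)) y (2 ^ j) (by omega) hva hvb hya hyb ?_ (Pie A N j) (Fam N j)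
      · intro s _ a ha
        have := (mem_Pie.1 ha).2.1.2
        rw [pow_succ] at this
        omega
      · intro s hs
        calc W (2 ^ j) ≤ ρ * W (N s) := hWlow s hs
          _ ≤ ρ * (ρ * (w s + 1)) := Nat.mul_le_mul_left _ (hw1 s)
          _ = ρ * ρ * (w s + 1) := by ring
      · intro s hs
        calc w s ≤ ρ * W (N s) := hw2 s
          _ ≤ ρ * (ρ * W (2 ^ j)) := Nat.mul_le_mul_left _ (hWup s hs)
          _ = ρ * ρ * W (2 ^ j) := by ring
      · exact hpie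
      · have h1 := hjc y hya
        have h2 : ((Blk A j).card : ℝ) ≤ ∑ s ∈ Fam N j, ((Pie A N j s).card : ℝ) := by
          exact_mod_cast sum_Pie A N hN0 hN j
        exact h1.trans h2
      · calc W (2 ^ j) ≤ C * (2 ^ j + 1) := hWC _
          _ ≤ C * (2 * 2 ^ j) := Nat.mul_le_mul_left _ (by
              have : 1 ≤ 2 ^ j := Nat.one_le_two_pow
              omega)
          _ = 2 * C * 2 ^ j := by ring
    · push Not at hpie
      obtain ⟨s, hs, hbig⟩ := hpie
      rw [Pr_true hP]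
      · exact hp1
      · intro x _
        obtain ⟨l, hl⟩ : ∃ l, l = N (s + 1) - N s := ⟨_, rfl⟩
        have hNs : N s < N (s + 1) := hN (Nat.lt_succ_self s)
        refine bigpiece (Pie A N j s) 2 K (N s) l (x s) ?_ _ ?_ ?_
        · intro a ha
          have := (mem_Pie.1 ha).1
          omega
        · intro a ha
          exact ⟨s, hs, a, ha, rfl⟩
        · have hlr : (l : ℝ) ≤ η * (ρ * (4 * v ^ 2)) := by
            have h1 : (l : ℝ) = N (s + 1) - N s := by
              rw [hl, Nat.cast_sub hNs.le]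
            have h2 := (hs1 s (hFs s hs)).2
            have h3 : (W (N s) : ℝ) ≤ ρ * W (2 ^ j) := by exact_mod_cast hWup s hs
            have h4 : (W (2 ^ j) : ℝ) ≤ 4 * v ^ 2 := by
              have h5 : W (2 ^ j) ≤ 4 * v ^ 2 := by
                refine hvb.trans (le_of_eq ?_)
                ring
              exact_mod_cast h5
            rw [h1]
            refine h2.trans (mul_le_mul_of_nonneg_left ?_ hη0.le)
            exact h3.trans (mul_le_mul_of_nonneg_left h4 hρ0.le)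
          have hy1r : (max 1 (8 * K / θ ^ 2)) ≤ (v : ℝ) := by
            refine hy1.trans ?_
            have : y1 ≤ v := by omega
            exact_mod_cast this
          have hvone : (1 : ℝ) ≤ v := (le_max_left _ _).trans hy1r
          have hvk : 8 * K ≤ θ ^ 2 * (v : ℝ) ^ 2 := by
            have h1 := (le_max_right _ _).trans hy1r
            rw [div_le_iff₀ (by positivity)] at h1
            have h2 : (v : ℝ) ≤ v ^ 2 := le_self_pow₀ hvone (by omega)
            have h3 : 0 < θ ^ 2 := by positivity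
            nlinarith
          have h6 : ((4 : ℝ) * K * (2 * l + 1)) ≤ ((Pie A N j s).card : ℝ) ^ 2 := by
            have h7 : (θ * v) ^ 2 ≤ ((Pie A N j s).card : ℝ) ^ 2 :=
              pow_le_pow_left₀ (by positivity) hbig.le _
            refine le_trans ?_ h7
            rw [mul_pow]
            have h8 : (8 : ℝ) * K * l ≤ θ ^ 2 * v ^ 2 / 2 := by
              calc (8 : ℝ) * K * l ≤ 8 * K * (η * (ρ * (4 * v ^ 2))) :=
                    mul_le_mul_of_nonneg_left hlr (by positivity)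
                _ = η * (64 * K * ρ) * v ^ 2 / 2 := by ring
                _ ≤ θ ^ 2 * v ^ 2 / 2 := by
                    apply div_le_div_of_nonneg_right _ (by norm_num)
                    exact mul_le_mul_of_nonneg_right hη2 (by positivity)
            linarith
          have h9 : 4 * K * (2 * l + 1) ≤ (Pie A N j s).card ^ 2 := by exact_mod_cast h6
          exact h9
  -- a sequence of good scales
  have hfreq : ∃ᶠ j in atTop, N s1 ≤ j ∧
      p ≤ Pr μ ε (Lots (Pie A N j) (Fam N j) 2 K) := by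
    rw [frequently_atTop]
    intro j0
    obtain ⟨j, h1, h2, h3⟩ := hgood j0
    exact ⟨j, h1, h2, h3⟩
  obtain ⟨φ, hφ, hφg⟩ := extraction_of_frequently_atTop hfreq
  have hdisj : ∀ i j, i < j → Disjoint (Fam N (φ (2 * i))) (Fam N (φ (2 * j))) := by
    intro i j hij
    rw [Finset.disjoint_left]
    intro s h1 h2
    have h3 : φ (2 * i) + 2 ≤ φ (2 * j) := by
      have h4 : φ (2 * i) < φ (2 * i + 1) := hφ (by omega)
      have h5 : φ (2 * i + 1) < φ (2 * j) := hφ (by omega)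
      omega
    have h4 := hlarge _ (hφg (2 * i)).1 s h1
    have h5 := hs2 s h4
    unfold Fam at h1 h2
    rw [Finset.mem_filter] at h1 h2
    have h6 : 2 ^ (φ (2 * i) + 2) ≤ 2 ^ φ (2 * j) := Nat.pow_le_pow_right (by norm_num) h3
    have h7 : 2 ^ (φ (2 * i) + 2) = 2 * 2 ^ (φ (2 * i) + 1) := by ring
    omega
  -- the bad event
  set bad : Set Ω := {ω | ¬ ∃ m, K0 ≤
    r {v | ∃ s, ∃ a ∈ A, N s ≤ a ∧ a < N (s + 1) ∧ v = a + ε s ω} 2 m} with hbad
  have hbound : ∀ M : ℕ, μ.real bad ≤ (1 - p) ^ M := by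
    intro M
    have h1 := scales_indep hP hp1 (fun i => Fam N (φ (2 * i)))
      (fun i => Lots (Pie A N (φ (2 * i))) (Fam N (φ (2 * i))) 2 K) hdisj
      (fun i => dep_Lots _ _ _ _) (fun i => (hφg (2 * i)).2) M
    refine le_trans ?_ h1
    unfold Pr
    refine measureReal_mono ?_ (measure_ne_top _ _)
    intro ω hω i _ hM
    apply hω
    obtain ⟨m, hm⟩ := hM
    refine ⟨m, le_trans (by omega) (hm.trans (r_mono ?_ _ _))⟩
    rintro v ⟨s, _, a, ha, rfl⟩
    have h2 := mem_Pie.1 ha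
    exact ⟨s, a, h2.2.2, h2.1.1, h2.1.2, rfl⟩
  have hzero : μ.real bad = 0 := by
    apply le_antisymm _ measureReal_nonneg
    have h1 : Tendsto (fun M : ℕ => (1 - p) ^ M) atTop (nhds 0) :=
      tendsto_pow_atTop_nhds_zero_of_lt_one (by linarith) (by linarith)
    exact ge_of_tendsto' h1 hbound
  rw [ae_iff]
  exact (measureReal_eq_zero_iff).1 hzero

end Pool.Agent.Q152.SlowRigid
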