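import Pool.Agent.Q152.RigidMain

set_option autoImplicit false

/-! Random rigid displacements of pieces, with small amplitudes (order two): one scale. -/

namespace Pool.Agent.Q152.SlowRigid

open MeasureTheory ProbabilityTheory Finset
open Pool.Agent.W167.ET Pool.Agent.Q152.RigidPieces

/-- the labelled elements in a window -/
def Win (P : ℕ → Finset ℕ) (G : Finset ℕ) (z V : ℕ) : Finset (Σ _ : ℕ, ℕ) :=
  (Lab P G).filter (fun q => z ≤ q.2 ∧ q.2 < z + V)

/-- all windows of length `V` contain at most `v` labelled elements -/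
def Sp (P : ℕ → Finset ℕ) (G : Finset ℕ) (V v : ℕ) : Prop := ∀ z, (Win P G z V).card ≤ v

lemma Lab_mono (P : ℕ → Finset ℕ) {G G' : Finset ℕ} (h : G ⊆ G') : Lab P G ⊆ Lab P G' := by
  unfold Lab
  exact Finset.sigma_mono h (fun _ => Finset.Subset.refl _)

lemma Sp.mono {P : ℕ → Finset ℕ} {G G' : Finset ℕ} {V v : ℕ} (h : Sp P G' V v) (hG : G ⊆ G') :
    Sp P G V v := fun z =>
  (Finset.card_le_card (Finset.filter_subset_filter _ (Lab_mono P hG))).trans (h z)

lemma Sp.mul {P : ℕ → Finset ℕ} {G : Finset ℕ} {V v : ℕ} (h : Sp P G V v) (L : ℕ) :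
    ∀ z, (Win P G z (L * V)).card ≤ L * v := by
  classical
  induction L with
  | zero =>
    intro z
    unfold Win
    rw [Finset.card_eq_zero.2 (Finset.filter_eq_empty_iff.2 (by intro q _ hq; omega))]
    exact Nat.zero_le _
  | succ L ih =>
    intro z
    have h1 : Win P G z ((L + 1) * V) ⊆ Win P G z (L * V) ∪ Win P G (z + L * V) V := by
      intro q hq
      unfold Win at hq ⊢
      rw [Finset.mem_union, Finset.mem_filter, Finset.mem_filter]
      rw [Finset.mem_filter] at hq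
      have e : (L + 1) * V = L * V + V := by ring
      rw [e] at hq
      by_cases hlt : q.2 < z + L * V
      · exact Or.inl ⟨hq.1, hq.2.1, hlt⟩
      · exact Or.inr ⟨hq.1, by omega, by omega⟩
    have h2 := (Finset.card_le_card h1).trans (Finset.card_union_le _ _)
    have h3 := ih z
    have h4 := h (z + L * V)
    calc _ ≤ _ := h2
      _ ≤ L * v + v := by omega
      _ = (L + 1) * v := by ring

/-- the labelled elements near an integer -/
def Nea (P : ℕ → Finset ℕ) (G : Finset ℕ) (a D : ℕ) : Finset (Σ _ : ℕ, ℕ) :=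
  (Lab P G).filter (fun q => a ≤ q.2 + D ∧ q.2 ≤ a + D)

lemma card_Nea {P : ℕ → Finset ℕ} {G : Finset ℕ} {V v : ℕ} (h : Sp P G V v) (hV : 1 ≤ V)
    (ρ a : ℕ) : (Nea P G a (ρ * V)).card ≤ (2 * ρ + 1) * v := by
  refine le_trans (Finset.card_le_card ?_) (h.mul (2 * ρ + 1) (a - ρ * V))
  intro q hq
  unfold Nea at hq
  unfold Win
  rw [Finset.mem_filter] at hq ⊢
  have e : (2 * ρ + 1) * V = 2 * (ρ * V) + V := by ring
  rw [e]
  refine ⟨hq.1, by omega, by omega⟩

/-- near pairs of labelled elements of different pieces -/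
def NP (P : ℕ → Finset ℕ) (G : Finset ℕ) (D : ℕ) : Finset ((Σ _ : ℕ, ℕ) × (Σ _ : ℕ, ℕ)) :=
  (LP P G).filter (fun q => q.1.2 ≤ q.2.2 + D ∧ q.2.2 ≤ q.1.2 + D)

lemma sum_NP_le (P : ℕ → Finset ℕ) (G : Finset ℕ) (D M : ℕ) (hM : ∀ a, (Nea P G a D).card ≤ M)
    (f : (Σ _ : ℕ, ℕ) → ℝ) (hf : ∀ q ∈ Lab P G, 0 ≤ f q) :
    ∑ q ∈ NP P G D, f q.1 ≤ M * ∑ q ∈ Lab P G, f q := by
  classical
  have h1 : NP P G D ⊆ ((Lab P G).sigma (fun q => Nea P G q.2 D)).image
      (fun t => (t.1, t.2)) := by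
    intro q hq
    unfold NP at hq
    rw [Finset.mem_filter] at hq
    have h2 := hq.1
    unfold LP at h2
    rw [Finset.mem_filter, Finset.mem_product] at h2
    rw [Finset.mem_image]
    refine ⟨⟨q.1, q.2⟩, ?_, rfl⟩
    rw [Finset.mem_sigma]
    refine ⟨h2.1.1, ?_⟩
    unfold Nea
    rw [Finset.mem_filter]
    exact ⟨h2.1.2, hq.2.1, hq.2.2⟩
  have hinj : Set.InjOn (fun t : (Σ _ : (Σ _ : ℕ, ℕ), (Σ _ : ℕ, ℕ)) => (t.1, t.2))
      ((Lab P G).sigma (fun q => Nea P G q.2 D) : Set _) := by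
    rintro ⟨a, b⟩ _ ⟨c, d⟩ _ h
    have h' : (a, b) = (c, d) := h
    rw [Prod.mk.injEq] at h'
    rw [h'.1, h'.2]
  calc ∑ q ∈ NP P G D, f q.1
      ≤ ∑ q ∈ ((Lab P G).sigma (fun q => Nea P G q.2 D)).image (fun t => (t.1, t.2)), f q.1 := by
        apply Finset.sum_le_sum_of_subset_of_nonneg h1
        intro q hq _
        rw [Finset.mem_image] at hq
        obtain ⟨t, ht, rfl⟩ := hq
        rw [Finset.mem_sigma] at ht
        exact hf _ ht.1
    _ = ∑ t ∈ (Lab P G).sigma (fun q => Nea P G q.2 D), f t.1 := Finset.sum_image hinj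
    _ = ∑ q ∈ Lab P G, ∑ _q' ∈ Nea P G q.2 D, f q := Finset.sum_sigma _ _ _
    _ ≤ ∑ q ∈ Lab P G, (M : ℝ) * f q := by
        apply Finset.sum_le_sum
        intro q hq
        rw [Finset.sum_const, nsmul_eq_mul]
        apply mul_le_mul_of_nonneg_right _ (hf q hq)
        exact_mod_cast hM q.2
    _ = _ := by rw [Finset.mul_sum]

lemma image_card_add' {α β : Type*} [DecidableEq α] [DecidableEq β] (T : Finset α) (f : α → β) :
    T.card ≤ (T.image f).card +
      ((T ×ˢ T).filter (fun p => p.1 ≠ p.2 ∧ f p.1 = f p.2)).card := by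
  classical
  set N := T.filter (fun n => ∃ n' ∈ T, n ≠ n' ∧ f n = f n') with hN
  have h1 : (T \ N).card ≤ (T.image f).card := by
    have h2 : (T \ N).card = ((T \ N).image f).card := by
      rw [Finset.card_image_of_injOn]
      intro n hn n' hn' hf
      by_contra hne
      rw [Finset.mem_coe, Finset.mem_sdiff] at hn hn'
      apply hn.2
      rw [hN, Finset.mem_filter]
      exact ⟨hn.1, n', hn'.1, hne, hf⟩
    rw [h2]
    exact Finset.card_le_card (Finset.image_subset_image Finset.sdiff_subset)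
  have h3 : N.card ≤ ((T ×ˢ T).filter (fun p => p.1 ≠ p.2 ∧ f p.1 = f p.2)).card := by
    have h4 : N ⊆ ((T ×ˢ T).filter (fun p => p.1 ≠ p.2 ∧ f p.1 = f p.2)).image Prod.fst := by
      intro n hn
      rw [hN, Finset.mem_filter] at hn
      obtain ⟨h5, n', h6, h7, h8⟩ := hn
      rw [Finset.mem_image]
      exact ⟨(n, n'), Finset.mem_filter.2 ⟨Finset.mem_product.2 ⟨h5, h6⟩, h7, h8⟩, rfl⟩
    exact (Finset.card_le_card h4).trans Finset.card_image_le
  have h9 : (T \ N).card + N.card = T.card :=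
    Finset.card_sdiff_add_card_eq_card (Finset.filter_subset _ _)
  omega

/-- few coincidences in every fibre, or an integer with many representations -/
lemma pairs' (Q : Finset ℕ) (k K : ℕ) (P : Finset ℕ) :
    (∀ v, (((Bs Q k) ×ˢ P).filter (fun p => p.1 + p.2 = v)).card ≤ (k + 1) * K) ∨
      ∀ t : ℕ, ∀ A : Set ℕ, (Q : Set ℕ) ⊆ A → (∀ a ∈ P, a + t ∈ A) → ∃ m, K ≤ r A (k + 1) m := by
  classical
  by_cases h : ∀ v, (((Bs Q k) ×ˢ P).filter (fun p => p.1 + p.2 = v)).card ≤ (k + 1) * K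
  · exact Or.inl h
  · right
    push Not at h
    obtain ⟨v, hv⟩ := h
    intro t A hQ hA
    refine ⟨v + t, ?_⟩
    set S := (((Bs Q k) ×ˢ P).filter (fun p => p.1 + p.2 = v)) with hS
    have h1 : (S.image (fun p => p.2 + t)).card = S.card := by
      apply Finset.card_image_of_injOn
      intro p hp q hq hpq
      rw [hS, Finset.mem_coe, Finset.mem_filter] at hp hq
      have e1 := hp.2
      have e2 := hq.2
      have e3 : p.2 + t = q.2 + t := hpq
      apply Prod.ext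
      · omega
      · omega
    have h2 := hitsB Q k (v + t) A hQ (S.image (fun p => p.2 + t)) (by
      intro u hu
      rw [Finset.mem_image] at hu
      obtain ⟨p, hp, rfl⟩ := hu
      rw [hS, Finset.mem_filter, Finset.mem_product] at hp
      refine ⟨hA _ hp.1.2, p.1, hp.1.1, ?_⟩
      have := hp.2
      omega)
    rw [h1] at h2
    have h3 : (k + 1) * K < (k + 1) * r A (k + 1) (v + t) := lt_of_lt_of_le hv h2
    exact (Nat.lt_of_mul_lt_mul_left h3).le

lemma Bs_one (Q : Finset ℕ) : Bs Q 1 = Q := by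
  classical
  ext v
  unfold Bs
  rw [Finset.mem_image]
  constructor
  · rintro ⟨t, ht, rfl⟩
    rw [Fintype.mem_piFinset] at ht
    simpa using ht 0
  · intro hv
    exact ⟨fun _ => v, by rw [Fintype.mem_piFinset]; exact fun _ => hv, by simp⟩

variable {Ω : Type*} [MeasurableSpace Ω] {μ : Measure Ω} {w : ℕ → ℕ} {B : ℝ} {ε : ℕ → Ω → ℕ}

/-- the sum of the hitting probabilities of the elements of one piece -/
lemma sum_el_le (hP : Pert μ w B ε) (Bt : Finset ℕ) (P : ℕ → Finset ℕ) (n s F : ℕ)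
    (hF : ∀ v, ((Bt ×ˢ P s).filter (fun p => p.1 + p.2 = v)).card ≤ F) :
    ∑ a ∈ P s, Pr μ ε (fun x => ∃ b ∈ Bt, b + a + x s = n) ≤
      F * Pr μ ε (fun x => Tgt Bt P n s (x s)) := by
  classical
  have h1 : ∀ a ∈ P s, Pr μ ε (fun x => ∃ b ∈ Bt, b + a + x s = n) =
      ∑ j ∈ range (w s + 1), if ∃ b ∈ Bt, b + a + j = n then Pr μ ε (fun x => x s = j) else 0 := by
    intro a _
    rw [Pr_coord hP s (fun v => ∃ b ∈ Bt, b + a + v = n) (w s + 1) (Nat.lt_succ_self _),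
      Finset.sum_filter]
    apply Finset.sum_congr rfl
    intro j _
    congr
  rw [Finset.sum_congr rfl h1, Finset.sum_comm,
    Pr_coord hP s (fun v => Tgt Bt P n s v) (w s + 1) (Nat.lt_succ_self _), Finset.sum_filter,
    Finset.mul_sum]
  apply Finset.sum_le_sum
  intro j _
  rw [← Finset.sum_filter, Finset.sum_const, nsmul_eq_mul]
  have hpr : 0 ≤ Pr μ ε (fun x => x s = j) := Pr_nonneg _
  by_cases hT : Tgt Bt P n s j
  · rw [if_pos hT]
    apply mul_le_mul_of_nonneg_right _ hpr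
    have h2 : ((P s).filter (fun a => ∃ b ∈ Bt, b + a + j = n)).card ≤
        ((Bt ×ˢ P s).filter (fun p => p.1 + p.2 = n - j)).card := by
      have h3 : (P s).filter (fun a => ∃ b ∈ Bt, b + a + j = n) ⊆
          ((Bt ×ˢ P s).filter (fun p => p.1 + p.2 = n - j)).image Prod.snd := by
        intro a ha
        rw [Finset.mem_filter] at ha
        obtain ⟨ha1, b, hb, hba⟩ := ha
        rw [Finset.mem_image]
        refine ⟨(b, a), ?_, rfl⟩
        rw [Finset.mem_filter, Finset.mem_product]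
        exact ⟨⟨hb, ha1⟩, by omega⟩
      exact (Finset.card_le_card h3).trans Finset.card_image_le
    exact_mod_cast h2.trans (hF _)
  · rw [if_neg hT, mul_zero]
    have h2 : (P s).filter (fun a => ∃ b ∈ Bt, b + a + j = n) = ∅ := by
      apply Finset.filter_eq_empty_iff.2
      rintro a ha ⟨b, hb, hba⟩
      exact hT ⟨b, hb, a, ha, hba⟩
    rw [h2]
    simp

/-- coincidences at the target -/
lemma Pr_Coin' (hP : Pert μ w B ε) (Bt : Finset ℕ) (P : ℕ → Finset ℕ) (n : ℕ) (G : Finset ℕ)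
    {D : ℝ} (hD : 0 < D) (hw : ∀ s ∈ G, D ≤ w s + 1) (E M F : ℕ) (hE : ∀ s ∈ G, w s ≤ E)
    (hM : ∀ a, (Nea P G a E).card ≤ M)
    (hF : ∀ s ∈ G, ∀ v, ((Bt ×ˢ P s).filter (fun p => p.1 + p.2 = v)).card ≤ F) :
    Pr μ ε (Coin Bt P n G) ≤
      (M : ℝ) * (B / D) * (F * ∑ s ∈ G, Pr μ ε (fun x => Tgt Bt P n s (x s))) := by
  classical
  have hB : 0 ≤ B := (zero_le_one).trans (one_le_B hP)
  have h0 : Pr μ ε (Coin Bt P n G) ≤ Pr μ ε (fun x => ∃ q ∈ NP P G E,
      q.1.2 + x q.1.1 = q.2.2 + x q.2.1 ∧ ∃ b ∈ Bt, b + q.1.2 + x q.1.1 = n) := by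
    apply Pr_mono hP
    rintro x hx ⟨q, hq, h1, h2⟩
    refine ⟨q, ?_, h1, h2⟩
    unfold NP
    rw [Finset.mem_filter]
    have hq' := mem_LP.1 hq
    have h3 := hx q.1.1
    have h4 := hx q.2.1
    have h5 := hE _ hq'.1.1.1
    have h6 := hE _ hq'.1.2.1
    exact ⟨hq, by omega, by omega⟩
  refine h0.trans ((Pr_exists_le _ _ hP).trans ?_)
  have h1 : ∀ q ∈ NP P G E, Pr μ ε (fun x => q.1.2 + x q.1.1 = q.2.2 + x q.2.1 ∧
      ∃ b ∈ Bt, b + q.1.2 + x q.1.1 = n) ≤
      Pr μ ε (fun x => ∃ b ∈ Bt, b + q.1.2 + x q.1.1 = n) * (B / D) := by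
    intro q hq
    unfold NP at hq
    rw [Finset.mem_filter] at hq
    have hq' := mem_LP.1 hq.1
    have h2 := Pr_coinc hP hB hq'.2 q.1.2 q.2.2 (fun v => ∃ b ∈ Bt, b + q.1.2 + v = n)
    refine h2.trans (mul_le_mul_of_nonneg_left ?_ (Pr_nonneg _))
    exact div_le_div_of_nonneg_left hB hD (hw _ hq'.1.2.1)
  refine (Finset.sum_le_sum h1).trans ?_
  have h2 := sum_NP_le P G E M hM
    (fun q => Pr μ ε (fun x => ∃ b ∈ Bt, b + q.2 + x q.1 = n) * (B / D))
    (fun q _ => mul_nonneg (Pr_nonneg _) (div_nonneg hB hD.le))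
  refine h2.trans ?_
  have h3 : ∑ q ∈ Lab P G, Pr μ ε (fun x => ∃ b ∈ Bt, b + q.2 + x q.1 = n) * (B / D) =
      (∑ s ∈ G, ∑ a ∈ P s, Pr μ ε (fun x => ∃ b ∈ Bt, b + a + x s = n)) * (B / D) := by
    rw [Finset.sum_mul]
    unfold Lab
    rw [Finset.sum_sigma]
    apply Finset.sum_congr rfl
    intro s _
    rw [Finset.sum_mul]
  rw [h3]
  have h4 : ∑ s ∈ G, ∑ a ∈ P s, Pr μ ε (fun x => ∃ b ∈ Bt, b + a + x s = n) ≤
      F * ∑ s ∈ G, Pr μ ε (fun x => Tgt Bt P n s (x s)) := by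
    rw [Finset.mul_sum]
    exact Finset.sum_le_sum fun s hs => sum_el_le hP Bt P n s F (hF s hs)
  have h5 : 0 ≤ B / D := div_nonneg hB hD.le
  calc (M : ℝ) * ((∑ s ∈ G, ∑ a ∈ P s, Pr μ ε (fun x => ∃ b ∈ Bt, b + a + x s = n)) * (B / D))
      ≤ (M : ℝ) * ((F * ∑ s ∈ G, Pr μ ε (fun x => Tgt Bt P n s (x s))) * (B / D)) := by
        apply mul_le_mul_of_nonneg_left _ (by positivity)
        exact mul_le_mul_of_nonneg_right h4 h5
    _ = _ := by ring

/-- upper bound for the hitting probability by the number of near pairs -/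
lemma hit_le' (hP : Pert μ w B ε) (Bt : Finset ℕ) (P : ℕ → Finset ℕ) (n s : ℕ) (R : ℕ)
    (hR : ∀ a ∈ P s, (Bt.filter (fun b => b + a ≤ n ∧ n ≤ b + a + w s)).card ≤ R) :
    Pr μ ε (fun x => Tgt Bt P n s (x s)) ≤ ((P s).card * R : ℕ) * (B / (w s + 1)) := by
  classical
  have hB : 0 ≤ B := (zero_le_one).trans (one_le_B hP)
  have h1 : Pr μ ε (fun x => Tgt Bt P n s (x s)) ≤
      Pr μ ε (fun x => ∃ p ∈ (P s).sigma (fun a => Bt.filter (fun b => b + a ≤ n ∧ n ≤ b + a + w s)),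
        p.2 + p.1 + x s = n) := by
    apply Pr_mono hP
    rintro x hx ⟨b, hb, a, ha, h⟩
    refine ⟨⟨a, b⟩, ?_, h⟩
    rw [Finset.mem_sigma, Finset.mem_filter]
    have := hx s
    refine ⟨ha, hb, ?_, ?_⟩
    · show b + a ≤ n
      omega
    · show n ≤ b + a + w s
      omega
  refine h1.trans ((Pr_exists_le _ _ hP).trans ?_)
  have hc : ((P s).sigma (fun a => Bt.filter (fun b => b + a ≤ n ∧ n ≤ b + a + w s))).card ≤
      (P s).card * R := by
    rw [Finset.card_sigma]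
    exact (Finset.sum_le_card_nsmul _ _ R hR)
  calc _ ≤ ∑ _p ∈ (P s).sigma (fun a => Bt.filter (fun b => b + a ≤ n ∧ n ≤ b + a + w s)),
        B / (w s + 1) := by
        apply Finset.sum_le_sum
        intro p _
        by_cases hp : p.2 + p.1 ≤ n
        · refine (Pr_mono hP fun x _ h => ?_).trans (Pr_dens hP s (n - (p.2 + p.1)))
          change p.2 + p.1 + x s = n at h
          omega
        · refine le_trans (le_of_eq ?_) (div_nonneg hB (by positivity))
          have := hP.prob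
          have e : {ω | p.2 + p.1 + ε s ω = n} = ∅ := by
            ext ω
            simp only [Set.mem_ofPred_eq, Set.mem_empty_iff_false, iff_false]
            omega
          unfold Pr
          rw [e]
          exact measureReal_empty
    _ ≤ _ := by
        rw [Finset.sum_const, nsmul_eq_mul]
        apply mul_le_mul_of_nonneg_right _ (div_nonneg hB (by positivity))
        exact_mod_cast hc

/-- the frozen stage -/
lemma frozen' (hP : Pert μ w B ε) {K : ℕ} (P : ℕ → Finset ℕ) {G0 G1 : Finset ℕ}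
    (hd : Disjoint G0 G1) (z : ℕ → ℕ) {β D : ℝ} (hβ0 : 0 < β) (hβ1 : β ≤ 1) (hD : 0 < D)
    (hw : ∀ s ∈ G1, D ≤ w s + 1) (N : ℕ) (hN0 : 0 < N) (Q : Finset ℕ)
    (hQ : (Q : Set ℕ) = PImg P G0 z) (E M : ℕ) (hE : ∀ s ∈ G1, w s ≤ E)
    (hM : ∀ a, (Nea P G1 a E).card ≤ M)
    (hN : ∀ s ∈ G1, ∀ b ∈ Q, ∀ a ∈ P s, b + a + w s < N)
    (h2 : (∀ s ∈ G1, Q.card * (P s).card ≤ 2 * K * (Su Q (P s)).card) →
      2 * ((2 * K : ℕ) : ℝ) * β ≤ (∑ s ∈ G1, ((Su Q (P s)).card : ℝ)) / N)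
    (h3 : ∀ n, ∀ s ∈ G1, Pr μ ε (fun x => Tgt Q P n s (x s)) ≤ β)
    (h4 : (M : ℝ) * (B / D) * (((2 * K : ℕ) : ℝ) * (((2 * K : ℕ) : ℝ) * (2 * β))) ≤
      (β / 2) ^ (2 * K) / 2) :
    (β / 2) ^ (2 * K) / 2 ≤
      Pr μ ε (fun x => Lots P (G0 ∪ G1) 2 K (glue G0 z x)) := by
  classical
  have hB : 0 ≤ B := (zero_le_one).trans (one_le_B hP)
  have hsmall : (β / 2) ^ (2 * K) / 2 ≤ 1 := by
    have : (β / 2) ^ (2 * K) ≤ 1 := pow_le_one₀ (by linarith) (by linarith)
    linarith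
  have hA1 : ∀ x : ℕ → ℕ, (Q : Set ℕ) ⊆ PImg P (G0 ∪ G1) (glue G0 z x) := by
    intro x
    rw [hQ]
    rintro v ⟨s, hs, a, ha, rfl⟩
    refine ⟨s, Finset.mem_union_left _ hs, a, ha, ?_⟩
    simp [glue, hs]
  have hA2 : ∀ x : ℕ → ℕ, ∀ s ∈ G1, ∀ a ∈ P s, a + x s ∈ PImg P (G0 ∪ G1) (glue G0 z x) := by
    intro x s hs a ha
    refine ⟨s, Finset.mem_union_right _ hs, a, ha, ?_⟩
    have h : s ∉ G0 := fun h => (Finset.disjoint_left.1 hd) h hs
    simp [glue, h]
  by_cases hpairs : ∀ s ∈ G1, ∀ v, ((Q ×ˢ P s).filter (fun p => p.1 + p.2 = v)).card ≤ 2 * K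
  swap
  · push Not at hpairs
    obtain ⟨s, hs, v, hlt⟩ := hpairs
    rcases pairs' Q 1 K (P s) with h | h
    · have := h v
      rw [Bs_one] at this
      omega
    · rw [Pr_true hP]
      · exact hsmall
      · intro x _
        exact h (x s) _ (hA1 x) (hA2 x s hs)
  have hcards : ∀ s ∈ G1, Q.card * (P s).card ≤ 2 * K * (Su Q (P s)).card := by
    intro s hs
    rw [← Finset.card_product]
    exact Finset.card_le_mul_card_image _ _ (fun v _ => hpairs s hs v)
  have h5 := h2 hcards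
  obtain ⟨n, hn⟩ := exists_target hP Q P G1 N hN0 hN
  obtain ⟨H, hH1, hH2, hH3⟩ := exists_groups (fun s => Pr μ ε (fun x => Tgt Q P n s (x s)))
    hβ0.le (2 * K) G1 (fun s _ => Pr_nonneg _) (h3 n) (h5.trans hn)
  have h6 := Pr_groups hP H (2 * K) hH2 (fun s v => Tgt Q P n s v) hβ0.le hβ1
    (fun i hi => (hH3 i hi).1)
  set G : Finset ℕ := (range (2 * K)).biUnion H with hG
  have hGG1 : G ⊆ G1 := by
    intro s hs
    rw [hG, Finset.mem_biUnion] at hs
    obtain ⟨i, hi, hs⟩ := hs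
    exact hH1 i (Finset.mem_range.1 hi) hs
  have hHG : ∀ i < 2 * K, H i ⊆ G := by
    intro i hi s hs
    rw [hG, Finset.mem_biUnion]
    exact ⟨i, Finset.mem_range.2 hi, hs⟩
  have h7 : Pr μ ε (fun x => ∀ i < 2 * K, ∃ s ∈ H i, Tgt Q P n s (x s)) ≤
      Pr μ ε (fun x => Lots P (G0 ∪ G1) 2 K (glue G0 z x) ∨ Coin Q P n G x) := by
    apply Pr_mono hP
    intro x _ hx
    by_cases hc : Coin Q P n G x
    · exact Or.inr hc
    · left
      refine ⟨n, Lots_of_hits Q 1 K n P G H hHG hH2 _ (hA1 x) x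
        (fun s hs a ha => hA2 x s (hGG1 hs) a ha) ?_ ?_⟩
      · rw [Bs_one]; exact hx
      · rw [Bs_one]; exact hc
  have h8 := Pr_or_le hP (fun x => Lots P (G0 ∪ G1) 2 K (glue G0 z x)) (Coin Q P n G)
  have hsumG : ∑ s ∈ G, Pr μ ε (fun x => Tgt Q P n s (x s)) ≤ ((2 * K : ℕ) : ℝ) * (2 * β) := by
    have e1 : ∑ s ∈ G, Pr μ ε (fun x => Tgt Q P n s (x s)) =
        ∑ i ∈ range (2 * K), ∑ s ∈ H i, Pr μ ε (fun x => Tgt Q P n s (x s)) := by
      rw [hG]
      apply Finset.sum_biUnion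
      intro i hi j hj hij
      exact hH2 i (Finset.mem_range.1 hi) j (Finset.mem_range.1 hj) hij
    rw [e1]
    calc _ ≤ ∑ _i ∈ range (2 * K), 2 * β :=
          Finset.sum_le_sum fun i hi => (hH3 i (Finset.mem_range.1 hi)).2
      _ = _ := by rw [Finset.sum_const, Finset.card_range, nsmul_eq_mul]
  have h9 := Pr_Coin' hP Q P n G hD (fun s hs => hw s (hGG1 hs)) E M (2 * K)
    (fun s hs => hE s (hGG1 hs))
    (fun a => (Finset.card_le_card (Finset.filter_subset_filter _ (Lab_mono P hGG1))).trans (hM a))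
    (fun s hs => hpairs s (hGG1 hs))
  have h10 : (M : ℝ) * (B / D) * (((2 * K : ℕ) : ℝ) *
      ∑ s ∈ G, Pr μ ε (fun x => Tgt Q P n s (x s))) ≤
      (M : ℝ) * (B / D) * (((2 * K : ℕ) : ℝ) * (((2 * K : ℕ) : ℝ) * (2 * β))) := by
    apply mul_le_mul_of_nonneg_left _ (by positivity)
    exact mul_le_mul_of_nonneg_left hsumG (by positivity)
  linarith

end Pool.Agent.Q152.SlowRigid
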