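import Pool.Agent.Q152.SlowRigid

set_option autoImplicit false

/-! Random rigid displacements of pieces, with small amplitudes (order two): one scale. -/

namespace Pool.Agent.Q152.SlowRigid

open MeasureTheory ProbabilityTheory Finset
open Pool.Agent.W167.ET Pool.Agent.Q152.RigidPieces

variable {Ω : Type*} [MeasurableSpace Ω] {μ : Measure Ω} {w : ℕ → ℕ} {B : ℝ} {ε : ℕ → Ω → ℕ}

/-- the two shifted elements coincide -/
def ColE (q : (Σ _ : ℕ, ℕ) × (Σ _ : ℕ, ℕ)) (x : ℕ → ℕ) : Prop :=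
  q.1.2 + x q.1.1 = q.2.2 + x q.2.1

open Classical in
/-- many collisions -/
def Bad (P : ℕ → Finset ℕ) (G : Finset ℕ) (E : ℕ) (t : ℝ) (x : ℕ → ℕ) : Prop :=
  t ≤ (((NP P G E).filter (fun q => ColE q x)).card : ℝ)

lemma dep_Bad (P : ℕ → Finset ℕ) (G : Finset ℕ) (E : ℕ) (t : ℝ) : DepOn G (Bad P G E t) := by
  classical
  intro x y hxy
  unfold Bad
  have e : (NP P G E).filter (fun q => ColE q x) = (NP P G E).filter (fun q => ColE q y) := by
    apply Finset.filter_congr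
    intro q hq
    unfold NP at hq
    rw [Finset.mem_filter] at hq
    have h := mem_LP.1 hq.1
    unfold ColE
    rw [hxy _ h.1.1.1, hxy _ h.1.2.1]
  rw [e]

lemma Pr_Bad (hP : Pert μ w B ε) (P : ℕ → Finset ℕ) (G : Finset ℕ) (E M : ℕ) {D : ℝ} (hD : 0 < D)
    (hw : ∀ s ∈ G, D ≤ w s + 1) (hM : ∀ a, (Nea P G a E).card ≤ M) (t : ℝ) :
    t * Pr μ ε (Bad P G E t) ≤ (M : ℝ) * ((Lab P G).card * (B / D)) := by
  classical
  have hB : 0 ≤ B := (zero_le_one).trans (one_le_B hP)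
  have h1 := Pr_markov hP (S := G) (NP P G E) (fun q x => ColE q x) (by
    intro q hq x y hxy
    unfold NP at hq
    rw [Finset.mem_filter] at hq
    have h := mem_LP.1 hq.1
    show ColE q x ↔ ColE q y
    unfold ColE
    rw [hxy _ h.1.1.1, hxy _ h.1.2.1]) t
  refine h1.trans ?_
  have h2 : ∀ q ∈ NP P G E, Pr μ ε (fun x => ColE q x) ≤ B / D := by
    intro q hq
    unfold NP at hq
    rw [Finset.mem_filter] at hq
    have hq' := mem_LP.1 hq.1
    have h3 := Pr_coinc hP hB hq'.2 q.1.2 q.2.2 (fun _ => True)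
    have h4 : Pr μ ε (fun x => ColE q x) ≤
        Pr μ ε (fun x => q.1.2 + x q.1.1 = q.2.2 + x q.2.1 ∧ True) :=
      Pr_mono hP fun x _ h => ⟨h, trivial⟩
    refine h4.trans (h3.trans ?_)
    have h5 := Pr_le_one hP (fun _ => True)
    have h6 : B / (w q.2.1 + 1) ≤ B / D :=
      div_le_div_of_nonneg_left hB hD (hw _ hq'.1.2.1)
    calc Pr μ ε (fun _ => True) * (B / (w q.2.1 + 1)) ≤ 1 * (B / (w q.2.1 + 1)) :=
          mul_le_mul_of_nonneg_right h5 (div_nonneg hB (by positivity))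
      _ ≤ B / D := by rw [one_mul]; exact h6
  refine (Finset.sum_le_sum h2).trans ?_
  have h3 := sum_NP_le P G E M hM (fun _ => B / D) (fun _ _ => div_nonneg hB hD.le)
  refine h3.trans (le_of_eq ?_)
  rw [Finset.sum_const, nsmul_eq_mul]

/-- the frozen elements are many if there are few collisions -/
lemma card_image_ge (P : ℕ → Finset ℕ) (G : Finset ℕ) (E : ℕ) (t : ℝ) (z : ℕ → ℕ)
    (hz : ∀ s ∈ G, z s ≤ E) (hbad : ¬ Bad P G E t z) (Q : Finset ℕ)
    (hQ : Q = (Lab P G).image (fun q => q.2 + z q.1)) :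
    ((Lab P G).card : ℝ) - t ≤ Q.card := by
  classical
  unfold Bad at hbad
  push Not at hbad
  have h1 := image_card_add' (Lab P G) (fun q => q.2 + z q.1)
  rw [← hQ] at h1
  have h2 : (((Lab P G) ×ˢ (Lab P G)).filter
      (fun p => p.1 ≠ p.2 ∧ p.1.2 + z p.1.1 = p.2.2 + z p.2.1)).card ≤
      ((NP P G E).filter (fun q => ColE q z)).card := by
    apply Finset.card_le_card
    rintro ⟨⟨s, a⟩, ⟨s', a'⟩⟩ hq
    rw [Finset.mem_filter, Finset.mem_product] at hq
    obtain ⟨⟨hq1, hq2⟩, hne, heq⟩ := hq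
    have heq' : a + z s = a' + z s' := heq
    have hq1' := hq1
    have hq2' := hq2
    unfold Lab at hq1' hq2'
    rw [Finset.mem_sigma] at hq1' hq2'
    have hss : s ≠ s' := by
      rintro rfl
      apply hne
      have : a = a' := by omega
      rw [this]
    have h3 := hz s hq1'.1
    have h4 := hz s' hq2'.1
    rw [Finset.mem_filter]
    refine ⟨?_, heq⟩
    unfold NP
    rw [Finset.mem_filter]
    refine ⟨mem_LP.2 ⟨⟨hq1', hq2'⟩, hss⟩, ?_, ?_⟩
    · show a ≤ a' + E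
      omega
    · show a' ≤ a + E
      omega
  have h3 : (Lab P G).card ≤ Q.card + ((NP P G E).filter (fun q => ColE q z)).card := by
    refine h1.trans (Nat.add_le_add_left ?_ _)
    exact h2
  have h4 : ((Lab P G).card : ℝ) ≤ Q.card + (((NP P G E).filter (fun q => ColE q z)).card : ℝ) := by
    exact_mod_cast h3
  linarith

/-- **One sparse scale.** -/
theorem sparse (hP : Pert μ w B ε) (K C ρ : ℕ) (hK : 1 ≤ K) (hC : 1 ≤ C) (hρ : 1 ≤ ρ) {c : ℝ}
    (hc : 0 < c) : ∃ θ : ℝ, 0 < θ ∧ ∃ p : ℝ, (0 < p ∧ p ≤ 1) ∧ ∃ Y0 : ℕ, ∀ v V y X : ℕ,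
      Y0 ≤ v → v ^ 2 ≤ V → y ^ 2 ≤ X → X ≤ (2 * y) ^ 2 → V ≤ C * X →
      ∀ (P : ℕ → Finset ℕ) (F : Finset ℕ),
      (∀ s ∈ F, ∀ a ∈ P s, a ≤ 2 * X) → (∀ s ∈ F, V ≤ ρ * (w s + 1)) →
      (∀ s ∈ F, w s ≤ ρ * V) → Sp P F V v → (∀ s ∈ F, ((P s).card : ℝ) ≤ θ * v) →
      c * y ≤ ∑ s ∈ F, ((P s).card : ℝ) → p ≤ Pr μ ε (Lots P F 2 K) := by
  classical
  have hB1 : 1 ≤ B := one_le_B hP
  have hB : 0 < B := by linarith
  obtain ⟨α, hα⟩ : ∃ α : ℝ, α = min (c / 4) 1 := ⟨_, rfl⟩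
  have hα0 : 0 < α := by rw [hα]; exact lt_min (by linarith) one_pos
  have hαc : 4 * α ≤ c := by
    have : α ≤ c / 4 := hα.le.trans (min_le_left _ _)
    linarith
  have hα1 : α ≤ 1 := hα.le.trans (min_le_right _ _)
  obtain ⟨C1, hC1⟩ : ∃ C1 : ℕ, C1 = 5 + 2 * ρ * C := ⟨_, rfl⟩
  have hK0 : (0 : ℝ) < K := by exact_mod_cast hK
  have hC0 : (0 : ℝ) < C := by exact_mod_cast hC
  have hρ0 : (0 : ℝ) < ρ := by exact_mod_cast hρ
  have hC10 : (0 : ℝ) < C1 := by rw [hC1]; push_cast; positivity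
  obtain ⟨lam, hlam⟩ : ∃ lam : ℝ, lam = α ^ 2 / (16 * K * C1) := ⟨_, rfl⟩
  have hlam0 : 0 < lam := by rw [hlam]; positivity
  obtain ⟨m, hm⟩ : ∃ m : ℕ, m = 2 * K := ⟨_, rfl⟩
  have hm0 : (0 : ℝ) < m := by rw [hm]; push_cast; positivity
  obtain ⟨β, hβ⟩ : ∃ β : ℝ, β = min 1 (lam / (2 * m)) := ⟨_, rfl⟩
  have hβ0 : 0 < β := by rw [hβ]; exact lt_min one_pos (by positivity)
  have hβ1 : β ≤ 1 := hβ.le.trans (min_le_left _ _)
  have hβl : 2 * (m : ℝ) * β ≤ lam := by
    have : β ≤ lam / (2 * m) := hβ.le.trans (min_le_right _ _)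
    rw [le_div_iff₀ (by positivity)] at this
    linarith
  obtain ⟨θ, hθ⟩ : ∃ θ : ℝ, θ = min (α / (2 * C)) (β / ((2 * ρ + 1) * ρ * B)) := ⟨_, rfl⟩
  have hθ0 : 0 < θ := by rw [hθ]; exact lt_min (by positivity) (by positivity)
  have hθα : θ * (2 * C) ≤ α := by
    have : θ ≤ α / (2 * C) := hθ.le.trans (min_le_left _ _)
    rwa [le_div_iff₀ (by positivity)] at this
  have hθβ : θ * ((2 * ρ + 1) * ρ * B) ≤ β := by
    have : θ ≤ β / ((2 * ρ + 1) * ρ * B) := hθ.le.trans (min_le_right _ _)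
    rwa [le_div_iff₀ (by positivity)] at this
  obtain ⟨p1, hp1⟩ : ∃ p1 : ℝ, p1 = (β / 2) ^ m / 2 := ⟨_, rfl⟩
  have hp10 : 0 < p1 := by rw [hp1]; positivity
  have hp11 : p1 ≤ 1 := by
    have : (β / 2) ^ m ≤ 1 := pow_le_one₀ (by linarith) (by linarith)
    rw [hp1]
    linarith
  obtain ⟨Y0, hY0⟩ := exists_nat_ge (max (4 * ((2 * ρ + 1) * ρ * B))
    (((2 * ρ + 1) * ρ * B) * (m * (m * (2 * β))) / p1) : ℝ)
  refine ⟨θ, hθ0, p1 / 2, ⟨by linarith, by linarith⟩, Y0 + 1, ?_⟩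
  intro v V y X hv hvV hy1 hy2 hVX P F hPX hwV hwV' hSp hPs hsum
  have hv1 : 1 ≤ v := by omega
  have hV1 : 1 ≤ V := le_trans (Nat.one_le_pow _ _ hv1) hvV
  have hv0 : (0 : ℝ) < v := by exact_mod_cast hv1
  have hV0 : (0 : ℝ) < V := by exact_mod_cast hV1
  have hvY : (Y0 : ℝ) ≤ v := by
    have : Y0 ≤ v := by omega
    exact_mod_cast this
  have hva : 4 * ((2 * ρ + 1) * ρ * B) ≤ (v : ℝ) := (le_max_left _ _).trans (hY0.trans hvY)
  have hvb : ((2 * ρ + 1) * ρ * B) * (m * (m * (2 * β))) ≤ p1 * v := by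
    have := (le_max_right _ _).trans (hY0.trans hvY)
    rw [div_le_iff₀ hp10] at this
    linarith
  have hvVr : (v : ℝ) ^ 2 ≤ V := by exact_mod_cast hvV
  have hy1r : (y : ℝ) ^ 2 ≤ X := by exact_mod_cast hy1
  have hy2r : (X : ℝ) ≤ (2 * y) ^ 2 := by exact_mod_cast hy2
  have hX0' : 0 < X := by
    by_contra hcon
    have : X = 0 := by omega
    subst this
    omega
  have hX0 : (0 : ℝ) < X := by exact_mod_cast hX0'
  have hy0 : (0 : ℝ) < y := by
    by_contra hcon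
    have h1 : (y : ℝ) = 0 := le_antisymm (not_lt.1 hcon) (by positivity)
    rw [h1] at hy2r
    norm_num at hy2r
    linarith
  have hvy : (v : ℝ) ≤ 2 * C * y := by
    have h1 : (V : ℝ) ≤ C * X := by exact_mod_cast hVX
    have h2 : (1 : ℝ) ≤ C := by exact_mod_cast hC
    have h3 : (v : ℝ) ^ 2 ≤ (2 * C * y) ^ 2 := by
      calc (v : ℝ) ^ 2 ≤ C * X := hvVr.trans h1
        _ ≤ C * (2 * y) ^ 2 := mul_le_mul_of_nonneg_left hy2r hC0.le
        _ ≤ C ^ 2 * (2 * y) ^ 2 := by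
            apply mul_le_mul_of_nonneg_right _ (by positivity)
            nlinarith
        _ = _ := by ring
    exact (pow_le_pow_iff_left₀ (by positivity) (by positivity) (by norm_num)).1 h3
  -- the density
  obtain ⟨D, hD⟩ : ∃ D : ℝ, D = V / ρ := ⟨_, rfl⟩
  have hD0 : 0 < D := by rw [hD]; positivity
  have hwD : ∀ s ∈ F, D ≤ w s + 1 := by
    intro s hs
    rw [hD, div_le_iff₀ hρ0]
    have := hwV s hs
    have h2 : (V : ℝ) ≤ ρ * (w s + 1) := by exact_mod_cast this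
    linarith
  have hBD : B / D = ρ * B / V := by
    rw [hD]
    field_simp
  have hMs : (((2 * ρ + 1) * v : ℕ) : ℝ) * (B / D) ≤ (2 * ρ + 1) * ρ * B / v := by
    rw [hBD]
    push_cast
    rw [← mul_div_assoc, div_le_div_iff₀ hV0 hv0]
    have h1 : (v : ℝ) * v ≤ V := by nlinarith
    have h2 : 0 ≤ (2 * (ρ : ℝ) + 1) * ρ * B := by positivity
    nlinarith
  -- the two groups
  obtain ⟨G, hG1, hG2, hG3⟩ := exists_groups (fun s => ((P s).card : ℝ)) (β := α * y)
    (by positivity) 2 F (fun s _ => by positivity)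
    (fun s hs => by
      refine (hPs s hs).trans ?_
      calc θ * v ≤ θ * (2 * C * y) := mul_le_mul_of_nonneg_left hvy hθ0.le
        _ = θ * (2 * C) * y := by ring
        _ ≤ α * y := mul_le_mul_of_nonneg_right hθα hy0.le)
    (by push_cast; nlinarith)
  have hG0F := hG1 0 (by norm_num)
  have hG1F := hG1 1 (by norm_num)
  have hdis := hG2 0 (by norm_num) 1 (by norm_num) (by norm_num)
  obtain ⟨hA0, hA0'⟩ := hG3 0 (by norm_num)
  obtain ⟨hA1, hA1'⟩ := hG3 1 (by norm_num)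
  generalize hg0 : G 0 = G0 at hG0F hdis hA0 hA0'
  generalize hg1 : G 1 = G1 at hG1F hdis hA1 hA1'
  clear hG1 hG2 hG3
  have hL0 : ((Lab P G0).card : ℝ) = ∑ s ∈ G0, ((P s).card : ℝ) := by
    rw [card_Lab]; push_cast; rfl
  have hL0pos : (0 : ℝ) < (Lab P G0).card := by
    rw [hL0]
    exact lt_of_lt_of_le (by positivity) hA0
  have hSp0 : Sp P G0 V v := hSp.mono hG0F
  have hSp1 : Sp P G1 V v := hSp.mono hG1F
  -- few collisions
  obtain ⟨t, ht⟩ : ∃ t : ℝ, t = ((Lab P G0).card : ℝ) / 2 := ⟨_, rfl⟩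
  have hbad : Pr μ ε (Bad P G0 (ρ * V) t) ≤ 1 / 2 := by
    have h1 := Pr_Bad hP P G0 (ρ * V) ((2 * ρ + 1) * v) hD0 (fun s hs => hwD s (hG0F hs))
      (fun a => card_Nea hSp0 hV1 ρ a) t
    have h2 : (((2 * ρ + 1) * v : ℕ) : ℝ) * ((Lab P G0).card * (B / D)) ≤ t * (1 / 2) := by
      have h3 : (2 * (ρ : ℝ) + 1) * ρ * B / v ≤ 1 / 4 := by
        rw [div_le_iff₀ hv0]
        linarith
      calc (((2 * ρ + 1) * v : ℕ) : ℝ) * ((Lab P G0).card * (B / D))
          = (Lab P G0).card * ((((2 * ρ + 1) * v : ℕ) : ℝ) * (B / D)) := by ring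
        _ ≤ (Lab P G0).card * (1 / 4) :=
            mul_le_mul_of_nonneg_left (hMs.trans h3) hL0pos.le
        _ = t * (1 / 2) := by rw [ht]; ring
    have htpos : 0 < t := by rw [ht]; linarith
    exact le_of_mul_le_mul_left (h1.trans h2) htpos
  have hnbad : 1 / 2 ≤ Pr μ ε (fun x => ¬ Bad P G0 (ρ * V) t x) := by
    rw [Pr_not hP (dep_Bad P G0 (ρ * V) t)]
    linarith
  have hfr := Pr_freeze hP hdis.symm (E := Lots P (G0 ∪ G1) 2 K)
    (Y := fun x => ¬ Bad P G0 (ρ * V) t x)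
    (by rw [Finset.union_comm]; exact dep_Lots P (G0 ∪ G1) 2 K)
    (dep_Bad P G0 (ρ * V) t).not hp10.le (by
    intro z hz hzb
    obtain ⟨Q, hQdef⟩ : ∃ Q : Finset ℕ, Q = (Lab P G0).image (fun q => q.2 + z q.1) := ⟨_, rfl⟩
    have hzV : ∀ s ∈ G0, z s ≤ ρ * V := fun s hs => (hz s).trans (hwV' s (hG0F hs))
    have hQcard := card_image_ge P G0 (ρ * V) t z hzV hzb Q hQdef
    have hQlow : α * y / 2 ≤ (Q.card : ℝ) := by
      have h1 : (Lab P G0).card - t = ((Lab P G0).card : ℝ) / 2 := by rw [ht]; ring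
      rw [h1, hL0] at hQcard
      linarith
    have hQset : (Q : Set ℕ) = PImg P G0 z := by
      ext u
      rw [hQdef, Finset.mem_coe, Finset.mem_image]
      constructor
      · rintro ⟨⟨s, a⟩, hq, rfl⟩
        unfold Lab at hq
        rw [Finset.mem_sigma] at hq
        exact ⟨s, hq.1, a, hq.2, rfl⟩
      · rintro ⟨s, hs, a, ha, rfl⟩
        exact ⟨⟨s, a⟩, Finset.mem_sigma.2 ⟨hs, ha⟩, rfl⟩
    have hQmem : ∀ u ∈ Q, u ≤ 2 * X + ρ * (C * X) := by
      intro u hu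
      rw [hQdef, Finset.mem_image] at hu
      obtain ⟨⟨s, a⟩, hq, rfl⟩ := hu
      unfold Lab at hq
      rw [Finset.mem_sigma] at hq
      have h1 := hPX s (hG0F hq.1) a hq.2
      have h2 := hzV s hq.1
      have h3 : ρ * V ≤ ρ * (C * X) := Nat.mul_le_mul_left _ hVX
      show a + z s ≤ _
      omega
    rw [hp1, hm]
    apply frozen' hP P hdis z hβ0 hβ1 hD0 (fun s hs => hwD s (hG1F hs)) (C1 * X)
      (Nat.mul_pos (by exact_mod_cast hC10) hX0') Q hQset (ρ * V) ((2 * ρ + 1) * v)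
      (fun s hs => hwV' s (hG1F hs)) (fun a => card_Nea hSp1 hV1 ρ a)
    · intro s hs b hb a ha
      have h1 := hQmem b hb
      have h2 := hPX s (hG1F hs) a ha
      have h3 := hwV' s (hG1F hs)
      have h3' : ρ * V ≤ ρ * (C * X) := Nat.mul_le_mul_left _ hVX
      have h4 : C1 * X = 2 * X + ρ * (C * X) + 2 * X + ρ * (C * X) + X := by rw [hC1]; ring
      omega
    · intro hb2
      have hb2r : ∀ s ∈ G1, ((Q.card : ℕ) : ℝ) * (P s).card ≤
          2 * K * (Su Q (P s)).card := fun s hs => by exact_mod_cast hb2 s hs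
      have h1 : (Q.card : ℝ) * ∑ s ∈ G1, ((P s).card : ℝ) ≤
          2 * K * ∑ s ∈ G1, ((Su Q (P s)).card : ℝ) := by
        rw [Finset.mul_sum, Finset.mul_sum]
        exact Finset.sum_le_sum hb2r
      have h3 : (α * y / 2) * (α * y) ≤ 2 * K * ∑ s ∈ G1, ((Su Q (P s)).card : ℝ) := by
        refine le_trans ?_ h1
        exact mul_le_mul hQlow hA1 (by positivity) (by positivity)
      rw [← hm]
      refine hβl.trans ?_
      rw [hlam, div_le_div_iff₀ (by positivity) (by push_cast; positivity)]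
      push_cast
      have h4 : (X : ℝ) ≤ 4 * y ^ 2 := by
        have : ((2 : ℝ) * y) ^ 2 = 4 * y ^ 2 := by ring
        linarith
      calc α ^ 2 * ((C1 : ℝ) * X) ≤ α ^ 2 * (C1 * (4 * y ^ 2)) := by
            apply mul_le_mul_of_nonneg_left _ (by positivity)
            exact mul_le_mul_of_nonneg_left h4 hC10.le
        _ = (α * y / 2) * (α * y) * (8 * C1) := by ring
        _ ≤ (2 * K * ∑ s ∈ G1, ((Su Q (P s)).card : ℝ)) * (8 * C1) :=
              mul_le_mul_of_nonneg_right h3 (by positivity)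
        _ = _ := by ring
    · intro n s hs
      have h1 := hit_le' hP Q P n s ((2 * ρ + 1) * v) (by
        intro a ha
        have h2 : Q.filter (fun b => b + a ≤ n ∧ n ≤ b + a + w s) ⊆
            (Win P G0 (n - a - 2 * (ρ * V)) ((2 * ρ + 1) * V)).image (fun q => q.2 + z q.1) := by
          intro b hb
          rw [Finset.mem_filter, hQdef, Finset.mem_image] at hb
          obtain ⟨⟨⟨s', a'⟩, hq, rfl⟩, h3, h4⟩ := hb
          rw [Finset.mem_image]
          refine ⟨⟨s', a'⟩, ?_, rfl⟩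
          have hq' := hq
          unfold Lab at hq'
          rw [Finset.mem_sigma] at hq'
          have h5 := hzV s' hq'.1
          have h6 := hwV' s (hG1F hs)
          have h3' : a' + z s' + a ≤ n := h3
          have h4' : n ≤ a' + z s' + a + w s := h4
          have e : (2 * ρ + 1) * V = 2 * (ρ * V) + V := by ring
          unfold Win
          rw [Finset.mem_filter, e]
          refine ⟨hq, ?_, ?_⟩
          · show n - a - 2 * (ρ * V) ≤ a'
            omega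
          · show a' < n - a - 2 * (ρ * V) + (2 * (ρ * V) + V)
            omega
        exact (Finset.card_le_card h2).trans (Finset.card_image_le.trans (hSp0.mul _ _)))
      refine h1.trans ?_
      have h2 : B / (w s + 1) ≤ B / D := div_le_div_of_nonneg_left hB.le hD0 (hwD s (hG1F hs))
      have h3 := hPs s (hG1F hs)
      calc (((P s).card * ((2 * ρ + 1) * v) : ℕ) : ℝ) * (B / (w s + 1))
          ≤ (((P s).card * ((2 * ρ + 1) * v) : ℕ) : ℝ) * (B / D) :=
            mul_le_mul_of_nonneg_left h2 (by positivity)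
        _ = ((P s).card : ℝ) * ((((2 * ρ + 1) * v : ℕ) : ℝ) * (B / D)) := by push_cast; ring
        _ ≤ (θ * v) * ((2 * ρ + 1) * ρ * B / v) :=
            mul_le_mul h3 hMs (by positivity) (by positivity)
        _ = θ * ((2 * ρ + 1) * ρ * B) := by field_simp
        _ ≤ β := hθβ
    · rw [← hm]
      have h1 : (((2 * ρ + 1) * v : ℕ) : ℝ) * (B / D) * ((m : ℝ) * (m * (2 * β))) ≤
          ((2 * ρ + 1) * ρ * B / v) * (m * (m * (2 * β))) :=
        mul_le_mul_of_nonneg_right hMs (by positivity)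
      refine h1.trans ?_
      rw [← hp1, div_mul_eq_mul_div, div_le_iff₀ hv0]
      exact hvb)
  have h1 : p1 / 2 ≤ Pr μ ε (Lots P (G0 ∪ G1) 2 K) := by
    refine le_trans ?_ hfr
    calc p1 / 2 = p1 * (1 / 2) := by ring
      _ ≤ _ := mul_le_mul_of_nonneg_left hnbad hp10.le
  refine h1.trans (Pr_mono hP fun x _ hx => Lots_mono ?_ hx)
  exact Finset.union_subset hG0F hG1F

/-- translation -/
lemma r_translate (A A' : Set ℕ) (z h m : ℕ) (hA : ∀ v ∈ A', v + z ∈ A) :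
    r A' h m ≤ r A h (m + h * z) := by
  change (msets A' h m).ncard ≤ (msets A h (m + h * z)).ncard
  refine Set.ncard_le_ncard_of_injOn (fun s => s.map (· + z)) ?_ ?_ (msets_finite _ _ _)
  · rintro s ⟨h1, h2, h3⟩
    refine ⟨by rw [Multiset.card_map, h1], ?_, ?_⟩
    · intro a ha
      rw [Multiset.mem_map] at ha
      obtain ⟨b, hb, rfl⟩ := ha
      exact hA b (h2 b hb)
    · rw [Multiset.sum_map_add, Multiset.map_id', h3, Multiset.map_const', Multiset.sum_replicate,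
        h1, smul_eq_mul]
  · intro s _ t _ hst
    exact Multiset.map_injective (add_left_injective z) hst

lemma Lots_translate {P P' : ℕ → Finset ℕ} {F : Finset ℕ} {h K z : ℕ} {x : ℕ → ℕ}
    (hP : ∀ s ∈ F, ∀ a ∈ P' s, a + z ∈ P s) (hx : Lots P' F h K x) : Lots P F h K x := by
  obtain ⟨m, hm⟩ := hx
  refine ⟨m + h * z, hm.trans (r_translate _ _ z h m ?_)⟩
  rintro v ⟨s, hs, a, ha, rfl⟩
  exact ⟨s, hs, a + z, hP s hs a ha, by omega⟩

/-- **One scale**, small amplitudes. -/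
theorem scale' (hP : Pert μ w B ε) (K C ρ : ℕ) (hK : 1 ≤ K) (hC : 1 ≤ C) (hρ : 1 ≤ ρ) {c : ℝ}
    (hc : 0 < c) : ∃ θ : ℝ, 0 < θ ∧ ∃ p : ℝ, (0 < p ∧ p ≤ 1) ∧ ∃ Y0 : ℕ, ∀ v V y X : ℕ,
      Y0 ≤ v → v ^ 2 ≤ V → V ≤ (2 * v) ^ 2 → y ^ 2 ≤ X → X ≤ (2 * y) ^ 2 → V ≤ C * X →
      ∀ (P : ℕ → Finset ℕ) (F : Finset ℕ),
      (∀ s ∈ F, ∀ a ∈ P s, a ≤ 2 * X) → (∀ s ∈ F, V ≤ ρ * (w s + 1)) →
      (∀ s ∈ F, w s ≤ ρ * V) → (∀ s ∈ F, ((P s).card : ℝ) ≤ θ * v) →
      c * y ≤ ∑ s ∈ F, ((P s).card : ℝ) → p ≤ Pr μ ε (Lots P F 2 K) := by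
  classical
  obtain ⟨θ1, hθ1, p1, ⟨hp1, hp1'⟩, Y1, h1⟩ := sparse hP K C ρ hK hC hρ hc
  have hρ0 : (0 : ℝ) < ρ := by exact_mod_cast hρ
  obtain ⟨θ2, hθ2, p2, ⟨hp2, hp2'⟩, Y2, h2⟩ := scale hP 1 K ρ le_rfl hK
    (δ := 1 / ρ) (c := 1) (by positivity) one_pos
  refine ⟨min θ1 θ2, lt_min hθ1 hθ2, min p1 p2, ⟨lt_min hp1 hp2, (min_le_left _ _).trans hp1'⟩,
    Y1 + Y2, ?_⟩
  intro v V y X hv hvV hvV' hy1 hy2 hVX P F hPX hwV hwV' hPs hsum
  have hv0 : (0 : ℝ) ≤ v := by positivity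
  by_cases hSp : Sp P F V v
  · exact (min_le_left _ _).trans (h1 v V y X (by omega) hvV hy1 hy2 hVX P F hPX hwV hwV' hSp
      (fun s hs => (hPs s hs).trans (mul_le_mul_of_nonneg_right (min_le_left _ _) hv0)) hsum)
  · unfold Sp at hSp
    push Not at hSp
    obtain ⟨z, hz⟩ := hSp
    set P' : ℕ → Finset ℕ := fun s => ((P s).filter (fun a => z ≤ a ∧ a < z + V)).image
      (fun a => a - z) with hP'
    have hcard : ∀ s, (P' s).card = ((P s).filter (fun a => z ≤ a ∧ a < z + V)).card := by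
      intro s
      rw [hP']
      apply Finset.card_image_of_injOn
      intro a ha b hb hab
      rw [Finset.mem_coe, Finset.mem_filter] at ha hb
      have : a - z = b - z := hab
      omega
    have h3 : p2 ≤ Pr μ ε (Lots P' F 2 K) := by
      apply h2 v (by omega) V hvV hvV' P' F
      · intro s _ a ha
        rw [hP', Finset.mem_image] at ha
        obtain ⟨b, hb, rfl⟩ := ha
        rw [Finset.mem_filter] at hb
        omega
      · intro s hs
        rw [one_div, inv_mul_le_iff₀ hρ0]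
        exact_mod_cast hwV s hs
      · exact hwV'
      · intro s hs
        have e1 : ((P' s).card : ℝ) ≤ (P s).card := by
          rw [hcard s]
          exact_mod_cast Finset.card_filter_le _ _
        exact e1.trans ((hPs s hs).trans (mul_le_mul_of_nonneg_right (min_le_right _ _) hv0))
      · have e1 : (Win P F z V).card = ∑ s ∈ F, (P' s).card := by
          have e2 : Win P F z V = F.sigma (fun s => (P s).filter (fun a => z ≤ a ∧ a < z + V)) := by
            ext q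
            unfold Win Lab
            rw [Finset.mem_filter, Finset.mem_sigma, Finset.mem_sigma, Finset.mem_filter]
            tauto
          rw [e2, Finset.card_sigma]
          exact Finset.sum_congr rfl fun s _ => (hcard s).symm
        rw [one_mul]
        have e3 : v ≤ ∑ s ∈ F, (P' s).card := by
          rw [← e1]
          exact hz.le
        exact_mod_cast e3
    refine (min_le_right _ _).trans (h3.trans (Pr_mono hP fun x _ hx => ?_))
    refine Lots_translate (z := z) ?_ hx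
    intro s _ a ha
    rw [hP', Finset.mem_image] at ha
    obtain ⟨b, hb, rfl⟩ := ha
    rw [Finset.mem_filter] at hb
    have : b - z + z = b := by omega
    rw [this]
    exact hb.1

end Pool.Agent.Q152.SlowRigid
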