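import Mathlib

/-!
Toggles on the independent sets of a finite graph, words in the toggles, and an exchange lemma for
the orbits of the words.
-/

namespace Pool.Agent.Q152.Toggle

open Finset

variable {V : Type} [Fintype V] [DecidableEq V] (G : SimpleGraph V)

/-- `A` is an independent set of `G`. -/
def Ind (A : Finset V) : Prop := ∀ u ∈ A, ∀ v ∈ A, ¬ G.Adj u v

/-- The set of the independent sets. -/
abbrev St := {A : Finset V // Ind G A}

open Classical in
/-- The toggle at `v`. -/
noncomputable def tog (v : V) (A : St G) : St G :=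
  ⟨univ.filter (fun x => if x = v then (v ∉ A.1 ∧ ∀ u ∈ A.1, ¬ G.Adj v u) else x ∈ A.1), by
    intro x hx y hy hxy
    rw [Finset.mem_filter] at hx hy
    by_cases hxv : x = v
    · by_cases hyv : y = v
      · rw [hxv, hyv] at hxy
        exact G.loopless.irrefl v hxy
      · rw [if_pos hxv] at hx
        rw [if_neg hyv] at hy
        exact hx.2.2 y hy.2 (hxv ▸ hxy)
    · by_cases hyv : y = v
      · rw [if_neg hxv] at hx
        rw [if_pos hyv] at hy
        exact hy.2.2 x hx.2 (hyv ▸ hxy.symm)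
      · rw [if_neg hxv] at hx
        rw [if_neg hyv] at hy
        exact A.2 x hx.2 y hy.2 hxy⟩

variable {G}

theorem mem_tog_self {v : V} {A : St G} :
    v ∈ (tog G v A).1 ↔ v ∉ A.1 ∧ ∀ u ∈ A.1, ¬ G.Adj v u := by
  simp [tog]

theorem mem_tog_ne {v x : V} {A : St G} (h : x ≠ v) : x ∈ (tog G v A).1 ↔ x ∈ A.1 := by
  simp [tog, h]

theorem tog_tog (v : V) (A : St G) : tog G v (tog G v A) = A := by
  apply Subtype.ext
  ext x
  by_cases hx : x = v
  · subst hx
    rw [mem_tog_self, mem_tog_self]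
    constructor
    · rintro ⟨h1, h2⟩
      by_contra hc
      apply h1
      refine ⟨hc, fun u hu hadj => ?_⟩
      have hux : u ≠ x := fun h => G.loopless.irrefl x (h ▸ hadj)
      exact h2 u ((mem_tog_ne hux).2 hu) hadj
    · intro h
      refine ⟨fun h1 => h1.1 h, fun u hu hadj => ?_⟩
      have hux : u ≠ x := fun h => G.loopless.irrefl x (h ▸ hadj)
      exact A.2 x h u ((mem_tog_ne hux).1 hu) hadj
  · rw [mem_tog_ne hx, mem_tog_ne hx]

variable (G) in
/-- The composition of the toggles in the list, the first one is applied first. -/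
noncomputable def run (l : List V) (A : St G) : St G := l.foldl (fun A v => tog G v A) A

@[simp] theorem run_nil (A : St G) : run G [] A = A := rfl

@[simp] theorem run_cons (v : V) (l : List V) (A : St G) :
    run G (v :: l) A = run G l (tog G v A) := rfl

theorem run_append (l l' : List V) (A : St G) : run G (l ++ l') A = run G l' (run G l A) := by
  simp [run, List.foldl_append]

theorem run_inj (l : List V) : Function.Injective (run G l) := by
  induction l with
  | nil => intro A B h; exact h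
  | cons v l ih =>
    intro A B h
    have h1 : tog G v A = tog G v B := ih h
    rw [← tog_tog v A, h1, tog_tog]

theorem mem_run_of_notMem {l : List V} {x : V} (hx : x ∉ l) (A : St G) :
    x ∈ (run G l A).1 ↔ x ∈ A.1 := by
  induction l generalizing A with
  | nil => rfl
  | cons v l ih =>
    rw [run_cons, ih (fun h => hx (List.mem_cons_of_mem _ h)), mem_tog_ne]
    rintro rfl
    exact hx List.mem_cons_self

/-- The indicator function of `y`. -/
def chi (y : V) (A : St G) : ℕ := if y ∈ A.1 then 1 else 0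

omit [Fintype V] in
theorem chi_congr {y z : V} {A B : St G} (h : y ∈ A.1 ↔ z ∈ B.1) : chi y A = chi z B := by
  unfold chi
  by_cases h1 : y ∈ A.1
  · rw [if_pos h1, if_pos (h.1 h1)]
  · rw [if_neg h1, if_neg (fun h2 => h1 (h.2 h2))]

/-- The number of the times `t < N` at which `y` belongs to the state. -/
noncomputable def cnt (f : St G → St G) (A : St G) (N : ℕ) (y : V) : ℕ :=
  ∑ t ∈ range N, chi y (f^[t] A)

theorem sum_shift (f : ℕ → ℕ) (N : ℕ) (h : f N = f 0) :
    ∑ t ∈ range N, f (t + 1) = ∑ t ∈ range N, f t := by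
  have h1 := Finset.sum_range_succ f N
  have h2 := Finset.sum_range_succ' f N
  omega

/-- The words `l` and `l'` have the same orbits, up to a bijection which preserves the number of
occurrences of each element in each orbit. -/
def Eqv (l l' : List V) : Prop :=
  ∃ Φ : St G ≃ St G, (∀ A, Φ (run G l A) = run G l' (Φ A)) ∧
    ∀ A N, (run G l)^[N] A = A → ∀ y, cnt (run G l) A N y = cnt (run G l') (Φ A) N y

omit [Fintype V] [DecidableEq V] in
theorem iterate_conj {f g : St G → St G} {Φ : St G → St G} (h : ∀ A, Φ (f A) = g (Φ A)) (N : ℕ)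
    (A : St G) : Φ (f^[N] A) = g^[N] (Φ A) := by
  induction N generalizing A with
  | zero => rfl
  | succ N ih => rw [Function.iterate_succ_apply, Function.iterate_succ_apply, ih, h]

theorem Eqv.refl (l : List V) : Eqv (G := G) l l := ⟨Equiv.refl _, fun _ => rfl, fun _ _ _ _ => rfl⟩

theorem Eqv.of_eq {l l' : List V} (h : ∀ A, run G l A = run G l' A) : Eqv (G := G) l l' := by
  have : run G l = run G l' := funext h
  exact ⟨Equiv.refl _, fun A => h A, fun A N _ y => by rw [this]; rfl⟩

theorem Eqv.symm {l l' : List V} (h : Eqv (G := G) l l') : Eqv (G := G) l' l := by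
  obtain ⟨Φ, h1, h2⟩ := h
  have h3 : ∀ A, Φ.symm (run G l' A) = run G l (Φ.symm A) := by
    intro A
    rw [Equiv.symm_apply_eq, h1, Equiv.apply_symm_apply]
  refine ⟨Φ.symm, h3, fun A N hN y => ?_⟩
  have h4 := h2 (Φ.symm A) N (by rw [← iterate_conj (Φ := Φ.symm) h3, hN]) y
  rw [Equiv.apply_symm_apply] at h4
  exact h4.symm

theorem Eqv.trans {l l' l'' : List V} (h : Eqv (G := G) l l') (h' : Eqv (G := G) l' l'') :
    Eqv (G := G) l l'' := by
  obtain ⟨Φ, h1, h2⟩ := h
  obtain ⟨Φ', h1', h2'⟩ := h'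
  refine ⟨Φ.trans Φ', fun A => ?_, fun A N hN y => ?_⟩
  · rw [Equiv.trans_apply, Equiv.trans_apply, h1, h1']
  · rw [h2 A N hN y, h2' (Φ A) N (by rw [← iterate_conj (Φ := Φ) h1, hN]) y]
    rfl

/-- Rotation of a word. -/
theorem Eqv.rotate (u : V) (l : List V) (hu : u ∉ l) : Eqv (G := G) (u :: l) (l ++ [u]) := by
  have hinv : Function.Involutive (tog G u) := tog_tog u
  refine ⟨hinv.toPerm, fun A => ?_, fun A N hN y => ?_⟩
  · simp only [Function.Involutive.coe_toPerm, run_cons, run_append, run_nil]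
  · have hconj : ∀ A, tog G u (run G (u :: l) A) = run G (l ++ [u]) (tog G u A) := by
      intro A
      simp only [run_cons, run_append, run_nil]
    simp only [Function.Involutive.coe_toPerm]
    unfold cnt
    by_cases hy : y = u
    · subst hy
      have h1 : ∀ t, (y ∈ ((run G (l ++ [y]))^[t] (tog G y A)).1) ↔
          y ∈ ((run G (y :: l))^[t + 1] A).1 := by
        intro t
        rw [← iterate_conj (Φ := tog G y) hconj, Function.iterate_succ_apply', run_cons,
          mem_run_of_notMem hu]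
      have h2 : ∀ t, chi y ((run G (l ++ [y]))^[t] (tog G y A)) =
          chi y ((run G (y :: l))^[t + 1] A) := fun t => chi_congr (h1 t)
      simp only [h2]
      symm
      apply sum_shift (fun t => chi y ((run G (y :: l))^[t] A))
      simp only [hN, Function.iterate_zero, id_eq]
    · apply Finset.sum_congr rfl
      intro t _
      apply chi_congr
      rw [← iterate_conj (Φ := tog G u) hconj, mem_tog_ne hy]

/-- Toggles at different vertices which are not adjacent commute. -/
theorem tog_comm {u v : V} (h : ¬ G.Adj u v) (A : St G) :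
    tog G u (tog G v A) = tog G v (tog G u A) := by
  by_cases huv : u = v
  · rw [huv]
  apply Subtype.ext
  ext x
  by_cases hxu : x = u
  · subst hxu
    rw [mem_tog_self, mem_tog_ne huv, mem_tog_ne huv, mem_tog_self]
    refine and_congr_right fun _ => forall_congr' fun y => ?_
    by_cases hyv : y = v
    · subst hyv; simp [h]
    · rw [mem_tog_ne hyv]
  · by_cases hxv : x = v
    · subst hxv
      rw [mem_tog_ne (Ne.symm huv), mem_tog_self, mem_tog_self, mem_tog_ne (Ne.symm huv)]
      refine and_congr_right fun _ => forall_congr' fun y => ?_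
      by_cases hyv : y = u
      · subst hyv
        have : ¬ G.Adj x y := fun h' => h h'.symm
        simp [this]
      · rw [mem_tog_ne hyv]
    · rw [mem_tog_ne hxu, mem_tog_ne hxv, mem_tog_ne hxv, mem_tog_ne hxu]

theorem prop1 (a b E F E' : Prop) (h : b → ¬ a ∧ E ∧ F) :
    (¬ (E ∧ ¬ a ∧ ¬ b) ∧ ¬ b ∧ E') ↔
      (E' ∧ ¬ (¬ a ∧ ¬ (¬ b ∧ ¬ a ∧ E ∧ F) ∧ E) ∧ ¬ (¬ b ∧ ¬ a ∧ E ∧ F)) := by
  tauto

theorem prop2 (a b E F : Prop) :
    ((¬ a ∧ ¬ (¬ b ∧ ¬ a ∧ E ∧ F) ∧ E) ∨ (¬ b ∧ ¬ a ∧ E ∧ F)) ↔ (E ∧ ¬ a) := by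
  tauto

theorem prop3 (a b E F a' b' E' F' : Prop) (hA : b → ¬ a ∧ E ∧ F) (hB : b' → ¬ a' ∧ E' ∧ F')
    (hq : b ↔ b') (hi : (E ∧ ¬ a ∧ ¬ b) ↔ (E' ∧ ¬ a' ∧ ¬ b'))
    (hq1 : (¬ b ∧ ¬ a ∧ E ∧ F) ↔ (¬ b' ∧ ¬ a' ∧ E' ∧ F')) :
    (¬ a ∧ ¬ (¬ b ∧ ¬ a ∧ E ∧ F) ∧ E) ↔ (¬ a' ∧ ¬ (¬ b' ∧ ¬ a' ∧ E' ∧ F') ∧ E') := by
  by_cases h : b
  · have h' := hq.1 h
    have h1 := hA h
    have h2 := hB h'
    constructor
    · intro _; exact ⟨h2.1, fun h3 => h3.1 h', h2.2.1⟩
    · intro _; exact ⟨h1.1, fun h3 => h3.1 h, h1.2.1⟩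
  · have h' : ¬ b' := fun h3 => h (hq.2 h3)
    constructor
    · rintro ⟨h1, h2, h3⟩
      have h4 := hi.1 ⟨h3, h1, h⟩
      exact ⟨h4.2.1, fun h5 => h2 (hq1.2 h5), h4.1⟩
    · rintro ⟨h1, h2, h3⟩
      have h4 := hi.2 ⟨h3, h1, h'⟩
      exact ⟨h4.2.1, fun h5 => h2 (hq1.1 h5), h4.1⟩

section exchange

variable (L : V → Prop) (i q : V)

/-- The hypotheses of the exchange lemma. -/
structure Exch (G : SimpleGraph V) (L : V → Prop) (i q : V) : Prop where
  li : L i
  lq : ¬ L q
  adj : G.Adj i q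
  twin : ∀ v, L v → v ≠ i → (G.Adj v i ↔ G.Adj v q)
  sep : ∀ v v', L v → ¬ L v' → v' ≠ q → ¬ G.Adj v v'

variable {L i q}

/-- locality on the side of `L` -/
theorem local_left (H : Exch G L i q) {l : List V} (hi : i ∉ l) (hq : q ∉ l) :
    ∀ {A B : St G}, (∀ v, L v → v ≠ i → (v ∈ A.1 ↔ v ∈ B.1)) →
      ((i ∈ A.1 ∨ q ∈ A.1) ↔ (i ∈ B.1 ∨ q ∈ B.1)) →
      ∀ v, L v → v ≠ i → (v ∈ (run G l A).1 ↔ v ∈ (run G l B).1) := by
  induction l with
  | nil => intro A B h1 _ v hv hvi; exact h1 v hv hvi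
  | cons x l ih =>
    intro A B h1 h2
    have hxi : x ≠ i := fun h => hi (h ▸ List.mem_cons_self)
    have hxq : x ≠ q := fun h => hq (h ▸ List.mem_cons_self)
    rw [run_cons, run_cons]
    apply ih (fun h => hi (List.mem_cons_of_mem _ h)) (fun h => hq (List.mem_cons_of_mem _ h))
    · intro v hv hvi
      by_cases hvx : v = x
      · subst hvx
        rw [mem_tog_self, mem_tog_self, h1 v hv hvi]
        refine and_congr_right fun _ => ?_
        -- the neighbours
        have key : ∀ C : St G, (∀ u ∈ C.1, ¬ G.Adj v u) ↔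
            ((∀ u ∈ C.1, L u → u ≠ i → ¬ G.Adj v u) ∧ (G.Adj v i → ¬ (i ∈ C.1 ∨ q ∈ C.1))) := by
          intro C
          constructor
          · intro h
            refine ⟨fun u hu _ _ => h u hu, fun hadj hc => ?_⟩
            rcases hc with hc | hc
            · exact h i hc hadj
            · exact h q hc ((H.twin v hv hvi).1 hadj)
          · rintro ⟨h3, h4⟩ u hu hadj
            by_cases hui : u = i
            · subst hui; exact h4 hadj (Or.inl hu)
            · by_cases huq : u = q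
              · subst huq; exact h4 ((H.twin v hv hvi).2 hadj) (Or.inr hu)
              · by_cases hLu : L u
                · exact h3 u hu hLu hui hadj
                · exact H.sep v u hv hLu huq hadj
        rw [key, key, h2]
        refine and_congr_left fun _ => forall_congr' fun u => ?_
        constructor
        · intro h hu hLu hui
          exact h ((h1 u hLu hui).2 hu) hLu hui
        · intro h hu hLu hui
          exact h ((h1 u hLu hui).1 hu) hLu hui
      · rw [mem_tog_ne hvx, mem_tog_ne hvx]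
        exact h1 v hv hvi
    · rw [mem_tog_ne hxi.symm, mem_tog_ne hxq.symm, mem_tog_ne hxi.symm, mem_tog_ne hxq.symm]
      exact h2

/-- locality on the other side -/
theorem local_right (H : Exch G L i q) {l : List V} (hq : q ∉ l) :
    ∀ {A B : St G}, (∀ v, ¬ L v → (v ∈ A.1 ↔ v ∈ B.1)) →
      ∀ v, ¬ L v → (v ∈ (run G l A).1 ↔ v ∈ (run G l B).1) := by
  induction l with
  | nil => intro A B h1 v hv; exact h1 v hv
  | cons x l ih =>
    intro A B h1
    have hxq : x ≠ q := fun h => hq (h ▸ List.mem_cons_self)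
    rw [run_cons, run_cons]
    apply ih (fun h => hq (List.mem_cons_of_mem _ h))
    intro v hv
    by_cases hvx : v = x
    · subst hvx
      rw [mem_tog_self, mem_tog_self, h1 v hv]
      refine and_congr_right fun _ => ?_
      have key : ∀ C : St G, (∀ u ∈ C.1, ¬ G.Adj v u) ↔ (∀ u ∈ C.1, ¬ L u → ¬ G.Adj v u) := by
        intro C
        constructor
        · intro h u hu _
          exact h u hu
        · intro h u hu hadj
          by_cases hLu : L u
          · exact H.sep u v hLu hv hxq hadj.symm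
          · exact h u hu hLu hadj
      rw [key, key]
      refine forall_congr' fun u => ?_
      constructor
      · intro h hu hLu
        exact h ((h1 u hLu).2 hu) hLu
      · intro h hu hLu
        exact h ((h1 u hLu).1 hu) hLu
    · rw [mem_tog_ne hvx, mem_tog_ne hvx]
      exact h1 v hv

/-- no neighbour of `i` on the side of `L` is in the state -/
def EE (G : SimpleGraph V) (L : V → Prop) (i : V) (A : St G) : Prop :=
  ∀ v ∈ A.1, L v → ¬ G.Adj v i

/-- no neighbour of `q` on the other side is in the state -/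
def FF (G : SimpleGraph V) (L : V → Prop) (q : V) (A : St G) : Prop :=
  ∀ v ∈ A.1, ¬ L v → ¬ G.Adj v q

theorem mem_tog_q (H : Exch G L i q) (A : St G) :
    q ∈ (tog G q A).1 ↔ q ∉ A.1 ∧ i ∉ A.1 ∧ EE G L i A ∧ FF G L q A := by
  rw [mem_tog_self]
  refine and_congr_right fun _ => ?_
  constructor
  · intro h
    refine ⟨fun hi => h i hi H.adj.symm, fun v hv hL hadj => ?_, fun v hv _ hadj => h v hv hadj.symm⟩
    by_cases hvi : v = i
    · subst hvi; exact G.loopless.irrefl v hadj
    · exact h v hv ((H.twin v hL hvi).1 hadj).symm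
  · rintro ⟨h1, h2, h3⟩ u hu hadj
    by_cases hLu : L u
    · by_cases hui : u = i
      · subst hui; exact h1 hu
      · exact h2 u hu hLu ((H.twin u hLu hui).2 hadj.symm)
    · exact h3 u hu hLu hadj.symm

theorem mem_tog_i (H : Exch G L i q) (A : St G) :
    i ∈ (tog G i A).1 ↔ i ∉ A.1 ∧ q ∉ A.1 ∧ EE G L i A := by
  rw [mem_tog_self]
  refine and_congr_right fun _ => ?_
  constructor
  · intro h
    exact ⟨fun hq => h q hq H.adj, fun v hv _ hadj => h v hv hadj.symm⟩
  · rintro ⟨h1, h2⟩ u hu hadj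
    by_cases hLu : L u
    · exact h2 u hu hLu hadj.symm
    · by_cases huq : u = q
      · subst huq; exact h1 hu
      · exact H.sep i u H.li hLu huq hadj

omit [Fintype V] [DecidableEq V] in
theorem ne_iq (H : Exch G L i q) : i ≠ q := fun h => H.lq (h ▸ H.li)

omit [Fintype V] [DecidableEq V] in
theorem EE_congr {A B : St G}
    (h : ∀ v, L v → v ≠ i → (v ∈ A.1 ↔ v ∈ B.1)) : EE G L i A ↔ EE G L i B := by
  have key : ∀ {A B : St G}, (∀ v, L v → v ≠ i → (v ∈ A.1 ↔ v ∈ B.1)) →
      EE G L i A → EE G L i B := by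
    intro A B h hE v hv hL hadj
    have hvi : v ≠ i := fun h => G.loopless.irrefl i (h ▸ hadj)
    exact hE v ((h v hL hvi).2 hv) hL hadj
  exact ⟨key h, key fun v hv hvi => (h v hv hvi).symm⟩

omit [Fintype V] [DecidableEq V] in
theorem FF_congr {A B : St G}
    (h : ∀ v, ¬ L v → v ≠ q → (v ∈ A.1 ↔ v ∈ B.1)) : FF G L q A ↔ FF G L q B := by
  have key : ∀ {A B : St G}, (∀ v, ¬ L v → v ≠ q → (v ∈ A.1 ↔ v ∈ B.1)) →
      FF G L q A → FF G L q B := by
    intro A B h hE v hv hL hadj
    have hvi : v ≠ q := fun h => G.loopless.irrefl q (h ▸ hadj)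
    exact hE v ((h v hL hvi).2 hv) hL hadj
  exact ⟨key h, key fun v hv hvi => (h v hv hvi).symm⟩

/-- the state after the two toggles -/
theorem mem_two_q (H : Exch G L i q) (A : St G) :
    q ∈ (tog G i (tog G q A)).1 ↔ q ∉ A.1 ∧ i ∉ A.1 ∧ EE G L i A ∧ FF G L q A := by
  rw [mem_tog_ne (ne_iq H).symm, mem_tog_q H]

theorem mem_two_i (H : Exch G L i q) (A : St G) :
    i ∈ (tog G i (tog G q A)).1 ↔
      i ∉ A.1 ∧ ¬ (q ∉ A.1 ∧ i ∉ A.1 ∧ EE G L i A ∧ FF G L q A) ∧ EE G L i A := by
  rw [mem_tog_i H, mem_tog_q H, mem_tog_ne (ne_iq H), EE_congr (A := tog G q A) (B := A)]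
  intro v hv _
  rw [mem_tog_ne]
  rintro rfl
  exact H.lq hv

omit [Fintype V] [DecidableEq V] in
/-- when `q` is in the state, no neighbour is -/
theorem of_mem_q (H : Exch G L i q) {A : St G} (hq : q ∈ A.1) :
    i ∉ A.1 ∧ EE G L i A ∧ FF G L q A := by
  refine ⟨fun hi => A.2 i hi q hq H.adj, fun v hv hL hadj => ?_, fun v hv _ hadj => A.2 v hv q hq hadj⟩
  have hvi : v ≠ i := fun h => G.loopless.irrefl i (h ▸ hadj)
  exact A.2 v hv q hq ((H.twin v hL hvi).1 hadj)

/-- after the two toggles one of the two elements is in the state if and only if `i` was free -/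
theorem mem_two_or (H : Exch G L i q) (A : St G) :
    (i ∈ (tog G i (tog G q A)).1 ∨ q ∈ (tog G i (tog G q A)).1) ↔ EE G L i A ∧ i ∉ A.1 := by
  rw [mem_two_i H, mem_two_q H]
  exact prop2 _ _ _ _

open Classical in
/-- The bijection of the exchange lemma. -/
noncomputable def psi (H : Exch G L i q) {l : List V} (hi : i ∉ l) (hq : q ∉ l) (A : St G) : St G :=
  ⟨univ.filter (fun v => if v = i then (EE G L i A ∧ i ∉ A.1 ∧ q ∉ A.1) else
      if v = q then q ∈ A.1 else if L v then v ∈ (run G (q :: i :: l) A).1 else v ∈ A.1), by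
    have hiq := ne_iq H
    have hrun : (i ∈ (run G (q :: i :: l) A).1 ∨ q ∈ (run G (q :: i :: l) A).1) ↔
        EE G L i A ∧ i ∉ A.1 := by
      rw [run_cons, run_cons, mem_run_of_notMem hi, mem_run_of_notMem hq, mem_two_or H]
    -- one half of the statement
    have key : ∀ x y, (if x = i then (EE G L i A ∧ i ∉ A.1 ∧ q ∉ A.1) else
        if x = q then q ∈ A.1 else if L x then x ∈ (run G (q :: i :: l) A).1 else x ∈ A.1) →
        (if y = i then (EE G L i A ∧ i ∉ A.1 ∧ q ∉ A.1) else
        if y = q then q ∈ A.1 else if L y then y ∈ (run G (q :: i :: l) A).1 else y ∈ A.1) →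
        L x → ¬ G.Adj x y := by
      intro x y hx hy hLx hadj
      have hxq : x ≠ q := fun h => H.lq (h ▸ hLx)
      by_cases hxi : x = i
      · subst hxi
        rw [if_pos rfl] at hx
        have hyx : y ≠ x := fun h => G.loopless.irrefl x (h ▸ hadj)
        rw [if_neg hyx] at hy
        by_cases hyq : y = q
        · rw [if_pos hyq] at hy
          exact hx.2.2 hy
        · rw [if_neg hyq] at hy
          by_cases hLy : L y
          · rw [if_pos hLy] at hy
            rcases hrun.2 ⟨hx.1, hx.2.1⟩ with h | h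
            · exact (run G (q :: x :: l) A).2 x h y hy hadj
            · exact (run G (q :: x :: l) A).2 q h y hy ((H.twin y hLy hyx).1 hadj.symm).symm
          · exact H.sep x y hLx hLy hyq hadj
      · rw [if_neg hxi, if_neg hxq, if_pos hLx] at hx
        by_cases hyi : y = i
        · subst hyi
          rw [if_pos rfl] at hy
          rcases hrun.2 ⟨hy.1, hy.2.1⟩ with h | h
          · exact (run G (q :: y :: l) A).2 x hx y h hadj
          · exact (run G (q :: y :: l) A).2 x hx q h ((H.twin x hLx hxi).1 hadj)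
        · rw [if_neg hyi] at hy
          by_cases hyq : y = q
          · subst hyq
            rw [if_pos rfl] at hy
            have h1 := of_mem_q H hy
            have hadj' : G.Adj x i := (H.twin x hLx hxi).2 hadj
            rcases hrun.2 ⟨h1.2.1, h1.1⟩ with h | h
            · exact (run G (y :: i :: l) A).2 x hx i h hadj'
            · exact (run G (y :: i :: l) A).2 x hx y h hadj
          · rw [if_neg hyq] at hy
            by_cases hLy : L y
            · rw [if_pos hLy] at hy
              exact (run G (q :: i :: l) A).2 x hx y hy hadj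
            · exact H.sep x y hLx hLy hyq hadj
    intro x hx y hy hadj
    rw [Finset.mem_filter] at hx hy
    by_cases hLx : L x
    · exact key x y hx.2 hy.2 hLx hadj
    · by_cases hLy : L y
      · exact key y x hy.2 hx.2 hLy hadj.symm
      · have hxi : x ≠ i := fun h => hLx (h ▸ H.li)
        have hyi : y ≠ i := fun h => hLy (h ▸ H.li)
        have hx' : x ∈ A.1 := by
          have := hx.2
          rw [if_neg hxi, if_neg hLx] at this
          by_cases hxq : x = q
          · rw [if_pos hxq] at this; rw [hxq]; exact this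
          · rw [if_neg hxq] at this; exact this
        have hy' : y ∈ A.1 := by
          have := hy.2
          rw [if_neg hyi, if_neg hLy] at this
          by_cases hyq : y = q
          · rw [if_pos hyq] at this; rw [hyq]; exact this
          · rw [if_neg hyq] at this; exact this
        exact A.2 x hx' y hy' hadj⟩

section psi

variable (H : Exch G L i q) {l : List V} (hi : i ∉ l) (hq : q ∉ l)

open Classical in
theorem mem_psi (A : St G) (v : V) : v ∈ (psi H hi hq A).1 ↔
    (if v = i then (EE G L i A ∧ i ∉ A.1 ∧ q ∉ A.1) else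
      if v = q then q ∈ A.1 else if L v then v ∈ (run G (q :: i :: l) A).1 else v ∈ A.1) := by
  unfold psi
  rw [Finset.mem_filter]
  exact ⟨fun h => h.2, fun h => ⟨Finset.mem_univ _, h⟩⟩

theorem mem_psi_i (A : St G) : i ∈ (psi H hi hq A).1 ↔ EE G L i A ∧ i ∉ A.1 ∧ q ∉ A.1 := by
  rw [mem_psi, if_pos rfl]

theorem mem_psi_q (A : St G) : q ∈ (psi H hi hq A).1 ↔ q ∈ A.1 := by
  rw [mem_psi, if_neg (ne_iq H).symm, if_pos rfl]

theorem mem_psi_left (A : St G) {v : V} (hL : L v) (hvi : v ≠ i) :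
    v ∈ (psi H hi hq A).1 ↔ v ∈ (run G (q :: i :: l) A).1 := by
  have hvq : v ≠ q := fun h => H.lq (h ▸ hL)
  rw [mem_psi, if_neg hvi, if_neg hvq, if_pos hL]

theorem mem_psi_right (A : St G) {v : V} (hL : ¬ L v) :
    v ∈ (psi H hi hq A).1 ↔ v ∈ A.1 := by
  have hvi : v ≠ i := fun h => hL (h ▸ H.li)
  by_cases hvq : v = q
  · rw [hvq]; exact mem_psi_q H hi hq A
  · rw [mem_psi, if_neg hvi, if_neg hvq, if_neg hL]

/-- The bijection is compatible with the two words. -/
theorem psi_run (A : St G) :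
    psi H hi hq (run G (q :: i :: l) A) = run G (i :: q :: l) (psi H hi hq A) := by
  have hiq := ne_iq H
  obtain ⟨B, hB⟩ : ∃ B, B = run G (q :: i :: l) A := ⟨_, rfl⟩
  obtain ⟨P, hP⟩ : ∃ P, P = psi H hi hq A := ⟨_, rfl⟩
  rw [← hB, ← hP]
  have hBi : i ∈ B.1 ↔ i ∉ A.1 ∧ ¬ (q ∉ A.1 ∧ i ∉ A.1 ∧ EE G L i A ∧ FF G L q A) ∧ EE G L i A := by
    rw [hB, run_cons, run_cons, mem_run_of_notMem hi, mem_two_i H]
  have hBq : q ∈ B.1 ↔ q ∉ A.1 ∧ i ∉ A.1 ∧ EE G L i A ∧ FF G L q A := by
    rw [hB, run_cons, run_cons, mem_run_of_notMem hq, mem_two_q H]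
  have hPi : i ∈ P.1 ↔ EE G L i A ∧ i ∉ A.1 ∧ q ∉ A.1 := by rw [hP]; exact mem_psi_i H hi hq A
  have hPq : q ∈ P.1 ↔ q ∈ A.1 := by rw [hP]; exact mem_psi_q H hi hq A
  have hPL : ∀ v, L v → v ≠ i → (v ∈ P.1 ↔ v ∈ B.1) := by
    intro v hL hvi
    rw [hP, hB]; exact mem_psi_left H hi hq A hL hvi
  have hPR : ∀ v, ¬ L v → (v ∈ P.1 ↔ v ∈ A.1) := by
    intro v hL
    rw [hP]; exact mem_psi_right H hi hq A hL
  have hEP : EE G L i P ↔ EE G L i B := EE_congr hPL
  have hFP : FF G L q P ↔ FF G L q A := FF_congr fun v hL _ => hPR v hL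
  have hAq := of_mem_q H (A := A)
  have hBq' := of_mem_q H (A := B)
  -- the state `P` after the toggle at `i`
  have hTi : i ∈ (tog G i P).1 ↔ EE G L i B ∧ i ∉ B.1 ∧ q ∉ B.1 := by
    rw [mem_tog_i H, hPi, hPq, hEP, hBi, hBq]
    exact prop1 _ _ _ _ _ hAq
  -- the state `P` after the two toggles
  have hCi : i ∈ (tog G q (tog G i P)).1 ↔ EE G L i B ∧ i ∉ B.1 ∧ q ∉ B.1 := by
    rw [mem_tog_ne hiq, hTi]
  have hCq : q ∈ (tog G q (tog G i P)).1 ↔ q ∈ B.1 := by
    rw [mem_tog_q H, mem_tog_ne hiq.symm, hTi, hPq]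
    have h1 : EE G L i (tog G i P) ↔ EE G L i P := EE_congr fun v _ hvi => mem_tog_ne hvi
    have h2 : FF G L q (tog G i P) ↔ FF G L q P := FF_congr fun v hL _ =>
      mem_tog_ne (fun h => hL (h ▸ H.li))
    rw [h1, h2, hEP, hFP]
    have h3 : (i ∈ B.1 ∨ q ∈ B.1) ↔ EE G L i A ∧ i ∉ A.1 := by
      rw [hBi, hBq]; exact prop2 _ _ _ _
    constructor
    · rintro ⟨h4, h5, h6, h7⟩
      rw [hBq]
      have h8 : i ∈ B.1 ∨ q ∈ B.1 := by
        by_contra hc
        push Not at hc
        exact h5 ⟨h6, hc.1, hc.2⟩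
      have h9 := h3.1 h8
      exact ⟨h4, h9.2, h9.1, h7⟩
    · intro h4
      have h5 := hBq.1 h4
      have h6 := hBq' h4
      exact ⟨h5.1, fun h => h.2.2 h4, h6.2.1, h5.2.2.2⟩
  apply Subtype.ext
  ext v
  by_cases hvi : v = i
  · subst hvi
    rw [mem_psi_i H hi hq, run_cons, run_cons, mem_run_of_notMem hi, hCi]
  · by_cases hL : L v
    · rw [mem_psi_left H hi hq B hL hvi, run_cons, run_cons, run_cons, run_cons]
      apply local_left H hi hq _ _ v hL hvi
      · intro u hLu hui
        have huq : u ≠ q := fun h => H.lq (h ▸ hLu)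
        rw [mem_tog_ne hui, mem_tog_ne huq, mem_tog_ne huq, mem_tog_ne hui, hPL u hLu hui]
      · rw [mem_two_or H, hCi, hCq]
        constructor
        · rintro ⟨h1, h2⟩
          by_cases h3 : q ∈ B.1
          · exact Or.inr h3
          · exact Or.inl ⟨h1, h2, h3⟩
        · rintro (h1 | h1)
          · exact ⟨h1.1, h1.2.1⟩
          · have := hBq' h1
            exact ⟨this.2.1, this.1⟩
    · rw [mem_psi_right H hi hq B hL, hB, run_cons, run_cons, run_cons, run_cons]
      apply local_right H hq _ v hL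
      intro u hLu
      have hui : u ≠ i := fun h => hLu (h ▸ H.li)
      by_cases huq : u = q
      · subst huq
        rw [hCq, hB, run_cons, run_cons, mem_run_of_notMem hq]
      · rw [mem_tog_ne hui, mem_tog_ne huq, mem_tog_ne huq, mem_tog_ne hui, hPR u hLu]

theorem psi_inj : Function.Injective (psi H hi hq) := by
  intro A B hAB
  have hiq := ne_iq H
  have hAB' : psi H hi hq (run G (q :: i :: l) A) = psi H hi hq (run G (q :: i :: l) B) := by
    rw [psi_run, psi_run, hAB]
  apply run_inj (G := G) (q :: i :: l)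
  apply Subtype.ext
  ext v
  have hq0 : q ∈ A.1 ↔ q ∈ B.1 := by
    rw [← mem_psi_q H hi hq A, ← mem_psi_q H hi hq B, hAB]
  have hi0 : (EE G L i A ∧ i ∉ A.1 ∧ q ∉ A.1) ↔ (EE G L i B ∧ i ∉ B.1 ∧ q ∉ B.1) := by
    rw [← mem_psi_i H hi hq A, ← mem_psi_i H hi hq B, hAB]
  have hq1 : q ∈ (run G (q :: i :: l) A).1 ↔ q ∈ (run G (q :: i :: l) B).1 := by
    rw [← mem_psi_q H hi hq (run G (q :: i :: l) A), ← mem_psi_q H hi hq (run G (q :: i :: l) B),
      hAB']
  by_cases hvi : v = i
  · subst hvi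
    have h1 : ∀ A : St G, v ∈ (run G (q :: v :: l) A).1 ↔
        v ∉ A.1 ∧ ¬ (q ∉ A.1 ∧ v ∉ A.1 ∧ EE G L v A ∧ FF G L q A) ∧ EE G L v A := by
      intro A
      rw [run_cons, run_cons, mem_run_of_notMem hi, mem_two_i H]
    have h2 : ∀ A : St G, q ∈ (run G (q :: v :: l) A).1 ↔
        q ∉ A.1 ∧ v ∉ A.1 ∧ EE G L v A ∧ FF G L q A := by
      intro A
      rw [run_cons, run_cons, mem_run_of_notMem hq, mem_two_q H]
    rw [h2, h2] at hq1
    rw [h1, h1]
    have hA := of_mem_q H (A := A)
    have hB := of_mem_q H (A := B)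
    exact prop3 _ _ _ _ _ _ _ _ hA hB hq0 hi0 hq1
  · by_cases hL : L v
    · rw [← mem_psi_left H hi hq A hL hvi, ← mem_psi_left H hi hq B hL hvi, hAB]
    · rw [← mem_psi_right H hi hq _ hL, ← mem_psi_right H hi hq (run G (q :: i :: l) B) hL, hAB']

include H hi hq in
/-- **The exchange lemma.** -/
theorem Eqv.exchange : Eqv (G := G) (q :: i :: l) (i :: q :: l) := by
  have hiq := ne_iq H
  refine ⟨Equiv.ofBijective _ (Finite.injective_iff_bijective.1 (psi_inj H hi hq)),
    fun A => psi_run H hi hq A, fun A N hN y => ?_⟩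
  rw [Equiv.ofBijective_apply]
  unfold cnt
  obtain ⟨w, hw⟩ : ∃ w, w = run G (q :: i :: l) := ⟨_, rfl⟩
  have h1 : ∀ t, (run G (i :: q :: l))^[t] (psi H hi hq A) = psi H hi hq (w^[t] A) := by
    intro t
    rw [hw, iterate_conj (fun A => psi_run H hi hq A)]
  simp only [h1]
  rw [← hw] at hN ⊢
  have hN' : ∀ z, chi z (w^[N] A) = chi z (w^[0] A) := by
    intro z; rw [hN, Function.iterate_zero, id_eq]
  by_cases hyi : y = i
  · subst hyi
    -- pointwise identity
    have h2 : ∀ t, chi y (psi H hi hq (w^[t] A)) + chi q (w^[t] A) =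
        chi q (w^[t + 1] A) + chi y (w^[t + 1] A) := by
      intro t
      obtain ⟨B, hB⟩ : ∃ B, B = w^[t] A := ⟨_, rfl⟩
      rw [Function.iterate_succ_apply', ← hB, hw]
      have e1 := mem_psi_i H hi hq B
      have e2 : y ∈ (run G (q :: y :: l) B).1 ↔
          y ∉ B.1 ∧ ¬ (q ∉ B.1 ∧ y ∉ B.1 ∧ EE G L y B ∧ FF G L q B) ∧ EE G L y B := by
        rw [run_cons, run_cons, mem_run_of_notMem hi, mem_two_i H]
      have e3 : q ∈ (run G (q :: y :: l) B).1 ↔
          q ∉ B.1 ∧ y ∉ B.1 ∧ EE G L y B ∧ FF G L q B := by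
        rw [run_cons, run_cons, mem_run_of_notMem hq, mem_two_q H]
      have hBq := of_mem_q H (A := B)
      unfold chi
      by_cases c1 : q ∈ B.1
      · have h5 := hBq c1
        rw [if_neg (fun h => (e1.1 h).2.2 c1), if_pos c1, if_neg (fun h => (e3.1 h).1 c1),
          if_pos (e2.2 ⟨h5.1, fun h => h.1 c1, h5.2.1⟩)]
      · rw [if_neg c1]
        by_cases c2 : EE G L y B ∧ y ∉ B.1
        · rw [if_pos (e1.2 ⟨c2.1, c2.2, c1⟩)]
          by_cases c3 : FF G L q B
          · rw [if_pos (e3.2 ⟨c1, c2.2, c2.1, c3⟩),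
              if_neg (fun h => (e2.1 h).2.1 ⟨c1, c2.2, c2.1, c3⟩)]
          · rw [if_neg (fun h => c3 (e3.1 h).2.2.2), if_pos (e2.2 ⟨c2.2, fun h => c3 h.2.2.2, c2.1⟩)]
        · rw [if_neg (fun h => c2 ⟨(e1.1 h).1, (e1.1 h).2.1⟩),
            if_neg (fun h => c2 ⟨(e3.1 h).2.2.1, (e3.1 h).2.1⟩),
            if_neg (fun h => c2 ⟨(e2.1 h).2.2, (e2.1 h).1⟩)]
    have h3 : ∑ t ∈ range N, chi y (psi H hi hq (w^[t] A)) + ∑ t ∈ range N, chi q (w^[t] A) =
        ∑ t ∈ range N, chi q (w^[t + 1] A) + ∑ t ∈ range N, chi y (w^[t + 1] A) := by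
      rw [← Finset.sum_add_distrib, ← Finset.sum_add_distrib]
      exact Finset.sum_congr rfl fun t _ => h2 t
    have h4 := sum_shift (fun t => chi q (w^[t] A)) N (hN' q)
    have h5 := sum_shift (fun t => chi y (w^[t] A)) N (hN' y)
    rw [h4, h5] at h3
    omega
  · by_cases hL : L y
    · have h2 : ∀ t, chi y (psi H hi hq (w^[t] A)) = chi y (w^[t + 1] A) := by
        intro t
        apply chi_congr
        rw [mem_psi_left H hi hq _ hL hyi, Function.iterate_succ_apply', hw]
      simp only [h2]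
      exact (sum_shift (fun t => chi y (w^[t] A)) N (hN' y)).symm
    · apply Finset.sum_congr rfl
      intro t _
      apply chi_congr
      rw [mem_psi_right H hi hq _ hL]

end psi

end exchange

section words

/-- rotation by a list -/
theorem Eqv.rot (l₁ l₂ : List V) (h : (l₁ ++ l₂).Nodup) : Eqv (G := G) (l₁ ++ l₂) (l₂ ++ l₁) := by
  induction l₁ generalizing l₂ with
  | nil => rw [List.nil_append, List.append_nil]; exact Eqv.refl _
  | cons u l₁ ih =>
    rw [List.cons_append] at h ⊢
    have h1 := List.nodup_cons.1 h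
    refine (Eqv.rotate u (l₁ ++ l₂) h1.1).trans ?_
    rw [List.append_assoc]
    have h2 : (l₁ ++ (l₂ ++ [u])).Nodup := by
      rw [← List.append_assoc]
      exact (List.perm_append_singleton u (l₁ ++ l₂)).nodup_iff.2 h
    refine (ih (l₂ ++ [u]) h2).trans ?_
    rw [List.append_assoc, List.singleton_append]
    exact Eqv.refl _

variable {free : V → Prop} (hfree : ∀ i q, free i → G.Adj i q → ∃ L, Exch G L i q)

/-- `u` and `v` may be exchanged when they are consecutive letters of a word -/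
def Sw (G : SimpleGraph V) (free : V → Prop) (u v : V) : Prop := ¬ G.Adj u v ∨ free u ∨ free v

include hfree

theorem Eqv.swap {l₁ l₂ : List V} {u v : V} (h : (l₁ ++ u :: v :: l₂).Nodup) (hs : Sw G free u v) :
    Eqv (G := G) (l₁ ++ u :: v :: l₂) (l₁ ++ v :: u :: l₂) := by
  have h' : (l₁ ++ v :: u :: l₂).Nodup := by
    refine (List.Perm.nodup_iff ?_).1 h
    exact List.Perm.append_left _ (List.Perm.swap _ _ _)
  have h1 : (u :: v :: l₂ ++ l₁).Nodup := (List.perm_append_comm.nodup_iff).1 h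
  have hu : u ∉ l₂ ++ l₁ := by
    rw [List.cons_append, List.nodup_cons] at h1
    exact fun hm => h1.1 (List.mem_cons_of_mem _ hm)
  have hv : v ∉ l₂ ++ l₁ := by
    rw [List.cons_append, List.nodup_cons, List.cons_append, List.nodup_cons] at h1
    exact h1.2.1
  by_cases hadj : G.Adj u v
  · have key : ∀ i q, i ∉ l₂ ++ l₁ → q ∉ l₂ ++ l₁ → free i → G.Adj i q →
        Eqv (G := G) (q :: i :: (l₂ ++ l₁)) (i :: q :: (l₂ ++ l₁)) := by
      intro i q hi hq hf ha
      obtain ⟨L, H⟩ := hfree i q hf ha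
      exact Eqv.exchange H hi hq
    have key2 : Eqv (G := G) (u :: v :: (l₂ ++ l₁)) (v :: u :: (l₂ ++ l₁)) := by
      rcases hs with hs | hs | hs
      · exact absurd hadj hs
      · exact (key u v hu hv hs hadj).symm
      · exact key v u hv hu hs hadj.symm
    refine (Eqv.rot _ _ h).trans (Eqv.trans ?_ (Eqv.rot _ _ h').symm)
    exact key2
  · apply Eqv.of_eq
    intro A
    rw [run_append, run_append, run_cons, run_cons, run_cons, run_cons, tog_comm hadj]

/-- a letter moves past a list -/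
theorem Eqv.move1 {x : V} (Y l₁ l₂ : List V) (h : (l₁ ++ x :: Y ++ l₂).Nodup)
    (hs : ∀ y ∈ Y, Sw G free x y) :
    Eqv (G := G) (l₁ ++ x :: Y ++ l₂) (l₁ ++ Y ++ x :: l₂) := by
  induction Y generalizing l₁ with
  | nil => rw [List.append_nil, List.append_assoc, List.singleton_append]; exact Eqv.refl _
  | cons y Y ih =>
    have e1 : l₁ ++ x :: y :: Y ++ l₂ = l₁ ++ x :: y :: (Y ++ l₂) := by simp
    have e2 : l₁ ++ y :: x :: (Y ++ l₂) = (l₁ ++ [y]) ++ x :: Y ++ l₂ := by simp
    have e3 : (l₁ ++ [y]) ++ Y ++ x :: l₂ = l₁ ++ y :: Y ++ x :: l₂ := by simp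
    rw [e1] at h ⊢
    have h' : (l₁ ++ y :: x :: (Y ++ l₂)).Nodup := by
      refine (List.Perm.nodup_iff ?_).1 h
      exact List.Perm.append_left _ (List.Perm.swap _ _ _)
    refine (Eqv.swap hfree h (hs y List.mem_cons_self)).trans ?_
    rw [e2] at h' ⊢
    rw [← e3]
    exact ih (l₁ ++ [y]) h' fun z hz => hs z (List.mem_cons_of_mem _ hz)

/-- two consecutive lists are exchanged -/
theorem Eqv.move (X Y l₁ l₂ : List V) (h : (l₁ ++ X ++ Y ++ l₂).Nodup)
    (hs : ∀ x ∈ X, ∀ y ∈ Y, Sw G free x y) :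
    Eqv (G := G) (l₁ ++ X ++ Y ++ l₂) (l₁ ++ Y ++ X ++ l₂) := by
  induction X generalizing l₁ with
  | nil => rw [List.append_nil, List.append_nil]; exact Eqv.refl _
  | cons x X ih =>
    have e1 : l₁ ++ x :: X ++ Y ++ l₂ = (l₁ ++ [x]) ++ X ++ Y ++ l₂ := by simp
    have e2 : (l₁ ++ [x]) ++ Y ++ X ++ l₂ = l₁ ++ x :: Y ++ (X ++ l₂) := by simp
    have e3 : l₁ ++ Y ++ x :: (X ++ l₂) = l₁ ++ Y ++ x :: X ++ l₂ := by simp
    rw [e1] at h ⊢
    have h' : ((l₁ ++ [x]) ++ Y ++ X ++ l₂).Nodup := by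
      refine (List.Perm.nodup_iff ?_).1 h
      apply List.Perm.append_right
      rw [List.append_assoc (l₁ ++ [x]) X Y, List.append_assoc (l₁ ++ [x]) Y X]
      exact List.Perm.append_left _ List.perm_append_comm
    refine (ih (l₁ ++ [x]) h fun z hz => hs z (List.mem_cons_of_mem _ hz)).trans ?_
    rw [e2] at h' ⊢
    rw [← e3]
    exact Eqv.move1 hfree Y l₁ (X ++ l₂) h' (hs x List.mem_cons_self)

/-- a list is split in two lists -/
theorem Eqv.split (P : V → Prop) [DecidablePred P] (l l₁ l₂ : List V)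
    (h : (l₁ ++ l ++ l₂).Nodup) (hs : l.Pairwise fun a b => ¬ P a → P b → Sw G free a b) :
    Eqv (G := G) (l₁ ++ l ++ l₂)
      (l₁ ++ (l.filter (fun a => decide (P a)) ++ l.filter (fun a => decide (¬ P a))) ++ l₂) := by
  induction l generalizing l₁ with
  | nil => exact Eqv.refl _
  | cons a l ih =>
    rw [List.pairwise_cons] at hs
    have e1 : l₁ ++ a :: l ++ l₂ = (l₁ ++ [a]) ++ l ++ l₂ := by simp
    rw [e1] at h ⊢
    refine (ih (l₁ ++ [a]) h hs.2).trans ?_
    by_cases hP : P a
    · have e2 : (a :: l).filter (fun a => decide (P a)) = a :: l.filter (fun a => decide (P a)) := by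
        simp [hP]
      have e3 : (a :: l).filter (fun a => decide (¬ P a)) = l.filter (fun a => decide (¬ P a)) := by
        simp [hP]
      rw [e2, e3]
      have e4 : l₁ ++ [a] ++ (l.filter (fun a => decide (P a)) ++ l.filter (fun a => decide (¬ P a)))
        ++ l₂ = l₁ ++ (a :: l.filter (fun a => decide (P a)) ++ l.filter (fun a => decide (¬ P a)))
        ++ l₂ := by simp
      rw [e4]
      exact Eqv.refl _
    · have e2 : (a :: l).filter (fun a => decide (P a)) = l.filter (fun a => decide (P a)) := by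
        simp [hP]
      have e3 : (a :: l).filter (fun a => decide (¬ P a)) = a :: l.filter (fun a => decide (¬ P a)) := by
        simp [hP]
      rw [e2, e3]
      have e4 : l₁ ++ [a] ++ (l.filter (fun a => decide (P a)) ++ l.filter (fun a => decide (¬ P a)))
        ++ l₂ = l₁ ++ a :: l.filter (fun a => decide (P a)) ++
          (l.filter (fun a => decide (¬ P a)) ++ l₂) := by simp
      have e5 : l₁ ++ (l.filter (fun a => decide (P a)) ++ a :: l.filter (fun a => decide (¬ P a)))
        ++ l₂ = l₁ ++ l.filter (fun a => decide (P a)) ++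
          a :: (l.filter (fun a => decide (¬ P a)) ++ l₂) := by simp
      rw [e4, e5]
      apply Eqv.move1 hfree
      · rw [← e4]
        refine (List.Perm.nodup_iff ?_).1 h
        apply List.Perm.append_right
        apply List.Perm.append_left
        have := (List.filter_append_perm (fun a => decide (P a)) l).symm
        simpa using this
      · intro b hb
        rw [List.mem_filter] at hb
        exact hs.1 b hb.1 hP (by simpa using hb.2)

/-- the letters of a word are sorted -/
theorem Eqv.bridge_aux (P : V → Prop) (N S : List V) (h : (N ++ S).Nodup) (hN : ∀ x ∈ N, free x)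
    (hs : S.Pairwise fun a b => ¬ P a → P b → Sw G free a b) [DecidablePred P] :
    Eqv (G := G) (N ++ S)
      (N ++ S.filter (fun a => decide (¬ P a)) ++ S.filter (fun a => decide (P a))) := by
  obtain ⟨A, hA⟩ : ∃ A, A = S.filter (fun a => decide (P a)) := ⟨_, rfl⟩
  obtain ⟨B, hB⟩ : ∃ B, B = S.filter (fun a => decide (¬ P a)) := ⟨_, rfl⟩
  have h1 : (N ++ S ++ []).Nodup := by rw [List.append_nil]; exact h
  have e1 := Eqv.split hfree P S N [] h1 hs
  rw [List.append_nil, List.append_nil, ← hA, ← hB] at e1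
  rw [← hA, ← hB]
  have hp : (N ++ (A ++ B)).Perm (N ++ S) := by
    apply List.Perm.append_left
    rw [hA, hB]
    have := (List.filter_append_perm (fun a => decide (P a)) S)
    simpa using this
  have h2 : (N ++ (A ++ B)).Nodup := hp.nodup_iff.2 h
  rw [← List.append_assoc] at h2 e1
  refine e1.trans ((Eqv.rot _ _ h2).trans ?_)
  have e2 : B ++ (N ++ A) = [] ++ B ++ N ++ A := by simp
  have e3 : N ++ B ++ A = [] ++ N ++ B ++ A := by simp
  have h3 : (B ++ (N ++ A)).Nodup := (List.perm_append_comm.nodup_iff).1 h2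
  rw [e2] at h3 ⊢
  rw [e3]
  exact Eqv.move hfree B N [] A h3 fun x _ y hy => Or.inr (Or.inr (hN y hy))

variable (hbridge : ∀ p q, ¬ free p → ¬ free q → G.Adj p q → ∃ P : V → Prop, P p ∧ ¬ P q ∧
  ∀ a b, ¬ free a → ¬ free b → P a → ¬ P b → G.Adj a b → a = p ∧ b = q)

include hbridge

theorem Eqv.bridge {l₁ l₂ : List V} {p q : V} (h : (l₁ ++ p :: q :: l₂).Nodup)
    (hp : ¬ free p) (hq : ¬ free q) (hadj : G.Adj p q) :
    Eqv (G := G) (l₁ ++ p :: q :: l₂) (l₁ ++ q :: p :: l₂) := by
  classical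
  obtain ⟨P, hPp, hPq, hP⟩ := hbridge p q hp hq hadj
  have hpq : p ≠ q := fun h => hPq (h ▸ hPp)
  have h' : (l₁ ++ q :: p :: l₂).Nodup := by
    refine (List.Perm.nodup_iff ?_).1 h
    exact List.Perm.append_left _ (List.Perm.swap _ _ _)
  -- first the free letters
  have front : ∀ l : List V, l.Nodup → Eqv (G := G) l
      (l.filter (fun a => decide (free a)) ++ l.filter (fun a => decide (¬ free a))) := by
    intro l hl
    have e := Eqv.split hfree free l [] [] (by simpa using hl)
      (List.pairwise_of_forall_mem_list fun a _ b _ _ hb => Or.inr (Or.inr hb))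
    simpa using e
  obtain ⟨N, hN⟩ : ∃ N, N = (l₁ ++ p :: q :: l₂).filter (fun a => decide (free a)) := ⟨_, rfl⟩
  have hN' : N = (l₁ ++ q :: p :: l₂).filter (fun a => decide (free a)) := by
    rw [hN]; simp [List.filter_append, hp, hq]
  obtain ⟨S₁, hS₁⟩ : ∃ S, S = l₁.filter (fun a => decide (¬ free a)) := ⟨_, rfl⟩
  obtain ⟨S₂, hS₂⟩ : ∃ S, S = l₂.filter (fun a => decide (¬ free a)) := ⟨_, rfl⟩
  have hS : (l₁ ++ p :: q :: l₂).filter (fun a => decide (¬ free a)) = S₁ ++ p :: q :: S₂ := by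
    rw [hS₁, hS₂]; simp [List.filter_append, hp, hq]
  have hS' : (l₁ ++ q :: p :: l₂).filter (fun a => decide (¬ free a)) = S₁ ++ q :: p :: S₂ := by
    rw [hS₁, hS₂]; simp [List.filter_append, hp, hq]
  have hNf : ∀ x ∈ N, free x := by
    intro x hx
    rw [hN, List.mem_filter] at hx
    simpa using hx.2
  have hSf : ∀ x ∈ S₁ ++ p :: q :: S₂, ¬ free x := by
    intro x hx
    rw [← hS, List.mem_filter] at hx
    simpa using hx.2
  have e1 := front _ h
  have e2 := front _ h'
  rw [← hN, hS] at e1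
  rw [← hN', hS'] at e2
  have hnd : (N ++ (S₁ ++ p :: q :: S₂)).Nodup := by
    rw [hN, ← hS]
    refine (List.Perm.nodup_iff ?_).2 h
    simpa using List.filter_append_perm (fun a => decide (free a)) (l₁ ++ p :: q :: l₂)
  have hnd' : (N ++ (S₁ ++ q :: p :: S₂)).Nodup := by
    refine (List.Perm.nodup_iff ?_).1 hnd
    exact List.Perm.append_left _ (List.Perm.append_left _ (List.Perm.swap _ _ _))
  have hndS : (S₁ ++ p :: q :: S₂).Nodup := (List.nodup_append.1 hnd).2.1
  have hndS' : (S₁ ++ q :: p :: S₂).Nodup := (List.nodup_append.1 hnd').2.1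
  have m1 : p ∉ S₁ ∧ q ∉ S₁ := by
    rw [List.nodup_append] at hndS
    exact ⟨fun h => hndS.2.2 p h p List.mem_cons_self rfl,
      fun h => hndS.2.2 q h q (List.mem_cons_of_mem _ List.mem_cons_self) rfl⟩
  have m2 : p ∉ S₂ ∧ q ∉ S₂ := by
    rw [List.nodup_append, List.nodup_cons, List.nodup_cons] at hndS
    exact ⟨fun h => hndS.2.1.1 (List.mem_cons_of_mem _ h), hndS.2.1.2.1⟩
  have hSf' : ∀ x, x ∈ S₁ ∨ x ∈ S₂ → ¬ free x := by
    intro x hx
    apply hSf
    rcases hx with hx | hx
    · exact List.mem_append_left _ hx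
    · exact List.mem_append_right _ (List.mem_cons_of_mem _ (List.mem_cons_of_mem _ hx))
  -- the two pairwise conditions
  have pw1 : (S₁ ++ p :: q :: S₂).Pairwise fun a b => ¬ P a → P b → Sw G free a b := by
    rw [List.pairwise_append, List.pairwise_cons, List.pairwise_cons]
    have key : ∀ a b, ¬ free a → ¬ free b → (a ≠ q ∨ b ≠ p) → ¬ P a → P b → Sw G free a b := by
      intro a b ha hb hab hPa hPb
      left
      intro hadj'
      have := hP b a hb ha hPb hPa hadj'.symm
      rcases hab with h | h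
      · exact h this.2
      · exact h this.1
    refine ⟨List.pairwise_of_forall_mem_list fun a ha b hb => ?_, ⟨fun b _ hPp' => absurd hPp hPp',
      fun b hb => ?_, List.pairwise_of_forall_mem_list fun a ha b hb => ?_⟩, fun a ha b hb => ?_⟩
    · exact key a b (hSf' a (Or.inl ha)) (hSf' b (Or.inl hb)) (Or.inl fun h => m1.2 (h ▸ ha))
    · exact key q b hq (hSf' b (Or.inr hb)) (Or.inr fun h => m2.1 (h ▸ hb))
    · exact key a b (hSf' a (Or.inr ha)) (hSf' b (Or.inr hb)) (Or.inl fun h => m2.2 (h ▸ ha))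
    · exact key a b (hSf' a (Or.inl ha)) (hSf b (List.mem_append_right _ hb))
        (Or.inl fun h => m1.2 (h ▸ ha))
  have pw2 : (S₁ ++ q :: p :: S₂).Pairwise fun a b => ¬ ¬ P a → ¬ P b → Sw G free a b := by
    rw [List.pairwise_append, List.pairwise_cons, List.pairwise_cons]
    have key : ∀ a b, ¬ free a → ¬ free b → (a ≠ p ∨ b ≠ q) → ¬ ¬ P a → ¬ P b → Sw G free a b := by
      intro a b ha hb hab hPa hPb
      left
      intro hadj'
      have := hP a b ha hb (not_not.1 hPa) hPb hadj'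
      rcases hab with h | h
      · exact h this.1
      · exact h this.2
    refine ⟨List.pairwise_of_forall_mem_list fun a ha b hb => ?_, ⟨fun b _ hPq' => absurd hPq hPq',
      fun b hb => ?_, List.pairwise_of_forall_mem_list fun a ha b hb => ?_⟩, fun a ha b hb => ?_⟩
    · exact key a b (hSf' a (Or.inl ha)) (hSf' b (Or.inl hb)) (Or.inl fun h => m1.1 (h ▸ ha))
    · exact key p b hp (hSf' b (Or.inr hb)) (Or.inr fun h => m2.2 (h ▸ hb))
    · exact key a b (hSf' a (Or.inr ha)) (hSf' b (Or.inr hb)) (Or.inl fun h => m2.1 (h ▸ ha))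
    · refine key a b (hSf' a (Or.inl ha)) ?_ (Or.inl fun h => m1.1 (h ▸ ha))
      rcases List.mem_cons.1 hb with rfl | hb
      · exact hq
      · rcases List.mem_cons.1 hb with rfl | hb
        · exact hp
        · exact hSf' b (Or.inr hb)
  have e3 := Eqv.bridge_aux hfree P N _ hnd hNf pw1
  have e4 := Eqv.split hfree (fun a => ¬ P a) (S₁ ++ q :: p :: S₂) N []
    (by rw [List.append_nil]; exact hnd') pw2
  refine (e1.trans e3).trans ((e2.trans ?_).symm)
  rw [List.append_nil, List.append_nil] at e4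
  have e5 : (S₁ ++ q :: p :: S₂).filter (fun a => decide (¬ P a)) =
      (S₁ ++ p :: q :: S₂).filter (fun a => decide (¬ P a)) := by
    simp [List.filter_append, hPp, hPq]
  have e6 : (S₁ ++ q :: p :: S₂).filter (fun a => decide (¬ ¬ P a)) =
      (S₁ ++ p :: q :: S₂).filter (fun a => decide (P a)) := by
    simp [List.filter_append, hPp, hPq]
  rw [e5, e6] at e4
  rw [List.append_assoc N]
  exact e4

/-- **Any two words with the same letters are equivalent.** -/
theorem Eqv.of_perm {l l' : List V} (hp : l.Perm l') :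
    ∀ x : List V, (x ++ l).Nodup → Eqv (G := G) (x ++ l) (x ++ l') := by
  induction hp with
  | nil => intro x _; exact Eqv.refl _
  | cons a _ ih =>
    intro x hx
    have h1 := ih (x ++ [a]) (by simpa using hx)
    simpa using h1
  | swap a b l =>
    intro x hx
    by_cases hadj : G.Adj b a
    · by_cases hb : free b
      · exact Eqv.swap hfree hx (Or.inr (Or.inl hb))
      · by_cases ha : free a
        · exact Eqv.swap hfree hx (Or.inr (Or.inr ha))
        · exact Eqv.bridge hfree hbridge hx hb ha hadj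
    · exact Eqv.swap hfree hx (Or.inl hadj)
  | trans h1 _ ih1 ih2 =>
    intro x hx
    refine (ih1 x hx).trans (ih2 x ?_)
    exact ((List.Perm.append_left x h1).nodup_iff).1 hx

end words

end Pool.Agent.Q152.Toggle
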