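import Pool.Agent.Results.MP_188a10_nt.WeightedExceptional
import Pool.Agent.H692R2.USS.T1
import Pool.Agent.W125.EC.Tot
import Pool.Agent.Q152.Shifts

set_option autoImplicit false

/-! Primes in the residue classes `l + b i` modulo `d`, for typical `b i`. -/

namespace Pool.Agent.Q152.TypEH

open Finset
open Pool.Agent.H300R2.WEH (err errMax piR err_nonneg errMax_nonneg errMax_triv)
open Pool.Agent.Results.MP_188a10_nt.WeightedExceptional (EMax EOff EMax_eq nuD)
open Pool.Agent.Q152.Shifts (tup tup_mono tup_union markov)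

/-- a residue class contains few integers of an interval -/
lemma count_class (d H c : ℕ) (hd : 1 ≤ d) :
    ((Icc 1 H).filter (fun b => b % d = c)).card ≤ H / d + 1 := by
  rw [← card_range (H / d + 1)]
  apply card_le_card_of_injOn (fun b => b / d)
  · intro b hb
    rw [mem_coe, mem_filter, mem_Icc] at hb
    rw [mem_coe, mem_range]
    have := Nat.div_le_div_right (c := d) hb.1.2
    show b / d < H / d + 1
    omega
  · intro b hb b' hb' h
    rw [mem_coe, mem_filter] at hb hb'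
    have h' : b / d = b' / d := h
    rw [← Nat.div_add_mod b d, ← Nat.div_add_mod b' d, h', hb.2, hb'.2]

/-- the bad shifts -/
def Bad (d : ℕ) (X : Finset (ZMod d)ˣ) (l b : ℕ) : Prop :=
  ∃ u ∈ X, ((l + b : ℕ) : ZMod d) = (u : ZMod d)

open Classical in
lemma count_bad (d : ℕ) (hd : 1 ≤ d) (X : Finset (ZMod d)ˣ) (l H : ℕ) :
    ((Icc 1 H).filter (Bad d X l)).card ≤ X.card * (H / d + 1) := by
  have : NeZero d := ⟨by omega⟩
  refine le_trans (card_le_card ?_) (card_biUnion_le_card_mul X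
    (fun u => (Icc 1 H).filter (fun b => b % d = ((u : ZMod d) - (l : ZMod d)).val)) (H / d + 1)
    fun u _ => count_class d H _ hd)
  intro b hb
  rw [mem_filter] at hb
  obtain ⟨hb1, u, hu, h⟩ := hb
  rw [mem_biUnion]
  refine ⟨u, hu, mem_filter.2 ⟨hb1, ?_⟩⟩
  rw [← h, ← ZMod.val_natCast]
  congr 1
  push_cast
  ring

open Classical in
lemma tail (d : ℕ) (hd : 1 ≤ d) (X : Finset (ZMod d)ˣ) (l H r : ℕ) (hH : 1 ≤ H) {p s k : ℝ}
    (hp : (X.card : ℝ) * (1 / d + 1 / H) ≤ p) (hs : 0 ≤ s) :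
    tup (Icc 1 H) r (fun v => k ≤ ((univ.filter (fun i => Bad d X l (v i))).card : ℝ)) ≤
      Real.exp (-(s * k)) * Real.exp (Real.exp s * p * r) * (H : ℝ) ^ r := by
  obtain ⟨z, hz⟩ : ∃ z : ℝ, z = Real.exp s := ⟨_, rfl⟩
  have hz1 : 1 ≤ z := by rw [hz]; exact Real.one_le_exp hs
  have hd0 : (0 : ℝ) < d := by exact_mod_cast hd
  have hH0 : (0 : ℝ) < H := by exact_mod_cast hH
  have hp0 : 0 ≤ p := le_trans (by positivity) hp
  obtain ⟨g, hg⟩ : ∃ g : ℕ → ℝ, g = fun b => if Bad d X l b then z else 1 := ⟨_, rfl⟩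
  have hg0 : ∀ b, 0 ≤ g b := by
    intro b
    rw [hg]
    dsimp only
    split_ifs <;> linarith
  have hcard : ((Icc 1 H).card : ℝ) = H := by simp
  have hq : ∑ b ∈ Icc 1 H, g b ≤ (1 + z * p) * ((Icc 1 H).card : ℝ) := by
    have e1 : ∀ b ∈ Icc 1 H, g b ≤ 1 + (if Bad d X l b then z else 0) := by
      intro b _
      rw [hg]
      dsimp only
      split_ifs <;> linarith
    refine (sum_le_sum e1).trans ?_
    rw [sum_add_distrib, ← sum_filter, sum_const, sum_const, nsmul_eq_mul, nsmul_eq_mul, mul_one,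
      hcard]
    have e2 : (((Icc 1 H).filter (Bad d X l)).card : ℝ) ≤ p * H := by
      have e3 : (((Icc 1 H).filter (Bad d X l)).card : ℝ) ≤ (X.card * (H / d + 1) : ℕ) := by
        exact_mod_cast count_bad d hd X l H
      refine e3.trans ?_
      push_cast
      have e4 : ((H / d : ℕ) : ℝ) ≤ (H : ℝ) / d := Nat.cast_div_le
      calc (X.card : ℝ) * (((H / d : ℕ) : ℝ) + 1) ≤ X.card * ((H : ℝ) / d + 1) := by gcongr
        _ = (X.card : ℝ) * (1 / d + 1 / H) * H := by field_simp
        _ ≤ p * H := mul_le_mul_of_nonneg_right hp hH0.le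
    have e5 : (((Icc 1 H).filter (Bad d X l)).card : ℝ) * z ≤ p * H * z :=
      mul_le_mul_of_nonneg_right e2 (by linarith)
    linarith
  have h1 := markov (Ω := Icc 1 H) (r := r)
    (E := fun v => k ≤ ((univ.filter (fun i => Bad d X l (v i))).card : ℝ)) (g := g)
    (fun b _ => hg0 b) hq (T := Real.exp (-(s * k))) (Real.exp_pos _).le (by
      intro v _ hv
      have e1 : ∏ i, g (v i) = z ^ (univ.filter (fun i => Bad d X l (v i))).card := by
        rw [hg]
        dsimp only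
        rw [prod_ite, prod_const, prod_const_one, mul_one]
      rw [e1, hz, ← Real.exp_nat_mul, ← Real.exp_add]
      apply Real.one_le_exp
      have : s * k ≤ s * ((univ.filter (fun i => Bad d X l (v i))).card : ℝ) :=
        mul_le_mul_of_nonneg_left hv hs
      linarith)
  refine h1.trans ?_
  rw [hcard]
  have h2 : (1 + z * p) ^ r ≤ Real.exp (Real.exp s * p * r) := by
    have e1 : 1 + z * p ≤ Real.exp (z * p) := by
      have := Real.add_one_le_exp (z * p)
      linarith
    calc (1 + z * p) ^ r ≤ (Real.exp (z * p)) ^ r := pow_le_pow_left₀ (by positivity) e1 r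
      _ = _ := by
          rw [← Real.exp_nat_mul, hz]
          congr 1
          ring
  apply mul_le_mul_of_nonneg_right _ (by positivity)
  exact mul_le_mul_of_nonneg_left h2 (Real.exp_pos _).le

lemma err_mod (y : ℝ) (d l : ℕ) : err y d (l % d) = err y d l := by
  have h : piR y d (l % d) = piR y d l := by
    unfold piR
    congr 1
    apply filter_congr
    intro p _
    constructor
    · rintro ⟨h1, h2⟩
      exact ⟨h1, h2.trans (Nat.mod_modEq l d)⟩
    · rintro ⟨h1, h2⟩
      exact ⟨h1, h2.trans (Nat.mod_modEq l d).symm⟩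
  unfold err
  rw [h]

lemma err_triv (y : ℝ) (hy2 : 2 ≤ y) (d l : ℕ) (hd : 1 ≤ d) : err y d l ≤ 3 * y := by
  have h1 : 0 ≤ (∫ t in (2 : ℝ)..y, 1 / Real.log t) := by
    apply intervalIntegral.integral_nonneg hy2
    intro t ht
    have : 0 < Real.log t := Real.log_pos (by linarith [ht.1])
    positivity
  have h2 : (∫ t in (2 : ℝ)..y, 1 / Real.log t) ≤ 2 * y := by
    have h := intervalIntegral.norm_integral_le_of_norm_le_const (a := (2 : ℝ)) (b := y)
      (f := fun t => 1 / Real.log t) (C := 2) (by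
        intro t ht
        rw [Set.uIoc_of_le hy2] at ht
        have h3 : Real.log 2 ≤ Real.log t := Real.log_le_log (by norm_num) ht.1.le
        have := Real.log_two_gt_d9
        rw [Real.norm_eq_abs, abs_of_pos (by
          have : 0 < Real.log t := by linarith
          positivity), div_le_iff₀ (by linarith)]
        linarith)
    rw [Real.norm_eq_abs, abs_of_nonneg (by linarith : (0:ℝ) ≤ y - 2)] at h
    have := le_abs_self (∫ t in (2 : ℝ)..y, 1 / Real.log t)
    linarith
  have hφ : (1 : ℝ) ≤ Nat.totient d := by exact_mod_cast Nat.totient_pos.mpr (by omega)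
  have h3 : (piR y d l : ℝ) ≤ y := by
    have h4 : piR y d l ≤ ⌊y⌋₊ := by
      unfold piR
      refine (card_filter_le _ _).trans ?_
      simp
    exact (by exact_mod_cast h4 : (piR y d l : ℝ) ≤ ⌊y⌋₊).trans (Nat.floor_le (by linarith))
  have h5 : (∫ t in (2 : ℝ)..y, 1 / Real.log t) / (Nat.totient d : ℝ) ≤ 2 * y :=
    (div_le_self h1 hφ).trans h2
  have h6 : 0 ≤ (∫ t in (2 : ℝ)..y, 1 / Real.log t) / (Nat.totient d : ℝ) := by positivity
  have h7 : (0 : ℝ) ≤ (piR y d l : ℝ) := Nat.cast_nonneg _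
  unfold err
  rw [abs_le]
  constructor <;> linarith

lemma err_le_errMax (N d l : ℕ) (y : ℝ) (hd : 1 ≤ d) (h2 : 2 ≤ y) (hN : y ≤ N) :
    err y d l ≤ errMax N d l := by
  unfold errMax
  have hb : BddAbove (Set.range (fun y : Set.Icc (2 : ℝ) N => err y d l)) := by
    refine ⟨3 * N, ?_⟩
    rintro _ ⟨⟨y, hy⟩, rfl⟩
    refine (err_triv y hy.1 d l hd).trans ?_
    have := hy.2
    linarith
  exact le_ciSup hb (⟨y, h2, hN⟩ : Set.Icc (2 : ℝ) N)

/-- the value at a shift which is not bad -/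
lemma good_le (N d l b : ℕ) (X : Finset (ZMod d)ˣ) (y : ℝ) (hd : 1 ≤ d) (h2 : 2 ≤ y) (hN : y ≤ N)
    (hc : (l + b).Coprime d) (hb : ¬ Bad d X l b) : err y d (l + b) ≤ EOff N d X := by
  have : NeZero d := ⟨by omega⟩
  obtain ⟨u, hu⟩ : ∃ u : (ZMod d)ˣ, u = ZMod.unitOfCoprime (l + b) hc := ⟨_, rfl⟩
  have huv : (u : ZMod d) = ((l + b : ℕ) : ZMod d) := by
    rw [hu, ZMod.coe_unitOfCoprime]
  have hX : u ∉ X := fun h => hb ⟨u, h, huv.symm⟩
  have h1 : err y d (l + b) ≤ EMax N d u := by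
    rw [EMax_eq, huv, ZMod.val_natCast, ← err_mod]
    exact err_le_errMax N d _ y hd h2 hN
  refine h1.trans ?_
  unfold EOff
  exact le_ciSup (f := fun l : {l : (ZMod d)ˣ // l ∉ X} => EMax N d l)
    (Set.finite_range _).bddAbove ⟨u, hX⟩

lemma EOff_nonneg (N d : ℕ) (X : Finset (ZMod d)ˣ) : 0 ≤ EOff N d X := by
  unfold EOff
  apply Real.iSup_nonneg
  intro l
  unfold EMax
  exact Real.iSup_nonneg fun y => abs_nonneg _

open Classical in
/-- **The union bound.** -/
theorem gen (N D H r : ℕ) (X : (d : ℕ) → Finset (ZMod d)ˣ) (hH : 1 ≤ H) {p s k : ℝ} (M : ℕ → ℝ)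
    (hs : 0 ≤ s) (hp : ∀ d ∈ Icc 1 D, ((X d).card : ℝ) * (1 / d + 1 / H) ≤ p)
    (hM0 : ∀ d ∈ Icc 1 D, 0 ≤ M d)
    (hM : ∀ d ∈ Icc 1 D, ∀ l : ℕ, ∀ y : ℝ, l.Coprime d → 2 ≤ y → y ≤ N → err y d l ≤ M d) :
    tup (Icc 1 H) r (fun b => ¬ ∀ d ∈ Icc 1 D, ∀ l : ℕ, ∀ y : Fin r → ℝ,
      (∀ i, 2 ≤ y i ∧ y i ≤ N) → ∑ i, (if (l + b i).Coprime d then err (y i) d (l + b i) else 0) ≤
        r * EOff N d (X d) + k * M d) ≤
      (D : ℝ) ^ 2 * (Real.exp (-(s * k)) * Real.exp (Real.exp s * p * r) * (H : ℝ) ^ r) := by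
  obtain ⟨S, hS⟩ : ∃ S : Finset (ℕ × ℕ), S = (Icc 1 D) ×ˢ (range D) := ⟨_, rfl⟩
  have hScard : (S.card : ℝ) ≤ (D : ℝ) ^ 2 := by
    rw [hS, card_product, card_range, Nat.card_Icc, Nat.add_sub_cancel]
    push_cast
    rw [sq]
  have h1 : tup (Icc 1 H) r (fun b => ∃ q ∈ S,
      k ≤ ((univ.filter (fun i => Bad q.1 (X q.1) q.2 (b i))).card : ℝ)) ≤
      S.card * (Real.exp (-(s * k)) * Real.exp (Real.exp s * p * r) * (H : ℝ) ^ r) := by
    apply tup_union S
    intro q hq
    rw [hS, mem_product] at hq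
    have hd := (mem_Icc.1 hq.1).1
    exact tail q.1 hd (X q.1) q.2 H r hH (hp _ hq.1) hs
  refine le_trans (tup_mono ?_) (h1.trans (mul_le_mul_of_nonneg_right hScard (by positivity)))
  intro b _ hb
  by_contra hcon
  push Not at hcon
  apply hb
  intro d hd l y hy
  have hd1 := (mem_Icc.1 hd).1
  have hk := hcon (d, l % d) (by
    rw [hS, mem_product]
    refine ⟨hd, ?_⟩
    show l % d ∈ range D
    rw [mem_range]
    exact lt_of_lt_of_le (Nat.mod_lt _ (by omega)) (mem_Icc.1 hd).2)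
  have hbad : ∀ c, Bad d (X d) (l % d) c ↔ Bad d (X d) l c := by
    intro c
    unfold Bad
    have e : ((l % d + c : ℕ) : ZMod d) = ((l + c : ℕ) : ZMod d) := by
      rw [Nat.cast_add, Nat.cast_add, ZMod.natCast_mod]
    rw [e]
  have hk' : ((univ.filter (fun i => Bad d (X d) l (b i))).card : ℝ) ≤ k := by
    refine le_trans (le_of_eq ?_) hk.le
    congr 2
    apply filter_congr
    intro i _
    exact (hbad _).symm
  have h2 : ∀ i : Fin r, (if (l + b i).Coprime d then err (y i) d (l + b i) else 0) ≤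
      EOff N d (X d) + (if Bad d (X d) l (b i) then M d else 0) := by
    intro i
    have hE := EOff_nonneg N d (X d)
    have hMd := hM0 d hd
    by_cases hc : (l + b i).Coprime d
    · rw [if_pos hc]
      by_cases hB : Bad d (X d) l (b i)
      · rw [if_pos hB]
        have := hM d hd (l + b i) (y i) hc (hy i).1 (hy i).2
        linarith
      · rw [if_neg hB, add_zero]
        exact good_le N d l (b i) (X d) (y i) hd1 (hy i).1 (hy i).2 hc hB
    · rw [if_neg hc]
      split_ifs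
      · linarith
      · linarith
  refine (sum_le_sum fun i _ => h2 i).trans ?_
  rw [sum_add_distrib, sum_const, card_univ, Fintype.card_fin, nsmul_eq_mul, ← sum_filter,
    sum_const, nsmul_eq_mul]
  have h3 := mul_le_mul_of_nonneg_right hk' (hM0 d hd)
  linarith

end Pool.Agent.Q152.TypEH
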