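import Pool.Agent.Q152.TypEH

set_option autoImplicit false

/-! Primes in the residue classes `l + b i` for typical `b i`: the size of the individual errors. -/

namespace Pool.Agent.Q152.TypEH

open Finset
open Pool.Agent.H300R2.WEH (err errMax piR err_nonneg errMax_nonneg errMax_triv)

/-- Brun-Titchmarsh -/
lemma bt (ε : ℝ) (hε : 0 < ε) (N d l : ℕ) (hN : 2 ≤ N) (hd : 1 ≤ d)
    (hdN : (d : ℝ) ≤ (N : ℝ) ^ (1 - ε)) (y : ℝ) (hy : y ≤ N) :
    (piR y d l : ℝ) ≤ 66 / ε * (N / ((Nat.totient d : ℝ) * Real.log N)) := by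
  have hN2 : (2 : ℝ) ≤ N := by exact_mod_cast hN
  have hN0 : (0 : ℝ) < N := by linarith
  have hd0 : (0 : ℝ) < d := by exact_mod_cast hd
  have hφ : (0 : ℝ) < Nat.totient d := by exact_mod_cast Nat.totient_pos.mpr (by omega)
  have hlogN : 0 < Real.log N := Real.log_pos (by linarith)
  have hdN' : (d : ℝ) ≤ N := by
    refine hdN.trans ?_
    calc (N : ℝ) ^ (1 - ε) ≤ (N : ℝ) ^ (1 : ℝ) :=
          Real.rpow_le_rpow_of_exponent_le (by linarith) (by linarith)
      _ = N := Real.rpow_one _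
  obtain ⟨M, hM⟩ : ∃ M : ℕ, M = N / d + 2 := ⟨_, rfl⟩
  have h1 : (piR y d l : ℝ) ≤ (((range M).filter (fun k => (l % d + k * d).Prime)).card : ℝ) := by
    have : piR y d l ≤ ((range M).filter (fun k => (l % d + k * d).Prime)).card := by
      unfold piR
      apply card_le_card_of_injOn (fun p => p / d)
      · intro p hp
        rw [mem_coe, mem_filter, mem_Icc] at hp
        obtain ⟨⟨_, h2⟩, h3, h4⟩ := hp
        rw [mem_coe, mem_filter, mem_range]
        have h5 : p ≤ N := by
          have : ⌊y⌋₊ ≤ N := by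
            have := Nat.floor_le_floor hy
            rwa [Nat.floor_natCast] at this
          omega
        have h6 : p / d ≤ N / d := Nat.div_le_div_right h5
        refine ⟨by show p / d < M; omega, ?_⟩
        have h7 : p % d = l % d := h4
        show (l % d + p / d * d).Prime
        rw [← h7, mul_comm, Nat.mod_add_div]
        exact h3
      · intro p hp p' hp' h
        rw [mem_coe, mem_filter] at hp hp'
        have h2 : p % d = p' % d := hp.2.2.trans hp'.2.2.symm
        have h3 : p / d = p' / d := h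
        rw [← Nat.div_add_mod p d, ← Nat.div_add_mod p' d, h2, h3]
    exact_mod_cast this
  have h2 := Pool.Agent.H692R2.USS.t1_brun_titchmarsh (l % d) d M (by rw [hM]; exact Nat.le_add_left _ _) hd
  have hMle : (M : ℝ) ≤ 3 * (N / d) := by
    have e1 : ((N / d : ℕ) : ℝ) ≤ (N : ℝ) / d := Nat.cast_div_le
    have e2 : 1 ≤ (N : ℝ) / d := by
      rw [le_div_iff₀ hd0]
      linarith
    rw [hM]
    push_cast
    linarith
  have hMge : (N : ℝ) ^ ε ≤ M := by
    have e1 : (N : ℝ) / d ≤ M := by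
      rw [div_le_iff₀ hd0]
      have e2 : N ≤ M * d := by
        rw [hM]
        have e3 := Nat.div_add_mod N d
        have e4 := Nat.mod_lt N (show 0 < d by omega)
        have e5 : (N / d + 2) * d = d * (N / d) + 2 * d := by ring
        rw [e5]
        omega
      exact_mod_cast e2
    refine le_trans ?_ e1
    rw [le_div_iff₀ hd0]
    calc (N : ℝ) ^ ε * d ≤ (N : ℝ) ^ ε * (N : ℝ) ^ (1 - ε) := by gcongr
      _ = N := by
          rw [← Real.rpow_add hN0]
          simp
  have hlogM : ε * Real.log N ≤ Real.log M := by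
    rw [← Real.log_rpow hN0]
    exact Real.log_le_log (by positivity) hMge
  have hpos : 0 < ε * Real.log N := by positivity
  calc (piR y d l : ℝ) ≤ 22 * ((d : ℝ) / Nat.totient d) * M / Real.log M := h1.trans h2
    _ ≤ 22 * ((d : ℝ) / Nat.totient d) * (3 * (N / d)) / (ε * Real.log N) := by
        apply div_le_div₀ (by positivity) _ hpos hlogM
        exact mul_le_mul_of_nonneg_left hMle (by positivity)
    _ = 66 / ε * (N / ((Nat.totient d : ℝ) * Real.log N)) := by
        field_simp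
        ring

lemma int_le (a b : ℝ) (ha : 2 ≤ a) (hab : a ≤ b) :
    (∫ t in a..b, 1 / Real.log t) ≤ 1 / Real.log a * (b - a) := by
  have hla : 0 < Real.log a := Real.log_pos (by linarith)
  have h := intervalIntegral.norm_integral_le_of_norm_le_const (a := a) (b := b)
    (f := fun t => 1 / Real.log t) (C := 1 / Real.log a) (by
      intro t ht
      rw [Set.uIoc_of_le hab] at ht
      have h3 : Real.log a ≤ Real.log t := Real.log_le_log (by linarith) ht.1.le
      rw [Real.norm_eq_abs, abs_of_pos (by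
        have : 0 < Real.log t := by linarith
        positivity)]
      exact one_div_le_one_div_of_le hla h3)
  rw [Real.norm_eq_abs, abs_of_nonneg (by linarith : (0:ℝ) ≤ b - a)] at h
  exact (le_abs_self _).trans h

lemma intble (a b : ℝ) (ha : 2 ≤ a) (hb : 2 ≤ b) : IntervalIntegrable (fun t => 1 / Real.log t)
    MeasureTheory.volume a b := by
  apply ContinuousOn.intervalIntegrable
  intro t ht
  have ht2 : 2 ≤ t := (le_min ha hb).trans ht.1
  have hl : Real.log t ≠ 0 := (Real.log_pos (by linarith)).ne'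
  have h1 : ContinuousAt (fun t => 1 / Real.log t) t :=
    continuousAt_const.div (Real.continuousAt_log (by linarith)) hl
  exact h1.continuousWithinAt

lemma li_nonneg (y : ℝ) (hy : 2 ≤ y) : 0 ≤ ∫ t in (2 : ℝ)..y, 1 / Real.log t := by
  apply intervalIntegral.integral_nonneg hy
  intro t ht
  have : 0 < Real.log t := Real.log_pos (by linarith [ht.1])
  positivity

/-- the logarithmic integral -/
lemma li_le (N : ℕ) (hN : 4 ≤ N) (y : ℝ) (hy2 : 2 ≤ y) (hy : y ≤ N) :
    (∫ t in (2 : ℝ)..y, 1 / Real.log t) ≤ 10 * (N / Real.log N) := by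
  have hN4 : (4 : ℝ) ≤ N := by exact_mod_cast hN
  have hN0 : (0 : ℝ) < N := by linarith
  have hlog : 0 < Real.log N := Real.log_pos (by linarith)
  obtain ⟨s, hs⟩ : ∃ s : ℝ, s = Real.sqrt N := ⟨_, rfl⟩
  have hs2 : 2 ≤ s := by
    rw [hs]
    have : (2 : ℝ) = Real.sqrt 4 := by
      rw [show (4 : ℝ) = 2 ^ 2 by norm_num, Real.sqrt_sq (by norm_num)]
    rw [this]
    exact Real.sqrt_le_sqrt hN4
  have hss : s ^ 2 = N := by rw [hs]; exact Real.sq_sqrt hN0.le
  have hlogs : Real.log s = Real.log N / 2 := by rw [hs]; exact Real.log_sqrt hN0.le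
  have hl2 := Real.log_two_gt_d9
  -- `√N ≤ N / log N` up to a constant
  have hsN : s ≤ 2 * (N / Real.log N) := by
    rw [mul_div_assoc', le_div_iff₀ hlog]
    have h1 : Real.log N ≤ 2 * s := by
      have := Real.log_le_sub_one_of_pos (show 0 < s by linarith)
      rw [hlogs] at this
      linarith
    calc s * Real.log N ≤ s * (2 * s) := by gcongr
      _ = 2 * N := by rw [← hss]; ring
  have hbase : ∀ z : ℝ, 2 ≤ z → z ≤ s → (∫ t in (2 : ℝ)..z, 1 / Real.log t) ≤
      4 * (N / Real.log N) := by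
    intro z hz hzs
    have h1 := int_le 2 z le_rfl hz
    have h2 : 1 / Real.log 2 ≤ 2 := by
      rw [div_le_iff₀ (by linarith)]
      linarith
    have h3 : 1 / Real.log 2 * (z - 2) ≤ 2 * s :=
      mul_le_mul h2 (by linarith) (by linarith) (by norm_num)
    linarith
  rcases le_total y s with h | h
  · have := hbase y hy2 h
    have hpos : 0 ≤ (N : ℝ) / Real.log N := by positivity
    linarith
  · have e1 := intervalIntegral.integral_add_adjacent_intervals (intble 2 s le_rfl hs2)
      (intble s y hs2 hy2)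
    rw [← e1]
    have h1 := hbase s hs2 le_rfl
    have h2 := int_le s y hs2 h
    have h3 : 1 / Real.log s * (y - s) ≤ 2 * (N / Real.log N) := by
      rw [hlogs]
      calc 1 / (Real.log N / 2) * (y - s) ≤ 1 / (Real.log N / 2) * N := by
            apply mul_le_mul_of_nonneg_left _ (by positivity)
            linarith
        _ = 2 * (N / Real.log N) := by field_simp
    have hpos : 0 ≤ (N : ℝ) / Real.log N := by positivity
    linarith

/-- individual errors -/
lemma err_bt (ε : ℝ) (hε : 0 < ε) (N d l : ℕ) (hN : 4 ≤ N) (hd : 1 ≤ d)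
    (hdN : (d : ℝ) ≤ (N : ℝ) ^ (1 - ε)) (y : ℝ) (hy2 : 2 ≤ y) (hy : y ≤ N) :
    err y d l ≤ (66 / ε + 10) * (N / ((Nat.totient d : ℝ) * Real.log N)) := by
  have h1 := bt ε hε N d l (by omega) hd hdN y hy
  have h2 := li_le N hN y hy2 hy
  have h3 := li_nonneg y hy2
  have hφ : (0 : ℝ) < Nat.totient d := by exact_mod_cast Nat.totient_pos.mpr (by omega)
  have h4 : (∫ t in (2 : ℝ)..y, 1 / Real.log t) / (Nat.totient d : ℝ) ≤
      10 * (N / ((Nat.totient d : ℝ) * Real.log N)) := by
    rw [div_le_iff₀ hφ]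
    refine h2.trans (le_of_eq ?_)
    have hlog : 0 < Real.log N := Real.log_pos (by
      have : (4 : ℝ) ≤ N := by exact_mod_cast hN
      linarith)
    field_simp
  have h5 : (0 : ℝ) ≤ (piR y d l : ℝ) := Nat.cast_nonneg _
  have h6 : 0 ≤ (∫ t in (2 : ℝ)..y, 1 / Real.log t) / (Nat.totient d : ℝ) := by positivity
  unfold err
  rw [abs_le]
  constructor <;> linarith

lemma abel (a : ℕ → ℝ) (D : ℕ) : ∑ d ∈ Icc 1 D, a d / d =
    (∑ d ∈ Icc 1 D, a d) / (D + 1) + ∑ n ∈ Icc 1 D, (∑ d ∈ Icc 1 n, a d) / (n * (n + 1)) := by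
  induction D with
  | zero => simp
  | succ D ih =>
    rw [sum_Icc_succ_top (by omega), sum_Icc_succ_top (by omega : 1 ≤ D + 1) (f := fun n =>
      (∑ d ∈ Icc 1 n, a d) / ((n : ℝ) * (n + 1))), ih, sum_Icc_succ_top (by omega)]
    push_cast
    field_simp
    ring

/-- the sum of the reciprocals of Euler's function -/
lemma sum_inv_totient : ∃ C : ℝ, 1 ≤ C ∧ ∀ D : ℕ,
    ∑ d ∈ Icc 1 D, 1 / (Nat.totient d : ℝ) ≤ C * (2 + Real.log D) := by
  obtain ⟨C, hC1, hC⟩ := Pool.Agent.W125.EC.avg_le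
  refine ⟨C, hC1, fun D => ?_⟩
  have h1 : ∑ d ∈ Icc 1 D, 1 / (Nat.totient d : ℝ) =
      ∑ d ∈ Icc 1 D, ((d : ℝ) / Nat.totient d) / d := by
    apply sum_congr rfl
    intro d hd
    rw [mem_Icc] at hd
    have : (d : ℝ) ≠ 0 := by
      have : 0 < d := by omega
      exact_mod_cast this.ne'
    field_simp
  rw [h1, abel]
  have h2 : (∑ d ∈ Icc 1 D, (d : ℝ) / Nat.totient d) / (D + 1) ≤ C := by
    rw [div_le_iff₀ (by positivity)]
    refine (hC D).trans ?_
    nlinarith
  have h3 : ∑ n ∈ Icc 1 D, (∑ d ∈ Icc 1 n, (d : ℝ) / Nat.totient d) / ((n : ℝ) * (n + 1)) ≤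
      ∑ n ∈ Icc 1 D, C * (n : ℝ)⁻¹ := by
    apply sum_le_sum
    intro n hn
    rw [mem_Icc] at hn
    have hn0 : (0 : ℝ) < n := by exact_mod_cast hn.1
    rw [div_le_iff₀ (by positivity)]
    refine (hC n).trans ?_
    calc C * (n : ℝ) ≤ C * (n + 1) := by gcongr; linarith
      _ = C * (n : ℝ)⁻¹ * (n * (n + 1)) := by field_simp
  have h4 : ∑ n ∈ Icc 1 D, (n : ℝ)⁻¹ ≤ 1 + Real.log D := by
    have h5 := harmonic_le_one_add_log D
    rw [harmonic_eq_sum_Icc] at h5
    push_cast at h5
    exact h5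
  rw [← mul_sum] at h3
  have h5 : C * ∑ n ∈ Icc 1 D, (n : ℝ)⁻¹ ≤ C * (1 + Real.log D) :=
    mul_le_mul_of_nonneg_left h4 (by linarith)
  linarith

end Pool.Agent.Q152.TypEH
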