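import Pool.Agent.Q152.TypEHBound

set_option autoImplicit false

/-! Primes in the residue classes `l + b i` for typical `b i`: the main estimates. -/

namespace Pool.Agent.Q152.TypEH

open Finset Filter
open Pool.Agent.H300R2.WEH (err errMax piR err_nonneg errMax_nonneg errMax_triv)
open Pool.Agent.Results.MP_188a10_nt.WeightedExceptional (EMax EOff EMax_eq nuD)
open Pool.Agent.Q152.Shifts (tup tup_mono tup_union markov)

/-- the sum of the errors in the classes `l + b i` -/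
noncomputable def tot (r : ℕ) (b : Fin r → ℕ) (d l : ℕ) (y : Fin r → ℝ) : ℝ :=
  ∑ i, (if (l + b i).Coprime d then err (y i) d (l + b i) else 0)

lemma tot_nonneg (r : ℕ) (b : Fin r → ℕ) (d l : ℕ) (y : Fin r → ℝ) : 0 ≤ tot r b d l y := by
  unfold tot
  apply sum_nonneg
  intro i _
  split_ifs
  · exact err_nonneg _ _ _
  · exact le_rfl

/-- **Level `N ^ (1 - ε)`.** -/
theorem core1 (ε : ℝ) (hε : 0 < ε) (hε1 : ε < 1) (U : ℕ) : ∃ C : ℝ, 1 ≤ C ∧ ∃ N0 : ℕ, 4 ≤ N0 ∧
    ∀ N : ℕ, N0 ≤ N → ∃ η : ℕ → ℝ, (∀ d, 0 ≤ η d) ∧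
      ∑ d ∈ Icc 1 N, η d ≤ C * (N / Real.log N ^ U) ∧
      ∀ D : ℕ, (D : ℝ) ≤ (N : ℝ) ^ (1 - ε) → ∀ H : ℕ, 1 ≤ H →
        (D : ℝ) ^ 2 * (N : ℝ) ^ (ε - 1) ≤ H → ∀ r : ℕ,
        tup (Icc 1 H) r (fun b => ¬ ∀ d ∈ Icc 1 D, ∀ l : ℕ, ∀ y : Fin r → ℝ,
          (∀ i, 2 ≤ y i ∧ y i ≤ N) → tot r b d l y ≤ r * η d +
            C * (1 + r / Real.log N ^ U) * (N / ((Nat.totient d : ℝ) * Real.log N))) ≤
          (N : ℝ) ^ (-(U : ℝ)) * (H : ℝ) ^ r := by
  classical
  obtain ⟨B, C1, hWE⟩ := Pool.Agent.Results.MP_188a10_nt.WeightedExceptional.result 1 le_rfl U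
  obtain ⟨k0, hk0⟩ : ∃ k0 : ℝ, k0 = 2 * (U + 2) / ε := ⟨_, rfl⟩
  have hk00 : 0 < k0 := by rw [hk0]; positivity
  obtain ⟨C2, hC2⟩ : ∃ C2 : ℝ, C2 = 66 / ε + 10 := ⟨_, rfl⟩
  have hC20 : 0 < C2 := by rw [hC2]; positivity
  have ev : ∀ᶠ X : ℝ in atTop, (1 : ℝ) ≤ Real.log X ∧
      4 / ε * Real.log X ^ (B + U) ≤ X ^ (ε / 2) :=
    (Real.tendsto_log_atTop.eventually (eventually_ge_atTop 1)).and
      (Pool.Agent.H398R2.BV.ev_log (4 / ε) (B + U) (ε / 2) (by positivity))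
  have evN := tendsto_natCast_atTop_atTop (R := ℝ) |>.eventually ev
  obtain ⟨N1, hN1⟩ := eventually_atTop.1 evN
  refine ⟨max 1 (max C1 (C2 * (k0 + 1))), le_max_left _ _, max 4 N1, le_max_left _ _,
    fun N hN => ?_⟩
  have hCC1 : C1 ≤ max 1 (max C1 (C2 * (k0 + 1))) := (le_max_left _ _).trans (le_max_right _ _)
  have hCC2 : C2 * (k0 + 1) ≤ max 1 (max C1 (C2 * (k0 + 1))) :=
    (le_max_right _ _).trans (le_max_right _ _)
  generalize max 1 (max C1 (C2 * (k0 + 1))) = C at hCC1 hCC2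
  have hN4 : 4 ≤ N := (le_max_left _ _).trans hN
  obtain ⟨hΛ1, hbig⟩ := hN1 N ((le_max_right _ _).trans hN)
  obtain ⟨⟨X, hX, hXs⟩, -⟩ := hWE N (by omega)
  have hNr : (4 : ℝ) ≤ N := by exact_mod_cast hN4
  have hN0 : (0 : ℝ) < N := by linarith
  obtain ⟨Λ, hΛ⟩ : ∃ Λ : ℝ, Λ = Real.log N := ⟨_, rfl⟩
  rw [← hΛ] at hΛ1 hbig hX hXs ⊢
  have hΛ0 : 0 < Λ := by linarith
  refine ⟨fun d => EOff N d (X d), fun d => EOff_nonneg _ _ _, ?_, ?_⟩
  · have h1 : ∑ d ∈ Icc 1 N, EOff N d (X d) ≤ C1 * (N / Λ ^ U) := by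
      refine le_trans (le_of_eq ?_) hXs
      apply sum_congr rfl
      intro d _
      rw [one_pow, one_mul]
    refine h1.trans ?_
    exact mul_le_mul_of_nonneg_right hCC1 (by positivity)
  · intro D hD H hH hDH r
    have hH0 : (0 : ℝ) < H := by exact_mod_cast hH
    obtain ⟨p, hp⟩ : ∃ p : ℝ, p = 2 * Λ ^ B * (N : ℝ) ^ (-ε) := ⟨_, rfl⟩
    obtain ⟨s, hs⟩ : ∃ s : ℝ, s = ε / 2 * Λ := ⟨_, rfl⟩
    obtain ⟨k, hk⟩ : ∃ k : ℝ, k = k0 + r / Λ ^ U := ⟨_, rfl⟩
    have hD2 : (D : ℝ) ^ 2 / (N * H) ≤ (N : ℝ) ^ (-ε) := by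
      rw [div_le_iff₀ (by positivity)]
      have e1 : (N : ℝ) ^ (-ε) * (N * H) = (N : ℝ) ^ (1 - ε) * H := by
        have : (N : ℝ) ^ (1 - ε) = (N : ℝ) ^ (-ε) * N := by
          rw [← Real.rpow_add_one hN0.ne']
          congr 1
          ring
        rw [this]
        ring
      rw [e1]
      calc (D : ℝ) ^ 2 = (D : ℝ) ^ 2 * ((N : ℝ) ^ (ε - 1) * (N : ℝ) ^ (1 - ε)) := by
            rw [← Real.rpow_add hN0]
            simp
        _ = (N : ℝ) ^ (1 - ε) * ((D : ℝ) ^ 2 * (N : ℝ) ^ (ε - 1)) := by ring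
        _ ≤ (N : ℝ) ^ (1 - ε) * H := by gcongr
    have hgen := gen N D H r X hH (p := p) (s := s) (k := k)
      (fun d => C2 * (N / ((Nat.totient d : ℝ) * Λ))) (by rw [hs]; positivity) (by
        intro d hd
        rw [mem_Icc] at hd
        have hd0 : (0 : ℝ) < d := by exact_mod_cast hd.1
        have hdD : (d : ℝ) ≤ D := by exact_mod_cast hd.2
        have h1 := hX d hd.1
        calc ((X d).card : ℝ) * (1 / d + 1 / H)
            ≤ ((d : ℝ) ^ 2 * Λ ^ B / N) * (1 / d + 1 / H) := by gcongr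
          _ = Λ ^ B * (d / N) + Λ ^ B * (d ^ 2 / (N * H)) := by field_simp
          _ ≤ Λ ^ B * (N : ℝ) ^ (-ε) + Λ ^ B * (N : ℝ) ^ (-ε) := by
              apply add_le_add
              · apply mul_le_mul_of_nonneg_left _ (by positivity)
                rw [div_le_iff₀ hN0, ← Real.rpow_add_one hN0.ne']
                refine hdD.trans (hD.trans (le_of_eq ?_))
                congr 1
                ring
              · apply mul_le_mul_of_nonneg_left _ (by positivity)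
                refine le_trans ?_ hD2
                gcongr
          _ = p := by rw [hp]; ring)
      (fun d hd => by positivity)
      (by
        intro d hd l y _ hy2 hy
        rw [mem_Icc] at hd
        have hdD : (d : ℝ) ≤ D := by exact_mod_cast hd.2
        rw [hC2, hΛ]
        exact err_bt ε hε N d l hN4 hd.1 (hdD.trans hD) y hy2 hy)
    refine le_trans (tup_mono ?_) (hgen.trans ?_)
    · intro b _ hb hcon
      apply hb
      intro d hd l y hy
      refine (hcon d hd l y hy).trans ?_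
      have hφ : (0 : ℝ) < Nat.totient d := by
        exact_mod_cast Nat.totient_pos.mpr (by rw [mem_Icc] at hd; omega)
      have h1 : k * (C2 * (N / ((Nat.totient d : ℝ) * Λ))) ≤
          C * (1 + r / Λ ^ U) * (N / ((Nat.totient d : ℝ) * Λ)) := by
        rw [← mul_assoc]
        apply mul_le_mul_of_nonneg_right _ (by positivity)
        have h2 : 0 ≤ (r : ℝ) / Λ ^ U := by positivity
        calc k * C2 ≤ (C2 * (k0 + 1)) * (1 + r / Λ ^ U) := by
              rw [hk]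
              nlinarith [mul_nonneg hC20.le h2, mul_nonneg (mul_nonneg hC20.le hk00.le) h2]
          _ ≤ C * (1 + r / Λ ^ U) := by gcongr
      linarith
    · have hsum : -(s * k) + Real.exp s * p * r ≤ -((U + 2) * Λ) := by
        have e1 : Real.exp s = (N : ℝ) ^ (ε / 2) := by
          rw [Real.rpow_def_of_pos hN0, ← hΛ, hs, mul_comm]
        have e2 : Real.exp s * p = 2 * Λ ^ B * (N : ℝ) ^ (-(ε / 2)) := by
          rw [e1, hp]
          have : (N : ℝ) ^ (-(ε / 2)) = (N : ℝ) ^ (ε / 2) * (N : ℝ) ^ (-ε) := by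
            rw [← Real.rpow_add hN0]
            congr 1
            ring
          rw [this]
          ring
        have e3 : 2 * Λ ^ B * (N : ℝ) ^ (-(ε / 2)) ≤ ε / 2 * Λ / Λ ^ U := by
          rw [Real.rpow_neg hN0.le, ← div_eq_mul_inv, div_le_div_iff₀ (by positivity)
            (by positivity)]
          have e4 : 4 / ε * Λ ^ (B + U) ≤ (N : ℝ) ^ (ε / 2) * Λ :=
            hbig.trans (le_mul_of_one_le_right (by positivity) hΛ1)
          calc 2 * Λ ^ B * Λ ^ U = ε / 2 * (4 / ε * Λ ^ (B + U)) := by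
                rw [pow_add]
                field_simp
                ring
            _ ≤ ε / 2 * ((N : ℝ) ^ (ε / 2) * Λ) := by gcongr
            _ = ε / 2 * Λ * (N : ℝ) ^ (ε / 2) := by ring
        have e5 : Real.exp s * p * r ≤ ε / 2 * Λ / Λ ^ U * r := by
          rw [e2]
          exact mul_le_mul_of_nonneg_right e3 (Nat.cast_nonneg r)
        have e6 : s * k = (U + 2) * Λ + ε / 2 * Λ / Λ ^ U * r := by
          rw [hs, hk, hk0]
          field_simp
        linarith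
      have hexp : Real.exp (-(s * k)) * Real.exp (Real.exp s * p * r) ≤
          (N : ℝ) ^ (-((U : ℝ) + 2)) := by
        rw [← Real.exp_add, Real.rpow_def_of_pos hN0, ← hΛ]
        apply Real.exp_le_exp.2
        linarith
      have hDN : (D : ℝ) ^ 2 ≤ (N : ℝ) ^ 2 := by
        apply pow_le_pow_left₀ (Nat.cast_nonneg D)
        refine hD.trans ?_
        calc (N : ℝ) ^ (1 - ε) ≤ (N : ℝ) ^ (1 : ℝ) :=
              Real.rpow_le_rpow_of_exponent_le (by linarith) (by linarith)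
          _ = N := Real.rpow_one _
      calc (D : ℝ) ^ 2 * (Real.exp (-(s * k)) * Real.exp (Real.exp s * p * r) * (H : ℝ) ^ r)
          ≤ (N : ℝ) ^ 2 * ((N : ℝ) ^ (-((U : ℝ) + 2)) * (H : ℝ) ^ r) := by gcongr
        _ = (N : ℝ) ^ (-(U : ℝ)) * (H : ℝ) ^ r := by
            rw [← mul_assoc]
            congr 1
            rw [← Real.rpow_natCast, ← Real.rpow_add hN0]
            congr 1
            push_cast
            ring

/-- **Level `N / (log N) ^ B`.** -/
theorem core2 (U : ℕ) : ∃ (B : ℕ) (C : ℝ), 1 ≤ C ∧ ∃ N0 : ℕ, 4 ≤ N0 ∧ ∀ N : ℕ, N0 ≤ N →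
    ∀ D : ℕ, (D : ℝ) ≤ N / Real.log N ^ B → ∀ H : ℕ, 1 ≤ H →
      (D : ℝ) ^ 2 * Real.log N ^ B / N ≤ H → ∀ r : ℕ,
      tup (Icc 1 H) r (fun b => ¬ ∀ (l : ℕ → ℕ) (y : ℕ → Fin r → ℝ),
        (∀ d i, 2 ≤ y d i ∧ y d i ≤ N) → ∑ d ∈ Icc 1 D, tot r b d (l d) (y d) ≤
          C * N * (Real.log N ^ 2 + r / Real.log N ^ U)) ≤
        (N : ℝ) ^ (-(U : ℝ)) * (H : ℝ) ^ r := by
  classical
  obtain ⟨B, C1, hWE⟩ := Pool.Agent.Results.MP_188a10_nt.WeightedExceptional.result 1 le_rfl U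
  obtain ⟨C3, hC31, hC3⟩ := sum_inv_totient
  obtain ⟨C, hC⟩ : ∃ C : ℝ, C = max 1 (C1 + 6 * C3 * (U + 3)) := ⟨_, rfl⟩
  have hCa : 1 ≤ C := by rw [hC]; exact le_max_left _ _
  have hCb : C1 + 6 * C3 * (U + 3) ≤ C := by rw [hC]; exact le_max_right _ _
  have ev : ∀ᶠ X : ℝ in atTop, (3 : ℝ) ≤ Real.log X :=
    Real.tendsto_log_atTop.eventually (eventually_ge_atTop 3)
  have evN := tendsto_natCast_atTop_atTop (R := ℝ) |>.eventually ev
  obtain ⟨N1, hN1⟩ := eventually_atTop.1 evN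
  refine ⟨B + (U + 3), C, hCa, max 4 N1, le_max_left _ _, fun N hN D hD H hH hDH r => ?_⟩
  have hN4 : 4 ≤ N := (le_max_left _ _).trans hN
  have hΛ3 := hN1 N ((le_max_right _ _).trans hN)
  obtain ⟨⟨X, hX, hXs⟩, -⟩ := hWE N (by omega)
  have hNr : (4 : ℝ) ≤ N := by exact_mod_cast hN4
  have hN0 : (0 : ℝ) < N := by linarith
  obtain ⟨Λ, hΛ⟩ : ∃ Λ : ℝ, Λ = Real.log N := ⟨_, rfl⟩
  rw [← hΛ] at hΛ3 hX hXs hD hDH ⊢
  have hΛ0 : 0 < Λ := by linarith
  have hH0 : (0 : ℝ) < H := by exact_mod_cast hH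
  obtain ⟨p, hp⟩ : ∃ p : ℝ, p = 2 / Λ ^ (U + 3) := ⟨_, rfl⟩
  obtain ⟨k, hk⟩ : ∃ k : ℝ, k = (U + 2) * Λ + r / Λ ^ (U + 1) := ⟨_, rfl⟩
  have hDN : (D : ℝ) ≤ N := by
    refine hD.trans (div_le_self hN0.le ?_)
    exact one_le_pow₀ (by linarith)
  have hD2 : (D : ℝ) ^ 2 * Λ ^ B / (N * H) ≤ 1 / Λ ^ (U + 3) := by
    rw [div_le_div_iff₀ (by positivity) (by positivity), one_mul]
    rw [div_le_iff₀ hN0] at hDH
    calc (D : ℝ) ^ 2 * Λ ^ B * Λ ^ (U + 3) = (D : ℝ) ^ 2 * Λ ^ (B + (U + 3)) := by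
          rw [pow_add Λ B]; ring
      _ ≤ (H : ℝ) * N := hDH
      _ = (N : ℝ) * H := mul_comm _ _
  have hgen := gen N D H r X hH (p := p) (s := 1) (k := k)
    (fun d => 2 * N / (Nat.totient d : ℝ)) (by norm_num) (by
      intro d hd
      rw [mem_Icc] at hd
      have hd0 : (0 : ℝ) < d := by exact_mod_cast hd.1
      have hdD : (d : ℝ) ≤ D := by exact_mod_cast hd.2
      have h1 := hX d hd.1
      calc ((X d).card : ℝ) * (1 / d + 1 / H)
          ≤ ((d : ℝ) ^ 2 * Λ ^ B / N) * (1 / d + 1 / H) := by gcongr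
        _ = d * Λ ^ B / N + d ^ 2 * Λ ^ B / (N * H) := by field_simp
        _ ≤ 1 / Λ ^ (U + 3) + 1 / Λ ^ (U + 3) := by
            apply add_le_add
            · rw [div_le_div_iff₀ hN0 (by positivity), one_mul]
              have h2 := hdD.trans hD
              rw [le_div_iff₀ (by positivity)] at h2
              calc (d : ℝ) * Λ ^ B * Λ ^ (U + 3) = d * Λ ^ (B + (U + 3)) := by
                    rw [pow_add Λ B]; ring
                _ ≤ N := h2
            · refine le_trans ?_ hD2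
              gcongr
        _ = p := by rw [hp]; ring)
    (fun d hd => by positivity)
    (by
      intro d hd l y _ hy2 hy
      rw [mem_Icc] at hd
      have hdN : d ≤ N := by
        have : (d : ℝ) ≤ N := le_trans (by exact_mod_cast hd.2) hDN
        exact_mod_cast this
      exact (err_le_errMax N d l y hd.1 hy2 hy).trans (errMax_triv N d l (by omega) hd.1 hdN))
  refine le_trans (tup_mono ?_) (hgen.trans ?_)
  · intro b _ hb hcon
    apply hb
    intro l y hy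
    have h1 : ∑ d ∈ Icc 1 D, tot r b d (l d) (y d) ≤
        ∑ d ∈ Icc 1 D, (r * EOff N d (X d) + k * (2 * N / (Nat.totient d : ℝ))) :=
      sum_le_sum fun d hd => hcon d hd (l d) (y d) (hy d)
    refine h1.trans ?_
    rw [sum_add_distrib, ← mul_sum]
    have h2 : ∑ d ∈ Icc 1 D, EOff N d (X d) ≤ C1 * (N / Λ ^ U) := by
      refine le_trans ?_ hXs
      have h3 : ∀ d, (1 : ℝ) ^ nuD d * EOff N d (X d) = EOff N d (X d) := by
        intro d
        rw [one_pow, one_mul]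
      rw [sum_congr rfl fun d _ => h3 d]
      apply sum_le_sum_of_subset_of_nonneg
      · apply Icc_subset_Icc_right
        exact_mod_cast hDN
      · intro d _ _
        exact EOff_nonneg _ _ _
    have h3 : ∑ d ∈ Icc 1 D, k * (2 * N / (Nat.totient d : ℝ)) ≤
        2 * N * k * (C3 * (2 + Λ)) := by
      have e1 : ∀ d ∈ Icc 1 D, k * (2 * N / (Nat.totient d : ℝ)) =
          2 * N * k * (1 / (Nat.totient d : ℝ)) := by
        intro d _
        ring
      rw [sum_congr rfl e1, ← mul_sum]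
      have hk0 : 0 ≤ k := by rw [hk]; positivity
      apply mul_le_mul_of_nonneg_left _ (by positivity)
      refine (hC3 D).trans ?_
      rcases Nat.eq_zero_or_pos D with h0 | h0
      · rw [h0]
        simp only [Nat.cast_zero, Real.log_zero]
        nlinarith
      · have : Real.log D ≤ Λ := by
          rw [hΛ]
          exact Real.log_le_log (by exact_mod_cast h0) hDN
        gcongr
    have h4 : 2 * N * k * (C3 * (2 + Λ)) ≤
        6 * C3 * (U + 3) * N * (Λ ^ 2 + r / Λ ^ U) := by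
      have e1 : k * (2 + Λ) ≤ 3 * (U + 3) * (Λ ^ 2 + r / Λ ^ U) := by
        have e2 : k * (2 + Λ) ≤ k * (3 * Λ) := by
          have hk0 : 0 ≤ k := by rw [hk]; positivity
          apply mul_le_mul_of_nonneg_left _ hk0
          linarith
        refine e2.trans ?_
        have e3 : k * (3 * Λ) = 3 * ((U + 2) * Λ ^ 2 + r / Λ ^ U) := by
          rw [hk, pow_succ]
          field_simp
        rw [e3]
        have hU0 : (0 : ℝ) ≤ U := Nat.cast_nonneg U
        have e4 : 0 ≤ (r : ℝ) / Λ ^ U := by positivity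
        nlinarith [mul_nonneg hU0 e4, sq_nonneg Λ]
      calc 2 * N * k * (C3 * (2 + Λ)) = 2 * N * C3 * (k * (2 + Λ)) := by ring
        _ ≤ 2 * N * C3 * (3 * (U + 3) * (Λ ^ 2 + r / Λ ^ U)) := by
            apply mul_le_mul_of_nonneg_left e1 (by positivity)
        _ = _ := by ring
    have h5 : (r : ℝ) * ∑ d ∈ Icc 1 D, EOff N d (X d) ≤ r * (C1 * (N / Λ ^ U)) :=
      mul_le_mul_of_nonneg_left h2 (Nat.cast_nonneg r)
    have hC10 : 0 ≤ C1 * (N / Λ ^ U) := le_trans (sum_nonneg fun d _ => EOff_nonneg _ _ _) h2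
    have hC11 : 0 ≤ C1 := by
      by_contra hcon2
      push Not at hcon2
      have : 0 < (N : ℝ) / Λ ^ U := by positivity
      nlinarith
    have h6 : r * (C1 * (N / Λ ^ U)) ≤ C1 * N * (Λ ^ 2 + r / Λ ^ U) := by
      have e1 : (r : ℝ) * (C1 * (N / Λ ^ U)) = C1 * N * (r / Λ ^ U) := by ring
      rw [e1]
      apply mul_le_mul_of_nonneg_left _ (by positivity)
      have := sq_nonneg Λ
      linarith
    calc _ ≤ C1 * N * (Λ ^ 2 + r / Λ ^ U) + 6 * C3 * (U + 3) * N * (Λ ^ 2 + r / Λ ^ U) := by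
          linarith
      _ = (C1 + 6 * C3 * (U + 3)) * (N * (Λ ^ 2 + r / Λ ^ U)) := by ring
      _ ≤ C * (N * (Λ ^ 2 + r / Λ ^ U)) := by
          apply mul_le_mul_of_nonneg_right hCb (by positivity)
      _ = _ := by ring
  · have hexp : Real.exp (-(1 * k)) * Real.exp (Real.exp 1 * p * r) ≤
        (N : ℝ) ^ (-((U : ℝ) + 2)) := by
      rw [← Real.exp_add, Real.rpow_def_of_pos hN0, ← hΛ]
      apply Real.exp_le_exp.2
      have he : Real.exp 1 ≤ 3 := by
        have := Real.exp_one_lt_d9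
        linarith
      have e1 : Real.exp 1 * p * r ≤ r / Λ ^ (U + 1) := by
        have e2 : Real.exp 1 * p ≤ 1 / Λ ^ (U + 1) := by
          rw [hp, show U + 3 = (U + 1) + 2 by ring, pow_add, mul_div_assoc', div_le_div_iff₀
            (by positivity) (by positivity), one_mul]
          have e3 : Real.exp 1 * 2 ≤ Λ ^ 2 := by nlinarith
          have e4 : 0 < Λ ^ (U + 1) := by positivity
          calc Real.exp 1 * 2 * Λ ^ (U + 1) ≤ Λ ^ 2 * Λ ^ (U + 1) := by gcongr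
            _ = _ := by ring
        calc Real.exp 1 * p * r ≤ 1 / Λ ^ (U + 1) * r :=
              mul_le_mul_of_nonneg_right e2 (Nat.cast_nonneg r)
          _ = r / Λ ^ (U + 1) := by ring
      rw [hk]
      linarith
    have hDN2 : (D : ℝ) ^ 2 ≤ (N : ℝ) ^ 2 := pow_le_pow_left₀ (Nat.cast_nonneg D) hDN 2
    calc (D : ℝ) ^ 2 * (Real.exp (-(1 * k)) * Real.exp (Real.exp 1 * p * r) * (H : ℝ) ^ r)
        ≤ (N : ℝ) ^ 2 * ((N : ℝ) ^ (-((U : ℝ) + 2)) * (H : ℝ) ^ r) := by gcongr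
      _ = (N : ℝ) ^ (-(U : ℝ)) * (H : ℝ) ^ r := by
          rw [← mul_assoc]
          congr 1
          rw [← Real.rpow_natCast, ← Real.rpow_add hN0]
          congr 1
          push_cast
          ring

end Pool.Agent.Q152.TypEH
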